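import Mathlib

/-! # Groups of rank one with a torus of odd order (abstract) -/

namespace Pool.Agent.ThO2

/-- a group of rank one: `P` the upper unipotent subgroup, `T` the torus, `n` the element of the Weyl group (`n * n = 1`) -/
structure R1 {S : Type*} [Group S] (P T : Subgroup S) (n : S) : Prop where
  nn : n * n = 1
  nt : ∀ t ∈ T, n * t * n = t⁻¹
  tp : ∀ t ∈ T, ∀ p ∈ P, t * p * t⁻¹ ∈ P
  sq : ∀ t ∈ T, ∃ s ∈ T, s * s = t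
  r0 : ∀ p ∈ P, p ≠ 1 → ∃ p' ∈ P, ∃ t ∈ T, ∃ p'' ∈ P, n * p * n = p' * n * t * p''
  uniq : ∀ q ∈ P, ∀ t ∈ T, ∀ p ∈ P, n * q * n * t * p = 1 → q = 1 ∧ t = 1 ∧ p = 1
  fix : ∀ t ∈ T, t ≠ 1 → ∃ p ∈ P, t * p * t⁻¹ ≠ p
  ne : ∃ p ∈ P, p ≠ 1
  gen : Subgroup.closure ((P : Set S) ∪ {n}) = ⊤

variable {S : Type*} [Group S] {P T : Subgroup S} {n : S}

-- BEGIN aa
private theorem aa_P (h : R1 P T n) {p m : S} (hp : p ∈ P)
    (hm : (∃ t ∈ T, ∃ p ∈ P, m = t * p) ∨ ∃ p ∈ P, ∃ t ∈ T, ∃ p' ∈ P, m = p * n * t * p') :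
    (∃ t ∈ T, ∃ q ∈ P, p * m = t * q) ∨ ∃ q ∈ P, ∃ t ∈ T, ∃ q' ∈ P, p * m = q * n * t * q' := by
  rcases hm with ⟨t, ht, p1, hp1, rfl⟩ | ⟨p1, hp1, t, ht, p2, hp2, rfl⟩
  · left
    have h1 : t⁻¹ * p * t ∈ P := by
      have h2 := h.tp t⁻¹ (T.inv_mem ht) p hp
      rwa [inv_inv] at h2
    exact ⟨t, ht, t⁻¹ * p * t * p1, P.mul_mem h1 hp1, by group⟩
  · right
    exact ⟨p * p1, P.mul_mem hp hp1, t, ht, p2, hp2, by group⟩

private theorem aa_n (h : R1 P T n) {m : S}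
    (hm : (∃ t ∈ T, ∃ p ∈ P, m = t * p) ∨ ∃ p ∈ P, ∃ t ∈ T, ∃ p' ∈ P, m = p * n * t * p') :
    (∃ t ∈ T, ∃ q ∈ P, n * m = t * q) ∨ ∃ q ∈ P, ∃ t ∈ T, ∃ q' ∈ P, n * m = q * n * t * q' := by
  rcases hm with ⟨t, ht, p1, hp1, rfl⟩ | ⟨p1, hp1, t, ht, p2, hp2, rfl⟩
  · right
    exact ⟨1, P.one_mem, t, ht, p1, hp1, by group⟩
  · by_cases h1 : p1 = 1
    · left
      refine ⟨t, ht, p2, hp2, ?_⟩
      rw [h1, one_mul, ← mul_assoc, ← mul_assoc, h.nn, one_mul]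
    · right
      obtain ⟨q, hq, s, hs, q', hq', he⟩ := h.r0 p1 hp1 h1
      have h2 : t⁻¹ * q' * t ∈ P := by
        have h3 := h.tp t⁻¹ (T.inv_mem ht) q' hq'
        rwa [inv_inv] at h3
      refine ⟨q, hq, s * t, T.mul_mem hs ht, t⁻¹ * q' * t * p2, P.mul_mem h2 hp2, ?_⟩
      have h4 : n * (p1 * n * t * p2) = (n * p1 * n) * (t * p2) := by group
      rw [h4, he]
      group

/-- ROW aa. Bruhat decomposition. The set of these elements is stable under left multiplication by `p ∈ P` (`p * t = t * (t⁻¹ * p * t)`) and by `n`: `n * (t * p) = 1 * n * t * p`; `n * (p * n * t * p')`: `p = 1`: `= t * p'` (`nn`);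
`p ≠ 1`: `n * p * n = p₁ * n * t₁ * p₂` (`r0`), then `p₂ * t = t * (t⁻¹ * p₂ * t)`.  `Subgroup.closure_induction_left`. -/
theorem R1.bru (h : R1 P T n) (m : S) : (∃ t ∈ T, ∃ p ∈ P, m = t * p) ∨ ∃ p ∈ P, ∃ t ∈ T, ∃ p' ∈ P, m = p * n * t * p' := by
  have hm : m ∈ Subgroup.closure ((P : Set S) ∪ {n}) := by
    rw [h.gen]
    exact Subgroup.mem_top m
  have hn : n⁻¹ = n := inv_eq_of_mul_eq_one_left h.nn
  refine Subgroup.closure_induction_left (p := fun m _ => (∃ t ∈ T, ∃ p ∈ P, m = t * p) ∨ ∃ p ∈ P, ∃ t ∈ T, ∃ p' ∈ P, m = p * n * t * p')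
    ?_ ?_ ?_ hm
  · left
    exact ⟨1, T.one_mem, 1, P.one_mem, by group⟩
  · intro x hx y hy hQ
    rcases hx with hx | hx
    · exact aa_P h hx hQ
    · rw [Set.mem_singleton_iff] at hx
      subst hx
      exact aa_n h hQ
  · intro x hx y hy hQ
    rcases hx with hx | hx
    · exact aa_P h (P.inv_mem hx) hQ
    · rw [Set.mem_singleton_iff] at hx
      rw [hx, hn]
      exact aa_n h hQ
-- END aa

-- BEGIN ab
/-- ROW ab. Every torus element is the torus part of some `n * p * n`: take `p₀ ≠ 1` (`ne`), `n * p₀ * n = p₁ * n * t₁ * p₂`; for `s ∈ T`: `n * (s⁻¹ * p₀ * s) * n = s * (n * p₀ * n) * s⁻¹` (`nt`: `n * s⁻¹ = s * n`) `= (s * p₁ * s⁻¹) * s * n * t₁ * s⁻¹ * (s * p₂ * s⁻¹)`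
and `s * n = n * s⁻¹`, so the torus part is `s⁻¹ * t₁ * s⁻¹`; choose `s` with this `= t` (`T` need not be commutative: use `sq` for the equation `s⁻¹ * t₁ * s⁻¹ = t`, `(t₁ * s⁻¹) * (t₁ * s⁻¹) = t₁ * t`). -/
theorem R1.val (h : R1 P T n) {t : S} (ht : t ∈ T) : ∃ p ∈ P, ∃ p' ∈ P, ∃ p'' ∈ P, n * p * n = p' * n * t * p'' := by
  obtain ⟨p₀, hp₀, h1⟩ := h.ne
  obtain ⟨p₁, hp₁, t₁, ht₁, p₂, hp₂, e0⟩ := h.r0 p₀ hp₀ h1
  obtain ⟨u, hu, hu2⟩ := h.sq (t₁ * t) (T.mul_mem ht₁ ht)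
  have hr : t₁⁻¹ * u ∈ T := T.mul_mem (T.inv_mem ht₁) hu
  have hs : (t₁⁻¹ * u)⁻¹ ∈ T := T.inv_mem hr
  generalize hrr : t₁⁻¹ * u = r at hr hs
  have k1 : r * t₁ * r = t := by
    rw [← hrr]
    calc t₁⁻¹ * u * t₁ * (t₁⁻¹ * u) = t₁⁻¹ * (u * u) := by group
      _ = t := by rw [hu2]; group
  have k2 : n * r * n = r⁻¹ := h.nt r hr
  have k3 : n * r⁻¹ * n = r := by
    have := h.nt _ hs
    rwa [inv_inv] at this
  have hn : n⁻¹ = n := inv_eq_of_mul_eq_one_left h.nn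
  have k4 : r⁻¹ * n = n * r := by
    rw [← k2, mul_assoc, h.nn, mul_one]
  refine ⟨r * p₀ * r⁻¹, h.tp r hr p₀ hp₀, r⁻¹ * p₁ * r, ?_, r⁻¹ * p₂ * r, ?_, ?_⟩
  · have := h.tp _ hs p₁ hp₁
    rwa [inv_inv] at this
  · have := h.tp _ hs p₂ hp₂
    rwa [inv_inv] at this
  · calc n * (r * p₀ * r⁻¹) * n = (n * r * n) * (n * p₀ * n) * (n * r⁻¹ * n) := by
          have e1 : ∀ x y z : S, (n * x * n) * (n * y * n) * (n * z * n) = n * x * (n * n) * y * (n * n) * z * n := by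
            intro x y z; group
          rw [e1, h.nn]; group
      _ = r⁻¹ * (p₁ * n * t₁ * p₂) * r := by rw [k2, k3, e0]
      _ = (r⁻¹ * p₁ * r) * (r⁻¹ * n) * t₁ * p₂ * r := by group
      _ = (r⁻¹ * p₁ * r) * n * (r * t₁ * r) * (r⁻¹ * p₂ * r) := by rw [k4]; group
      _ = (r⁻¹ * p₁ * r) * n * t * (r⁻¹ * p₂ * r) := by rw [k1]
-- END ab

-- BEGIN ac
private theorem ac_sn (h : R1 P T n) {s : S} (hs : s ∈ T) : s * n = n * s⁻¹ := by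
  rw [← h.nt s hs, ← mul_assoc, ← mul_assoc, h.nn, one_mul]

private theorem ac_A (h : R1 P T n) {p t p' : S} (hp : p ∈ P) (ht : t ∈ T) (hp' : p' ∈ P) : ∃ y : S, ∃ q ∈ P, y * (p * n * t * p') * y⁻¹ = n * q := by
  obtain ⟨s, hs, rfl⟩ := h.sq t ht
  refine ⟨s * p⁻¹, s * (p' * p) * s⁻¹, h.tp s hs _ (P.mul_mem hp' hp), ?_⟩
  have h1 := ac_sn h hs
  calc s * p⁻¹ * (p * n * (s * s) * p') * (s * p⁻¹)⁻¹ = (s * n) * (s * s) * p' * p * s⁻¹ := by group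
    _ = n * s⁻¹ * (s * s) * p' * p * s⁻¹ := by rw [h1]
    _ = n * (s * (p' * p) * s⁻¹) := by group

private theorem ac_B (h : R1 P T n) {t p : S} (ht : t ∈ T) (hp : p ∈ P) (h1 : p ≠ 1) : ∃ y : S, ∃ q ∈ P, y * (t * p) * y⁻¹ = n * q := by
  obtain ⟨p1, hp1, t1, ht1, p2, hp2, e⟩ := h.r0 p hp h1
  have ht' : t⁻¹ * p1 * t⁻¹⁻¹ ∈ P := h.tp t⁻¹ (T.inv_mem ht) p1 hp1
  rw [inv_inv] at ht'
  obtain ⟨y, q, hq, e2⟩ := ac_A h ht' (T.mul_mem ht ht1) hp2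
  refine ⟨y * n, q, hq, ?_⟩
  have e3 : t⁻¹ * n = n * t := by
    have := ac_sn h (T.inv_mem ht)
    rwa [inv_inv] at this
  have hn : n⁻¹ = n := inv_eq_of_mul_eq_one_right h.nn
  have e4 : n * (t * p) * n = t⁻¹ * p1 * t * n * (t * t1) * p2 := by
    calc n * (t * p) * n = n * t * (n * n) * p * n := by rw [h.nn]; group
      _ = (n * t * n) * (n * p * n) := by group
      _ = t⁻¹ * (p1 * n * t1 * p2) := by rw [h.nt t ht, e]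
      _ = t⁻¹ * p1 * t * (t⁻¹ * n) * t1 * p2 := by group
      _ = t⁻¹ * p1 * t * (n * t) * t1 * p2 := by rw [e3]
      _ = _ := by group
  rw [← e2, ← e4, mul_inv_rev, hn]
  group

/-- ROW ac. Every `m ≠ 1` is conjugate to `n * p`.  (1) `m = p * n * t * p'`: conjugate with `p⁻¹`: `n * t * q`, `q = p' * p`; `s * s = t` (`sq`): `s * (n * t * q) * s⁻¹ = n * s⁻¹ * t * q * s⁻¹ = n * (s * q * s⁻¹)` (`s⁻¹ * t = s`).
(2) `m = t * p`, `p ≠ 1`: conjugate with `n`: `n * t * p * n = t⁻¹ * (n * p * n)` and `r0`: case (1).  (3) `m = t ≠ 1`: `p₀` from `fix`; `p₀ * t * p₀⁻¹ = t * (t⁻¹ * p₀ * t * p₀⁻¹)`, the factor in brackets is in `P` and `≠ 1`: case (2). -/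
theorem R1.conj_n (h : R1 P T n) {m : S} (hm : m ≠ 1) : ∃ y : S, ∃ p ∈ P, y * m * y⁻¹ = n * p := by
  rcases h.bru m with ⟨t, ht, p, hp, rfl⟩ | ⟨p, hp, t, ht, p', hp', rfl⟩
  · by_cases h1 : p = 1
    · subst h1
      have ht1 : t ≠ 1 := by
        rintro rfl
        exact hm (mul_one _)
      obtain ⟨p0, hp0, e⟩ := h.fix t ht ht1
      have hr : t⁻¹ * p0 * t⁻¹⁻¹ ∈ P := h.tp t⁻¹ (T.inv_mem ht) p0 hp0
      rw [inv_inv] at hr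
      have hr1 : t⁻¹ * p0 * t * p0⁻¹ ≠ 1 := by
        intro e1
        have e2 : t⁻¹ * p0 * t = p0 := mul_inv_eq_one.1 e1
        apply e
        calc t * p0 * t⁻¹ = t * (t⁻¹ * p0 * t) * t⁻¹ := by rw [e2]
          _ = p0 := by group
      obtain ⟨y, q, hq, e2⟩ := ac_B h ht (P.mul_mem hr (P.inv_mem hp0)) hr1
      refine ⟨y * p0, q, hq, ?_⟩
      rw [← e2]
      group
    · exact ac_B h ht hp h1
  · exact ac_A h hp ht hp'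
-- END ac

-- BEGIN ad
/-- ROW ad. The torus part can be prescribed.  `y * m * y⁻¹ = n * p` (`conj_n`); `p₀` with `n * p₀ * n = p' * n * t * p''` (`val`): `p₀ * (n * p) * p₀⁻¹ = n * (n * p₀ * n) * (p * p₀⁻¹) = n * p' * n * t * (p'' * p * p₀⁻¹)`. -/
theorem R1.move (h : R1 P T n) {m : S} (hm : m ≠ 1) {t : S} (ht : t ∈ T) : ∃ y : S, ∃ q ∈ P, ∃ p ∈ P, y * m * y⁻¹ = n * q * n * t * p := by
  obtain ⟨y, p, hp, e1⟩ := h.conj_n hm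
  obtain ⟨p₀, hp₀, p', hp', p'', hp'', e2⟩ := h.val ht
  refine ⟨p₀ * y, p', hp', p'' * p * p₀⁻¹, P.mul_mem (P.mul_mem hp'' hp) (P.inv_mem hp₀), ?_⟩
  have e3 : p₀ * y * m * (p₀ * y)⁻¹ = p₀ * (y * m * y⁻¹) * p₀⁻¹ := by group
  have e4 : n * p' * n * t * (p'' * p * p₀⁻¹) = n * (p' * n * t * p'') * p * p₀⁻¹ := by group
  have e5 : n * (n * p₀ * n) = n * n * p₀ * n := by group
  rw [e3, e1, e4, ← e2, e5, h.nn, one_mul]
  group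
-- END ad

-- BEGIN ae
/-- ROW ae. `bru`: `t * p = 1 * (n * 1 * n) * t * p`; `p * n * t * p'`: `val` with `t`: `n * p₀ * n = p₁ * n * t * p₂`, so `n * t = p₁⁻¹ * (n * p₀ * n) * p₂⁻¹` and `p * n * t * p' = (p * p₁⁻¹) * (n * p₀ * n) * 1 * (p₂⁻¹ * p')`. -/
theorem R1.big (h : R1 P T n) (m : S) : ∃ p₁ ∈ P, ∃ q ∈ P, ∃ t ∈ T, ∃ p₂ ∈ P, m = p₁ * (n * q * n) * t * p₂ := by
  rcases h.bru m with ⟨t, ht, p, hp, rfl⟩ | ⟨p, hp, t, ht, p', hp', rfl⟩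
  · refine ⟨1, P.one_mem, 1, P.one_mem, t, ht, p, hp, ?_⟩
    rw [one_mul, mul_one, h.nn, one_mul]
  · obtain ⟨p0, hp0, p1, hp1, p2, hp2, e⟩ := h.val ht
    refine ⟨p * p1⁻¹, P.mul_mem hp (P.inv_mem hp1), p0, hp0, 1, T.one_mem, p2⁻¹ * p', P.mul_mem (P.inv_mem hp2) hp', ?_⟩
    rw [e]
    group
-- END ae

end Pool.Agent.ThO2
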