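import Pool.Agent.ThO2.Ab1

/-! # Two nodes of rank one: the big cell, prescribed torus part (abstract) -/

namespace Pool.Agent.ThO2

/-- a node: the rank one group `S` is mapped by `th` to `G`; `H` the torus, `U`, `V` the unipotent subgroups, `Ui`, `Vi` the radicals of the parabolic subgroups of the node, `Z` the part of `H` that commutes with the image of `S` -/
structure Nd {S : Type*} [Group S] {G : Type*} [Group G] (P T : Subgroup S) (n : S) (th : S →* G) (H U V Z Ui Vi : Subgroup G) : Prop where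
  r1 : R1 P T n
  nU : ∀ s, ∀ u ∈ Ui, th s * u * (th s)⁻¹ ∈ Ui
  nV : ∀ s, ∀ v ∈ Vi, th s * v * (th s)⁻¹ ∈ Vi
  hU : ∀ h ∈ H, ∀ u ∈ Ui, h * u * h⁻¹ ∈ Ui
  hV : ∀ h ∈ H, ∀ v ∈ Vi, h * v * h⁻¹ ∈ Vi
  UiU : Ui ≤ U
  ViV : Vi ≤ V
  pU : ∀ p ∈ P, th p ∈ U
  qV : ∀ p ∈ P, th (n * p * n) ∈ V
  sU : ∀ u ∈ U, ∃ p ∈ P, ∃ u' ∈ Ui, u = th p * u'
  sV : ∀ v ∈ V, ∃ p ∈ P, ∃ v' ∈ Vi, v = th (n * p * n) * v'
  TH : ∀ t ∈ T, th t ∈ H
  ZH : Z ≤ H
  Zc : ∀ z ∈ Z, ∀ s, z * th s = th s * z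
  HTZ : ∀ h ∈ H, ∃ t ∈ T, ∃ z ∈ Z, h = th t * z
  Hc : ∀ a ∈ H, ∀ b ∈ H, a * b = b * a

/-- `g = v * (element ≠ 1 of the node) * z * u` -/
def NS {S : Type*} [Group S] {G : Type*} [Group G] (th : S →* G) (Ui Vi : Subgroup G) (g z : G) : Prop :=
  ∃ v ∈ Vi, ∃ m : S, m ≠ 1 ∧ ∃ u ∈ Ui, g = v * th m * z * u

/-- `g` is in `U V H U` -/
def Big {G : Type*} [Group G] (H U V : Subgroup G) (g : G) : Prop := ∃ u₁ ∈ U, ∃ v ∈ V, ∃ h ∈ H, ∃ u₂ ∈ U, g = u₁ * v * h * u₂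

variable {S : Type*} [Group S] {G : Type*} [Group G] {P T : Subgroup S} {n : S} {th : S →* G} {H U V Z Ui Vi : Subgroup G}

-- BEGIN ba
/-- ROW ba. `H` normalizes `U`: `u = th p * u'` (`sU`), `h = th t * z` (`HTZ`), `h * th p * h⁻¹ = th (t * p * t⁻¹)` (`Zc`, `R1.tp`), `hU`, `UiU`, `pU`. -/
theorem Nd.hUU (D : Nd P T n th H U V Z Ui Vi) {h : G} (hh : h ∈ H) {u : G} (hu : u ∈ U) : h * u * h⁻¹ ∈ U := by
  obtain ⟨p, hp, u', hu', rfl⟩ := D.sU u hu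
  obtain ⟨t, ht, z, hz, e⟩ := D.HTZ h hh
  have e1 : h * th p * h⁻¹ = th (t * p * t⁻¹) := by
    have e2 : z * th p * z⁻¹ = th p := by rw [D.Zc z hz p, mul_inv_cancel_right]
    calc h * th p * h⁻¹ = th t * (z * th p * z⁻¹) * (th t)⁻¹ := by rw [e]; group
      _ = th (t * p * t⁻¹) := by rw [e2, map_mul, map_mul, map_inv]
  have e3 : h * (th p * u') * h⁻¹ = (h * th p * h⁻¹) * (h * u' * h⁻¹) := by group
  rw [e3, e1]
  exact U.mul_mem (D.pU _ (D.r1.tp t ht p hp)) (D.UiU (D.hU h hh u' hu'))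

/-- the same for `V`: `t * (n * p * n) * t⁻¹ = n * (t⁻¹ * p * t) * n` (`nt`, `nn`) -/
theorem Nd.hVV (D : Nd P T n th H U V Z Ui Vi) {h : G} (hh : h ∈ H) {v : G} (hv : v ∈ V) : h * v * h⁻¹ ∈ V := by
  obtain ⟨p, hp, v', hv', rfl⟩ := D.sV v hv
  obtain ⟨t, ht, z, hz, e⟩ := D.HTZ h hh
  have e1 : h * th (n * p * n) * h⁻¹ = th (n * (t⁻¹ * p * t) * n) := by
    have e2 : z * th (n * p * n) * z⁻¹ = th (n * p * n) := by rw [D.Zc z hz (n * p * n), mul_inv_cancel_right]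
    have e4 : t * n = n * t⁻¹ := by
      calc t * n = (n * n) * t * n := by rw [D.r1.nn, one_mul]
        _ = n * (n * t * n) := by group
        _ = n * t⁻¹ := by rw [D.r1.nt t ht]
    have e5 : t * (n * p * n) * t⁻¹ = n * (t⁻¹ * p * t) * n := by
      calc t * (n * p * n) * t⁻¹ = (t * n) * p * (n * t⁻¹) := by group
        _ = (n * t⁻¹) * p * (t * n) := by rw [e4]
        _ = n * (t⁻¹ * p * t) * n := by group
    calc h * th (n * p * n) * h⁻¹ = th t * (z * th (n * p * n) * z⁻¹) * (th t)⁻¹ := by rw [e]; group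
      _ = th (n * (t⁻¹ * p * t) * n) := by rw [e2, ← e5, map_mul th (t * (n * p * n)) t⁻¹, map_mul th t (n * p * n), map_inv]
  have e3 : h * (th (n * p * n) * v') * h⁻¹ = (h * th (n * p * n) * h⁻¹) * (h * v' * h⁻¹) := by group
  rw [e3, e1]
  have hq : t⁻¹ * p * t ∈ P := by
    have := D.r1.tp t⁻¹ (T.inv_mem ht) p hp
    rwa [inv_inv] at this
  exact V.mul_mem (D.qV _ hq) (D.ViV (D.hV h hh v' hv'))
-- END ba

-- BEGIN bb
private theorem bb_q (D : Nd P T n th H U V Z Ui Vi) {p : S} (hp : p ∈ P) {g : G} (hg : Big H U V g) : Big H U V (th (n * p * n) * g) := by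
  obtain ⟨u₁, hu₁, v, hv, h, hh, u₂, hu₂, rfl⟩ := hg
  obtain ⟨a, ha, u', hu', rfl⟩ := D.sU u₁ hu₁
  obtain ⟨b, hb, v', hv', rfl⟩ := D.sV v hv
  obtain ⟨p₁, hp₁, q, hq, t, ht, p₂, hp₂, he⟩ := D.r1.big (n * p * n * a * (n * b * n))
  have he' : th (n * p * n) * th a * th (n * b * n) = th p₁ * th (n * q * n) * th t * th p₂ := by
    rw [← map_mul, ← map_mul, he, map_mul, map_mul, map_mul]
  have h1 : (th (n * p * n) * th a) * u' * (th (n * p * n) * th a)⁻¹ ∈ Ui := by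
    rw [← map_mul]
    exact D.nU _ u' hu'
  have h2 : (th t * th p₂) * v' * (th t * th p₂)⁻¹ ∈ Vi := by
    rw [← map_mul]
    exact D.nV _ v' hv'
  have h3 : h⁻¹ * th p₂ * h ∈ U := by
    have h4 := D.hUU (H.inv_mem hh) (D.pU p₂ hp₂)
    rwa [inv_inv] at h4
  refine ⟨((th (n * p * n) * th a) * u' * (th (n * p * n) * th a)⁻¹) * th p₁, U.mul_mem (D.UiU h1) (D.pU p₁ hp₁),
    th (n * q * n) * ((th t * th p₂) * v' * (th t * th p₂)⁻¹), V.mul_mem (D.qV q hq) (D.ViV h2),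
    th t * h, H.mul_mem (D.TH t ht) hh, (h⁻¹ * th p₂ * h) * u₂, U.mul_mem h3 hu₂, ?_⟩
  calc th (n * p * n) * (th a * u' * (th (n * b * n) * v') * h * u₂)
      = ((th (n * p * n) * th a) * u' * (th (n * p * n) * th a)⁻¹) * (th (n * p * n) * th a * th (n * b * n)) * v' * h * u₂ := by group
    _ = ((th (n * p * n) * th a) * u' * (th (n * p * n) * th a)⁻¹) * (th p₁ * th (n * q * n) * th t * th p₂) * v' * h * u₂ := by rw [he']
    _ = _ := by group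

/-- ROW bb. Left multiplication with `th (n * p * n)`: `u₁ = th a * u'` (`sU`), `v = th (n * b * n) * v'` (`sV`); `th (n p n) * th a * u' * th (n b n) * v' * h * u₂ = u'' * th (n p n * a * n b n) * v' * h * u₂` with `u'' = (th (n p n) * th a) u' (..)⁻¹ ∈ Ui` (`nU`);
`n p n * a * n b n = p₁ * (n * q * n) * t * p₂` (`R1.big`); `th (t * p₂) * v' = v'' * th (t * p₂)` (`nV`); `th (t * p₂) * h = (th t * h) * (h⁻¹ * th p₂ * h)` and `h⁻¹ * th p₂ * h ∈ U` (`hUU`).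
For `s` arbitrary: `s = p₁ * (n * q * n) * t * p₂` (`R1.big`), four steps: `th p * (u₁ v h u₂)` (`pU`), `th t * (u₁ v h u₂) = (th t u₁ (th t)⁻¹) (th t v (th t)⁻¹) (th t * h) u₂` (`hUU`, `hVV`). -/
theorem Nd.big_step (D : Nd P T n th H U V Z Ui Vi) (s : S) {g : G} (hg : Big H U V g) : Big H U V (th s * g) := by
  have kP : ∀ p ∈ P, ∀ g, Big H U V g → Big H U V (th p * g) := by
    rintro p hp g ⟨u₁, hu₁, v, hv, h, hh, u₂, hu₂, rfl⟩
    exact ⟨th p * u₁, U.mul_mem (D.pU p hp) hu₁, v, hv, h, hh, u₂, hu₂, by simp only [mul_assoc]⟩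
  have kT : ∀ t ∈ T, ∀ g, Big H U V g → Big H U V (th t * g) := by
    rintro t ht g ⟨u₁, hu₁, v, hv, h, hh, u₂, hu₂, rfl⟩
    exact ⟨th t * u₁ * (th t)⁻¹, D.hUU (D.TH t ht) hu₁, th t * v * (th t)⁻¹, D.hVV (D.TH t ht) hv,
      th t * h, H.mul_mem (D.TH t ht) hh, u₂, hu₂, by group⟩
  obtain ⟨p₁, hp₁, q, hq, t, ht, p₂, hp₂, rfl⟩ := D.r1.big s
  have h1 := kP p₁ hp₁ _ (bb_q D hq (kT t ht _ (kP p₂ hp₂ g hg)))
  have e : th (p₁ * (n * q * n) * t * p₂) * g = th p₁ * (th (n * q * n) * (th t * (th p₂ * g))) := by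
    rw [map_mul, map_mul, map_mul]
    simp only [mul_assoc]
  rw [e]
  exact h1
-- END bb

-- BEGIN bc
/-- ROW bc. `R1.move`: `y * m * y⁻¹ = n * q * n * t * p`; conjugate with `c = th y` (`nV`, `nU`, `Zc`): `c * (v * th m * z * u) * c⁻¹ = v' * th (y * m * y⁻¹) * z * u'`, and `z` commutes with `th p`. -/
theorem NS.tor (D : Nd P T n th H U V Z Ui Vi) {g z : G} (hz : z ∈ Z) (hg : NS th Ui Vi g z) {t : S} (ht : t ∈ T) :
    ∃ c : G, ∃ v ∈ V, ∃ u ∈ U, c * g * c⁻¹ = v * (th t * z) * u := by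
  obtain ⟨v, hv, m, hm, u, hu, rfl⟩ := hg
  obtain ⟨y, q, hq, p, hp, e⟩ := R1.move D.r1 hm ht
  refine ⟨th y, (th y * v * (th y)⁻¹) * th (n * q * n), V.mul_mem (D.ViV (D.nV y v hv)) (D.qV q hq),
    th p * (th y * u * (th y)⁻¹), U.mul_mem (D.pU p hp) (D.UiU (D.nU y u hu)), ?_⟩
  have hzy : z * (th y)⁻¹ = (th y)⁻¹ * z := by
    have h := D.Zc z hz y⁻¹
    rwa [map_inv] at h
  have hzp := D.Zc z hz p
  have hm' : th y * th m * (th y)⁻¹ = th (n * q * n) * th t * th p := by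
    rw [← map_inv, ← map_mul, ← map_mul, e, map_mul, map_mul]
  calc th y * (v * th m * z * u) * (th y)⁻¹
      = (th y * v * (th y)⁻¹) * (th y * th m * ((th y)⁻¹ * z)) * (th y * u * (th y)⁻¹) := by
        rw [← hzy]; group
    _ = (th y * v * (th y)⁻¹) * (th y * th m * (th y)⁻¹) * z * (th y * u * (th y)⁻¹) := by group
    _ = (th y * v * (th y)⁻¹) * (th (n * q * n) * th t * (th p * z)) * (th y * u * (th y)⁻¹) := by
        rw [hm']; group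
    _ = th y * v * (th y)⁻¹ * th (n * q * n) * (th t * z) * (th p * (th y * u * (th y)⁻¹)) := by
        rw [← hzp]; group

/-- `v = th (n q n) * v'` (`sV`) `= (th (n q n) * v' * (th (n q n))⁻¹) * th (n q n)` (`nV`), `u = th p * u'` (`sU`), `m = n * q * n * t * p ≠ 1` (`R1.uniq`, `t ≠ 1`), `z * th p = th p * z` (`Zc`) -/
theorem NS.of_tri (D : Nd P T n th H U V Z Ui Vi) {v u z : G} {t : S} (hv : v ∈ V) (hu : u ∈ U) (hz : z ∈ Z) (ht : t ∈ T) (h1 : t ≠ 1) : NS th Ui Vi (v * (th t * z) * u) z := by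
  obtain ⟨q, hq, v', hv', rfl⟩ := D.sV v hv
  obtain ⟨p, hp, u', hu', rfl⟩ := D.sU u hu
  refine ⟨th (n * q * n) * v' * (th (n * q * n))⁻¹, D.nV _ v' hv', n * q * n * t * p, ?_, u', hu', ?_⟩
  · intro h
    exact h1 (D.r1.uniq q hq t ht p hp h).2.1
  · have hzp := D.Zc z hz p
    rw [map_mul th (n * q * n * t) p, map_mul th (n * q * n) t]
    calc th (n * q * n) * v' * (th t * z) * (th p * u')
        = th (n * q * n) * v' * th t * (z * th p) * u' := by group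
      _ = th (n * q * n) * v' * th t * (th p * z) * u' := by rw [hzp]
      _ = th (n * q * n) * v' * (th (n * q * n))⁻¹ * (th (n * q * n) * th t * th p) * z * u' := by group
-- END bc

-- BEGIN bd
/-- ROW bd. The component of `u` at the node is `≠ 1`: as `NS.of_tri` (`h = th t * z`, `HTZ`), now `m = n * q * n * t * p ≠ 1` because of `p ≠ 1` (`R1.uniq`) -/
theorem NS.of_u (D : Nd P T n th H U V Z Ui Vi) {v u' h : G} {p : S} (hv : v ∈ V) (hh : h ∈ H) (hp : p ∈ P) (h1 : p ≠ 1) (hu : u' ∈ Ui) :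
    ∃ z ∈ Z, NS th Ui Vi (v * h * (th p * u')) z := by
  obtain ⟨t, ht, z, hz, rfl⟩ := D.HTZ h hh
  obtain ⟨q, hq, v', hv', rfl⟩ := D.sV v hv
  refine ⟨z, hz, th (n * q * n) * v' * (th (n * q * n))⁻¹, D.nV _ v' hv', n * q * n * t * p,
    fun h2 => h1 (D.r1.uniq q hq t ht p hp h2).2.2, u', hu, ?_⟩
  have hc := D.Zc z hz p
  have e : th (n * q * n * t * p) = th (n * q * n) * th t * th p := by rw [map_mul, map_mul]
  rw [e]
  calc th (n * q * n) * v' * (th t * z) * (th p * u')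
      = th (n * q * n) * v' * th t * (z * th p) * u' := by group
    _ = th (n * q * n) * v' * th t * (th p * z) * u' := by rw [hc]
    _ = th (n * q * n) * v' * (th (n * q * n))⁻¹ * (th (n * q * n) * th t * th p) * z * u' := by group

/-- the component of `v` at the node is `≠ 1` -/
theorem NS.of_v (D : Nd P T n th H U V Z Ui Vi) {v' u h : G} {q : S} (hv : v' ∈ Vi) (hh : h ∈ H) (hq : q ∈ P) (h1 : q ≠ 1) (hu : u ∈ U) :
    ∃ z ∈ Z, NS th Ui Vi (v' * th (n * q * n) * h * u) z := by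
  obtain ⟨t, ht, z, hz, rfl⟩ := D.HTZ h hh
  obtain ⟨p, hp, u', hu', rfl⟩ := D.sU u hu
  refine ⟨z, hz, v', hv, n * q * n * t * p, fun h2 => h1 (D.r1.uniq q hq t ht p hp h2).1, u', hu', ?_⟩
  have hc := D.Zc z hz p
  have e : th (n * q * n * t * p) = th (n * q * n) * th t * th p := by rw [map_mul, map_mul]
  rw [e]
  calc v' * th (n * q * n) * (th t * z) * (th p * u')
      = v' * th (n * q * n) * th t * (z * th p) * u' := by group
    _ = v' * th (n * q * n) * th t * (th p * z) * u' := by rw [hc]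
    _ = v' * (th (n * q * n) * th t * th p) * z * u' := by group
-- END bd

/-- the axioms for the root subgroups: `X r` is the set of the elements `≠ 1` of the root subgroup of the positive root `r`, `Y r` the same for `-r`; `a i` the simple roots, `w i` the reflections, `nn i` their representatives; `St i g`: `g` is not trivial at the node `i` -/
structure Let {ι R G : Type*} [Group G] (St : ι → G → Prop) (H U V : Subgroup G) (Ui Vi : ι → Subgroup G) (pos : R → Prop) (ht : R → ℕ) (a : ι → R) (w : ι → R → R) (nn : ι → G) (X Y : R → Set G) : Prop where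
  nfU : ∀ u ∈ U, ∃ L : List (R × G), (L.map Prod.fst).Nodup ∧ (∀ p ∈ L, pos p.1 ∧ p.2 ∈ X p.1) ∧ u = (L.map Prod.snd).prod
  nfV : ∀ v ∈ V, ∃ L : List (R × G), (L.map Prod.fst).Nodup ∧ (∀ p ∈ L, pos p.1 ∧ p.2 ∈ Y p.1) ∧ v = (L.map Prod.snd).prod
  nX : ∀ i r, pos r → r ≠ a i → ∀ g ∈ X r, nn i * g * (nn i)⁻¹ ∈ X (w i r)
  nY : ∀ i r, pos r → r ≠ a i → ∀ g ∈ Y r, nn i * g * (nn i)⁻¹ ∈ Y (w i r)
  wp : ∀ i r, pos r → r ≠ a i → pos (w i r)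
  wi : ∀ i r s, pos r → pos s → r ≠ a i → s ≠ a i → w i r = w i s → r = s
  wh : ∀ r, pos r → (∃ i, r = a i) ∨ ∃ i, ht (w i r) < ht r
  XU : ∀ i r, pos r → r ≠ a i → ∀ g ∈ X r, g ∈ Ui i
  YV : ∀ i r, pos r → r ≠ a i → ∀ g ∈ Y r, g ∈ Vi i
  aU : ∀ i, ∀ g ∈ X (a i), ∀ u ∈ Ui i, g⁻¹ * u * g ∈ Ui i
  aV : ∀ i, ∀ g ∈ Y (a i), ∀ v ∈ Vi i, g * v * g⁻¹ ∈ Vi i
  su : ∀ i, ∀ g ∈ X (a i), ∀ u' ∈ Ui i, ∀ v ∈ V, ∀ h ∈ H, St i (v * h * (g * u'))
  sv : ∀ i, ∀ g ∈ Y (a i), ∀ v' ∈ Vi i, ∀ u ∈ U, ∀ h ∈ H, St i (v' * g * h * u)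
  UiU : ∀ i, Ui i ≤ U
  ViV : ∀ i, Vi i ≤ V
  XaU : ∀ i, ∀ g ∈ X (a i), g ∈ U
  YaV : ∀ i, ∀ g ∈ Y (a i), g ∈ V
  nh : ∀ i, ∀ h ∈ H, nn i * h * (nn i)⁻¹ ∈ H

variable {ι R : Type*} {St : ι → G → Prop} {Ui' Vi' : ι → Subgroup G} {pos : R → Prop} {ht : R → ℕ} {a : ι → R} {w : ι → R → R} {nn : ι → G} {X Y : R → Set G}

-- BEGIN be
private theorem be_prod {R' : Type*} {Q : Subgroup G} {L : List (R' × G)} (hL : ∀ p ∈ L, p.2 ∈ Q) :
    (L.map Prod.snd).prod ∈ Q := by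
  refine Subgroup.list_prod_mem Q ?_
  intro x hx
  obtain ⟨p, hp, rfl⟩ := List.mem_map.1 hx
  exact hL p hp

omit [Group G] in
private theorem be_split {R' : Type*} {L : List (R' × G)} (h1 : (L.map Prod.fst).Nodup) {p : R' × G} (hp : p ∈ L) :
    ∃ L₁ L₂ : List (R' × G), L = L₁ ++ p :: L₂ ∧ (∀ q ∈ L₁, q.1 ≠ p.1) ∧ ∀ q ∈ L₂, q.1 ≠ p.1 := by
  obtain ⟨L₁, L₂, rfl⟩ := List.append_of_mem hp
  refine ⟨L₁, L₂, rfl, ?_, ?_⟩
  · intro q hq he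
    rw [List.map_append, List.nodup_append] at h1
    refine h1.2.2 q.1 (List.mem_map.2 ⟨q, hq, rfl⟩) p.1 ?_ he
    simp
  · intro q hq he
    rw [List.map_append, List.nodup_append] at h1
    have h3 := h1.2.1
    rw [List.map_cons, List.nodup_cons] at h3
    exact h3.1 (he ▸ List.mem_map.2 ⟨q, hq, rfl⟩)

/-- `L = L₁ ++ p :: L₂`, the roots in `L₁`, `L₂` are not `a i`; the product of `L₁` is in `Ui i`, which is normalized by `p.2`. -/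
private theorem be_simpleU (E : Let St H U V Ui' Vi' pos ht a w nn X Y) {L : List (R × G)} (h1 : (L.map Prod.fst).Nodup) (h2 : ∀ p ∈ L, pos p.1 ∧ p.2 ∈ X p.1)
    {i : ι} {p : R × G} (hp : p ∈ L) (hi : p.1 = a i) : ∃ g ∈ X (a i), ∃ u ∈ Ui' i, (L.map Prod.snd).prod = g * u := by
  obtain ⟨L₁, L₂, rfl, h3, h4⟩ := be_split h1 hp
  have hpb : p.2 ∈ X (a i) := hi ▸ (h2 p hp).2
  have m1 : (L₁.map Prod.snd).prod ∈ Ui' i := be_prod fun q hq => by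
    have h5 := h2 q (List.mem_append_left _ hq)
    exact E.XU i q.1 h5.1 (fun he => h3 q hq (he.trans hi.symm)) q.2 h5.2
  have m2 : (L₂.map Prod.snd).prod ∈ Ui' i := be_prod fun q hq => by
    have h5 := h2 q (List.mem_append_right _ (List.mem_cons_of_mem _ hq))
    exact E.XU i q.1 h5.1 (fun he => h4 q hq (he.trans hi.symm)) q.2 h5.2
  have m3 := E.aU i p.2 hpb _ m1
  refine ⟨p.2, hpb, _, mul_mem m3 m2, ?_⟩
  rw [List.map_append, List.prod_append, List.map_cons, List.prod_cons]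
  group

private theorem be_simpleV (E : Let St H U V Ui' Vi' pos ht a w nn X Y) {L : List (R × G)} (h1 : (L.map Prod.fst).Nodup) (h2 : ∀ p ∈ L, pos p.1 ∧ p.2 ∈ Y p.1)
    {i : ι} {p : R × G} (hp : p ∈ L) (hi : p.1 = a i) : ∃ g ∈ Y (a i), ∃ v ∈ Vi' i, (L.map Prod.snd).prod = v * g := by
  obtain ⟨L₁, L₂, rfl, h3, h4⟩ := be_split h1 hp
  have hpb : p.2 ∈ Y (a i) := hi ▸ (h2 p hp).2
  have m1 : (L₁.map Prod.snd).prod ∈ Vi' i := be_prod fun q hq => by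
    have h5 := h2 q (List.mem_append_left _ hq)
    exact E.YV i q.1 h5.1 (fun he => h3 q hq (he.trans hi.symm)) q.2 h5.2
  have m2 : (L₂.map Prod.snd).prod ∈ Vi' i := be_prod fun q hq => by
    have h5 := h2 q (List.mem_append_right _ (List.mem_cons_of_mem _ hq))
    exact E.YV i q.1 h5.1 (fun he => h4 q hq (he.trans hi.symm)) q.2 h5.2
  have m3 := E.aV i p.2 hpb _ m2
  refine ⟨p.2, hpb, _, mul_mem m1 m3, ?_⟩
  rw [List.map_append, List.prod_append, List.map_cons, List.prod_cons]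
  group

private theorem be_prod' (g : G) (f : R → R) (L : List (R × G)) :
    ((L.map fun p => (f p.1, g * p.2 * g⁻¹)).map Prod.snd).prod = g * (L.map Prod.snd).prod * g⁻¹ := by
  induction L with
  | nil => simp
  | cons p L ih =>
    simp only [List.map_cons, List.prod_cons]
    rw [ih]
    group

private theorem be_nodup (g : G) (f : R → R) {L : List (R × G)} (h1 : (L.map Prod.fst).Nodup)
    (hf : ∀ p ∈ L, ∀ q ∈ L, f p.1 = f q.1 → p.1 = q.1) :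
    ((L.map fun p => (f p.1, g * p.2 * g⁻¹)).map Prod.fst).Nodup := by
  have h2 : (L.map fun p => (f p.1, g * p.2 * g⁻¹)).map Prod.fst = (L.map Prod.fst).map f := by
    rw [List.map_map, List.map_map]
    rfl
  rw [h2]
  refine List.Nodup.map_on ?_ h1
  intro r hr s hs hrs
  obtain ⟨p, hp, rfl⟩ := List.mem_map.1 hr
  obtain ⟨q, hq, rfl⟩ := List.mem_map.1 hs
  exact hf p hp q hq hrs

private theorem be_conjX (E : Let St H U V Ui' Vi' pos ht a w nn X Y) {L : List (R × G)} (h1 : (L.map Prod.fst).Nodup) (h2 : ∀ p ∈ L, pos p.1 ∧ p.2 ∈ X p.1) {i : ι} (h3 : ∀ p ∈ L, p.1 ≠ a i) :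
    ((L.map fun p => (w i p.1, nn i * p.2 * (nn i)⁻¹)).map Prod.fst).Nodup ∧ (∀ p ∈ L.map fun p => (w i p.1, nn i * p.2 * (nn i)⁻¹), pos p.1 ∧ p.2 ∈ X p.1) ∧
      ((L.map fun p => (w i p.1, nn i * p.2 * (nn i)⁻¹)).map Prod.snd).prod = nn i * (L.map Prod.snd).prod * (nn i)⁻¹ := by
  refine ⟨be_nodup _ _ h1 fun p hp q hq => E.wi i p.1 q.1 (h2 p hp).1 (h2 q hq).1 (h3 p hp) (h3 q hq), ?_, be_prod' _ _ _⟩
  intro p hp
  obtain ⟨q, hq, rfl⟩ := List.mem_map.1 hp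
  exact ⟨E.wp i q.1 (h2 q hq).1 (h3 q hq), E.nX i q.1 (h2 q hq).1 (h3 q hq) q.2 (h2 q hq).2⟩

private theorem be_conjY (E : Let St H U V Ui' Vi' pos ht a w nn X Y) {L : List (R × G)} (h1 : (L.map Prod.fst).Nodup) (h2 : ∀ p ∈ L, pos p.1 ∧ p.2 ∈ Y p.1) {i : ι} (h3 : ∀ p ∈ L, p.1 ≠ a i) :
    ((L.map fun p => (w i p.1, nn i * p.2 * (nn i)⁻¹)).map Prod.fst).Nodup ∧ (∀ p ∈ L.map fun p => (w i p.1, nn i * p.2 * (nn i)⁻¹), pos p.1 ∧ p.2 ∈ Y p.1) ∧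
      ((L.map fun p => (w i p.1, nn i * p.2 * (nn i)⁻¹)).map Prod.snd).prod = nn i * (L.map Prod.snd).prod * (nn i)⁻¹ := by
  refine ⟨be_nodup _ _ h1 fun p hp q hq => E.wi i p.1 q.1 (h2 p hp).1 (h2 q hq).1 (h3 p hp) (h3 q hq), ?_, be_prod' _ _ _⟩
  intro p hp
  obtain ⟨q, hq, rfl⟩ := List.mem_map.1 hp
  exact ⟨E.wp i q.1 (h2 q hq).1 (h3 q hq), E.nY i q.1 (h2 q hq).1 (h3 q hq) q.2 (h2 q hq).2⟩

private theorem be_U (E : Let St H U V Ui' Vi' pos ht a w nn X Y) {L : List (R × G)}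
    (h2 : ∀ p ∈ L, pos p.1 ∧ p.2 ∈ X p.1) (i : ι) : (L.map Prod.snd).prod ∈ U := by
  refine Subgroup.list_prod_mem _ fun g hg => ?_
  obtain ⟨p, hp, rfl⟩ := List.mem_map.1 hg
  obtain ⟨h3, h4⟩ := h2 p hp
  by_cases h5 : p.1 = a i
  · rw [h5] at h4
    exact E.XaU i p.2 h4
  · exact E.UiU i (E.XU i p.1 h3 h5 p.2 h4)

private theorem be_V (E : Let St H U V Ui' Vi' pos ht a w nn X Y) {L : List (R × G)}
    (h2 : ∀ p ∈ L, pos p.1 ∧ p.2 ∈ Y p.1) (i : ι) : (L.map Prod.snd).prod ∈ V := by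
  refine Subgroup.list_prod_mem _ fun g hg => ?_
  obtain ⟨p, hp, rfl⟩ := List.mem_map.1 hg
  obtain ⟨h3, h4⟩ := h2 p hp
  by_cases h5 : p.1 = a i
  · rw [h5] at h4
    exact E.YaV i p.2 h4
  · exact E.ViV i (E.YV i p.1 h3 h5 p.2 h4)

private theorem be_stop (E : Let St H U V Ui' Vi' pos ht a w nn X Y) {L' L : List (R × G)} {h : G} (hh : h ∈ H)
    (n1 : (L.map Prod.fst).Nodup) (n2 : (L'.map Prod.fst).Nodup) (h1 : ∀ p ∈ L, pos p.1 ∧ p.2 ∈ X p.1) (h2 : ∀ p ∈ L', pos p.1 ∧ p.2 ∈ Y p.1)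
    (hm : (∃ p ∈ L, ∃ i, p.1 = a i) ∨ ∃ p ∈ L', ∃ i, p.1 = a i) :
    ∃ (c : G) (i : ι), St i (c * ((L'.map Prod.snd).prod * h * (L.map Prod.snd).prod) * c⁻¹) := by
  have e0 : ∀ g : G, (1 : G) * g * (1 : G)⁻¹ = g := fun g => by group
  rcases hm with ⟨p, hp, i, hi⟩ | ⟨p, hp, i, hi⟩
  · obtain ⟨g, hg, u, hu, e1⟩ := be_simpleU E n1 h1 hp hi
    refine ⟨1, i, ?_⟩
    rw [e0, e1]
    exact E.su i g hg u hu _ (be_V E h2 i) h hh
  · obtain ⟨g, hg, v, hv, e1⟩ := be_simpleV E n2 h2 hp hi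
    refine ⟨1, i, ?_⟩
    rw [e0, e1]
    exact E.sv i g hg v hv _ (be_U E h1 i) h hh

/-- ROW be. Adapt `Let.simpleU`, `Let.simpleV`, `Let.conj_listX`, `Let.conj_listY`, `Let.start_aux` of `Pool/Agent/ThK/Gau.lean` (blocks ge, gf, gg; import of that file is not needed: copy).  The conclusion `NS ..` is now `St i (..)`, given by `su`, `sv`. -/
theorem Let.start_aux (E : Let St H U V Ui' Vi' pos ht a w nn X Y) (m : ℕ) :
    ∀ (L' L : List (R × G)), ∀ h ∈ H, (L.map Prod.fst).Nodup → (L'.map Prod.fst).Nodup → (∀ p ∈ L, pos p.1 ∧ p.2 ∈ X p.1) → (∀ p ∈ L', pos p.1 ∧ p.2 ∈ Y p.1) →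
      ((∃ p ∈ L, ht p.1 ≤ m) ∨ ∃ p ∈ L', ht p.1 ≤ m) → ∃ (c : G) (i : ι), St i (c * ((L'.map Prod.snd).prod * h * (L.map Prod.snd).prod) * c⁻¹) := by
  induction m with
  | zero =>
    intro L' L h hh n1 n2 h1 h2 hm
    refine be_stop E hh n1 n2 h1 h2 ?_
    rcases hm with ⟨p, hp, hm⟩ | ⟨p, hp, hm⟩
    · rcases E.wh p.1 (h1 p hp).1 with h3 | ⟨i, h3⟩
      · exact Or.inl ⟨p, hp, h3⟩
      · omega
    · rcases E.wh p.1 (h2 p hp).1 with h3 | ⟨i, h3⟩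
      · exact Or.inr ⟨p, hp, h3⟩
      · omega
  | succ m ih =>
    intro L' L h hh n1 n2 h1 h2 hm
    by_cases hA : ∃ p ∈ L, ∃ i, p.1 = a i
    · exact be_stop E hh n1 n2 h1 h2 (Or.inl hA)
    by_cases hB : ∃ p ∈ L', ∃ i, p.1 = a i
    · exact be_stop E hh n1 n2 h1 h2 (Or.inr hB)
    have hA' : ∀ i, ∀ p ∈ L, p.1 ≠ a i := fun i p hp h => hA ⟨p, hp, i, h⟩
    have hB' : ∀ i, ∀ p ∈ L', p.1 ≠ a i := fun i p hp h => hB ⟨p, hp, i, h⟩
    have key : ∃ i, (∃ p ∈ L, ht (w i p.1) ≤ m) ∨ ∃ p ∈ L', ht (w i p.1) ≤ m := by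
      rcases hm with ⟨p, hp, hm⟩ | ⟨p, hp, hm⟩
      · rcases E.wh p.1 (h1 p hp).1 with h3 | ⟨i, h3⟩
        · exact absurd ⟨p, hp, h3⟩ hA
        · exact ⟨i, Or.inl ⟨p, hp, by omega⟩⟩
      · rcases E.wh p.1 (h2 p hp).1 with h3 | ⟨i, h3⟩
        · exact absurd ⟨p, hp, h3⟩ hB
        · exact ⟨i, Or.inr ⟨p, hp, by omega⟩⟩
    obtain ⟨i, hi⟩ := key
    obtain ⟨a1, a2, a3⟩ := be_conjX E n1 h1 (hA' i)
    obtain ⟨b1, b2, b3⟩ := be_conjY E n2 h2 (hB' i)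
    obtain ⟨c, j, h5⟩ := ih _ _ (nn i * h * (nn i)⁻¹) (E.nh i h hh) a1 b1 a2 b2 (by
      rcases hi with ⟨p, hp, h6⟩ | ⟨p, hp, h6⟩
      · exact Or.inl ⟨_, List.mem_map_of_mem hp, h6⟩
      · exact Or.inr ⟨_, List.mem_map_of_mem hp, h6⟩)
    refine ⟨c * nn i, j, ?_⟩
    rw [a3, b3] at h5
    have h6 : c * nn i * ((L'.map Prod.snd).prod * h * (L.map Prod.snd).prod) * (c * nn i)⁻¹ =
        c * (nn i * (L'.map Prod.snd).prod * (nn i)⁻¹ * (nn i * h * (nn i)⁻¹) *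
          (nn i * (L.map Prod.snd).prod * (nn i)⁻¹)) * c⁻¹ := by group
    rw [h6]
    exact h5

/-- `nfU`, `nfV`; one of the two lists is not empty -/
theorem Let.start (E : Let St H U V Ui' Vi' pos ht a w nn X Y) {v h u : G} (hv : v ∈ V) (hh : h ∈ H) (hu : u ∈ U) (h1 : v ≠ 1 ∨ u ≠ 1) :
    ∃ (c : G) (i : ι), St i (c * (v * h * u) * c⁻¹) := by
  obtain ⟨L, hL1, hL2, rfl⟩ := E.nfU u hu
  obtain ⟨L', hL1', hL2', rfl⟩ := E.nfV v hv
  rcases h1 with h1 | h1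
  · rcases L' with _ | ⟨p, L'⟩
    · exact absurd rfl h1
    · exact E.start_aux (ht p.1) _ L h hh hL1 hL1' hL2 hL2' (Or.inr ⟨p, List.mem_cons_self, le_rfl⟩)
  · rcases L with _ | ⟨p, L⟩
    · exact absurd rfl h1
    · exact E.start_aux (ht p.1) L' _ h hh hL1 hL1' hL2 hL2' (Or.inl ⟨p, List.mem_cons_self, le_rfl⟩)
-- END be

/-- the property at a node -/
def Stt {S : Type*} [Group S] {G : Type*} [Group G] (th : S →* G) (Z Ui Vi : Subgroup G) (g : G) : Prop := ∃ z ∈ Z, NS th Ui Vi g z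

section two

variable {S' : Type*} [Group S'] {P' T' : Subgroup S'} {n' : S'} {th' : S' →* G} {Z' UA VA : Subgroup G}

-- BEGIN bf
private theorem bf_conj {G : Type*} [Group G] {Q : G → Prop} {g c : G} (h : ∃ d : G, Q (d * (c * g * c⁻¹) * d⁻¹)) :
    ∃ d : G, Q (d * g * d⁻¹) := by
  obtain ⟨d, hd⟩ := h
  refine ⟨d * c, ?_⟩
  have e : d * c * g * (d * c)⁻¹ = d * (c * g * c⁻¹) * d⁻¹ := by group
  rw [e]
  exact hd

/-- ROW bf. Two nodes (`th`: node `B`; `th'`: node `A`).  `c1`, `c2` are the conditions on the torus.  `Subgroup.closure_induction_left` and `Nd.big_step` (the inverses of the `th s` are `th s⁻¹`): every `g` is in `Big`; conjugate with `u₁⁻¹`: `v * h * u`.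
If `v ≠ 1` or `u ≠ 1`: `hst`; otherwise `h ≠ 1`, and `c0`: `NS` at one of the nodes by `NS.of_tri` (`v = u = 1`).  Then: at node `A` with `z`: `c2`: either `NS.tor` with `t`, `NS.of_tri` at `B` with `z = 1` (`v * (th t₁ * 1) * u`), finished; or
`NS.tor`, `NS.of_tri` at `B` with `z₁`.  At node `B`: `c1`, `NS.tor`, `NS.of_tri` at `A` with `z₁`, `NS.tor` with `t₂`, `NS.of_tri` at `B` with `z = 1`. -/
theorem reach (B : Nd P T n th H U V Z Ui Vi) (A : Nd P' T' n' th' H U V Z' UA VA)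
    (gen : Subgroup.closure {g : G | (∃ s, g = th s) ∨ ∃ s, g = th' s} = ⊤)
    (hst : ∀ v ∈ V, ∀ h ∈ H, ∀ u ∈ U, (v ≠ 1 ∨ u ≠ 1) → ∃ c : G, Stt th Z Ui Vi (c * (v * h * u) * c⁻¹) ∨ Stt th' Z' UA VA (c * (v * h * u) * c⁻¹))
    (c0 : ∀ h ∈ H, h ≠ 1 → (∃ t ∈ T, ∃ z ∈ Z, h = th t * z ∧ t ≠ 1) ∨ ∃ t ∈ T', ∃ z ∈ Z', h = th' t * z ∧ t ≠ 1)
    (c1 : ∀ z ∈ Z, ∃ t ∈ T, ∃ t₁ ∈ T', ∃ z₁ ∈ Z', th t * z = th' t₁ * z₁ ∧ t₁ ≠ 1 ∧ ∃ t₂ ∈ T', ∃ t₃ ∈ T, th' t₂ * z₁ = th t₃ ∧ t₃ ≠ 1)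
    (c2 : ∀ z ∈ Z', (∃ t ∈ T', ∃ t₁ ∈ T, th' t * z = th t₁ ∧ t₁ ≠ 1) ∨ ∃ t ∈ T', ∃ t₁ ∈ T, ∃ z₁ ∈ Z, th' t * z = th t₁ * z₁ ∧ t₁ ≠ 1) {g : G} (hg : g ≠ 1) :
    ∃ c : G, NS th Ui Vi (c * g * c⁻¹) 1 := by
  -- finish from node `A`
  have hF : ∀ (g : G) (z : G), z ∈ Z' → NS th' UA VA g z → (∃ t ∈ T', ∃ t₁ ∈ T, th' t * z = th t₁ ∧ t₁ ≠ 1) →
      ∃ c : G, NS th Ui Vi (c * g * c⁻¹) 1 := by
    intro g z hz hg h
    obtain ⟨t, ht, t₁, ht₁, e, hne⟩ := h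
    obtain ⟨c, v, hv, u, hu, e1⟩ := NS.tor A hz hg ht
    refine ⟨c, ?_⟩
    rw [e1, e, ← mul_one (th t₁)]
    exact NS.of_tri B hv hu (one_mem Z) ht₁ hne
  -- at node `B`
  have hB : ∀ (g : G) (z : G), z ∈ Z → NS th Ui Vi g z → ∃ c : G, NS th Ui Vi (c * g * c⁻¹) 1 := by
    intro g z hz hg
    obtain ⟨t, ht, t₁, ht₁, z₁, hz₁, e, hne, h⟩ := c1 z hz
    obtain ⟨c, v, hv, u, hu, e1⟩ := NS.tor B hz hg ht
    refine bf_conj (Q := fun y => NS th Ui Vi y 1) (c := c) ?_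
    rw [e1, e]
    exact hF _ z₁ hz₁ (NS.of_tri A hv hu hz₁ ht₁ hne) h
  -- at node `A`
  have hA : ∀ (g : G) (z : G), z ∈ Z' → NS th' UA VA g z → ∃ c : G, NS th Ui Vi (c * g * c⁻¹) 1 := by
    intro g z hz hg
    rcases c2 z hz with h | ⟨t, ht, t₁, ht₁, z₁, hz₁, e, hne⟩
    · exact hF g z hz hg h
    · obtain ⟨c, v, hv, u, hu, e1⟩ := NS.tor A hz hg ht
      refine bf_conj (Q := fun y => NS th Ui Vi y 1) (c := c) ?_
      rw [e1, e]
      exact hB _ z₁ hz₁ (NS.of_tri B hv hu hz₁ ht₁ hne)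
  have hbig : ∀ g : G, Big H U V g := by
    intro g
    have hg : g ∈ Subgroup.closure {g : G | (∃ s, g = th s) ∨ ∃ s, g = th' s} := by
      rw [gen]
      exact Subgroup.mem_top g
    induction hg using Subgroup.closure_induction_left with
    | one => exact ⟨1, one_mem U, 1, one_mem V, 1, one_mem H, 1, one_mem U, by simp⟩
    | mul_left x hx y _ hy =>
      rcases hx with ⟨s, rfl⟩ | ⟨s, rfl⟩
      · exact B.big_step s hy
      · exact A.big_step s hy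
    | inv_mul_cancel x hx y _ hy =>
      rcases hx with ⟨s, rfl⟩ | ⟨s, rfl⟩
      · rw [← map_inv]
        exact B.big_step s⁻¹ hy
      · rw [← map_inv]
        exact A.big_step s⁻¹ hy
  obtain ⟨u₁, hu₁, v, hv, h, hh, u₂, hu₂, e⟩ := hbig g
  have e1 : u₁⁻¹ * g * u₁⁻¹⁻¹ = v * h * (u₂ * u₁) := by
    rw [e]
    group
  refine bf_conj (Q := fun y => NS th Ui Vi y 1) (c := u₁⁻¹) ?_
  rw [e1]
  have hu : u₂ * u₁ ∈ U := mul_mem hu₂ hu₁
  by_cases h1 : v ≠ 1 ∨ u₂ * u₁ ≠ 1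
  · obtain ⟨c, hc⟩ := hst v hv h hh (u₂ * u₁) hu h1
    refine bf_conj (Q := fun y => NS th Ui Vi y 1) (c := c) ?_
    rcases hc with ⟨z, hz, hc⟩ | ⟨z, hz, hc⟩
    · exact hB _ z hz hc
    · exact hA _ z hz hc
  · have hv1 : v = 1 := by
      by_contra h2
      exact h1 (Or.inl h2)
    have hu1 : u₂ * u₁ = 1 := by
      by_contra h2
      exact h1 (Or.inr h2)
    have hh1 : h ≠ 1 := by
      intro h2
      rw [hv1, hu1, h2, mul_one, mul_one] at e1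
      apply hg
      have e2 : g = u₁ * (u₁⁻¹ * g * u₁⁻¹⁻¹) * u₁⁻¹ := by group
      rw [e2, e1]
      group
    rw [hv1, hu1]
    rcases c0 h hh hh1 with ⟨t, ht, z, hz, e2, hne⟩ | ⟨t, ht, z, hz, e2, hne⟩
    · rw [e2]
      exact hB _ z hz (NS.of_tri B (one_mem V) (one_mem U) hz ht hne)
    · rw [e2]
      exact hA _ z hz (NS.of_tri A (one_mem V) (one_mem U) hz ht hne)
-- END bf

end two

end Pool.Agent.ThO2
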