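import Pool.Agent.ThO2.Ab2

/-! # The class of an element without fixed points on the radicals (abstract) -/

namespace Pool.Agent.ThO2

variable {S : Type*} [Group S] {G : Type*} [Group G] {P T : Subgroup S} {n : S} {th : S →* G} {H U V Z Ui Vi : Subgroup G}

-- BEGIN ca
/-- ROW ca. `y ↦ y⁻¹ * (b * y * b⁻¹)` is an injective map `W → W` (if `y⁻¹ * b y b⁻¹ = z⁻¹ * b z b⁻¹` then `z * y⁻¹` is fixed), `W` is finite, so it is surjective; apply it to `v` and invert `y`. -/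
theorem conj_of_fix {W : Subgroup G} (hW : (W : Set G).Finite) {b : G} (hb : ∀ v ∈ W, b * v * b⁻¹ ∈ W) (h : ∀ v ∈ W, b * v * b⁻¹ = v → v = 1) {v : G} (hv : v ∈ W) :
    ∃ y ∈ W, v * b = y * b * y⁻¹ := by
  have : Finite W := hW.to_subtype
  have hinj : Function.Injective (fun y : W => y⁻¹ * (⟨b * y * b⁻¹, hb y y.2⟩ : W)) := by
    intro y z hyz
    have e : (y : G)⁻¹ * (b * y * b⁻¹) = (z : G)⁻¹ * (b * z * b⁻¹) := congrArg Subtype.val hyz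
    have e2 : b * ((z : G) * (y : G)⁻¹) * b⁻¹ = (z : G) * (y : G)⁻¹ := by
      have e3 : b * ((z : G) * (y : G)⁻¹) * b⁻¹ = (z : G) * ((z : G)⁻¹ * (b * z * b⁻¹)) * (b * y * b⁻¹)⁻¹ := by group
      rw [e3, ← e]
      group
    have e4 := h _ (W.mul_mem z.2 (W.inv_mem y.2)) e2
    exact Subtype.ext (mul_inv_eq_one.mp e4).symm
  obtain ⟨y, hy⟩ := (Finite.injective_iff_surjective.mp hinj) ⟨v, hv⟩
  have e : (y : G)⁻¹ * (b * y * b⁻¹) = v := congrArg Subtype.val hy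
  refine ⟨(y : G)⁻¹, W.inv_mem y.2, ?_⟩
  rw [← e]
  group

/-- `b * v = (b * v * b⁻¹) * b` -/
theorem conj_of_fix' {W : Subgroup G} (hW : (W : Set G).Finite) {b : G} (hb : ∀ v ∈ W, b * v * b⁻¹ ∈ W) (h : ∀ v ∈ W, b * v * b⁻¹ = v → v = 1) {v : G} (hv : v ∈ W) :
    ∃ y ∈ W, b * v = y * b * y⁻¹ := by
  obtain ⟨y, hy, e⟩ := conj_of_fix hW hb h (hb v hv)
  refine ⟨y, hy, ?_⟩
  rw [← e]
  group
-- END ca

-- BEGIN cb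
private theorem cb_pow {b v : G} (h : b * v * b⁻¹ = v) (k : ℕ) : b ^ k * v * (b ^ k)⁻¹ = v := by
  induction k with
  | zero => simp
  | succ k ih =>
    calc b ^ (k + 1) * v * (b ^ (k + 1))⁻¹ = b ^ k * (b * v * b⁻¹) * (b ^ k)⁻¹ := by
          rw [pow_succ]; group
      _ = v := by rw [h, ih]

/-- ROW cb. `w = th m₀ * ζ`.  `g = 1`: `w * w⁻¹`, `w⁻¹ = th m₀⁻¹ * ζ⁻¹` (`Zc`), `hn`, `hr`.  `g ≠ 1`: `c * g * c⁻¹ = v * th m * 1 * u`, `m = m₁ * m₂`, `mᵢ = yᵢ * m₀ * yᵢ⁻¹` (`hC`); `= (v * (th m₁ * ζ)) * ((ζ⁻¹ * th m₂) * u)`.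
`b = th m₁ * ζ`: `b ^ 13 = ζ ^ 13 = ζ⁻¹`, so `b * v * b⁻¹ = v` gives `ζ⁻¹ * v * ζ = v`, `v = 1`: `conj_of_fix`; `b = th y₁ * w * (th y₁)⁻¹` (`Zc`).  `b = ζ⁻¹ * th m₂`: `conj_of_fix'`; `ζ⁻¹ * th m₂ ~ ζ⁻¹ * th m₀`, and
`n₀ * (ζ * th m₀) * n₀⁻¹ = ζ⁻¹ * th (y * m₀ * y⁻¹) ~ ζ⁻¹ * th m₀`. -/
theorem square (B : Nd P T n th H U V Z Ui Vi) (hreach : ∀ g : G, g ≠ 1 → ∃ c : G, NS th Ui Vi (c * g * c⁻¹) 1) {m₀ : S} {ζ : G} (hζ : ζ ∈ Z) (h13 : m₀ ^ 13 = 1) (h7 : ζ ^ 7 = 1)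
    (hC : ∀ m : S, ∃ y₁ y₂ : S, m = y₁ * m₀ * y₁⁻¹ * (y₂ * m₀ * y₂⁻¹)) (hr : ∃ y : S, m₀⁻¹ = y * m₀ * y⁻¹)
    (hn : ∃ (n₀ : G) (y : S), n₀ * ζ * n₀⁻¹ = ζ⁻¹ ∧ n₀ * th m₀ * n₀⁻¹ = th (y * m₀ * y⁻¹)) (fU : (Ui : Set G).Finite) (fV : (Vi : Set G).Finite)
    (zU : ∀ u ∈ Ui, ζ * u * ζ⁻¹ = u → u = 1) (zV : ∀ v ∈ Vi, ζ * v * ζ⁻¹ = v → v = 1) :
    ∃ w : G, ∀ g : G, ∃ x y : G, IsConj w x ∧ IsConj w y ∧ x * y = g := by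
  have hc : ∀ s : S, ζ * th s = th s * ζ := fun s => B.Zc ζ hζ s
  have hc' : ∀ s : S, ζ⁻¹ * th s = th s * ζ⁻¹ := fun s => B.Zc ζ⁻¹ (Z.inv_mem hζ) s
  have hζ14 : ζ ^ 14 = 1 := by
    rw [show (14 : ℕ) = 7 * 2 from rfl, pow_mul, h7, one_pow]
  have hζ13 : ζ ^ 13 = ζ⁻¹ := by
    rw [eq_inv_iff_mul_eq_one, ← pow_succ]
    exact hζ14
  -- conjugates
  have hmul : ∀ s : S, IsConj (th m₀ * ζ) (th (s * m₀ * s⁻¹) * ζ) := by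
    intro s
    rw [isConj_iff]
    refine ⟨th s, ?_⟩
    rw [map_mul, map_mul, map_inv]
    have e : (th s)⁻¹ * ζ = ζ * (th s)⁻¹ := by
      rw [← map_inv]; exact (hc s⁻¹).symm
    calc th s * (th m₀ * ζ) * (th s)⁻¹ = th s * th m₀ * (ζ * (th s)⁻¹) := by group
      _ = th s * th m₀ * ((th s)⁻¹ * ζ) := by rw [e]
      _ = th s * th m₀ * (th s)⁻¹ * ζ := by group
  have hinvc : ∀ s : S, IsConj (th m₀ * ζ⁻¹) (th (s * m₀ * s⁻¹) * ζ⁻¹) := by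
    intro s
    rw [isConj_iff]
    refine ⟨th s, ?_⟩
    rw [map_mul, map_mul, map_inv]
    have e : (th s)⁻¹ * ζ⁻¹ = ζ⁻¹ * (th s)⁻¹ := by
      rw [← map_inv]; exact (hc' s⁻¹).symm
    calc th s * (th m₀ * ζ⁻¹) * (th s)⁻¹ = th s * th m₀ * (ζ⁻¹ * (th s)⁻¹) := by group
      _ = th s * th m₀ * ((th s)⁻¹ * ζ⁻¹) := by rw [e]
      _ = th s * th m₀ * (th s)⁻¹ * ζ⁻¹ := by group
  have hw : IsConj (th m₀ * ζ) (th m₀ * ζ⁻¹) := by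
    obtain ⟨n₀, y, e1, e2⟩ := hn
    have h1 : IsConj (th m₀ * ζ) (th (y * m₀ * y⁻¹) * ζ⁻¹) := by
      rw [isConj_iff]
      refine ⟨n₀, ?_⟩
      calc n₀ * (th m₀ * ζ) * n₀⁻¹ = (n₀ * th m₀ * n₀⁻¹) * (n₀ * ζ * n₀⁻¹) := by group
        _ = th (y * m₀ * y⁻¹) * ζ⁻¹ := by rw [e1, e2]
    exact h1.trans (hinvc y).symm
  refine ⟨th m₀ * ζ, fun g => ?_⟩
  by_cases hg : g = 1
  · subst hg
    obtain ⟨y, hy⟩ := hr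
    refine ⟨th m₀ * ζ, (th m₀ * ζ)⁻¹, IsConj.refl _, ?_, mul_inv_cancel _⟩
    have e : (th m₀ * ζ)⁻¹ = th (y * m₀ * y⁻¹) * ζ⁻¹ := by
      rw [← hy, map_inv, mul_inv_rev, ← map_inv]
      exact hc' _
    rw [e]
    exact hw.trans (hinvc y)
  · obtain ⟨c, v, hv, m, -, u, hu, e⟩ := hreach g hg
    obtain ⟨y₁, y₂, hm⟩ := hC m
    set m₁ : S := y₁ * m₀ * y₁⁻¹ with hm₁
    set m₂ : S := y₂ * m₀ * y₂⁻¹ with hm₂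
    have p1 : m₁ ^ 13 = 1 := by rw [hm₁, conj_pow, h13]; group
    have p2 : m₂ ^ 13 = 1 := by rw [hm₂, conj_pow, h13]; group
    have b1 : (th m₁ * ζ) ^ 13 = ζ⁻¹ := by
      have hcm : Commute (th m₁) ζ := (hc m₁).symm
      rw [hcm.mul_pow, ← map_pow, p1, map_one, one_mul, hζ13]
    have b2 : (ζ⁻¹ * th m₂) ^ 13 = ζ := by
      have hcm : Commute ζ⁻¹ (th m₂) := hc' m₂
      rw [hcm.mul_pow, ← map_pow, p2, map_one, mul_one, inv_pow, hζ13, inv_inv]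
    have hζH : ζ ∈ H := B.ZH hζ
    obtain ⟨a, ha, ea⟩ := conj_of_fix (b := th m₁ * ζ) fV (by
        intro v hv
        have e3 : th m₁ * ζ * v * (th m₁ * ζ)⁻¹ = th m₁ * (ζ * v * ζ⁻¹) * (th m₁)⁻¹ := by group
        rw [e3]
        exact B.nV _ _ (B.hV _ hζH _ hv)) (by
        intro v hv e3
        have e4 := cb_pow e3 13
        rw [b1] at e4
        apply zV v hv
        calc ζ * v * ζ⁻¹ = ζ * (ζ⁻¹ * v * ζ⁻¹⁻¹) * ζ⁻¹ := by rw [e4]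
          _ = v := by group) hv
    obtain ⟨a', ha', ea'⟩ := conj_of_fix' (b := ζ⁻¹ * th m₂) fU (by
        intro u hu
        have e3 : ζ⁻¹ * th m₂ * u * (ζ⁻¹ * th m₂)⁻¹ = ζ⁻¹ * (th m₂ * u * (th m₂)⁻¹) * ζ⁻¹⁻¹ := by group
        rw [e3]
        exact B.hU _ (H.inv_mem hζH) _ (B.nU _ _ hu)) (by
        intro u hu e3
        have e4 := cb_pow e3 13
        rw [b2] at e4
        exact zU u hu e4) hu
    have k1 : IsConj (th m₀ * ζ) (v * (th m₁ * ζ)) := by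
      rw [ea]
      exact (hmul y₁).trans (isConj_iff.mpr ⟨a, rfl⟩)
    have k2 : IsConj (th m₀ * ζ) (ζ⁻¹ * th m₂ * u) := by
      rw [ea', hc' m₂]
      exact (hw.trans (hinvc y₂)).trans (isConj_iff.mpr ⟨a', rfl⟩)
    refine ⟨c⁻¹ * (v * (th m₁ * ζ)) * c, c⁻¹ * (ζ⁻¹ * th m₂ * u) * c, ?_, ?_, ?_⟩
    · exact k1.trans (isConj_iff.mpr ⟨c⁻¹, by rw [inv_inv]⟩)
    · exact k2.trans (isConj_iff.mpr ⟨c⁻¹, by rw [inv_inv]⟩)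
    · have e5 : c⁻¹ * (v * (th m₁ * ζ)) * c * (c⁻¹ * (ζ⁻¹ * th m₂ * u) * c) = c⁻¹ * (v * (th m₁ * th m₂) * 1 * u) * c := by group
      rw [e5, ← map_mul, ← hm, ← e]
      group
-- END cb

end Pool.Agent.ThO2
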