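import Pool.Agent.ThO2.RayE

/-! # `²F_4(8)` is generated by the rays `1, 9` and `8, 0` -/

namespace Pool.Agent.ThO2

open ThE ThG Pool.Agent.ThR

variable {K : Type*} [Field K] {G : Type*} [Group G]

/-- the generators: the rays of the two simple roots and their negatives -/
def sim (e : Fin 16 → K → G) : Subgroup G := Subgroup.closure {g : G | ∃ t, g = e 1 t ∨ g = e 9 t ∨ g = e 8 t ∨ g = e 0 t}

variable {e : Fin 16 → K → G} {fA : SL2 K →* G} {fB : Sz K →* G}

private theorem fin_nA (hK : Nat.card K = 8) : (nA K).1 = !![0, 1; 1, 0] := by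
  have h1 : (1 : K) + 1 = 0 := add8 hK 1
  have h2 : (-1 : K) = 1 := (eq_neg_of_add_eq_zero_left h1).symm
  show !![(1 : K), 1; 0, 1] * !![1, 0; -1, 1] * !![1, 1; 0, 1] = _
  rw [h2]
  ext i j
  fin_cases i <;> fin_cases j <;> simp [Matrix.mul_apply, Fin.sum_univ_two, h1]

private theorem fin_up (hK : Nat.card K = 8) (t : K) : nA K * up t * nA K = lo t := by
  apply Subtype.ext
  show (nA K).1 * !![(1 : K), t; 0, 1] * (nA K).1 = !![(1 : K), 0; t, 1]
  rw [fin_nA hK]
  ext i j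
  fin_cases i <;> fin_cases j <;> simp [Matrix.mul_apply, Fin.sum_univ_two]

private theorem fin_JJ : JZ K * JZ K = 1 := Subtype.ext JS_JS

private theorem fin_pZ (hK : Nat.card K = 8) (t d : K) : (pZ t d : Sz K) = pZ t 0 * (pZ (d ^ 3) 0 * pZ (d ^ 3) 0) := by
  apply Subtype.ext
  show pS t d = pS t 0 * (pS (d ^ 3) 0 * pS (d ^ 3) 0)
  have h8 := pow8 hK d
  rw [pS_mul hK, pS_mul hK, add8 hK]
  have h1 : (0 : K) + 0 + (d ^ 3) ^ 4 * d ^ 3 = d := by
    calc (0 : K) + 0 + (d ^ 3) ^ 4 * d ^ 3 = d ^ 8 * d ^ 7 := by ring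
      _ = d * d ^ 7 := by rw [h8]
      _ = d ^ 8 := by ring
      _ = d := h8
  rw [h1, add_zero, mul_zero, add_zero, zero_add]

private theorem fin_A (hK : Nat.card K = 8) (h : Ray0 e fA fB) (s : SL2 K) : fA s ∈ sim e := by
  have hs : s ∈ Subgroup.closure {g : SL2 K | ∃ a, g = up a ∨ g = lo a} := by rw [sl2_gen]; trivial
  have hle : Subgroup.closure {g : SL2 K | ∃ a, g = up a ∨ g = lo a} ≤ (sim e).comap fA := by
    refine (Subgroup.closure_le _).2 ?_
    rintro g ⟨a, rfl | rfl⟩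
    · refine Subgroup.mem_comap.2 ?_
      rw [h.e1]
      exact Subgroup.subset_closure ⟨a, Or.inl rfl⟩
    · refine Subgroup.mem_comap.2 ?_
      have h1 := h.wA 1 a
      rw [← h.e1 a, ← map_inv, ← map_mul, ← map_mul, inv_eq_of_mul_eq_one_right (r1A hK).nn, fin_up hK] at h1
      rw [h1]
      exact Subgroup.subset_closure ⟨a, Or.inr (Or.inl rfl)⟩
  exact hle hs

private theorem fin_B (hK : Nat.card K = 8) (h : Ray0 e fA fB) (s : Sz K) : fB s ∈ sim e := by
  have h8 : ∀ t, e 8 t ∈ sim e := fun t => Subgroup.subset_closure ⟨t, Or.inr (Or.inr (Or.inl rfl))⟩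
  have h0 : ∀ t, e 0 t ∈ sim e := fun t => Subgroup.subset_closure ⟨t, Or.inr (Or.inr (Or.inr rfl))⟩
  have hs : s ∈ Subgroup.closure ((PZ K : Set (Sz K)) ∪ {g | ∃ p ∈ PZ K, g = JZ K * p * JZ K}) := by
    rw [R1.gen2 (r1Z hK)]; trivial
  have hle : Subgroup.closure ((PZ K : Set (Sz K)) ∪ {g | ∃ p ∈ PZ K, g = JZ K * p * JZ K}) ≤ (sim e).comap fB := by
    have hc : ∀ t : K, fB (JZ K * pZ t 0 * JZ K) = e 0 t := by
      intro t
      have h1 := h.wB 8 t
      rw [← h.e8 t, ← map_inv, ← map_mul, ← map_mul, inv_eq_of_mul_eq_one_right fin_JJ] at h1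
      exact h1
    refine (Subgroup.closure_le _).2 ?_
    rintro g (hg | ⟨p, hp, rfl⟩)
    · obtain ⟨t, d, rfl⟩ := (mem_PZ hK).1 hg
      refine Subgroup.mem_comap.2 ?_
      rw [fin_pZ hK, map_mul, map_mul, h.e8, h.e8]
      exact Subgroup.mul_mem _ (h8 _) (Subgroup.mul_mem _ (h8 _) (h8 _))
    · obtain ⟨t, d, rfl⟩ := (mem_PZ hK).1 hp
      refine Subgroup.mem_comap.2 ?_
      have h2 : JZ K * pZ t d * JZ K = (JZ K * pZ t 0 * JZ K) * ((JZ K * pZ (d ^ 3) 0 * JZ K) * (JZ K * pZ (d ^ 3) 0 * JZ K)) := by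
        have hj : ∀ a b : Sz K, (JZ K * a * JZ K) * (JZ K * b * JZ K) = JZ K * (a * b) * JZ K := by
          intro a b
          calc (JZ K * a * JZ K) * (JZ K * b * JZ K) = JZ K * a * (JZ K * JZ K) * b * JZ K := by group
            _ = JZ K * (a * b) * JZ K := by rw [fin_JJ]; group
        rw [hj, hj, ← fin_pZ hK]
      rw [h2, map_mul fB (JZ K * pZ t 0 * JZ K), map_mul fB (JZ K * pZ (d ^ 3) 0 * JZ K), hc, hc]
      exact Subgroup.mul_mem _ (h0 _) (Subgroup.mul_mem _ (h0 _) (h0 _))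
  exact hle hs

private theorem fin_step (hK : Nat.card K = 8) (h : Ray0 e fA fB) {i : Fin 16} (hi : ∀ t, e i t ∈ sim e) (t : K) : e (i + 2) t ∈ sim e := by
  have h1 := h.wB i t
  have h2 := h.wA (8 - i) t
  have h3 : (10 : Fin 16) - (8 - i) = i + 2 := (by decide : ∀ i : Fin 16, (10 : Fin 16) - (8 - i) = i + 2) i
  rw [h3, ← h1] at h2
  rw [← h2]
  exact Subgroup.mul_mem _ (Subgroup.mul_mem _ (fin_A hK h _) (Subgroup.mul_mem _ (Subgroup.mul_mem _ (fin_B hK h _) (hi t)) (Subgroup.inv_mem _ (fin_B hK h _))))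
    (Subgroup.inv_mem _ (fin_A hK h _))

/-- the rays `1, 9, 8, 0` generate the group -/
theorem sim_eq (hK : Nat.card K = 8) (h : Ray0 e fA fB) : sim e = Subgroup.closure {g : G | ∃ i t, g = e i t} := by
  refine le_antisymm ((Subgroup.closure_le _).2 ?_) ((Subgroup.closure_le _).2 ?_)
  · rintro g ⟨t, rfl | rfl | rfl | rfl⟩
    · exact Subgroup.subset_closure ⟨1, t, rfl⟩
    · exact Subgroup.subset_closure ⟨9, t, rfl⟩
    · exact Subgroup.subset_closure ⟨8, t, rfl⟩
    · exact Subgroup.subset_closure ⟨0, t, rfl⟩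
  · rintro g ⟨i, t, rfl⟩
    have h1 : ∀ t, e 1 t ∈ sim e := fun t => Subgroup.subset_closure ⟨t, Or.inl rfl⟩
    have h0 : ∀ t, e 0 t ∈ sim e := fun t => Subgroup.subset_closure ⟨t, Or.inr (Or.inr (Or.inr rfl))⟩
    have h3 := fin_step hK h h1
    have h5 := fin_step hK h h3
    have h7 := fin_step hK h h5
    have h9 := fin_step hK h h7
    have h11 := fin_step hK h h9
    have h13 := fin_step hK h h11
    have h15 := fin_step hK h h13
    have h2 := fin_step hK h h0
    have h4 := fin_step hK h h2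
    have h6 := fin_step hK h h4
    have h8 := fin_step hK h h6
    have h10 := fin_step hK h h8
    have h12 := fin_step hK h h10
    have h14 := fin_step hK h h12
    fin_cases i
    · exact h0 t
    · exact h1 t
    · exact h2 t
    · exact h3 t
    · exact h4 t
    · exact h5 t
    · exact h6 t
    · exact h7 t
    · exact h8 t
    · exact h9 t
    · exact h10 t
    · exact h11 t
    · exact h12 t
    · exact h13 t
    · exact h14 t
    · exact h15 t

/-- Thompson's conjecture for `²F_4(8)` -/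
theorem mainS {x : Root 6 → K → G} (hK : Nat.card K = 8) (h : ThK.Stb K 6 x) : ∃ w : sim (eG x), ∀ g : sim (eG x), ∃ a b : sim (eG x), IsConj w a ∧ IsConj w b ∧ a * b = g := by
  obtain ⟨f, f1, f2, f3⟩ := exists_fA hK h
  obtain ⟨f', g1, g2, g3⟩ := exists_fB hK h
  have g1' : ∀ t, f'.comp (Sz K).subtype (pZ t 0) = eG x 8 t := g1
  have g2' : f'.comp (Sz K).subtype (JZ K) = nnB x := g2
  have g3' : ∀ b : Kˣ, f'.comp (Sz K).subtype (tZ b) = tBE x b := g3
  have h0 : Ray0 (eG x) f (f'.comp (Sz K).subtype) := by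
    refine ⟨?_, ?_, f1, g1', ?_, ?_, ?_, ?_⟩
    · intro i t
      rw [f2]
      exact wAE hK h i t
    · intro i t
      rw [g2']
      exact wBE hK h i t
    · intro b i t
      rw [f3]
      exact tAE_conj hK h b i t
    · intro b i t
      rw [g3']
      exact tBE_conj hK h b i t
    · intro b c
      rw [f3, g3']
      exact tAE_tBE h b c
    · exact comE hK h
  rw [sim_eq hK h0]
  exact mainE hK h

end Pool.Agent.ThO2
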