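import Pool.Agent.ThO2.Szk
import Pool.Agent.ThO2.Ab3

/-! # The group `²F_4(8)`: sixteen root subgroups, the two nodes (`A`: `SL_2(8)`, ray `1`; `B`: `Sz(8)`, ray `8`), and the theorem

`e i t`, `i : Fin 16` (modulo `16`), `t : K`: the root elements; the opposite of `i` is `i + 8`; the positive rays are `1, .., 8`, the reflections are `i ↦ 10 - i` (node `A`) and `i ↦ 8 - i` (node `B`).
-/

namespace Pool.Agent.ThO2

open ThG

variable {K : Type*} [Field K] {G : Type*} [Group G]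

/-- the characters: `fA (dg b)` acts on `e i t` by `t ↦ b ^ (ca i) * t`, `fB (tZ b)` by `t ↦ b ^ (cb i) * t` -/
def ca (i : Fin 16) : ℕ := (![1, 2, 1, 4, 3, 0, 4, 3, 6, 5, 6, 3, 4, 0, 3, 4] : Fin 16 → ℕ) i

/-- the second character -/
def cb (i : Fin 16) : ℕ := (![6, 4, 5, 5, 0, 2, 2, 3, 1, 3, 2, 2, 0, 5, 5, 4] : Fin 16 → ℕ) i

/-- the subgroup generated by the rays strictly between `i` and `i + k` -/
def Bet (e : Fin 16 → K → G) (i k : Fin 16) : Subgroup G := Subgroup.closure {g | ∃ (l : Fin 16) (s : K), 0 < l ∧ l < k ∧ g = e (i + l) s}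

/-- the data of `²F_4(8)` -/
structure Ray (e : Fin 16 → K → G) (fA : SL2 K →* G) (fB : Sz K →* G) : Prop where
  gen : Subgroup.closure {g : G | ∃ i t, g = e i t} = ⊤
  wA : ∀ i t, fA (nA K) * e i t * (fA (nA K))⁻¹ = e (10 - i) t
  wB : ∀ i t, fB (JZ K) * e i t * (fB (JZ K))⁻¹ = e (8 - i) t
  e1 : ∀ t, fA (up t) = e 1 t
  e8 : ∀ t, fB (pZ t 0) = e 8 t
  tA : ∀ (b : Kˣ) i t, fA (dg b) * e i t * (fA (dg b))⁻¹ = e i ((b : K) ^ ca i * t)
  tB : ∀ (b : Kˣ) i t, fB (tZ b) * e i t * (fB (tZ b))⁻¹ = e i ((b : K) ^ cb i * t)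
  cm : ∀ b c : Kˣ, fA (dg b) * fB (tZ c) = fB (tZ c) * fA (dg b)
  nAt : ∀ b : Kˣ, fA (nA K) * fB (tZ b) * (fA (nA K))⁻¹ = fA (dg (b ^ 3)) * fB (tZ b)
  nBt : ∀ b : Kˣ, fB (JZ K) * fA (dg b) * (fB (JZ K))⁻¹ = fA (dg b) * fB (tZ (b ^ 2))
  com : ∀ i k : Fin 16, 1 ≤ k → k ≤ 7 → ∀ t u, e i t * e (i + k) u * (e i t)⁻¹ * (e (i + k) u)⁻¹ ∈ Bet e i k

/-- the root subgroup -/
def Xg (e : Fin 16 → K → G) (i : Fin 16) : Subgroup G := Subgroup.closure {g | ∃ t, g = e i t}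

/-- the subgroup of the rays `i, i + 1, .., i + k` -/
def Iv (e : Fin 16 → K → G) (i k : Fin 16) : Subgroup G := Subgroup.closure {g | ∃ (l : Fin 16) (s : K), l ≤ k ∧ g = e (i + l) s}

/-- the torus -/
def HH (fA : SL2 K →* G) (fB : Sz K →* G) : Subgroup G := Subgroup.closure {g | ∃ a b : Kˣ, g = fA (dg a) * fB (tZ b)}

/-- the part of the torus that commutes with node `B` (`Sz(8)`) -/
def ZB (fA : SL2 K →* G) (fB : Sz K →* G) : Subgroup G := Subgroup.closure {g | ∃ a : Kˣ, g = fA (dg a) * fB (tZ a)}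

/-- the part of the torus that commutes with node `A` (`SL_2(8)`) -/
def ZA (fA : SL2 K →* G) (fB : Sz K →* G) : Subgroup G := Subgroup.closure {g | ∃ b : Kˣ, g = fA (dg (b ^ 5)) * fB (tZ b)}

variable {e : Fin 16 → K → G} {fA : SL2 K →* G} {fB : Sz K →* G}

-- BEGIN fz
private theorem fz_fin (i : Fin 16) : 10 - (8 - i) = i + 2 := by
  revert i
  decide

/-- ROW fz. Rotation: `c = (fA (nA K) * fB (JZ K)) ^ m` maps the ray `i` to `i + 2 m` (`wB`, `wA`: `10 - (8 - i) = i + 2`) -/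
theorem Ray.rot (h : Ray e fA fB) (i : Fin 16) (t : K) : (fA (nA K) * fB (JZ K)) * e i t * (fA (nA K) * fB (JZ K))⁻¹ = e (i + 2) t := by
  have h1 : (fA (nA K) * fB (JZ K)) * e i t * (fA (nA K) * fB (JZ K))⁻¹ = fA (nA K) * (fB (JZ K) * e i t * (fB (JZ K))⁻¹) * (fA (nA K))⁻¹ := by group
  rw [h1, h.wB, h.wA, fz_fin]

private theorem fz_o1 (i : Fin 16) : (i : ℕ) % 2 = 1 → (1 : Fin 16) + Fin.ofNat 16 (2 * ((i : ℕ) / 2)) = i := by
  revert i
  decide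

private theorem fz_o8 (i : Fin 16) : (i : ℕ) % 2 = 0 → (8 : Fin 16) + Fin.ofNat 16 (2 * ((i : ℕ) / 2 + 4)) = i := by
  revert i
  decide

private theorem fz_step (h : Ray e fA fB) (i : Fin 16) : ∀ m : ℕ, ∃ c : G, ∀ t, e (i + Fin.ofNat 16 (2 * m)) t = c * e i t * c⁻¹ := by
  intro m
  induction m with
  | zero =>
    refine ⟨1, fun t => ?_⟩
    have h0 : i + Fin.ofNat 16 (2 * 0) = i := by
      revert i
      decide
    rw [h0]
    group
  | succ m ih =>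
    obtain ⟨c, hc⟩ := ih
    refine ⟨(fA (nA K) * fB (JZ K)) * c, fun t => ?_⟩
    have h0 : i + Fin.ofNat 16 (2 * (m + 1)) = i + Fin.ofNat 16 (2 * m) + 2 := by
      apply Fin.ext
      simp only [Fin.val_add, Fin.ofNat_eq_cast, Fin.val_natCast]
      have h2 : ((2 : Fin 16) : ℕ) = 2 := rfl
      rw [h2]
      omega
    rw [h0, ← h.rot, hc]
    group

theorem Ray.rot1 (h : Ray e fA fB) {i : Fin 16} (hi : (i : ℕ) % 2 = 1) : ∃ c : G, ∀ t, e i t = c * e 1 t * c⁻¹ := by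
  obtain ⟨c, hc⟩ := fz_step h 1 ((i : ℕ) / 2)
  refine ⟨c, fun t => ?_⟩
  rw [← hc, fz_o1 i hi]

theorem Ray.rot8 (h : Ray e fA fB) {i : Fin 16} (hi : (i : ℕ) % 2 = 0) : ∃ c : G, ∀ t, e i t = c * e 8 t * c⁻¹ := by
  obtain ⟨c, hc⟩ := fz_step h 8 ((i : ℕ) / 2 + 4)
  refine ⟨c, fun t => ?_⟩
  rw [← hc, fz_o8 i hi]
-- END fz

-- BEGIN fa
private theorem fa_inv {W : Subgroup G} {x : G} (h4 : x ^ 4 = 1) (h : ∀ u ∈ W, x * u * x⁻¹ ∈ W) : ∀ u ∈ W, x⁻¹ * u * x ∈ W := by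
  intro u hu
  have h3 : x⁻¹ = x * (x * x) := by
    rw [inv_eq_iff_mul_eq_one, ← h4]
    simp only [pow_succ, pow_zero, one_mul, mul_assoc]
  have h5 := h _ (h _ (h u hu))
  have h6 : x⁻¹ * u * x = x * (x * (x * u * x⁻¹) * x⁻¹) * x⁻¹ := by
    have h7 : x = x⁻¹ * (x⁻¹ * x⁻¹) := by
      have h8 := congrArg (fun y => y⁻¹) h3
      simp only [inv_inv, mul_inv_rev] at h8
      calc x = x⁻¹ * x⁻¹ * x⁻¹ := h8
        _ = x⁻¹ * (x⁻¹ * x⁻¹) := mul_assoc _ _ _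
    calc x⁻¹ * u * x = x * (x * x) * u * (x⁻¹ * (x⁻¹ * x⁻¹)) := by rw [← h7, ← h3]
      _ = x * (x * (x * u * x⁻¹) * x⁻¹) * x⁻¹ := by simp only [mul_assoc]
  rw [h6]
  exact h5

private theorem fa_clo {W : Subgroup G} {S : Set G} (h4 : ∀ x ∈ S, x ^ 4 = 1) (h : ∀ x ∈ S, ∀ u ∈ W, x * u * x⁻¹ ∈ W) {x u : G} (hx : x ∈ Subgroup.closure S) (hu : u ∈ W) : x * u * x⁻¹ ∈ W := by
  have key : ∀ x ∈ Subgroup.closure S, (∀ u ∈ W, x * u * x⁻¹ ∈ W) ∧ (∀ u ∈ W, x⁻¹ * u * x ∈ W) := by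
    intro x hx
    induction hx using Subgroup.closure_induction with
    | mem x hx => exact ⟨h x hx, fa_inv (h4 x hx) (h x hx)⟩
    | one => exact ⟨fun u hu => by simpa using hu, fun u hu => by simpa using hu⟩
    | mul x y _ _ hx hy =>
      refine ⟨fun u hu => ?_, fun u hu => ?_⟩
      · have := hx.1 _ (hy.1 u hu)
        have h2 : x * y * u * (x * y)⁻¹ = x * (y * u * y⁻¹) * x⁻¹ := by group
        rw [h2]
        exact this
      · have := hy.2 _ (hx.2 u hu)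
        have h2 : (x * y)⁻¹ * u * (x * y) = y⁻¹ * (x⁻¹ * u * x) * y := by group
        rw [h2]
        exact this
    | inv x _ hx =>
      refine ⟨fun u hu => ?_, fun u hu => ?_⟩
      · rw [inv_inv]
        exact hx.2 u hu
      · rw [inv_inv]
        exact hx.1 u hu
  exact (key x hx).1 u hu

private theorem fa_gen {W : Subgroup G} {T : Set G} (hW : W = Subgroup.closure T) {x : G} (h : ∀ g ∈ T, x * g * x⁻¹ ∈ W) : ∀ u ∈ W, x * u * x⁻¹ ∈ W := by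
  intro u hu
  rw [hW] at hu
  induction hu using Subgroup.closure_induction with
  | mem g hg => exact h g hg
  | one => simp
  | mul a b _ _ ha hb =>
    have h2 : x * (a * b) * x⁻¹ = (x * a * x⁻¹) * (x * b * x⁻¹) := by group
    rw [h2]
    exact W.mul_mem ha hb
  | inv a _ ha =>
    have h2 : x * a⁻¹ * x⁻¹ = (x * a * x⁻¹)⁻¹ := by group
    rw [h2]
    exact W.inv_mem ha

private theorem fa_p4 (hK : Nat.card K = 8) (t : K) : (pZ t 0) ^ 4 = 1 := by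
  have h2 : (pZ t 0) * (pZ t 0) = pZ 0 (t ^ 5) := by
    apply Subtype.ext
    change pS t 0 * pS t 0 = pS 0 (t ^ 5)
    rw [pS_mul hK, add8 hK]
    congr 1
    ring
  have h3 : (pZ 0 (t ^ 5)) * (pZ 0 (t ^ 5)) = 1 := by
    apply Subtype.ext
    change pS 0 (t ^ 5) * pS 0 (t ^ 5) = 1
    rw [pS_mul hK, add8 hK, add8 hK, ← pS_zero]
    congr 1
    ring
  have h4 : (pZ t 0) ^ 4 = (pZ t 0 * pZ t 0) * (pZ t 0 * pZ t 0) := by
    simp only [pow_succ, pow_zero, one_mul, mul_assoc]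
  rw [h4, h2, h3]

private theorem fa_u4 (hK : Nat.card K = 8) (t : K) : (up t) ^ 4 = 1 := by
  have h4 : (up t) ^ 4 = (up t * up t) * (up t * up t) := by
    simp only [pow_succ, pow_zero, one_mul, mul_assoc]
  rw [h4, ← up_add, add8 hK, up_zero, one_mul]

/-- ROW fa. `e_four`: `rot1`, `rot8`, `e1`, `e8`, `pS_mul`.  Ray `i` normalizes the group of the rays `i + 1, .., i + 1 + k`, `k ≤ 6`: generators: `e i t * e (i + 1 + l) s * (e i t)⁻¹ = [e i t, e (i + (1 + l)) s] * e (i + 1 + l) s`, and `Bet e i (1 + l) ≤ Iv e (i + 1) k` (`com`); closure induction for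
`x` (inverses of generators: `(e i t)⁻¹ = (e i t) ^ 3`, `e_four`) -/
theorem Ray.e_four (hK : Nat.card K = 8) (h : Ray e fA fB) (i : Fin 16) (t : K) : e i t ^ 4 = 1 := by
  rcases Nat.mod_two_eq_zero_or_one (i : ℕ) with hi | hi
  · obtain ⟨c, hc⟩ := h.rot8 hi
    rw [hc t, conj_pow, ← h.e8 t, ← map_pow, fa_p4 hK, map_one, mul_one, mul_inv_cancel]
  · obtain ⟨c, hc⟩ := h.rot1 hi
    rw [hc t, conj_pow, ← h.e1 t, ← map_pow, fa_u4 hK, map_one, mul_one, mul_inv_cancel]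

theorem Ray.left (hK : Nat.card K = 8) (h : Ray e fA fB) {i k : Fin 16} (hk : k ≤ 6) {x u : G} (hx : x ∈ Xg e i) (hu : u ∈ Iv e (i + 1) k) : x * u * x⁻¹ ∈ Iv e (i + 1) k := by
  refine fa_clo (S := {g | ∃ t, g = e i t}) ?_ ?_ hx hu
  · rintro x ⟨t, rfl⟩
    exact h.e_four hK i t
  · rintro x ⟨t, rfl⟩
    refine fa_gen rfl ?_
    rintro g ⟨l, s, hl, rfl⟩
    have h1 : (1 : Fin 16) ≤ 1 + l := by
      rw [Fin.le_def, Fin.val_add] at *
      have : ((1 : Fin 16) : ℕ) = 1 := rfl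
      have : ((6 : Fin 16) : ℕ) = 6 := rfl
      omega
    have h7 : 1 + l ≤ (7 : Fin 16) := by
      rw [Fin.le_def] at *
      rw [Fin.val_add]
      have : ((1 : Fin 16) : ℕ) = 1 := rfl
      have : ((6 : Fin 16) : ℕ) = 6 := rfl
      have : ((7 : Fin 16) : ℕ) = 7 := rfl
      omega
    have h2 := h.com i (1 + l) h1 h7 t s
    have h3 : Bet e i (1 + l) ≤ Iv e (i + 1) k := by
      rw [Bet, Iv, Subgroup.closure_le]
      rintro g ⟨m, s', hm0, hm, rfl⟩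
      apply Subgroup.subset_closure
      refine ⟨m - 1, s', ?_, ?_⟩
      · have ha : ((1 : Fin 16) : ℕ) = 1 := rfl
        have hb : ((6 : Fin 16) : ℕ) = 6 := rfl
        have hc : ((0 : Fin 16) : ℕ) = 0 := rfl
        rw [Fin.le_def] at hl hk ⊢
        rw [Fin.lt_def] at hm0 hm
        rw [Fin.val_add] at hm
        rw [Fin.sub_def]
        change (16 - (1 : Fin 16).val + m.val) % 16 ≤ k.val
        omega
      · congr 1
        abel
    have h4 : e i t * e (i + 1 + l) s * (e i t)⁻¹ = (e i t * e (i + (1 + l)) s * (e i t)⁻¹ * (e (i + (1 + l)) s)⁻¹) * e (i + 1 + l) s := by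
      rw [← add_assoc]
      group
    rw [h4]
    exact (Iv e (i + 1) k).mul_mem (h3 h2) (Subgroup.subset_closure ⟨l, s, hl, rfl⟩)

/-- ray `i + k + 1` normalizes the group of the rays `i, .., i + k`, `k ≤ 6` -/
theorem Ray.right (hK : Nat.card K = 8) (h : Ray e fA fB) {i k : Fin 16} (hk : k ≤ 6) {x u : G} (hx : x ∈ Xg e (i + k + 1)) (hu : u ∈ Iv e i k) : x * u * x⁻¹ ∈ Iv e i k := by
  refine fa_clo (S := {g | ∃ t, g = e (i + k + 1) t}) ?_ ?_ hx hu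
  · rintro x ⟨t, rfl⟩
    exact h.e_four hK _ t
  · rintro x ⟨t, rfl⟩
    refine fa_gen rfl ?_
    rintro g ⟨l, s, hl, rfl⟩
    have ha : ((1 : Fin 16) : ℕ) = 1 := rfl
    have hb : ((6 : Fin 16) : ℕ) = 6 := rfl
    have hc : ((0 : Fin 16) : ℕ) = 0 := rfl
    have hd : ((7 : Fin 16) : ℕ) = 7 := rfl
    have hv : ((k + 1 - l : Fin 16) : ℕ) = (16 - l.val + (k.val + 1) % 16) % 16 := by
      rw [Fin.sub_def]
      change (16 - l.val + (k + 1).val) % 16 = _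
      rw [Fin.val_add, ha]
    have h1 : (1 : Fin 16) ≤ k + 1 - l := by
      rw [Fin.le_def] at *
      omega
    have h7 : k + 1 - l ≤ (7 : Fin 16) := by
      rw [Fin.le_def] at *
      omega
    have h2 := h.com (i + l) (k + 1 - l) h1 h7 s t
    have h5 : i + l + (k + 1 - l) = i + k + 1 := by abel
    rw [h5] at h2
    have h3 : Bet e (i + l) (k + 1 - l) ≤ Iv e i k := by
      rw [Bet, Iv, Subgroup.closure_le]
      rintro g ⟨m, s', hm0, hm, rfl⟩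
      apply Subgroup.subset_closure
      refine ⟨l + m, s', ?_, ?_⟩
      · rw [Fin.le_def] at hl hk ⊢
        rw [Fin.lt_def] at hm0 hm
        rw [Fin.val_add]
        omega
      · congr 1
        abel
    have h4 : e (i + k + 1) t * e (i + l) s * (e (i + k + 1) t)⁻¹ = (e (i + l) s * e (i + k + 1) t * (e (i + l) s)⁻¹ * (e (i + k + 1) t)⁻¹)⁻¹ * e (i + l) s := by
      group
    rw [h4]
    exact (Iv e i k).mul_mem ((Iv e i k).inv_mem (h3 h2)) (Subgroup.subset_closure ⟨l, s, hl, rfl⟩)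
-- END fa

-- BEGIN fb
private theorem fb_split {X W : Subgroup G} {S : Set G} (hS : ∀ g ∈ S, g ∈ X ∨ g ∈ W) (hn : ∀ x ∈ X, ∀ w ∈ W, x * w * x⁻¹ ∈ W) {u : G} (hu : u ∈ Subgroup.closure S) :
    ∃ x ∈ X, ∃ w ∈ W, u = x * w := by
  refine Subgroup.closure_induction (p := fun u _ => ∃ x ∈ X, ∃ w ∈ W, u = x * w) ?_ ?_ ?_ ?_ hu
  · intro g hg
    rcases hS g hg with h | h
    · exact ⟨g, h, 1, W.one_mem, (mul_one g).symm⟩
    · exact ⟨1, X.one_mem, g, h, (one_mul g).symm⟩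
  · exact ⟨1, X.one_mem, 1, W.one_mem, (one_mul 1).symm⟩
  · rintro _ _ _ _ ⟨x, hx, w, hw, rfl⟩ ⟨x', hx', w', hw', rfl⟩
    refine ⟨x * x', X.mul_mem hx hx', x'⁻¹ * w * x'⁻¹⁻¹ * w', W.mul_mem (hn _ (X.inv_mem hx') w hw) hw', ?_⟩
    group
  · rintro _ _ ⟨x, hx, w, hw, rfl⟩
    refine ⟨x⁻¹, X.inv_mem hx, x * w⁻¹ * x⁻¹, hn x hx _ (W.inv_mem hw), ?_⟩
    group

private theorem fb_L : ∀ k l : Fin 16, k ≤ 6 → l ≤ k + 1 → l = 0 ∨ (l - 1 ≤ k ∧ l = 1 + (l - 1)) := by decide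

private theorem fb_R : ∀ k l : Fin 16, k ≤ 6 → l ≤ k + 1 → l ≤ k ∨ l = k + 1 := by decide

/-- ROW fb. Splitting: `k ≤ 6`; the set of the `x * u'` is stable under left multiplication by the generators of `Iv e i (k + 1)` (`Ray.left`) -/
theorem Ray.splitL (hK : Nat.card K = 8) (h : Ray e fA fB) {i k : Fin 16} (hk : k ≤ 6) {u : G} (hu : u ∈ Iv e i (k + 1)) : ∃ x ∈ Xg e i, ∃ u' ∈ Iv e (i + 1) k, u = x * u' := by
  refine fb_split (X := Xg e i) (W := Iv e (i + 1) k) ?_ (fun x hx w hw => Ray.left hK h hk hx hw) hu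
  rintro g ⟨l, s, hl, rfl⟩
  rcases fb_L k l hk hl with h0 | ⟨h1, h2⟩
  · left
    rw [h0, add_zero]
    exact Subgroup.subset_closure ⟨s, rfl⟩
  · right
    rw [h2, ← add_assoc]
    exact Subgroup.subset_closure ⟨l - 1, s, h1, rfl⟩

theorem Ray.splitR (hK : Nat.card K = 8) (h : Ray e fA fB) {i k : Fin 16} (hk : k ≤ 6) {u : G} (hu : u ∈ Iv e i (k + 1)) : ∃ x ∈ Xg e (i + k + 1), ∃ u' ∈ Iv e i k, u = x * u' := by
  refine fb_split (X := Xg e (i + k + 1)) (W := Iv e i k) ?_ (fun x hx w hw => Ray.right hK h hk hx hw) hu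
  rintro g ⟨l, s, hl, rfl⟩
  rcases fb_R k l hk hl with h1 | h1
  · right
    exact Subgroup.subset_closure ⟨l, s, h1, rfl⟩
  · left
    rw [h1, ← add_assoc]
    exact Subgroup.subset_closure ⟨s, rfl⟩
-- END fb

-- BEGIN fc
private theorem fc_nA (hK : Nat.card K = 8) : (nA K).1 = !![0, 1; 1, 0] := by
  have h1 : (1 : K) + 1 = 0 := add8 hK 1
  have h2 : (-1 : K) = 1 := by linear_combination -h1
  show !![(1 : K), 1; 0, 1] * !![(1 : K), 0; -1, 1] * !![(1 : K), 1; 0, 1] = !![0, 1; 1, 0]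
  rw [h2]
  ext i j
  fin_cases i <;> fin_cases j <;> simp [Matrix.mul_apply, Fin.sum_univ_two, h1]

private theorem fc_nn (hK : Nat.card K = 8) : nA K * nA K = 1 := by
  refine Subtype.ext ?_
  show (nA K).1 * (nA K).1 = 1
  rw [fc_nA hK]
  ext i j
  fin_cases i <;> fin_cases j <;> simp [Matrix.mul_apply, Fin.sum_univ_two]

private theorem fc_up (hK : Nat.card K = 8) (t : K) : nA K * up t * nA K = lo t := by
  refine Subtype.ext ?_
  show (nA K).1 * !![(1 : K), t; 0, 1] * (nA K).1 = !![(1 : K), 0; t, 1]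
  rw [fc_nA hK]
  ext i j
  fin_cases i <;> fin_cases j <;> simp [Matrix.mul_apply, Fin.sum_univ_two]

private theorem fc_JJ : JZ K * JZ K = 1 := Subtype.ext JS_JS

private theorem fc_conj {c : G} {i j : Fin 16} (hc : ∀ t, c * e i t * c⁻¹ = e j t) {g : G} (hg : g ∈ Xg e i) : c * g * c⁻¹ ∈ Xg e j := by
  have h : Xg e i ≤ (Xg e j).comap (MulAut.conj c).toMonoidHom := by
    refine (Subgroup.closure_le _).2 ?_
    rintro x ⟨t, rfl⟩
    refine Subgroup.mem_comap.2 ?_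
    show c * e i t * c⁻¹ ∈ Xg e j
    rw [hc]
    exact Subgroup.subset_closure ⟨t, rfl⟩
  exact h hg

/-- ROW fc. The rays `0, 9` at the nodes: `nA * up t * nA⁻¹ = lo (-t)`, `-t = t`; `wA`, `wB` -/
theorem Ray.e9 (hK : Nat.card K = 8) (h : Ray e fA fB) (t : K) : fA (lo t) = e 9 t := by
  have h1 := h.wA 1 t
  rw [← h.e1 t, ← map_inv, ← map_mul, ← map_mul, inv_eq_of_mul_eq_one_right (fc_nn hK), fc_up hK] at h1
  exact h1

theorem Ray.e0 (h : Ray e fA fB) (t : K) : fB (JZ K * pZ t 0 * JZ K) = e 0 t := by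
  have h1 := h.wB 8 t
  rw [← h.e8 t, ← map_inv, ← map_mul, ← map_mul, inv_eq_of_mul_eq_one_right fc_JJ] at h1
  exact h1

/-- `pZ t d = pZ t 0 * pZ 0 d`, `pZ 0 d = pZ (d ^ 3) 0 * pZ (d ^ 3) 0` (`pS_mul`, `pow8`) -/
theorem Ray.mem8 (hK : Nat.card K = 8) (h : Ray e fA fB) {g : G} : g ∈ Xg e 8 ↔ ∃ p ∈ PZ K, g = fB p := by
  constructor
  · intro hg
    have h1 : Xg e 8 ≤ (PZ K).map fB := by
      refine (Subgroup.closure_le _).2 ?_
      rintro x ⟨t, rfl⟩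
      rw [← h.e8 t]
      exact Subgroup.mem_map_of_mem _ (Subgroup.subset_closure ⟨t, 0, rfl⟩)
    obtain ⟨p, hp, rfl⟩ := Subgroup.mem_map.1 (h1 hg)
    exact ⟨p, hp, rfl⟩
  · rintro ⟨p, hp, rfl⟩
    have h1 : PZ K ≤ (Xg e 8).comap fB := by
      refine (Subgroup.closure_le _).2 ?_
      rintro x ⟨t, d, rfl⟩
      refine Subgroup.mem_comap.2 ?_
      have k : ∀ s : K, fB (pZ s 0) ∈ Xg e 8 := fun s => by
        rw [h.e8 s]
        exact Subgroup.subset_closure ⟨s, rfl⟩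
      have e1 : pZ (d ^ 3) 0 * pZ (d ^ 3) 0 = pZ 0 d := by
        refine Subtype.ext ?_
        show pS (d ^ 3) 0 * pS (d ^ 3) 0 = pS 0 d
        rw [pS_mul hK, add8 hK]
        congr 1
        have h8 := pow8 hK d
        linear_combination (d ^ 7 + 1) * h8
      have e2 : pZ t d = pZ t 0 * (pZ (d ^ 3) 0 * pZ (d ^ 3) 0) := by
        rw [e1]
        refine Subtype.ext ?_
        show pS t d = pS t 0 * pS 0 d
        rw [pS_mul hK]
        congr 1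
        · ring
        · ring
      rw [e2, map_mul, map_mul]
      exact (Xg e 8).mul_mem (k t) ((Xg e 8).mul_mem (k _) (k _))
    exact h1 hp

theorem Ray.mem0 (hK : Nat.card K = 8) (h : Ray e fA fB) {g : G} : g ∈ Xg e 0 ↔ ∃ p ∈ PZ K, g = fB (JZ K * p * JZ K) := by
  have hJ : (fB (JZ K))⁻¹ = fB (JZ K) := by
    rw [← map_inv, inv_eq_of_mul_eq_one_right fc_JJ]
  have hJ2 : fB (JZ K) * fB (JZ K) = 1 := by
    rw [← map_mul, fc_JJ, map_one]
  constructor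
  · intro hg
    have h1 := fc_conj (h.wB 0) hg
    obtain ⟨p, hp, hp2⟩ := (h.mem8 hK).1 h1
    refine ⟨p, hp, ?_⟩
    rw [map_mul, map_mul, ← hp2, hJ]
    calc g = (fB (JZ K) * fB (JZ K)) * g * (fB (JZ K) * fB (JZ K)) := by rw [hJ2, one_mul, mul_one]
      _ = _ := by simp only [mul_assoc]
  · rintro ⟨p, hp, rfl⟩
    have h1 := fc_conj (h.wB 8) ((h.mem8 hK).2 ⟨p, hp, rfl⟩)
    rw [hJ] at h1
    rw [map_mul, map_mul]
    exact h1

theorem Ray.mem1 (h : Ray e fA fB) {g : G} : g ∈ Xg e 1 ↔ ∃ p ∈ PA K, g = fA p := by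
  constructor
  · intro hg
    have h1 : Xg e 1 ≤ (PA K).map fA := by
      refine (Subgroup.closure_le _).2 ?_
      rintro x ⟨t, rfl⟩
      rw [← h.e1 t]
      exact Subgroup.mem_map_of_mem _ (Subgroup.subset_closure ⟨t, rfl⟩)
    obtain ⟨p, hp, rfl⟩ := Subgroup.mem_map.1 (h1 hg)
    exact ⟨p, hp, rfl⟩
  · rintro ⟨p, hp, rfl⟩
    have h1 : PA K ≤ (Xg e 1).comap fA := by
      refine (Subgroup.closure_le _).2 ?_
      rintro x ⟨t, rfl⟩
      refine Subgroup.mem_comap.2 ?_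
      rw [h.e1 t]
      exact Subgroup.subset_closure ⟨t, rfl⟩
    exact h1 hp

theorem Ray.mem9 (hK : Nat.card K = 8) (h : Ray e fA fB) {g : G} : g ∈ Xg e 9 ↔ ∃ p ∈ PA K, g = fA (nA K * p * nA K) := by
  have hJ : (fA (nA K))⁻¹ = fA (nA K) := by
    rw [← map_inv, inv_eq_of_mul_eq_one_right (fc_nn hK)]
  have hJ2 : fA (nA K) * fA (nA K) = 1 := by
    rw [← map_mul, fc_nn hK, map_one]
  constructor
  · intro hg
    have h1 := fc_conj (h.wA 9) hg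
    obtain ⟨p, hp, hp2⟩ := h.mem1.1 h1
    refine ⟨p, hp, ?_⟩
    rw [map_mul, map_mul, ← hp2, hJ]
    calc g = (fA (nA K) * fA (nA K)) * g * (fA (nA K) * fA (nA K)) := by rw [hJ2, one_mul, mul_one]
      _ = _ := by simp only [mul_assoc]
  · rintro ⟨p, hp, rfl⟩
    have h1 := fc_conj (h.wA 1) (h.mem1.2 ⟨p, hp, rfl⟩)
    rw [hJ] at h1
    rw [map_mul, map_mul]
    exact h1
-- END fc

-- BEGIN fd
private theorem fd_norm {S : Type*} [Group S] (f : S →* G) (A : Set S) (hA : Subgroup.closure A = ⊤) (W : Subgroup G)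
    (h : ∀ a ∈ A, ∀ u ∈ W, f a * u * (f a)⁻¹ ∈ W ∧ (f a)⁻¹ * u * f a ∈ W) (s : S) : ∀ u ∈ W, f s * u * (f s)⁻¹ ∈ W ∧ (f s)⁻¹ * u * f s ∈ W := by
  have hs : s ∈ Subgroup.closure A := by rw [hA]; exact Subgroup.mem_top s
  induction hs using Subgroup.closure_induction with
  | mem x hx => exact h x hx
  | one =>
    intro u hu
    rw [map_one, inv_one, mul_one, one_mul]
    exact ⟨hu, hu⟩
  | mul x y _ _ ihx ihy =>
    intro u hu
    constructor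
    · have e1 := (ihx _ (ihy u hu).1).1
      have e2 : f (x * y) * u * (f (x * y))⁻¹ = f x * (f y * u * (f y)⁻¹) * (f x)⁻¹ := by rw [map_mul]; group
      rw [e2]
      exact e1
    · have e1 := (ihy _ (ihx u hu).2).2
      have e2 : (f (x * y))⁻¹ * u * f (x * y) = (f y)⁻¹ * ((f x)⁻¹ * u * f x) * f y := by rw [map_mul]; group
      rw [e2]
      exact e1
  | inv x _ ihx =>
    intro u hu
    rw [map_inv, inv_inv]
    exact ⟨(ihx u hu).2, (ihx u hu).1⟩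

private theorem fd_both {X W : Subgroup G} (hX : ∀ x ∈ X, ∀ u ∈ W, x * u * x⁻¹ ∈ W) {x u : G} (hx : x ∈ X) (hu : u ∈ W) : x * u * x⁻¹ ∈ W ∧ x⁻¹ * u * x ∈ W := by
  refine ⟨hX x hx u hu, ?_⟩
  have h1 := hX x⁻¹ (X.inv_mem hx) u hu
  rw [inv_inv] at h1
  exact h1

private theorem fd_A (hK : Nat.card K = 8) (h : Ray e fA fB) {W : Subgroup G} (h1 : ∀ x ∈ Xg e 1, ∀ u ∈ W, x * u * x⁻¹ ∈ W) (h9 : ∀ x ∈ Xg e 9, ∀ u ∈ W, x * u * x⁻¹ ∈ W)
    (s : SL2 K) {u : G} (hu : u ∈ W) : fA s * u * (fA s)⁻¹ ∈ W := by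
  refine (fd_norm fA _ sl2_gen W ?_ s u hu).1
  rintro g ⟨a, rfl | rfl⟩ v hv
  · rw [h.e1]
    exact fd_both h1 (Subgroup.subset_closure ⟨a, rfl⟩) hv
  · rw [h.e9 hK]
    exact fd_both h9 (Subgroup.subset_closure ⟨a, rfl⟩) hv

private theorem fd_B (hK : Nat.card K = 8) (h : Ray e fA fB) {W : Subgroup G} (h8 : ∀ x ∈ Xg e 8, ∀ u ∈ W, x * u * x⁻¹ ∈ W) (h0 : ∀ x ∈ Xg e 0, ∀ u ∈ W, x * u * x⁻¹ ∈ W)
    (s : Sz K) {u : G} (hu : u ∈ W) : fB s * u * (fB s)⁻¹ ∈ W := by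
  refine (fd_norm fB _ (R1.gen2 (r1Z hK)) W ?_ s u hu).1
  rintro g (hg | ⟨p, hp, rfl⟩) v hv
  · exact fd_both h8 ((h.mem8 hK).2 ⟨g, hg, rfl⟩) hv
  · exact fd_both h0 ((h.mem0 hK).2 ⟨p, hp, rfl⟩) hv

/-- ROW fd. Normalization: the set of the `s` with `fA s u (fA s)⁻¹ ∈ W` and `(fA s)⁻¹ u fA s ∈ W` for `u ∈ W` is a subgroup; generators `up t`, `lo t` (`sl2_gen`), resp. `R1.gen2 (r1Z hK)`, `mem8`, `mem0`; `left`, `right` with `10 = 9 + 1`, `i + 8 + 8 = i`. `UA`: rays `2, .., 8`; `VA`: rays `10, .., 16`; `UB`: rays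
`1, .., 7`; `VB`: rays `9, .., 15`. -/
theorem Ray.nUA (hK : Nat.card K = 8) (h : Ray e fA fB) (s : SL2 K) {u : G} (hu : u ∈ Iv e 2 6) : fA s * u * (fA s)⁻¹ ∈ Iv e 2 6 := by
  have e2 : (1 + 1 : Fin 16) = 2 := by decide
  have e9 : (2 + 6 + 1 : Fin 16) = 9 := by decide
  refine fd_A hK h (fun x hx u hu => ?_) (fun x hx u hu => ?_) s hu
  · rw [← e2] at hu ⊢
    exact h.left hK (by decide) hx hu
  · rw [← e9] at hx
    exact h.right hK (by decide) hx hu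

theorem Ray.nVA (hK : Nat.card K = 8) (h : Ray e fA fB) (s : SL2 K) {u : G} (hu : u ∈ Iv e 10 6) : fA s * u * (fA s)⁻¹ ∈ Iv e 10 6 := by
  have e2 : (9 + 1 : Fin 16) = 10 := by decide
  have e9 : (10 + 6 + 1 : Fin 16) = 1 := by decide
  refine fd_A hK h (fun x hx u hu => ?_) (fun x hx u hu => ?_) s hu
  · rw [← e9] at hx
    exact h.right hK (by decide) hx hu
  · rw [← e2] at hu ⊢
    exact h.left hK (by decide) hx hu

theorem Ray.nUB (hK : Nat.card K = 8) (h : Ray e fA fB) (s : Sz K) {u : G} (hu : u ∈ Iv e 1 6) : fB s * u * (fB s)⁻¹ ∈ Iv e 1 6 := by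
  have e2 : (0 + 1 : Fin 16) = 1 := by decide
  have e9 : (1 + 6 + 1 : Fin 16) = 8 := by decide
  refine fd_B hK h (fun x hx u hu => ?_) (fun x hx u hu => ?_) s hu
  · rw [← e9] at hx
    exact h.right hK (by decide) hx hu
  · rw [← e2] at hu ⊢
    exact h.left hK (by decide) hx hu

theorem Ray.nVB (hK : Nat.card K = 8) (h : Ray e fA fB) (s : Sz K) {u : G} (hu : u ∈ Iv e 9 6) : fB s * u * (fB s)⁻¹ ∈ Iv e 9 6 := by
  have e2 : (8 + 1 : Fin 16) = 9 := by decide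
  have e9 : (9 + 6 + 1 : Fin 16) = 0 := by decide
  refine fd_B hK h (fun x hx u hu => ?_) (fun x hx u hu => ?_) s hu
  · rw [← e2] at hu ⊢
    exact h.left hK (by decide) hx hu
  · rw [← e9] at hx
    exact h.right hK (by decide) hx hu
-- END fd

-- BEGIN fe
private theorem fe_hom {A : Type*} [Group A] (F : A → G) (h1 : ∀ a b, F (a * b) = F a * F b) {g : G} : g ∈ Subgroup.closure {g | ∃ a, g = F a} ↔ ∃ a, g = F a := by
  have h0 : F 1 = 1 := by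
    have h2 := h1 1 1
    rw [mul_one] at h2
    exact mul_eq_left.1 h2.symm
  refine ⟨fun hg => ?_, fun hg => Subgroup.subset_closure hg⟩
  induction hg using Subgroup.closure_induction with
  | mem x hx => exact hx
  | one => exact ⟨1, h0.symm⟩
  | mul x y _ _ ihx ihy =>
    obtain ⟨a, rfl⟩ := ihx
    obtain ⟨b, rfl⟩ := ihy
    exact ⟨a * b, (h1 a b).symm⟩
  | inv x _ ihx =>
    obtain ⟨a, rfl⟩ := ihx
    refine ⟨a⁻¹, inv_eq_of_mul_eq_one_right ?_⟩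
    rw [← h1, mul_inv_cancel, h0]

private theorem fe_tZ (b c : Kˣ) : (tZ (b * c) : Sz K) = tZ b * tZ c := Subtype.ext (tS_mul b c)

private theorem fe_mul (h : Ray e fA fB) (a b c d : Kˣ) : fA (dg (a * c)) * fB (tZ (b * d)) = fA (dg a) * fB (tZ b) * (fA (dg c) * fB (tZ d)) := by
  rw [dg_mul, fe_tZ, map_mul, map_mul]
  have e1 := h.cm c b
  calc fA (dg a) * fA (dg c) * (fB (tZ b) * fB (tZ d)) = fA (dg a) * (fA (dg c) * fB (tZ b)) * fB (tZ d) := by group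
    _ = _ := by rw [e1]; group

private theorem fe_act (h : Ray e fA fB) (a b : Kˣ) (i : Fin 16) (t : K) : (fA (dg a) * fB (tZ b)) * e i t * (fA (dg a) * fB (tZ b))⁻¹ = e i ((a : K) ^ ca i * ((b : K) ^ cb i * t)) := by
  rw [← h.tA, ← h.tB]
  group

/-- ROW fe. The torus: `cm`, `dg_mul`, `tS_mul` -/
theorem Ray.mem_HH (h : Ray e fA fB) {g : G} : g ∈ HH fA fB ↔ ∃ a b : Kˣ, g = fA (dg a) * fB (tZ b) := by
  have h1 : {g : G | ∃ a b : Kˣ, g = fA (dg a) * fB (tZ b)} = {g : G | ∃ p : Kˣ × Kˣ, g = fA (dg p.1) * fB (tZ p.2)} := by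
    ext g
    constructor
    · rintro ⟨a, b, rfl⟩
      exact ⟨(a, b), rfl⟩
    · rintro ⟨p, rfl⟩
      exact ⟨p.1, p.2, rfl⟩
  unfold HH
  rw [h1, fe_hom (A := Kˣ × Kˣ) (fun p => fA (dg p.1) * fB (tZ p.2)) (fun p q => fe_mul h p.1 p.2 q.1 q.2)]
  constructor
  · rintro ⟨p, rfl⟩
    exact ⟨p.1, p.2, rfl⟩
  · rintro ⟨a, b, rfl⟩
    exact ⟨(a, b), rfl⟩

theorem Ray.mem_ZB (h : Ray e fA fB) {g : G} : g ∈ ZB fA fB ↔ ∃ a : Kˣ, g = fA (dg a) * fB (tZ a) :=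
  fe_hom (fun a : Kˣ => fA (dg a) * fB (tZ a)) (fun a b => fe_mul h a a b b)

theorem Ray.mem_ZA (h : Ray e fA fB) {g : G} : g ∈ ZA fA fB ↔ ∃ b : Kˣ, g = fA (dg (b ^ 5)) * fB (tZ b) :=
  fe_hom (fun b : Kˣ => fA (dg (b ^ 5)) * fB (tZ b)) (fun a b => by
    show fA (dg ((a * b) ^ 5)) * fB (tZ (a * b)) = _
    rw [mul_pow]
    exact fe_mul h _ _ _ _)

/-- `tA`, `tB` -/
theorem Ray.hIv (h : Ray e fA fB) (i k : Fin 16) {g u : G} (hg : g ∈ HH fA fB) (hu : u ∈ Iv e i k) : g * u * g⁻¹ ∈ Iv e i k := by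
  obtain ⟨a, b, rfl⟩ := h.mem_HH.1 hg
  unfold Iv at hu
  induction hu using Subgroup.closure_induction with
  | mem x hx =>
    obtain ⟨l, s, hl, rfl⟩ := hx
    rw [fe_act h]
    exact Subgroup.subset_closure ⟨l, _, hl, rfl⟩
  | one =>
    rw [mul_one, mul_inv_cancel]
    exact Subgroup.one_mem _
  | mul x y _ _ ihx ihy =>
    have e1 : ∀ z : G, z * (x * y) * z⁻¹ = z * x * z⁻¹ * (z * y * z⁻¹) := fun z => by group
    rw [e1]
    exact Subgroup.mul_mem _ ihx ihy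
  | inv x _ ihx =>
    have e1 : ∀ z : G, z * x⁻¹ * z⁻¹ = (z * x * z⁻¹)⁻¹ := fun z => by group
    rw [e1]
    exact Subgroup.inv_mem _ ihx

private theorem fe_cm {A : Set G} {z u : G} (h : ∀ a ∈ A, z * a = a * z) (hu : u ∈ Subgroup.closure A) : z * u = u * z := by
  induction hu using Subgroup.closure_induction with
  | mem x hx => exact h x hx
  | one => rw [mul_one, one_mul]
  | mul x y _ _ ihx ihy => rw [← mul_assoc, ihx, mul_assoc, ihy, mul_assoc]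
  | inv x _ ihx => exact (Commute.inv_right (show Commute z x from ihx)).eq

private theorem fe_cmS {S : Type*} [Group S] (f : S →* G) {A : Set S} (hA : Subgroup.closure A = ⊤) {z : G} (h : ∀ a ∈ A, z * f a = f a * z) (s : S) : z * f s = f s * z := by
  have hs : s ∈ Subgroup.closure A := by rw [hA]; exact Subgroup.mem_top s
  induction hs using Subgroup.closure_induction with
  | mem x hx => exact h x hx
  | one => rw [map_one, mul_one, one_mul]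
  | mul x y _ _ ihx ihy => rw [map_mul, ← mul_assoc, ihx, mul_assoc, ihy, mul_assoc]
  | inv x _ ihx =>
    rw [map_inv]
    exact (Commute.inv_right (show Commute z (f x) from ihx)).eq

private theorem fe_one (h : Ray e fA fB) {a b : Kˣ} {i : Fin 16} (hab : (a : K) ^ ca i * (b : K) ^ cb i = 1) {x : G} (hx : x ∈ Xg e i) :
    (fA (dg a) * fB (tZ b)) * x = x * (fA (dg a) * fB (tZ b)) := by
  refine fe_cm ?_ hx
  rintro y ⟨t, rfl⟩
  have e1 := fe_act h a b i t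
  rw [← mul_assoc, hab, one_mul, mul_inv_eq_iff_eq_mul] at e1
  exact e1

/-- the element commutes with `e 8 t` (`ca 8 + cb 8 = 7`, `unit7`) and `e 0 t` (`ca 0 + cb 0 = 7`); `R1.gen2 (r1Z hK)`, `mem8`, `mem0` -/
theorem Ray.ZBc (hK : Nat.card K = 8) (h : Ray e fA fB) {z : G} (hz : z ∈ ZB fA fB) (s : Sz K) : z * fB s = fB s * z := by
  obtain ⟨a, rfl⟩ := h.mem_ZB.1 hz
  have h7 : (a : K) ^ 7 = 1 := by rw [← Units.val_pow_eq_pow_val, unit7 hK, Units.val_one]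
  refine fe_cmS fB (R1.gen2 (r1Z hK)) ?_ s
  rintro g (hg | ⟨p, hp, rfl⟩)
  · refine fe_one h ?_ ((h.mem8 hK).2 ⟨g, hg, rfl⟩)
    show (a : K) ^ 6 * (a : K) ^ 1 = 1
    rw [← pow_add]
    exact h7
  · refine fe_one h ?_ ((h.mem0 hK).2 ⟨p, hp, rfl⟩)
    show (a : K) ^ 1 * (a : K) ^ 6 = 1
    rw [← pow_add]
    exact h7

/-- `5 * ca 1 + cb 1 = 14`, `5 * ca 9 + cb 9 = 28`; `sl2_gen` -/
theorem Ray.ZAc (hK : Nat.card K = 8) (h : Ray e fA fB) {z : G} (hz : z ∈ ZA fA fB) (s : SL2 K) : z * fA s = fA s * z := by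
  obtain ⟨a, rfl⟩ := h.mem_ZA.1 hz
  have h7 : (a : K) ^ 7 = 1 := by rw [← Units.val_pow_eq_pow_val, unit7 hK, Units.val_one]
  refine fe_cmS fA sl2_gen ?_ s
  rintro g ⟨t, rfl | rfl⟩
  · rw [h.e1]
    refine fe_one h ?_ (Subgroup.subset_closure ⟨t, rfl⟩)
    show ((a ^ 5 : Kˣ) : K) ^ 2 * (a : K) ^ 4 = 1
    rw [Units.val_pow_eq_pow_val, ← pow_mul, ← pow_add]
    show (a : K) ^ (7 * 2) = 1
    rw [pow_mul, h7, one_pow]
  · rw [h.e9 hK]
    refine fe_one h ?_ (Subgroup.subset_closure ⟨t, rfl⟩)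
    show ((a ^ 5 : Kˣ) : K) ^ 5 * (a : K) ^ 3 = 1
    rw [Units.val_pow_eq_pow_val, ← pow_mul, ← pow_add]
    show (a : K) ^ (7 * 4) = 1
    rw [pow_mul, h7, one_pow]
-- END fe

-- BEGIN ff
private theorem ff_X (i k : Fin 16) {l j : Fin 16} (hl : l ≤ k) (hj : i + l = j) : Xg e j ≤ Iv e i k := by
  refine (Subgroup.closure_le _).2 ?_
  rintro g ⟨t, rfl⟩
  exact Subgroup.subset_closure ⟨l, t, hl, by rw [hj]⟩

private theorem ff_I {i k j m : Fin 16} (hj : ∀ l : Fin 16, l ≤ m → ∃ l' : Fin 16, l' ≤ k ∧ j + l = i + l') : Iv e j m ≤ Iv e i k := by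
  refine (Subgroup.closure_le _).2 ?_
  rintro g ⟨l, t, hl, rfl⟩
  obtain ⟨l', h1, h2⟩ := hj l hl
  exact Subgroup.subset_closure ⟨l', t, h1, by rw [h2]⟩

private theorem ff_Hc (h : Ray e fA fB) : ∀ a ∈ HH fA fB, ∀ b ∈ HH fA fB, a * b = b * a := by
  intro g hg g' hg'
  obtain ⟨a, b, rfl⟩ := h.mem_HH.1 hg
  obtain ⟨c, d, rfl⟩ := h.mem_HH.1 hg'
  have e1 : ∀ b c : Kˣ, (tZ b : Sz K) * tZ c = tZ (b * c) := fun b c => (Subtype.ext (tS_mul b c)).symm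
  calc fA (dg a) * fB (tZ b) * (fA (dg c) * fB (tZ d)) = fA (dg a) * (fB (tZ b) * fA (dg c)) * fB (tZ d) := by group
    _ = fA (dg a * dg c) * fB (tZ b * tZ d) := by rw [← h.cm, map_mul, map_mul]; group
    _ = fA (dg c * dg a) * fB (tZ d * tZ b) := by rw [← dg_mul, ← dg_mul, e1, e1, mul_comm a c, mul_comm b d]
    _ = fA (dg c) * (fA (dg a) * fB (tZ d)) * fB (tZ b) := by rw [map_mul, map_mul]; group
    _ = _ := by rw [h.cm]; group

/-- ROW ff. The node `B`.  `sU`: `splitR` (`Iv e 1 7`), `mem8`; `sV`: `splitR` for `Iv e 9 7`, `9 + 6 + 1 = 0`, `mem0`; `HTZ`: `fA (dg a) * fB (tZ b) = fB (tZ (b * a⁻¹)) * (fA (dg a) * fB (tZ a))` -/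
theorem Ray.ndB (hK : Nat.card K = 8) (h : Ray e fA fB) : Nd (PZ K) (TZ K) (JZ K) fB (HH fA fB) (Iv e 1 7) (Iv e 9 7) (ZB fA fB) (Iv e 1 6) (Iv e 9 6) := by
  exact {
    r1 := r1Z hK
    nU := fun s u hu => h.nUB hK s hu
    nV := fun s u hu => h.nVB hK s hu
    hU := fun g hg u hu => h.hIv 1 6 hg hu
    hV := fun g hg u hu => h.hIv 9 6 hg hu
    UiU := ff_I (by decide)
    ViV := ff_I (by decide)
    pU := fun p hp => ff_X 1 7 (l := 7) (j := 8) (by decide) (by decide) ((h.mem8 hK).2 ⟨p, hp, rfl⟩)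
    qV := fun p hp => ff_X 9 7 (l := 7) (j := 0) (by decide) (by decide) ((h.mem0 hK).2 ⟨p, hp, rfl⟩)
    sU := fun u hu => by
      have e7 : (6 + 1 : Fin 16) = 7 := by decide
      have e8 : (1 + 6 + 1 : Fin 16) = 8 := by decide
      rw [← e7] at hu
      obtain ⟨x, hx, u', hu', rfl⟩ := h.splitR hK (by decide) hu
      rw [e8] at hx
      obtain ⟨p, hp, rfl⟩ := (h.mem8 hK).1 hx
      exact ⟨p, hp, u', hu', rfl⟩
    sV := fun u hu => by
      have e7 : (6 + 1 : Fin 16) = 7 := by decide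
      have e8 : (9 + 6 + 1 : Fin 16) = 0 := by decide
      rw [← e7] at hu
      obtain ⟨x, hx, u', hu', rfl⟩ := h.splitR hK (by decide) hu
      rw [e8] at hx
      obtain ⟨p, hp, rfl⟩ := (h.mem0 hK).1 hx
      exact ⟨p, hp, u', hu', rfl⟩
    TH := fun t ht => by
      obtain ⟨b, rfl⟩ := mem_TZ.1 ht
      exact h.mem_HH.2 ⟨1, b, by rw [dg_one, map_one, one_mul]⟩
    ZH := fun z hz => by
      obtain ⟨a, rfl⟩ := h.mem_ZB.1 hz
      exact h.mem_HH.2 ⟨a, a, rfl⟩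
    Zc := fun z hz s => h.ZBc hK hz s
    HTZ := fun g hg => by
      obtain ⟨a, b, rfl⟩ := h.mem_HH.1 hg
      refine ⟨tZ (b * a⁻¹), mem_TZ.2 ⟨_, rfl⟩, fA (dg a) * fB (tZ a), h.mem_ZB.2 ⟨a, rfl⟩, ?_⟩
      have e1 : (tZ b : Sz K) = tZ (b * a⁻¹) * tZ a := by
        refine Subtype.ext ?_
        have e2 := tS_mul (b * a⁻¹) a
        rw [inv_mul_cancel_right] at e2
        exact e2
      rw [e1, map_mul, ← mul_assoc, ← mul_assoc, h.cm]
    Hc := ff_Hc h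
  }

/-- The node `A`.  `sU`: `splitL` (`Iv e 1 7`), `mem1`; `sV`: `splitL` for `Iv e 9 7`, `mem9`; `HTZ`: `fA (dg a) * fB (tZ b) = fA (dg (a * (b ^ 5)⁻¹)) * (fA (dg (b ^ 5)) * fB (tZ b))` -/
theorem Ray.ndA (hK : Nat.card K = 8) (h : Ray e fA fB) : Nd (PA K) (TA K) (nA K) fA (HH fA fB) (Iv e 1 7) (Iv e 9 7) (ZA fA fB) (Iv e 2 6) (Iv e 10 6) := by
  exact {
    r1 := r1A hK
    nU := fun s u hu => h.nUA hK s hu
    nV := fun s u hu => h.nVA hK s hu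
    hU := fun g hg u hu => h.hIv 2 6 hg hu
    hV := fun g hg u hu => h.hIv 10 6 hg hu
    UiU := ff_I (by decide)
    ViV := ff_I (by decide)
    pU := fun p hp => ff_X 1 7 (l := 0) (j := 1) (by decide) (by decide) (h.mem1.2 ⟨p, hp, rfl⟩)
    qV := fun p hp => ff_X 9 7 (l := 0) (j := 9) (by decide) (by decide) ((h.mem9 hK).2 ⟨p, hp, rfl⟩)
    sU := fun u hu => by
      have e7 : (6 + 1 : Fin 16) = 7 := by decide
      have e8 : (1 + 1 : Fin 16) = 2 := by decide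
      rw [← e7] at hu
      obtain ⟨x, hx, u', hu', rfl⟩ := h.splitL hK (by decide) hu
      rw [e8] at hu'
      obtain ⟨p, hp, rfl⟩ := h.mem1.1 hx
      exact ⟨p, hp, u', hu', rfl⟩
    sV := fun u hu => by
      have e7 : (6 + 1 : Fin 16) = 7 := by decide
      have e8 : (9 + 1 : Fin 16) = 10 := by decide
      rw [← e7] at hu
      obtain ⟨x, hx, u', hu', rfl⟩ := h.splitL hK (by decide) hu
      rw [e8] at hu'
      obtain ⟨p, hp, rfl⟩ := (h.mem9 hK).1 hx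
      exact ⟨p, hp, u', hu', rfl⟩
    TH := fun t ht => by
      obtain ⟨b, rfl⟩ := mem_TA.1 ht
      have e1 : (tZ 1 : Sz K) = 1 := Subtype.ext tS_one
      exact h.mem_HH.2 ⟨b, 1, by rw [e1, map_one, mul_one]⟩
    ZH := fun z hz => by
      obtain ⟨a, rfl⟩ := h.mem_ZA.1 hz
      exact h.mem_HH.2 ⟨a ^ 5, a, rfl⟩
    Zc := fun z hz s => h.ZAc hK hz s
    HTZ := fun g hg => by
      obtain ⟨a, b, rfl⟩ := h.mem_HH.1 hg
      refine ⟨dg (a * (b ^ 5)⁻¹), mem_TA.2 ⟨_, rfl⟩, fA (dg (b ^ 5)) * fB (tZ b), h.mem_ZA.2 ⟨b, rfl⟩, ?_⟩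
      rw [← mul_assoc, ← map_mul, ← dg_mul, inv_mul_cancel_right]
    Hc := ff_Hc h
  }
-- END ff

/-- the elements `≠ 1` of the root subgroup -/
def Xs (e : Fin 16 → K → G) (i : Fin 16) : Set G := {g | g ∈ Xg e i ∧ g ≠ 1}

/-- the two nodes: `true` = `A`, `false` = `B` -/
def StR (fA : SL2 K →* G) (fB : Sz K →* G) (e : Fin 16 → K → G) : Bool → G → Prop
  | true => Stt fA (ZA fA fB) (Iv e 2 6) (Iv e 10 6)
  | false => Stt fB (ZB fA fB) (Iv e 1 6) (Iv e 9 6)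

-- BEGIN fg
private theorem fg_succ : ∀ k : ℕ, k < 15 → Fin.ofNat 16 (k + 1) = Fin.ofNat 16 k + 1 := by
  decide

private theorem fg_le6 : ∀ k : ℕ, k < 7 → Fin.ofNat 16 k ≤ (6 : Fin 16) := by
  decide

private theorem fg_val {k : ℕ} (hk : k < 16) : ((Fin.ofNat 16 k : Fin 16) : ℕ) = k :=
  Nat.mod_eq_of_lt hk

omit [Field K] in
private theorem fg_zero {j : Fin 16} {u : G} (hu : u ∈ Iv e j 0) : u ∈ Xg e j := by
  refine Subgroup.closure_mono ?_ hu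
  rintro g ⟨l, s, hl, rfl⟩
  have h0 : l = 0 := Fin.le_zero_iff.1 hl
  exact ⟨s, by rw [h0, add_zero]⟩

private theorem fg_nat (hK : Nat.card K = 8) (h : Ray e fA fB) (i : Fin 16) (k : ℕ) : ∀ a : ℕ, k ≤ 7 → a + k ≤ 8 → ∀ u ∈ Iv e (i + Fin.ofNat 16 a) (Fin.ofNat 16 k),
    ∃ L : List (Fin 16 × G), (L.map Prod.fst).Nodup ∧ (∀ p ∈ L, (a ≤ (p.1 : ℕ) ∧ (p.1 : ℕ) ≤ a + k) ∧ p.2 ∈ Xs e (i + p.1)) ∧ u = (L.map Prod.snd).prod := by
  induction k with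
  | zero =>
    intro a _ ha u hu
    have hx : u ∈ Xg e (i + Fin.ofNat 16 a) := fg_zero hu
    by_cases h1 : u = 1
    · exact ⟨[], by simp, by simp, by simp [h1]⟩
    · refine ⟨[(Fin.ofNat 16 a, u)], by simp, ?_, by simp⟩
      intro p hp
      rw [List.mem_singleton] at hp
      subst hp
      have hv : ((Fin.ofNat 16 a : Fin 16) : ℕ) = a := fg_val (by omega)
      refine ⟨⟨?_, ?_⟩, hx, h1⟩
      · exact hv.ge
      · exact hv.le
  | succ k ih =>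
    intro a hk7 ha u hu
    rw [fg_succ k (by omega)] at hu
    obtain ⟨x, hx, u', hu', rfl⟩ := Ray.splitL hK h (fg_le6 k (by omega)) hu
    have e1 : i + Fin.ofNat 16 a + 1 = i + Fin.ofNat 16 (a + 1) := by
      rw [fg_succ a (by omega), add_assoc]
    rw [e1] at hu'
    obtain ⟨L, hL1, hL2, hL3⟩ := ih (a + 1) (by omega) (by omega) u' hu'
    by_cases h1 : x = 1
    · refine ⟨L, hL1, ?_, ?_⟩
      · intro p hp
        obtain ⟨⟨q1, q2⟩, q3⟩ := hL2 p hp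
        exact ⟨⟨by omega, by omega⟩, q3⟩
      · rw [h1, one_mul]
        exact hL3
    · have hv : ((Fin.ofNat 16 a : Fin 16) : ℕ) = a := fg_val (by omega)
      refine ⟨(Fin.ofNat 16 a, x) :: L, ?_, ?_, ?_⟩
      · rw [List.map_cons, List.nodup_cons]
        refine ⟨?_, hL1⟩
        intro hm
        obtain ⟨p, hp, hp2⟩ := List.mem_map.1 hm
        obtain ⟨⟨q1, _⟩, _⟩ := hL2 p hp
        rw [hp2] at q1
        change a + 1 ≤ ((Fin.ofNat 16 a : Fin 16) : ℕ) at q1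
        omega
      · intro p hp
        rcases List.mem_cons.1 hp with rfl | hp
        · refine ⟨⟨?_, ?_⟩, hx, h1⟩
          · exact hv.ge
          · change ((Fin.ofNat 16 a : Fin 16) : ℕ) ≤ a + (k + 1)
            omega
        · obtain ⟨⟨q1, q2⟩, q3⟩ := hL2 p hp
          exact ⟨⟨by omega, by omega⟩, q3⟩
      · rw [List.map_cons, List.prod_cons, ← hL3]

/-- ROW fg. Normal form: repeated `splitL`, drop the trivial factors (seven steps, or induction over the length) -/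
theorem Ray.nf (hK : Nat.card K = 8) (h : Ray e fA fB) (i : Fin 16) {u : G} (hu : u ∈ Iv e (i + 1) 7) :
    ∃ L : List (Fin 16 × G), (L.map Prod.fst).Nodup ∧ (∀ p ∈ L, (1 ≤ p.1 ∧ p.1 ≤ 8) ∧ p.2 ∈ Xs e (i + p.1)) ∧ u = (L.map Prod.snd).prod := by
  obtain ⟨L, h1, h2, h3⟩ := fg_nat hK h i 7 1 le_rfl le_rfl u hu
  refine ⟨L, h1, ?_, h3⟩
  intro p hp
  obtain ⟨⟨q1, q2⟩, q3⟩ := h2 p hp
  exact ⟨⟨Fin.le_def.2 q1, Fin.le_def.2 q2⟩, q3⟩
-- END fg

-- BEGIN fh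
private theorem fh_conj {w : G} {i j : Fin 16} (hw : ∀ t, w * e i t * w⁻¹ = e j t) {g : G} (hg : g ∈ Xs e i) : w * g * w⁻¹ ∈ Xs e j := by
  refine ⟨?_, ?_⟩
  · have h1 : g ∈ Xg e i := hg.1
    unfold Xg at h1
    refine Subgroup.closure_induction (p := fun x _ => w * x * w⁻¹ ∈ Xg e j) ?_ ?_ ?_ ?_ h1
    · rintro x ⟨t, rfl⟩
      rw [hw t]
      exact Subgroup.subset_closure ⟨t, rfl⟩
    · rw [mul_one, mul_inv_cancel]
      exact Subgroup.one_mem _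
    · intro x y _ _ hx hy
      have h2 : w * (x * y) * w⁻¹ = (w * x * w⁻¹) * (w * y * w⁻¹) := by group
      rw [h2]
      exact Subgroup.mul_mem _ hx hy
    · intro x _ hx
      have h2 : w * x⁻¹ * w⁻¹ = (w * x * w⁻¹)⁻¹ := by group
      rw [h2]
      exact Subgroup.inv_mem _ hx
  · intro h1
    apply hg.2
    have h2 : g = w⁻¹ * (w * g * w⁻¹) * w := by group
    rw [h2, h1]
    group

private theorem fh_sub {i k l j : Fin 16} (hl : l ≤ k) (hj : j = i + l) {g : G} (hg : g ∈ Xg e j) : g ∈ Iv e i k := by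
  subst hj
  unfold Xg at hg
  refine Subgroup.closure_mono ?_ hg
  rintro x ⟨t, rfl⟩
  exact ⟨l, t, hl, rfl⟩

private theorem fh_le {i k i' k' d : Fin 16} (hd : ∀ l : Fin 16, l ≤ k → l + d ≤ k' ∧ i + l = i' + (l + d)) : Iv e i k ≤ Iv e i' k' := by
  refine (Subgroup.closure_le _).2 ?_
  rintro x ⟨l, s, hl, rfl⟩
  obtain ⟨h1, h2⟩ := hd l hl
  exact Subgroup.subset_closure ⟨l + d, s, h1, by rw [h2]⟩

private theorem fh_ne {S : Type*} [Group S] (f : S →* G) {p : S} {g : G} (hg : g ≠ 1) (h : g = f p) : p ≠ 1 := by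
  rintro rfl
  exact hg (by rw [h, map_one])

private theorem fh_ne2 {S : Type*} [Group S] (f : S →* G) {p n : S} (hn : n * n = 1) {g : G} (hg : g ≠ 1) (h : g = f (n * p * n)) : p ≠ 1 := by
  rintro rfl
  exact hg (by rw [h, mul_one, hn, map_one])

private theorem fh_inv {S : Type*} [Group S] {n t : S} (hn : n * n = 1) (h : n * t * n = t⁻¹) : n * t * n⁻¹ = t⁻¹ := by
  rw [← eq_inv_of_mul_eq_one_left hn]
  exact h

private theorem fh_nhA (hK : Nat.card K = 8) (h : Ray e fA fB) {g : G} (hg : g ∈ HH fA fB) : fA (nA K) * g * (fA (nA K))⁻¹ ∈ HH fA fB := by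
  obtain ⟨a, b, rfl⟩ := (Ray.mem_HH h).1 hg
  have h1 : fA (nA K) * fA (dg a) * (fA (nA K))⁻¹ = fA (dg a)⁻¹ := by
    rw [← map_inv, ← map_mul, ← map_mul, fh_inv (r1A hK).nn ((r1A hK).nt (dg a) (mem_TA.2 ⟨a, rfl⟩))]
  have h2 : fA (nA K) * (fA (dg a) * fB (tZ b)) * (fA (nA K))⁻¹ = (fA (nA K) * fA (dg a) * (fA (nA K))⁻¹) * (fA (nA K) * fB (tZ b) * (fA (nA K))⁻¹) := by group
  rw [h2, h1, h.nAt b]
  have h3 : (fA (dg a)⁻¹ : G) ∈ HH fA fB := by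
    rw [map_inv]
    refine Subgroup.inv_mem _ ((Ray.mem_HH h).2 ⟨a, 1, ?_⟩)
    have h4 : (tZ (1 : Kˣ) : Sz K) = 1 := Subtype.ext tS_one
    rw [h4, map_one, mul_one]
  exact Subgroup.mul_mem _ h3 ((Ray.mem_HH h).2 ⟨b ^ 3, b, rfl⟩)

private theorem fh_nhB (hK : Nat.card K = 8) (h : Ray e fA fB) {g : G} (hg : g ∈ HH fA fB) : fB (JZ K) * g * (fB (JZ K))⁻¹ ∈ HH fA fB := by
  obtain ⟨a, b, rfl⟩ := (Ray.mem_HH h).1 hg
  have h1 : fB (JZ K) * fB (tZ b) * (fB (JZ K))⁻¹ = fB (tZ b)⁻¹ := by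
    rw [← map_inv, ← map_mul, ← map_mul, fh_inv (r1Z hK).nn ((r1Z hK).nt (tZ b) (mem_TZ.2 ⟨b, rfl⟩))]
  have h2 : fB (JZ K) * (fA (dg a) * fB (tZ b)) * (fB (JZ K))⁻¹ = (fB (JZ K) * fA (dg a) * (fB (JZ K))⁻¹) * (fB (JZ K) * fB (tZ b) * (fB (JZ K))⁻¹) := by group
  rw [h2, h1, h.nBt a]
  have h3 : (fB (tZ b)⁻¹ : G) ∈ HH fA fB := by
    rw [map_inv]
    refine Subgroup.inv_mem _ ((Ray.mem_HH h).2 ⟨1, b, ?_⟩)
    have h4 : (dg (1 : Kˣ) : SL2 K) = 1 := by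
      have h5 : (dg (1 : Kˣ) : SL2 K) * dg (1 : Kˣ) = dg (1 : Kˣ) := by rw [← dg_mul, one_mul]
      exact mul_eq_left.1 h5
    rw [h4, map_one, one_mul]
  exact Subgroup.mul_mem _ ((Ray.mem_HH h).2 ⟨a, a ^ 2, rfl⟩) h3

/-- ROW fh. The axioms `Let` (heights `min (r - 1) (8 - r)`).  `nfU`: `nf` with `i = 0`; `nfV`: `nf` with `i = 8`; `nX`, `nY`: `wA`, `wB` (`10 - (r + 8) = (10 - r) + 8` in `Fin 16`); `wp`, `wi`, `wh`: `decide`; `XU`: `r ≠ 1`, `1 ≤ r ≤ 8`: `r = 2 + l`, `l ≤ 6`;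
`aU`, `aV`: `left`, `right` or `nUA` ..; `su`, `sv`: `NS.of_u`, `NS.of_v` for `ndA`, `ndB` with `mem1`, `mem8`, `mem9`, `mem0`; `nh`: `nAt`, `nBt`, `fA (nA K) * fA (dg a) * (fA (nA K))⁻¹ = fA (dg a⁻¹)`, `JS_tS`. -/
theorem Ray.lt (hK : Nat.card K = 8) (h : Ray e fA fB) : Let (ι := Bool) (R := Fin 16) (StR fA fB e) (HH fA fB) (Iv e 1 7) (Iv e 9 7) (fun i => if i then Iv e 2 6 else Iv e 1 6) (fun i => if i then Iv e 10 6 else Iv e 9 6)
    (fun r => 1 ≤ r ∧ r ≤ 8) (fun r => min ((r : ℕ) - 1) (8 - (r : ℕ))) (fun i => if i then 1 else 8) (fun i r => if i then 10 - r else 8 - r) (fun i => if i then fA (nA K) else fB (JZ K)) (Xs e) (fun r => Xs e (r + 8)) := by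
  have hA := Ray.ndA hK h
  have hB := Ray.ndB hK h
  refine ⟨?_, ?_, ?_, ?_, ?_, ?_, ?_, ?_, ?_, ?_, ?_, ?_, ?_, ?_, ?_, ?_, ?_, ?_⟩
  · -- nfU
    intro u hu
    obtain ⟨L, h1, h2, h3⟩ := Ray.nf hK h 0 (u := u) (by rw [zero_add]; exact hu)
    refine ⟨L, h1, ?_, h3⟩
    intro p hp
    have h4 := h2 p hp
    rw [zero_add] at h4
    exact h4
  · -- nfV
    intro u hu
    have h0 : (8 : Fin 16) + 1 = 9 := rfl
    obtain ⟨L, h1, h2, h3⟩ := Ray.nf hK h 8 (u := u) (by rw [h0]; exact hu)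
    refine ⟨L, h1, ?_, h3⟩
    intro p hp
    have h4 := h2 p hp
    rw [add_comm] at h4
    exact h4
  · -- nX
    intro i r _ _ g hg
    cases i
    · exact fh_conj (fun t => h.wB r t) hg
    · exact fh_conj (fun t => h.wA r t) hg
  · -- nY
    intro i r _ _ g hg
    have hg' : g ∈ Xs e (r + 8) := hg
    cases i
    · have h1 : ∀ r : Fin 16, (8 : Fin 16) - (r + 8) = 8 - r + 8 := by decide
      have h2 := fh_conj (fun t => h.wB (r + 8) t) hg'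
      rw [h1] at h2
      exact h2
    · have h1 : ∀ r : Fin 16, (10 : Fin 16) - (r + 8) = 10 - r + 8 := by decide
      have h2 := fh_conj (fun t => h.wA (r + 8) t) hg'
      rw [h1] at h2
      exact h2
  · -- wp
    decide
  · -- wi
    intro i r s _ _ _ _ hrs
    cases i
    · have h1 : (8 : Fin 16) - r = 8 - s := hrs
      exact sub_right_injective h1
    · have h1 : (10 : Fin 16) - r = 10 - s := hrs
      exact sub_right_injective h1
  · -- wh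
    decide
  · -- XU
    intro i r hr hra g hg
    have h1 : g ∈ Xg e r := hg.1
    cases i
    · have h2 : ∀ r : Fin 16, 1 ≤ r ∧ r ≤ 8 → r ≠ 8 → r - 1 ≤ 6 ∧ r = 1 + (r - 1) := by decide
      obtain ⟨h3, h4⟩ := h2 r hr hra
      exact fh_sub h3 h4 h1
    · have h2 : ∀ r : Fin 16, 1 ≤ r ∧ r ≤ 8 → r ≠ 1 → r - 2 ≤ 6 ∧ r = 2 + (r - 2) := by decide
      obtain ⟨h3, h4⟩ := h2 r hr hra
      exact fh_sub h3 h4 h1
  · -- YV
    intro i r hr hra g hg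
    have h1 : g ∈ Xg e (r + 8) := hg.1
    cases i
    · have h2 : ∀ r : Fin 16, 1 ≤ r ∧ r ≤ 8 → r ≠ 8 → r - 1 ≤ 6 ∧ r + 8 = 9 + (r - 1) := by decide
      obtain ⟨h3, h4⟩ := h2 r hr hra
      exact fh_sub h3 h4 h1
    · have h2 : ∀ r : Fin 16, 1 ≤ r ∧ r ≤ 8 → r ≠ 1 → r - 2 ≤ 6 ∧ r + 8 = 10 + (r - 2) := by decide
      obtain ⟨h3, h4⟩ := h2 r hr hra
      exact fh_sub h3 h4 h1
  · -- aU
    intro i g hg u hu
    cases i
    · obtain ⟨p, _, rfl⟩ := (Ray.mem8 hK h).1 hg.1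
      have h1 := Ray.nUB hK h p⁻¹ (u := u) hu
      rw [map_inv, inv_inv] at h1
      exact h1
    · obtain ⟨p, _, rfl⟩ := (Ray.mem1 h).1 hg.1
      have h1 := Ray.nUA hK h p⁻¹ (u := u) hu
      rw [map_inv, inv_inv] at h1
      exact h1
  · -- aV
    intro i g hg v hv
    cases i
    · have hg' : g ∈ Xg e 0 := hg.1
      obtain ⟨p, _, rfl⟩ := (Ray.mem0 hK h).1 hg'
      exact Ray.nVB hK h _ (u := v) hv
    · have hg' : g ∈ Xg e 9 := hg.1
      obtain ⟨p, _, rfl⟩ := (Ray.mem9 hK h).1 hg'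
      exact Ray.nVA hK h _ (u := v) hv
  · -- su
    intro i g hg u' hu' v hv k hk
    cases i
    · have hg' : g ∈ Xg e 8 := hg.1
      obtain ⟨p, hp, h1⟩ := (Ray.mem8 hK h).1 hg'
      have h2 := NS.of_u hB hv hk hp (fh_ne fB hg.2 h1) hu'
      rw [← h1] at h2
      exact h2
    · have hg' : g ∈ Xg e 1 := hg.1
      obtain ⟨p, hp, h1⟩ := (Ray.mem1 h).1 hg'
      have h2 := NS.of_u hA hv hk hp (fh_ne fA hg.2 h1) hu'
      rw [← h1] at h2
      exact h2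
  · -- sv
    intro i g hg v' hv' u hu k hk
    cases i
    · have hg' : g ∈ Xg e 0 := hg.1
      obtain ⟨p, hp, h1⟩ := (Ray.mem0 hK h).1 hg'
      have h2 := NS.of_v hB hv' hk hp (fh_ne2 fB (r1Z hK).nn hg.2 h1) hu
      rw [← h1] at h2
      exact h2
    · have hg' : g ∈ Xg e 9 := hg.1
      obtain ⟨p, hp, h1⟩ := (Ray.mem9 hK h).1 hg'
      have h2 := NS.of_v hA hv' hk hp (fh_ne2 fA (r1A hK).nn hg.2 h1) hu
      rw [← h1] at h2
      exact h2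
  · -- UiU
    intro i
    cases i
    · exact fh_le (d := 0) (by decide)
    · exact fh_le (d := 1) (by decide)
  · -- ViV
    intro i
    cases i
    · exact fh_le (d := 0) (by decide)
    · exact fh_le (d := 1) (by decide)
  · -- XaU
    intro i g hg
    cases i
    · exact fh_sub (l := 7) (j := 8) (by decide) (by decide) hg.1
    · exact fh_sub (l := 0) (j := 1) (by decide) (by decide) hg.1
  · -- YaV
    intro i g hg
    cases i
    · exact fh_sub (l := 7) (j := 0) (by decide) (by decide) hg.1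
    · exact fh_sub (l := 0) (j := 9) (by decide) (by decide) hg.1
  · -- nh
    intro i k hk
    cases i
    · exact fh_nhB hK h hk
    · exact fh_nhA hK h hk
-- END fh

-- BEGIN fi
/-- ROW fi. `gen` for the two nodes: `e (i + 2) t` is the conjugate of `e i t` by `fA (nA K) * fB (JZ K)` (`10 - (8 - i) = i + 2`), and every ray is `1 + 2 k` or `8 + 2 k` -/
theorem Ray.gen2 (h : Ray e fA fB) : Subgroup.closure {g : G | (∃ s, g = fB s) ∨ ∃ s, g = fA s} = ⊤ := by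
  set W := Subgroup.closure {g : G | (∃ s, g = fB s) ∨ ∃ s, g = fA s} with hW
  have mA : ∀ s, fA s ∈ W := fun s => Subgroup.subset_closure (Or.inr ⟨s, rfl⟩)
  have mB : ∀ s, fB s ∈ W := fun s => Subgroup.subset_closure (Or.inl ⟨s, rfl⟩)
  have st : ∀ i j : Fin 16, i + 2 = j → (∀ t, e i t ∈ W) → ∀ t, e j t ∈ W := by
    intro i j hij hi t
    rw [← hij, ← h.rot i t]
    exact mul_mem (mul_mem (mul_mem (mA _) (mB _)) (hi t)) (inv_mem (mul_mem (mA _) (mB _)))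
  have h1 : ∀ t, e 1 t ∈ W := fun t => by rw [← h.e1 t]; exact mA _
  have h3 := st 1 3 (by decide) h1
  have h5 := st 3 5 (by decide) h3
  have h7 := st 5 7 (by decide) h5
  have h9 := st 7 9 (by decide) h7
  have h11 := st 9 11 (by decide) h9
  have h13 := st 11 13 (by decide) h11
  have h15 := st 13 15 (by decide) h13
  have h8 : ∀ t, e 8 t ∈ W := fun t => by rw [← h.e8 t]; exact mB _
  have h10 := st 8 10 (by decide) h8
  have h12 := st 10 12 (by decide) h10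
  have h14 := st 12 14 (by decide) h12
  have h0 := st 14 0 (by decide) h14
  have h2 := st 0 2 (by decide) h0
  have h4 := st 2 4 (by decide) h2
  have h6 := st 4 6 (by decide) h4
  have all : ∀ (i : Fin 16) (t : K), e i t ∈ W := by
    intro i
    fin_cases i
    · exact h0
    · exact h1
    · exact h2
    · exact h3
    · exact h4
    · exact h5
    · exact h6
    · exact h7
    · exact h8
    · exact h9
    · exact h10
    · exact h11
    · exact h12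
    · exact h13
    · exact h14
    · exact h15
  rw [eq_top_iff, ← h.gen, Subgroup.closure_le]
  rintro g ⟨i, t, rfl⟩
  exact all i t

private theorem fi_tZ_mul (b c : Kˣ) : tZ (b * c) = tZ b * tZ c := Subtype.ext (tS_mul b c)

private theorem fi_tZ_one : tZ (1 : Kˣ) = 1 := Subtype.ext tS_one

private theorem fi_tZ_ne {b : Kˣ} (hb : b ≠ 1) : tZ b ≠ 1 := by
  intro h
  apply hb
  have h1 : tS b = 1 := congrArg Subtype.val h
  have h2 := congrArg (fun M : Matrix.SpecialLinearGroup (Fin 4) K => M.1 3 3) h1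
  apply Units.ext
  simpa [tS] using h2

private theorem fi_dg_ne {b : Kˣ} (hb : b ≠ 1) : dg b ≠ (1 : SL2 K) := by
  intro h
  apply hb
  have h2 := congrArg (fun M : SL2 K => M.1 0 0) h
  apply Units.ext
  simpa [dg] using h2

private theorem fi_eB (h : Ray e fA fB) (s a b : Kˣ) : fB (tZ s) * (fA (dg a) * fB (tZ b)) = fA (dg a) * fB (tZ (s * b)) := by
  rw [← mul_assoc, ← h.cm, mul_assoc, ← map_mul, ← fi_tZ_mul]

private theorem fi_eA (s a : Kˣ) (X : G) : fA (dg s) * (fA (dg a) * X) = fA (dg (s * a)) * X := by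
  rw [← mul_assoc, ← map_mul, ← dg_mul]

private theorem fi_ex (hK : Nat.card K = 8) : ∃ c : Kˣ, c ≠ 1 := by
  obtain ⟨α, hα⟩ := exists_alpha hK
  have h0 : α ≠ 0 := by
    rintro rfl
    norm_num at hα
  refine ⟨Units.mk0 α h0, fun h1 => ?_⟩
  have h2 : α = 1 := by
    have := congrArg (fun u : Kˣ => (u : K)) h1
    simpa using this
  rw [h2] at hα
  have h3 := two8 hK
  have h4 : (1 : K) = 0 := by linear_combination hα + h3
  exact one_ne_zero h4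

private theorem fi_ex2 (hK : Nat.card K = 8) (a : Kˣ) : ∃ c : Kˣ, c ≠ 1 ∧ c ^ 5 ≠ a := by
  obtain ⟨c, hc⟩ := fi_ex hK
  have h7 := unit7 hK c
  by_cases h1 : c ^ 5 = a
  · have hc2 : c ^ 2 ≠ 1 := by
      intro h2
      apply hc
      calc c = c * (c ^ 2) ^ 3 := by rw [h2, one_pow, mul_one]
        _ = c ^ 7 := by rw [← pow_mul, ← pow_succ']
        _ = 1 := h7
    refine ⟨c ^ 2, hc2, fun h2 => hc ?_⟩
    have h3 : c ^ 5 = 1 := by
      have h4 : c ^ 5 * c ^ 5 = c ^ 5 * 1 := by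
        rw [mul_one, ← pow_add]
        calc c ^ (5 + 5) = (c ^ 2) ^ 5 := by rw [← pow_mul]
          _ = c ^ 5 := by rw [h2, h1]
      exact mul_left_cancel h4
    calc c = c * (c ^ 7) ^ 2 := by rw [h7, one_pow, mul_one]
      _ = (c ^ 5) ^ 3 := by
        rw [← pow_mul, ← pow_mul, ← pow_succ']
      _ = 1 := by rw [h3, one_pow]
  · exact ⟨c, hc, h1⟩

/-- `reach` with `ndB`, `ndA`, `gen2`, `Let.start`.  In coordinates `(a, b)` for `fA (dg a) * fB (tZ b)` (all exponents mod 7, `unit7`): `ZB = {(a, a)}`, `ZA = {(b⁵, b)}`.  `c0`: `(a, b) = (1, b a⁻¹) (a, a) = (a b⁻⁵, 1) (b⁵, b)`; if `b = a` and `a = b⁵` then `a⁴ = 1`, `a = 1 = b`.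
`c1`: `z = (a, a)`: `t = (1, s)`: `(a, a s) = (a (a s)⁻⁵, 1) ((a s)⁵, a s)`; choose `s` with `a s ≠ 1` and `(a s)⁵ ≠ a` (five of the seven values), `t₂ = (a s)⁻⁵`, `t₃ = a s`.  `c2`: `z = (b⁵, b)`: `b ≠ 1`: `t = b⁻⁵`, `t₁ = b`; `b = 1`: `t = (c, 1) = (1, c⁻¹) (c, c)`, `c ≠ 1`. -/
theorem Ray.reach (hK : Nat.card K = 8) (h : Ray e fA fB) {g : G} (hg : g ≠ 1) : ∃ c : G, NS fB (Iv e 1 6) (Iv e 9 6) (c * g * c⁻¹) 1 := by
  refine Pool.Agent.ThO2.reach (h.ndB hK) (h.ndA hK) h.gen2 ?_ ?_ ?_ ?_ hg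
  · intro v hv a ha u hu h1
    obtain ⟨c, i, hc⟩ := Let.start (h.lt hK) hv ha hu h1
    cases i
    · exact ⟨c, Or.inl hc⟩
    · exact ⟨c, Or.inr hc⟩
  · intro x hx hx1
    obtain ⟨a, b, rfl⟩ := h.mem_HH.1 hx
    by_cases hab : b = a
    · subst hab
      right
      refine ⟨dg (b * (b ^ 5)⁻¹), mem_TA.2 ⟨_, rfl⟩, fA (dg (b ^ 5)) * fB (tZ b), h.mem_ZA.2 ⟨b, rfl⟩, ?_, fi_dg_ne fun h2 => hx1 ?_⟩
      · rw [fi_eA, inv_mul_cancel_right]
      · have h3 : b = b ^ 5 := mul_inv_eq_one.1 h2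
        have h7 := unit7 hK b
        have h4 : b ^ 4 = 1 := by
          have h5 : b * b ^ 4 = b * 1 := by rw [mul_one, ← pow_succ']; exact h3.symm
          exact mul_left_cancel h5
        have h6 : b = 1 := by
          calc b = b * b ^ 7 := by rw [h7, mul_one]
            _ = (b ^ 4) ^ 2 := by rw [← pow_mul, ← pow_succ']
            _ = 1 := by rw [h4, one_pow]
        rw [h6, dg_one, fi_tZ_one, map_one, map_one, mul_one]
    · left
      refine ⟨tZ (b * a⁻¹), mem_TZ.2 ⟨_, rfl⟩, fA (dg a) * fB (tZ a), h.mem_ZB.2 ⟨a, rfl⟩, ?_, fi_tZ_ne fun h2 => hab (mul_inv_eq_one.1 h2)⟩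
      rw [fi_eB h, inv_mul_cancel_right]
  · intro z hz
    obtain ⟨a, rfl⟩ := h.mem_ZB.1 hz
    obtain ⟨c, hc, hca⟩ := fi_ex2 hK a
    refine ⟨tZ (c * a⁻¹), mem_TZ.2 ⟨_, rfl⟩, dg (a * (c ^ 5)⁻¹), mem_TA.2 ⟨_, rfl⟩, fA (dg (c ^ 5)) * fB (tZ c), h.mem_ZA.2 ⟨c, rfl⟩, ?_,
      fi_dg_ne fun h2 => hca (mul_inv_eq_one.1 h2).symm, dg (c ^ 5)⁻¹, mem_TA.2 ⟨_, rfl⟩, tZ c, mem_TZ.2 ⟨_, rfl⟩, ?_, fi_tZ_ne hc⟩
    · rw [fi_eB h, fi_eA, inv_mul_cancel_right, inv_mul_cancel_right]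
    · rw [fi_eA, inv_mul_cancel, dg_one, map_one, one_mul]
  · intro z hz
    obtain ⟨b, rfl⟩ := h.mem_ZA.1 hz
    by_cases hb : b = 1
    · right
      obtain ⟨c, hc⟩ := fi_ex hK
      refine ⟨dg c, mem_TA.2 ⟨_, rfl⟩, tZ c⁻¹, mem_TZ.2 ⟨_, rfl⟩, fA (dg c) * fB (tZ c), h.mem_ZB.2 ⟨c, rfl⟩, ?_, fi_tZ_ne fun h2 => hc (inv_eq_one.1 h2)⟩
      rw [fi_eB h, fi_eA, hb, one_pow, mul_one, inv_mul_cancel]
    · left
      refine ⟨dg (b ^ 5)⁻¹, mem_TA.2 ⟨_, rfl⟩, tZ b, mem_TZ.2 ⟨_, rfl⟩, ?_, fi_tZ_ne hb⟩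
      rw [fi_eA, inv_mul_cancel, dg_one, map_one, one_mul]
-- END fi

-- BEGIN fj
private theorem fj_pZ (hK : Nat.card K = 8) (t d u c : K) : pZ t d * pZ u c = pZ (t + u) (d + c + t ^ 4 * u) :=
  Subtype.ext (pS_mul hK t d u c)

private theorem fj_sq (hK : Nat.card K = 8) (c : K) : pZ (c ^ 3) 0 * pZ (c ^ 3) 0 = pZ 0 c := by
  have h1 : (c ^ 3) ^ 4 * c ^ 3 = c := by
    calc (c ^ 3) ^ 4 * c ^ 3 = c ^ 8 * c ^ 7 := by ring
      _ = c * c ^ 7 := by rw [pow8 hK]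
      _ = c ^ 8 := by ring
      _ = c := pow8 hK c
  rw [fj_pZ hK, add8 hK, h1, add_zero, zero_add]

/-- ROW fj. The group law of the root subgroups: `i` odd: from `e1` and `wA`, `wB` (rotation `i ↦ i + 2`); `i` even: `pZ t 0 * pZ u 0 = pZ (t + u) (t ^ 4 * u) = pZ (t + u) 0 * pZ (c ^ 3) 0 * pZ (c ^ 3) 0`, `c = t ^ 4 * u` (`pS_mul`, `pow8`) -/
theorem Ray.mul_odd (hK : Nat.card K = 8) (h : Ray e fA fB) {i : Fin 16} (hi : (i : ℕ) % 2 = 1) (t u : K) : e i t * e i u = e i (t + u) := by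
  obtain ⟨c, hc⟩ := h.rot1 hi
  rw [hc, hc, hc, ← h.e1, ← h.e1, ← h.e1, up_add, map_mul]
  group

theorem Ray.mul_even (hK : Nat.card K = 8) (h : Ray e fA fB) {i : Fin 16} (hi : (i : ℕ) % 2 = 0) (t u : K) : e i t * e i u = e i (t + u) * (e i ((t ^ 4 * u) ^ 3) * e i ((t ^ 4 * u) ^ 3)) := by
  obtain ⟨c, hc⟩ := h.rot8 hi
  have h1 : pZ t 0 * pZ u 0 = pZ (t + u) 0 * (pZ ((t ^ 4 * u) ^ 3) 0 * pZ ((t ^ 4 * u) ^ 3) 0) := by
    rw [fj_sq hK, fj_pZ hK, fj_pZ hK]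
    simp only [zero_add, add_zero, mul_zero]
  have h2 := congrArg fB h1
  rw [map_mul, map_mul, map_mul] at h2
  rw [hc, hc, hc, hc, ← h.e8, ← h.e8, ← h.e8, ← h.e8]
  calc c * fB (pZ t 0) * c⁻¹ * (c * fB (pZ u 0) * c⁻¹) = c * (fB (pZ t 0) * fB (pZ u 0)) * c⁻¹ := by group
    _ = c * (fB (pZ (t + u) 0) * (fB (pZ ((t ^ 4 * u) ^ 3) 0) * fB (pZ ((t ^ 4 * u) ^ 3) 0))) * c⁻¹ := by rw [h2]
    _ = _ := by group

/-- every element is `e i t * (e i d * e i d)` (the second factor is in the centre of `Xg e i`) -/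
theorem Ray.mem_even (hK : Nat.card K = 8) (h : Ray e fA fB) {i : Fin 16} (hi : (i : ℕ) % 2 = 0) {g : G} (hg : g ∈ Xg e i) : ∃ t d : K, g = e i t * (e i d * e i d) := by
  obtain ⟨c, hc⟩ := h.rot8 hi
  have h1 : ∃ t d : K, g = c * fB (pZ t d) * c⁻¹ := by
    unfold Xg at hg
    induction hg using Subgroup.closure_induction with
    | mem x hx =>
      obtain ⟨t, rfl⟩ := hx
      exact ⟨t, 0, by rw [hc, h.e8]⟩
    | one =>
      refine ⟨0, 0, ?_⟩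
      have h2 : (pZ (0 : K) 0) = 1 := Subtype.ext pS_zero
      rw [h2, map_one, mul_one, mul_inv_cancel]
    | mul x y _ _ hx hy =>
      obtain ⟨t, d, rfl⟩ := hx
      obtain ⟨u, f, rfl⟩ := hy
      refine ⟨t + u, d + f + t ^ 4 * u, ?_⟩
      rw [← fj_pZ hK, map_mul]
      group
    | inv x _ hx =>
      obtain ⟨t, d, rfl⟩ := hx
      refine ⟨t, d + t ^ 5, ?_⟩
      have h2 : (pZ t d)⁻¹ = pZ t (d + t ^ 5) := Subtype.ext (pS_inv hK t d)
      rw [← h2, map_inv]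
      group
  obtain ⟨t, d, rfl⟩ := h1
  refine ⟨t, d ^ 3, ?_⟩
  have h2 : pZ t d = pZ t 0 * (pZ (d ^ 3) 0 * pZ (d ^ 3) 0) := by
    rw [fj_sq hK, fj_pZ hK]
    simp only [zero_add, add_zero, mul_zero]
  rw [h2, map_mul, map_mul, hc, hc, ← h.e8, ← h.e8]
  group

theorem Ray.cen (hK : Nat.card K = 8) (h : Ray e fA fB) {i : Fin 16} (hi : (i : ℕ) % 2 = 0) (t d : K) : e i t * (e i d * e i d) = (e i d * e i d) * e i t := by
  obtain ⟨c, hc⟩ := h.rot8 hi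
  have h1 : pZ t 0 * (pZ d 0 * pZ d 0) = (pZ d 0 * pZ d 0) * pZ t 0 := by
    rw [fj_pZ hK d 0 d 0, add8 hK d, fj_pZ hK, fj_pZ hK]
    congr 1
    · ring
    · ring
  have h2 := congrArg fB h1
  rw [map_mul, map_mul, map_mul, map_mul] at h2
  rw [hc, hc, ← h.e8, ← h.e8]
  calc c * fB (pZ t 0) * c⁻¹ * (c * fB (pZ d 0) * c⁻¹ * (c * fB (pZ d 0) * c⁻¹))
      = c * (fB (pZ t 0) * (fB (pZ d 0) * fB (pZ d 0))) * c⁻¹ := by group
    _ = c * (fB (pZ d 0) * fB (pZ d 0) * fB (pZ t 0)) * c⁻¹ := by rw [h2]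
    _ = _ := by group
-- END fj

-- BEGIN fk
private theorem fk_X (hK : Nat.card K = 8) (h : Ray e fA fB) (i : Fin 16) : ((Xg e i : Subgroup G) : Set G).Finite := by
  have hfin : Finite K := Nat.finite_of_card_ne_zero (by rw [hK]; norm_num)
  rcases Nat.mod_two_eq_zero_or_one (i : ℕ) with hi | hi
  · refine Set.Finite.subset (Set.finite_range fun p : K × K => e i p.1 * (e i p.2 * e i p.2)) ?_
    intro g hg
    obtain ⟨t, d, rfl⟩ := h.mem_even hK hi hg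
    exact ⟨(t, d), rfl⟩
  · have h0 : e i 0 = 1 := by
      have h1 := h.mul_odd hK hi 0 0
      rw [add_zero] at h1
      exact mul_eq_left.mp h1
    refine Set.Finite.subset (Set.finite_range fun t : K => e i t) ?_
    intro g hg
    refine Subgroup.closure_induction (p := fun g _ => g ∈ Set.range fun t : K => e i t) ?_ ?_ ?_ ?_ hg
    · rintro _ ⟨t, rfl⟩
      exact ⟨t, rfl⟩
    · exact ⟨0, h0⟩
    · rintro _ _ _ _ ⟨t, rfl⟩ ⟨u, rfl⟩
      exact ⟨t + u, (h.mul_odd hK hi t u).symm⟩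
    · rintro _ _ ⟨t, rfl⟩
      refine ⟨-t, ?_⟩
      show e i (-t) = (e i t)⁻¹
      exact eq_inv_of_mul_eq_one_left (by rw [h.mul_odd hK hi, neg_add_cancel, h0])

private theorem fk_zero (hK : Nat.card K = 8) (h : Ray e fA fB) (i : Fin 16) : ((Iv e i 0 : Subgroup G) : Set G).Finite := by
  refine Set.Finite.subset (fk_X hK h i) ?_
  show Iv e i 0 ≤ Xg e i
  refine Subgroup.closure_mono ?_
  rintro g ⟨l, s, hl, rfl⟩
  have h0 : l = 0 := Fin.le_zero_iff.mp hl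
  subst h0
  exact ⟨s, by rw [add_zero]⟩

private theorem fk_step (hK : Nat.card K = 8) (h : Ray e fA fB) {k : Fin 16} (hk : k ≤ 6) (ih : ∀ i, ((Iv e i k : Subgroup G) : Set G).Finite) (i : Fin 16) : ((Iv e i (k + 1) : Subgroup G) : Set G).Finite := by
  refine Set.Finite.subset (Set.Finite.image2 (fun a b : G => a * b) (fk_X hK h i) (ih (i + 1))) ?_
  intro u hu
  obtain ⟨x, hx, u', hu', rfl⟩ := h.splitL hK hk hu
  exact ⟨x, hx, u', hu', rfl⟩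

/-- ROW fk. Finite: `Xg e i` is finite (`mul_odd`: it is the image of `K`; `mem_even`), `Iv e i (k + 1)` is the product (`splitL`); induction on `k`; `Iv e i 0 = Xg e i` -/
theorem Ray.fin (hK : Nat.card K = 8) (h : Ray e fA fB) (i : Fin 16) {k : Fin 16} (hk : k ≤ 7) : ((Iv e i k : Subgroup G) : Set G).Finite := by
  have h0 : ∀ i, ((Iv e i 0 : Subgroup G) : Set G).Finite := fk_zero hK h
  have h1 : ∀ i, ((Iv e i 1 : Subgroup G) : Set G).Finite := fk_step hK h (k := 0) (by decide) h0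
  have h2 : ∀ i, ((Iv e i 2 : Subgroup G) : Set G).Finite := fk_step hK h (k := 1) (by decide) h1
  have h3 : ∀ i, ((Iv e i 3 : Subgroup G) : Set G).Finite := fk_step hK h (k := 2) (by decide) h2
  have h4 : ∀ i, ((Iv e i 4 : Subgroup G) : Set G).Finite := fk_step hK h (k := 3) (by decide) h3
  have h5 : ∀ i, ((Iv e i 5 : Subgroup G) : Set G).Finite := fk_step hK h (k := 4) (by decide) h4
  have h6 : ∀ i, ((Iv e i 6 : Subgroup G) : Set G).Finite := fk_step hK h (k := 5) (by decide) h5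
  have h7 : ∀ i, ((Iv e i 7 : Subgroup G) : Set G).Finite := fk_step hK h (k := 6) (by decide) h6
  have hc : k = 0 ∨ k = 1 ∨ k = 2 ∨ k = 3 ∨ k = 4 ∨ k = 5 ∨ k = 6 ∨ k = 7 := by
    revert hk
    revert k
    decide
  rcases hc with rfl | rfl | rfl | rfl | rfl | rfl | rfl | rfl
  · exact h0 i
  · exact h1 i
  · exact h2 i
  · exact h3 i
  · exact h4 i
  · exact h5 i
  · exact h6 i
  · exact h7 i
-- END fk

-- BEGIN fl
private theorem fl_conj (h : Ray e fA fB) (a : Kˣ) (i : Fin 16) (t : K) :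
    (fA (dg a) * fB (tZ a)) * e i t * (fA (dg a) * fB (tZ a))⁻¹ = e i ((a : K) ^ (ca i + cb i) * t) := by
  have h1 : (fA (dg a) * fB (tZ a)) * e i t * (fA (dg a) * fB (tZ a))⁻¹ = fA (dg a) * (fB (tZ a) * e i t * (fB (tZ a))⁻¹) * (fA (dg a))⁻¹ := by
    group
  rw [h1, h.tB, h.tA, pow_add, mul_assoc]

private theorem fl_ne (hK : Nat.card K = 8) {a : Kˣ} (ha : a ≠ 1) {m : ℕ} (hm : Nat.Coprime m 7) : (a : K) ^ m ≠ 1 := by
  intro h1
  apply ha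
  have h2 : a ^ m = 1 := by
    apply Units.ext
    rw [Units.val_pow_eq_pow_val, h1, Units.val_one]
  have h3 := Nat.dvd_gcd (orderOf_dvd_of_pow_eq_one h2) (orderOf_dvd_of_pow_eq_one (unit7 hK a))
  rw [hm.gcd_eq_one, Nat.dvd_one] at h3
  exact orderOf_eq_one_iff.1 h3

private theorem fl_add (hK : Nat.card K = 8) {c : K} (hc : c ≠ 1) : 1 + c ≠ 0 := by
  intro h1
  apply hc
  have h2 := add8 hK (1 : K)
  exact (add_left_cancel (h1.trans h2.symm))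

private theorem fl_cop : ∀ i : Fin 16, i ≠ 0 → i ≠ 8 → Nat.Coprime (ca i + cb i) 7 := by
  decide

/-- the root subgroup of an even ray is a copy of the group of the `pZ t d` -/
private theorem fl_phi (hK : Nat.card K = 8) (h : Ray e fA fB) {i : Fin 16} (hi : (i : ℕ) % 2 = 0) :
    ∃ φ : K → K → G, (∀ t, φ t 0 = e i t) ∧ ∀ t d u c, φ t d * φ u c = φ (t + u) (d + c + t ^ 4 * u) := by
  obtain ⟨c, hc⟩ := h.rot8 hi
  refine ⟨fun t d => c * fB (pZ t d) * c⁻¹, fun t => ?_, fun t d u c' => ?_⟩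
  · rw [hc t, ← h.e8 t]
  · have h1 : pZ t d * pZ u c' = pZ (t + u) (d + c' + t ^ 4 * u) := Subtype.ext (pS_mul hK t d u c')
    change c * fB (pZ t d) * c⁻¹ * (c * fB (pZ u c') * c⁻¹) = c * fB (pZ (t + u) (d + c' + t ^ 4 * u)) * c⁻¹
    rw [← h1, map_mul]
    group

private theorem fl_odd (hK : Nat.card K = 8) (h : Ray e fA fB) {i : Fin 16} (hi : (i : ℕ) % 2 = 1) {x : G} (hx : x ∈ Xg e i) : ∃ t, x = e i t := by
  have h0 : e i 0 = 1 := by
    have h1 := h.mul_odd hK hi 0 0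
    rw [add_zero] at h1
    exact mul_eq_left.1 h1
  unfold Xg at hx
  induction hx using Subgroup.closure_induction with
  | mem x hx => exact hx
  | one => exact ⟨0, h0.symm⟩
  | mul x y _ _ hx hy =>
    obtain ⟨t, rfl⟩ := hx
    obtain ⟨u, rfl⟩ := hy
    exact ⟨t + u, h.mul_odd hK hi t u⟩
  | inv x _ hx =>
    obtain ⟨t, rfl⟩ := hx
    refine ⟨t, inv_eq_of_mul_eq_one_right ?_⟩
    rw [h.mul_odd hK hi, add8 hK, h0]

/-- ROW fl. `ζ = fA (dg a) * fB (tZ a)`, `a ≠ 1`, `i ≠ 0, 8`: `ζ` acts on `e i t` by `c = a ^ (ca i + cb i) ≠ 1` (`ca i + cb i` is not divisible by `7`).  `y ↦ y⁻¹ * (ζ * y * ζ⁻¹)` is surjective on `Xg e i`: `i` odd: `y = e i t`: `e i ((c - 1) t)`.  `i` even: `y = e i t * z(d)`, `z(d) = e i (d³) * e i (d³)` (so that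
`z` is additive, central, `ζ z(d) ζ⁻¹ = z(c⁵ d)`, `(e i t)⁻¹ = e i t * z(t⁵)`): `y⁻¹ * ζ y ζ⁻¹ = e i ((1 + c) t) * z(F(t) + (1 + c⁵) d)` for some function `F`: choose `t`, then `d`. -/
theorem Ray.surX (hK : Nat.card K = 8) (h : Ray e fA fB) {a : Kˣ} (ha : a ≠ 1) {i : Fin 16} (h0 : i ≠ 0) (h8 : i ≠ 8) {x : G} (hx : x ∈ Xg e i) :
    ∃ y ∈ Xg e i, y⁻¹ * ((fA (dg a) * fB (tZ a)) * y * (fA (dg a) * fB (tZ a))⁻¹) = x := by
  have hcj := fl_conj h a i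
  have hc1 : (a : K) ^ (ca i + cb i) ≠ 1 := fl_ne hK ha (fl_cop i h0 h8)
  set c : K := (a : K) ^ (ca i + cb i) with hcd
  have hc7 : c ^ 7 = 1 := by
    rw [hcd, ← pow_mul, mul_comm, pow_mul, ← Units.val_pow_eq_pow_val, unit7 hK, Units.val_one, one_pow]
  have hn1 := fl_add hK hc1
  rcases Nat.mod_two_eq_zero_or_one (i : ℕ) with hi | hi
  · obtain ⟨φ, hp0, hpm⟩ := fl_phi hK h hi
    have h15 : ∀ d : K, d ^ 15 = d := by
      intro d
      calc d ^ 15 = d ^ 8 * d ^ 7 := by ring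
        _ = d * d ^ 7 := by rw [pow8 hK]
        _ = d ^ 8 := by ring
        _ = d := pow8 hK d
    have hsq : ∀ u : K, φ u 0 * φ u 0 = φ 0 (u ^ 5) := by
      intro u
      rw [hpm, add8 hK]
      congr 1
      ring
    have hz : ∀ d : K, φ 0 d = e i (d ^ 3) * e i (d ^ 3) := by
      intro d
      rw [← hp0, hsq, ← pow_mul, h15]
    have hsp : ∀ t d : K, φ t d = φ t 0 * φ 0 d := by
      intro t d
      rw [hpm]
      congr 1
      · ring
      · ring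
    have hmem : ∀ t d : K, φ t d ∈ Xg e i := by
      intro t d
      rw [hsp, hz, hp0]
      have h1 : ∀ t, e i t ∈ Xg e i := fun t => Subgroup.subset_closure ⟨t, rfl⟩
      exact (Xg e i).mul_mem (h1 _) ((Xg e i).mul_mem (h1 _) (h1 _))
    have hcφ : ∀ t d : K, (fA (dg a) * fB (tZ a)) * φ t d * (fA (dg a) * fB (tZ a))⁻¹ = φ (c * t) (c ^ 5 * d) := by
      intro t d
      have e1 : (fA (dg a) * fB (tZ a)) * φ t d * (fA (dg a) * fB (tZ a))⁻¹ =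
          (fA (dg a) * fB (tZ a)) * e i t * (fA (dg a) * fB (tZ a))⁻¹ *
            (((fA (dg a) * fB (tZ a)) * e i (d ^ 3) * (fA (dg a) * fB (tZ a))⁻¹) * ((fA (dg a) * fB (tZ a)) * e i (d ^ 3) * (fA (dg a) * fB (tZ a))⁻¹)) := by
        rw [hsp, hz, hp0]
        group
      rw [e1, hcj, hcj, ← hp0, ← hp0, hsq, ← hsp]
      congr 1
      calc (c * d ^ 3) ^ 5 = c ^ 5 * d ^ 15 := by ring
        _ = c ^ 5 * d := by rw [h15]
    have h00 : φ 0 0 = 1 := by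
      have h1 := hpm 0 0 0 0
      simp only [add_zero, mul_zero] at h1
      exact mul_eq_left.1 h1
    have hinv : ∀ t d : K, (φ t d)⁻¹ = φ t (d + t ^ 5) := by
      intro t d
      apply inv_eq_of_mul_eq_one_right
      rw [hpm, add8 hK, ← h00]
      congr 1
      have h1 : d + (d + t ^ 5) + t ^ 4 * t = (d + d) + (t ^ 5 + t ^ 5) := by ring
      rw [h1, add8 hK, add8 hK, add_zero]
    have hc5 : c ^ 5 ≠ 1 := by
      intro h5
      apply hc1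
      have h6 : c ^ 15 = 1 := by
        calc c ^ 15 = (c ^ 5) ^ 3 := by ring
          _ = 1 := by rw [h5, one_pow]
      have h7 : c ^ 15 = c := h15 c
      rw [← h7, h6]
    have hn5 := fl_add hK hc5
    obtain ⟨s, d', hx'⟩ := h.mem_even hK hi hx
    have hx2 : x = φ s (d' ^ 5) := by
      rw [hx', ← hp0, ← hp0, hsq, ← hsp]
    refine ⟨φ (s / (1 + c)) ((d' ^ 5 - (s / (1 + c)) ^ 5 * (1 + c)) / (1 + c ^ 5)), hmem _ _, ?_⟩
    rw [hcφ, hinv, hpm, hx2]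
    congr 1
    · field_simp
    · generalize hu : s / (1 + c) = u
      have e1 : ∀ d : K, d + u ^ 5 + c ^ 5 * d + u ^ 4 * (c * u) = d * (1 + c ^ 5) + u ^ 5 * (1 + c) := by
        intro d
        ring
      rw [e1, div_mul_cancel₀ _ hn5]
      ring
  · obtain ⟨s, rfl⟩ := fl_odd hK h hi hx
    refine ⟨e i (s / (1 + c)), Subgroup.subset_closure ⟨_, rfl⟩, ?_⟩
    have h00 : e i 0 = 1 := by
      have h1 := h.mul_odd hK hi 0 0
      rw [add_zero] at h1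
      exact mul_eq_left.1 h1
    have hinv : ∀ t : K, (e i t)⁻¹ = e i t := by
      intro t
      apply inv_eq_of_mul_eq_one_right
      rw [h.mul_odd hK hi, add8 hK, h00]
    rw [hcj, hinv, h.mul_odd hK hi]
    congr 1
    field_simp
-- END fl

-- BEGIN fm
private theorem fm_zero (i : Fin 16) : Iv e i 0 = Xg e i := by
  unfold Iv Xg
  congr 1
  ext g
  constructor
  · rintro ⟨l, s, hl, rfl⟩
    have h1 : l = 0 := Fin.le_zero_iff'.1 hl
    exact ⟨s, by rw [h1, add_zero]⟩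
  · rintro ⟨t, rfl⟩
    exact ⟨0, t, le_refl _, by rw [add_zero]⟩

private theorem fm_X (i k : Fin 16) : Xg e i ≤ Iv e i k := by
  unfold Xg
  rw [Subgroup.closure_le]
  rintro g ⟨t, rfl⟩
  exact Subgroup.subset_closure ⟨0, t, Fin.zero_le _, by rw [add_zero]⟩

private theorem fm_up (i : Fin 16) {k : Fin 16} (hk : k ≤ 6) : Iv e (i + 1) k ≤ Iv e i (k + 1) := by
  unfold Iv
  rw [Subgroup.closure_le]
  rintro g ⟨l, s, hl, rfl⟩
  refine Subgroup.subset_closure ⟨l + 1, s, ?_, ?_⟩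
  · have h1 : ∀ k l : Fin 16, k ≤ 6 → l ≤ k → l + 1 ≤ k + 1 := by decide
    exact h1 k l hk hl
  · rw [add_assoc, add_comm 1 l]

private theorem fm_of (k : ℕ) (hk : k + 1 ≤ 6) : Fin.ofNat 16 (k + 1) = Fin.ofNat 16 k + 1 ∧ Fin.ofNat 16 k ≤ 6 := by
  have h1 : k < 6 := by omega
  interval_cases k <;> decide

/-- ROW fm. Induction on `k` (`k ≤ 6`; `k = 0`: `surX`): `v = x * v'` (`splitL`); `y₁ ∈ Xg e i` for `x` (`surX`); `c = y₁ * x * v' * x⁻¹ * y₁⁻¹` is in `Iv e (i + 1) (k - 1)` (`left`), `y₂` for `c`; `y = y₂ * y₁`: `y⁻¹ * ζ y ζ⁻¹ = y₁⁻¹ * c * y₁ * x = x * v'`.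
The rays `i, .., i + k` are not `0`, `8`. -/
theorem Ray.surI (hK : Nat.card K = 8) (h : Ray e fA fB) {a : Kˣ} (ha : a ≠ 1) (k : ℕ) : ∀ i : Fin 16, k ≤ 6 → (∀ l : ℕ, l ≤ k → i + Fin.ofNat 16 l ≠ 0 ∧ i + Fin.ofNat 16 l ≠ 8) → ∀ v ∈ Iv e i (Fin.ofNat 16 k),
    ∃ y ∈ Iv e i (Fin.ofNat 16 k), y⁻¹ * ((fA (dg a) * fB (tZ a)) * y * (fA (dg a) * fB (tZ a))⁻¹) = v := by
  generalize hζ : fA (dg a) * fB (tZ a) = ζ
  induction k with
  | zero =>
    intro i _ hl v hv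
    have e0 : Fin.ofNat 16 0 = 0 := rfl
    rw [e0, fm_zero] at hv ⊢
    have h1 := hl 0 (le_refl _)
    rw [e0, add_zero] at h1
    rw [← hζ]
    exact h.surX hK ha h1.1 h1.2 hv
  | succ k ih =>
    intro i hk hl v hv
    obtain ⟨e1, hk6⟩ := fm_of k hk
    rw [e1] at hv ⊢
    obtain ⟨x, hx, v', hv', rfl⟩ := h.splitL hK hk6 hv
    have h1 := hl 0 (Nat.zero_le _)
    have e0 : Fin.ofNat 16 0 = 0 := rfl
    rw [e0, add_zero] at h1
    obtain ⟨y₁, hy₁, hy1⟩ := h.surX hK ha h1.1 h1.2 hx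
    rw [hζ] at hy1
    have hc : (y₁ * x) * v' * (y₁ * x)⁻¹ ∈ Iv e (i + 1) (Fin.ofNat 16 k) := h.left hK hk6 ((Xg e i).mul_mem hy₁ hx) hv'
    obtain ⟨y₂, hy₂, hy2⟩ := ih (i + 1) (by omega) (fun l hl' => by
      have h2 := hl (l + 1) (by omega)
      rw [(fm_of l (by omega)).1] at h2
      have h3 : i + (Fin.ofNat 16 l + 1) = i + 1 + Fin.ofNat 16 l := by rw [add_comm (Fin.ofNat 16 l) 1, add_assoc]
      rwa [h3] at h2) _ hc
    refine ⟨y₂ * y₁, (Iv e i (Fin.ofNat 16 k + 1)).mul_mem (fm_up i hk6 hy₂) (fm_X i _ hy₁), ?_⟩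
    have e2 : (y₂ * y₁)⁻¹ * (ζ * (y₂ * y₁) * ζ⁻¹) = y₁⁻¹ * (y₂⁻¹ * (ζ * y₂ * ζ⁻¹)) * y₁ * (y₁⁻¹ * (ζ * y₁ * ζ⁻¹)) := by group
    rw [e2, hy1, hy2]
    group

private theorem fm_fix (hK : Nat.card K = 8) (h : Ray e fA fB) {a : Kˣ} (ha : a ≠ 1) {i : Fin 16} (hi : ∀ l : ℕ, l ≤ 6 → i + Fin.ofNat 16 l ≠ 0 ∧ i + Fin.ofNat 16 l ≠ 8)
    {v : G} (hv : v ∈ Iv e i 6) (h1 : (fA (dg a) * fB (tZ a)) * v * (fA (dg a) * fB (tZ a))⁻¹ = v) : v = 1 := by
  have hsur := h.surI hK ha 6 i (le_refl _) hi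
  have e6 : Fin.ofNat 16 6 = 6 := rfl
  rw [e6] at hsur
  have hH : fA (dg a) * fB (tZ a) ∈ HH fA fB := Subgroup.subset_closure ⟨a, a, rfl⟩
  have hfin : Finite (Iv e i 6) := (h.fin hK i (k := 6) (by decide)).to_subtype
  let f : Iv e i 6 → Iv e i 6 := fun y => ⟨y.1⁻¹ * ((fA (dg a) * fB (tZ a)) * y.1 * (fA (dg a) * fB (tZ a))⁻¹), (Iv e i 6).mul_mem ((Iv e i 6).inv_mem y.2) (h.hIv i 6 hH y.2)⟩
  have hf : Function.Surjective f := by
    intro w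
    obtain ⟨y, hy, hy1⟩ := hsur w.1 w.2
    exact ⟨⟨y, hy⟩, Subtype.ext hy1⟩
  have hinj := Finite.injective_iff_surjective.2 hf
  have h2 : f ⟨v, hv⟩ = f 1 := by
    apply Subtype.ext
    change v⁻¹ * ((fA (dg a) * fB (tZ a)) * v * (fA (dg a) * fB (tZ a))⁻¹) = (1 : G)⁻¹ * ((fA (dg a) * fB (tZ a)) * (1 : G) * (fA (dg a) * fB (tZ a))⁻¹)
    rw [h1]
    group
  exact congrArg Subtype.val (hinj h2)

/-- a surjective map of a finite set is injective: `v` and `1` have the same image -/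
theorem Ray.fixU (hK : Nat.card K = 8) (h : Ray e fA fB) {a : Kˣ} (ha : a ≠ 1) {v : G} (hv : v ∈ Iv e 1 6) (h1 : (fA (dg a) * fB (tZ a)) * v * (fA (dg a) * fB (tZ a))⁻¹ = v) : v = 1 :=
  fm_fix hK h ha (by
    intro l hl
    interval_cases l <;> decide) hv h1

theorem Ray.fixV (hK : Nat.card K = 8) (h : Ray e fA fB) {a : Kˣ} (ha : a ≠ 1) {v : G} (hv : v ∈ Iv e 9 6) (h1 : (fA (dg a) * fB (tZ a)) * v * (fA (dg a) * fB (tZ a))⁻¹ = v) : v = 1 :=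
  fm_fix hK h ha (by
    intro l hl
    interval_cases l <;> decide) hv h1
-- END fm

-- BEGIN fn
private theorem fn_step (hK : Nat.card K = 8) (h : Ray e fA fB) (x y : Kˣ) :
    (fA (nA K) * fB (JZ K)) * (fA (dg x) * fB (tZ y)) * (fA (nA K) * fB (JZ K))⁻¹ = fA (dg (x⁻¹ * (x ^ 2 * y⁻¹) ^ 3)) * fB (tZ (x ^ 2 * y⁻¹)) := by
  have hJ : JZ K * tZ y * (JZ K)⁻¹ = tZ y⁻¹ := by
    apply Subtype.ext
    have h1 : (JZ K : Sz K)⁻¹ = JZ K := by
      apply inv_eq_of_mul_eq_one_right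
      exact Subtype.ext JS_JS
    rw [h1]
    have h2 : (tS y)⁻¹ = tS y⁻¹ := by
      apply inv_eq_of_mul_eq_one_right
      rw [← tS_mul, mul_inv_cancel, tS_one]
    change JS K * tS y * JS K = tS y⁻¹
    rw [JS_tS, h2]
  have hn : nA K * dg x * (nA K)⁻¹ = dg x⁻¹ := by
    have mulE : ∀ (A B : SL2 K) (i j : Fin 2), (A * B).1 i j = A.1 i 0 * B.1 0 j + A.1 i 1 * B.1 1 j := fun A B i j => by
      rw [Matrix.SpecialLinearGroup.coe_mul, Matrix.mul_apply, Fin.sum_univ_two]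
    have n00 : (nA K).1 0 0 = 0 := by
      unfold nA
      rw [mulE, mulE, mulE]
      simp [up, lo]
    have n01 : (nA K).1 0 1 = 1 := by
      unfold nA
      rw [mulE, mulE, mulE]
      simp [up, lo]
    have n11 : (nA K).1 1 1 = 0 := by
      unfold nA
      rw [mulE, mulE, mulE]
      simp [up, lo]
    rw [mul_inv_eq_iff_eq_mul]
    apply Subtype.ext
    ext i j
    rw [mulE, mulE]
    fin_cases i <;> fin_cases j
    · simp [n00, n01, n11, dg]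
    · simp [n00, n01, n11, dg]
    · simp [n00, n01, n11, dg, mul_comm]
    · simp [n00, n01, n11, dg]
  have e1 : (fA (nA K) * fB (JZ K)) * (fA (dg x) * fB (tZ y)) * (fA (nA K) * fB (JZ K))⁻¹ =
      fA (nA K) * ((fB (JZ K) * fA (dg x) * (fB (JZ K))⁻¹) * (fB (JZ K) * fB (tZ y) * (fB (JZ K))⁻¹)) * (fA (nA K))⁻¹ := by
    group
  have e2 : fB (JZ K) * fB (tZ y) * (fB (JZ K))⁻¹ = fB (tZ y⁻¹) := by
    rw [← map_mul, ← map_inv, ← map_mul, hJ]
  have e3 : fB (tZ (x ^ 2)) * fB (tZ y⁻¹) = fB (tZ (x ^ 2 * y⁻¹)) := by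
    rw [← map_mul]
    congr 1
    exact Subtype.ext (tS_mul _ _).symm
  have e4 : fA (nA K) * fA (dg x) * (fA (nA K))⁻¹ = fA (dg x⁻¹) := by
    rw [← map_mul, ← map_inv, ← map_mul, hn]
  have e5 : fA (nA K) * (fA (dg x) * fB (tZ (x ^ 2 * y⁻¹))) * (fA (nA K))⁻¹ =
      (fA (nA K) * fA (dg x) * (fA (nA K))⁻¹) * (fA (nA K) * fB (tZ (x ^ 2 * y⁻¹)) * (fA (nA K))⁻¹) := by
    group
  rw [e1, h.nBt, e2, mul_assoc (fA (dg x)), e3, e5, e4, h.nAt, ← mul_assoc, ← map_mul, ← dg_mul]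

/-- ROW fn. `n₀ = (fA (nA K) * fB (JZ K)) ^ 4`: `n₀ * e i t * n₀⁻¹ = e (i + 8) t`; `n₀ * (fA (dg a) * fB (tZ b)) * n₀⁻¹` is the inverse: in exponents `nA : (x, y) ↦ (3 y - x, y)`, `JZ : (x, y) ↦ (x, 2 x - y)` (`nAt`, `nBt`), the product has fourth power `-1` modulo `7`. -/
theorem Ray.n0 (hK : Nat.card K = 8) (h : Ray e fA fB) (a : Kˣ) :
    (fA (nA K) * fB (JZ K)) ^ 4 * (fA (dg a) * fB (tZ a)) * ((fA (nA K) * fB (JZ K)) ^ 4)⁻¹ = (fA (dg a) * fB (tZ a))⁻¹ := by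
  have hst := fn_step hK h
  have a7 := unit7 hK a
  have s1 : a⁻¹ * (a ^ 2 * a⁻¹) ^ 3 = a ^ 2 ∧ a ^ 2 * a⁻¹ = a := by
    constructor
    · group
    · group
  have s2 : (a ^ 2)⁻¹ * ((a ^ 2) ^ 2 * a⁻¹) ^ 3 = 1 ∧ (a ^ 2) ^ 2 * a⁻¹ = a ^ 3 := by
    constructor
    · rw [← a7]; group
    · group
  have s3 : (1 : Kˣ)⁻¹ * ((1 : Kˣ) ^ 2 * (a ^ 3)⁻¹) ^ 3 = a ^ 5 ∧ (1 : Kˣ) ^ 2 * (a ^ 3)⁻¹ = a ^ 4 := by
    constructor
    · have e1 : (1 : Kˣ)⁻¹ * ((1 : Kˣ) ^ 2 * (a ^ 3)⁻¹) ^ 3 = a ^ 5 * ((a ^ 7)⁻¹ * (a ^ 7)⁻¹) := by group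
      rw [e1, a7]
      simp
    · have e1 : (1 : Kˣ) ^ 2 * (a ^ 3)⁻¹ = a ^ 4 * (a ^ 7)⁻¹ := by group
      rw [e1, a7]
      simp
  have s4 : (a ^ 5)⁻¹ * ((a ^ 5) ^ 2 * (a ^ 4)⁻¹) ^ 3 = a⁻¹ ∧ (a ^ 5) ^ 2 * (a ^ 4)⁻¹ = a⁻¹ := by
    constructor
    · have e1 : (a ^ 5)⁻¹ * ((a ^ 5) ^ 2 * (a ^ 4)⁻¹) ^ 3 = a⁻¹ * (a ^ 7 * a ^ 7) := by group
      rw [e1, a7]
      simp
    · have e1 : (a ^ 5) ^ 2 * (a ^ 4)⁻¹ = a⁻¹ * a ^ 7 := by group
      rw [e1, a7]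
      simp
  have t1 := hst a a
  rw [s1.1, s1.2] at t1
  have t2 := hst (a ^ 2) a
  rw [s2.1, s2.2] at t2
  have t3 := hst 1 (a ^ 3)
  rw [s3.1, s3.2] at t3
  have t4 := hst (a ^ 5) (a ^ 4)
  rw [s4.1, s4.2] at t4
  have e1 : ∀ N z : G, N ^ 4 * z * (N ^ 4)⁻¹ = N * (N * (N * (N * z * N⁻¹) * N⁻¹) * N⁻¹) * N⁻¹ := by
    intro N z
    have e0 : N ^ 4 = N * N * N * N := by rw [pow_succ, pow_succ, pow_succ, pow_one]
    rw [e0]
    simp only [mul_inv_rev, mul_assoc]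
  rw [e1, t1, t2, t3, t4, mul_inv_rev, ← map_inv, ← map_inv]
  have h1 : (dg a)⁻¹ = dg a⁻¹ := by
    apply inv_eq_of_mul_eq_one_right
    rw [← dg_mul, mul_inv_cancel, dg_one]
  have h2 : (tZ a)⁻¹ = tZ a⁻¹ := by
    apply inv_eq_of_mul_eq_one_right
    apply Subtype.ext
    change tS a * tS a⁻¹ = 1
    rw [← tS_mul, mul_inv_cancel, tS_one]
  rw [h1, h2, h.cm]

/-- `n₀ * (fB (JZ K))⁻¹` commutes with `e 8 t` and `e 0 t`, hence with `fB s` (`R1.gen2 (r1Z hK)`, `mem8`, `mem0`) -/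
theorem Ray.n0B (hK : Nat.card K = 8) (h : Ray e fA fB) (s : Sz K) :
    (fA (nA K) * fB (JZ K)) ^ 4 * fB s * ((fA (nA K) * fB (JZ K)) ^ 4)⁻¹ = fB (JZ K * s * (JZ K)⁻¹) := by
  have hr := h.rot
  generalize hN : fA (nA K) * fB (JZ K) = N at hr ⊢
  have hr4 : ∀ i t, N ^ 4 * e i t * (N ^ 4)⁻¹ = e (i + 8) t := by
    intro i t
    have e1 : N ^ 4 * e i t * (N ^ 4)⁻¹ = N * (N * (N * (N * e i t * N⁻¹) * N⁻¹) * N⁻¹) * N⁻¹ := by
      have e0 : N ^ 4 = N * N * N * N := by rw [pow_succ, pow_succ, pow_succ, pow_one]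
      rw [e0]
      simp only [mul_inv_rev, mul_assoc]
    rw [e1, hr, hr, hr, hr]
    congr 1
    rw [add_assoc, add_assoc, add_assoc]
    rfl
  -- the elements on which the two conjugations agree
  have key : ∀ i : Fin 16, i + 8 = 8 - i → ∀ g ∈ Xg e i, g ∈ Subgroup.centralizer {(fB (JZ K))⁻¹ * N ^ 4} := by
    intro i hi
    unfold Xg
    rw [← SetLike.le_def, Subgroup.closure_le]
    rintro g ⟨t, rfl⟩
    rw [SetLike.mem_coe, Subgroup.mem_centralizer_singleton_iff]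
    have h1 := hr4 i t
    have h2 := h.wB i t
    rw [hi, ← h2] at h1
    -- N^4 x N^-4 = J x J⁻¹
    have h3 : (fB (JZ K))⁻¹ * (N ^ 4 * e i t * (N ^ 4)⁻¹) * N ^ 4 = (fB (JZ K))⁻¹ * (fB (JZ K) * e i t * (fB (JZ K))⁻¹) * N ^ 4 := by rw [h1]
    have h4 : (fB (JZ K))⁻¹ * (N ^ 4 * e i t * (N ^ 4)⁻¹) * N ^ 4 = (fB (JZ K))⁻¹ * N ^ 4 * e i t := by group
    have h5 : (fB (JZ K))⁻¹ * (fB (JZ K) * e i t * (fB (JZ K))⁻¹) * N ^ 4 = e i t * ((fB (JZ K))⁻¹ * N ^ 4) := by group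
    rw [h4, h5] at h3
    exact h3.symm
  have hs : s ∈ (Subgroup.centralizer {(fB (JZ K))⁻¹ * N ^ 4}).comap fB := by
    have hle : (⊤ : Subgroup (Sz K)) ≤ (Subgroup.centralizer {(fB (JZ K))⁻¹ * N ^ 4}).comap fB := by
      rw [← R1.gen2 (r1Z hK), Subgroup.closure_le]
      rintro p (hp | ⟨p', hp', rfl⟩)
      · rw [SetLike.mem_coe, Subgroup.mem_comap]
        exact key 8 (by decide) _ ((h.mem8 hK).2 ⟨p, hp, rfl⟩)
      · rw [SetLike.mem_coe, Subgroup.mem_comap]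
        exact key 0 (by decide) _ ((h.mem0 hK).2 ⟨p', hp', rfl⟩)
    exact hle (Subgroup.mem_top s)
  rw [Subgroup.mem_comap, Subgroup.mem_centralizer_singleton_iff] at hs
  rw [map_mul, map_mul, map_inv]
  have h3 : N ^ 4 * fB s * (N ^ 4)⁻¹ = fB (JZ K) * ((fB (JZ K))⁻¹ * N ^ 4 * fB s) * (N ^ 4)⁻¹ := by group
  rw [h3, ← hs]
  group
-- END fn

-- BEGIN fo
private theorem fo_dg (b : Kˣ) (k : ℕ) : (dg b : SL2 K) ^ k = dg (b ^ k) := by
  induction k with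
  | zero => rw [pow_zero, pow_zero, dg_one]
  | succ k ih => rw [pow_succ, pow_succ, dg_mul, ih]

private theorem fo_tZ (b : Kˣ) (k : ℕ) : (tZ b : Sz K) ^ k = tZ (b ^ k) := by
  induction k with
  | zero =>
    rw [pow_zero, pow_zero]
    exact Subtype.ext tS_one.symm
  | succ k ih =>
    rw [pow_succ, pow_succ, ih]
    exact Subtype.ext (tS_mul (b ^ k) b).symm

/-- ROW fo. `square` with `ndB`, `reach`, `cZ`, `ζ = fA (dg a) * fB (tZ a)`, `a ≠ 1` (`Nat.card Kˣ = 7`), `unit7`, `n0`, `n0B`, `fin`, `fixU`, `fixV` -/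
theorem Ray.main (hK : Nat.card K = 8) (h : Ray e fA fB) : ∃ w : G, ∀ g : G, ∃ x y : G, IsConj w x ∧ IsConj w y ∧ x * y = g := by
  obtain ⟨m₀, h13, hC, hr⟩ := cZ hK
  obtain ⟨a, ha⟩ : ∃ a : Kˣ, a ≠ 1 := by
    have hfin : Finite K := Nat.finite_of_card_ne_zero (by rw [hK]; norm_num)
    have hc : Nat.card Kˣ = 7 := by rw [Nat.card_units, hK]
    have h1 : 1 < Nat.card Kˣ := by rw [hc]; norm_num
    have hnt : Nontrivial Kˣ := Finite.one_lt_card_iff_nontrivial.1 h1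
    exact exists_ne 1
  have h7 : (fA (dg a) * fB (tZ a)) ^ 7 = 1 := by
    have hcm : Commute (fA (dg a)) (fB (tZ a)) := h.cm a a
    rw [hcm.mul_pow, ← map_pow, ← map_pow, fo_dg, fo_tZ, unit7 hK, dg_one, map_one, one_mul]
    have h1 : (tZ (1 : Kˣ) : Sz K) = 1 := Subtype.ext tS_one
    rw [h1, map_one]
  exact square (h.ndB hK) (fun g hg => h.reach hK hg) (h.mem_ZB.2 ⟨a, rfl⟩) h13 h7 hC hr
    ⟨(fA (nA K) * fB (JZ K)) ^ 4, JZ K, h.n0 hK a, h.n0B hK m₀⟩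
    (h.fin hK 1 (by decide)) (h.fin hK 9 (by decide))
    (fun u hu h1 => h.fixU hK ha hu h1) (fun v hv h1 => h.fixV hK ha hv h1)
-- END fo

end Pool.Agent.ThO2
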