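import Pool.Agent.ThO2.Tab

/-! # The group `²F_4(8)` as a subgroup of `E_6(K)` -/

namespace Pool.Agent.ThO2

open ThE ThG Pool.Agent.ThR

variable {K : Type*} [Field K] {G : Type*} [Group G]

/-- the root elements of `²F_4(8)` -/
def eG (x : Root 6 → K → G) (i : Fin 16) (t : K) : G :=
  x (rR i) t * x (rS i) (t ^ 2) * x (rB i) (t ^ 2) * (if (i : ℕ) % 2 = 0 then x (rP i) (t ^ 3) * x (rQ i) (t ^ 3) else 1)

/-- the Weyl element of node `A` -/
def nnA (x : Root 6 → K → G) : G := ThK.nn x (rR 1) 1 * ThK.nn x (rS 1) 1 * ThK.nn x (rB 1) 1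

/-- the Weyl element of node `B` -/
def nnB (x : Root 6 → K → G) : G :=
  ThK.nn x (rR 8) 1 * ThK.nn x (rB 8) 1 * ThK.nn x (rS 8) 1 * ThK.nn x (rR 8) 1 * ThK.nn x (rB 8) 1 * ThK.nn x (rS 8) 1

/-- the torus elements of node `A` -/
def tAE (x : Root 6 → K → G) (b : Kˣ) : G := ThK.hh x (rR 1) (b : K) * ThK.hh x (rS 1) ((b ^ 2 : Kˣ) : K) * ThK.hh x (rB 1) ((b ^ 2 : Kˣ) : K)

/-- the torus elements of node `B` -/
def tBE (x : Root 6 → K → G) (b : Kˣ) : G := ThK.hh x (rS 8) ((b⁻¹ : Kˣ) : K) * ThK.hh x (rR 8) (((b⁻¹) ^ 4 : Kˣ) : K) * ThK.hh x (rB 8) ((b⁻¹ : Kˣ) : K)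

variable {x : Root 6 → K → G}

-- BEGIN ga
/-- ROW ga. Characteristic two (`two8`, `add8`: `-1 = 1`): no signs.  `Stb.add`, `Stb.zero`, `Stb.inv`, `Stb.sum`, `nn_conj` with `a = 1` -/
theorem ep8 (hK : Nat.card K = 8) (v w : Vec 6) : (ThK.ep K v w : K) = 1 := by
  have h1 : (-1 : Kˣ) = 1 := Units.ext (by
    rw [Units.val_neg, Units.val_one]
    linear_combination -(two8 hK))
  rw [ThK.ep, h1, one_zpow, Units.val_one]

theorem x_sq (hK : Nat.card K = 8) (h : ThK.Stb K 6 x) (r : Root 6) (a : K) : x r a * x r a = 1 := by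
  rw [← h.add, add8 hK, h.zero]

theorem x_inv (hK : Nat.card K = 8) (h : ThK.Stb K 6 x) (r : Root 6) (a : K) : (x r a)⁻¹ = x r a :=
  inv_eq_of_mul_eq_one_right (x_sq hK h r a)

/-- `x t (a * b)` commutes with both (`Stb.commute`: `bf t r = 1`), the commutator is `Stb.sum` -/
theorem x_sum (hK : Nat.card K = 8) (h : ThK.Stb K 6 x) {r s t : Root 6} (ht : t.1 = r.1 + s.1) (a b : K) : x r a * x s b = x s b * x r a * x t (a * b) := by
  have h0 : bf r.1 s.1 = -1 := bf_of_add ht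
  have h1 := h.conj_add ht a b
  rw [ep8 hK, one_mul] at h1
  have h2 : x r a * x t (a * b) = x t (a * b) * x r a := h.commute (by
    rw [ht, bf_add_right, bf_root, h0]
    norm_num) _ _
  have h3 : x s b * x t (a * b) = x t (a * b) * x s b := h.commute (by
    rw [ht, bf_add_right, bf_root, bf_comm, h0]
    norm_num) _ _
  rw [mul_assoc (x s b), h2, ← mul_assoc, h3, ← h1, inv_mul_cancel_right]

theorem nn_c (hK : Nat.card K = 8) (h : ThK.Stb K 6 x) (r s : Root 6) (b : K) : ThK.nn x r 1 * x s b * (ThK.nn x r 1)⁻¹ = x (rf r s) b := by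
  rw [ThK.nn_conj (Or.inl rfl) h r s one_ne_zero b, ep8 hK, one_zpow, one_zpow, one_mul, one_mul]
-- END ga

-- BEGIN gb
private theorem gb_c3 {a b c u v w z : G} (h1 : c * u * c⁻¹ = v) (h2 : b * v * b⁻¹ = w) (h3 : a * w * a⁻¹ = z) : a * b * c * u * (a * b * c)⁻¹ = z := by
  rw [← h3, ← h2, ← h1]
  group

private theorem gb_nnA (hK : Nat.card K = 8) (h : ThK.Stb K 6 x) (s : Root 6) (b : K) : nnA x * x s b * (nnA x)⁻¹ = x (wa s) b :=
  gb_c3 (nn_c hK h (rB 1) s b) (nn_c hK h (rS 1) _ b) (nn_c hK h (rR 1) _ b)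

private theorem gb_nnB (hK : Nat.card K = 8) (h : ThK.Stb K 6 x) (s : Root 6) (b : K) : nnB x * x s b * (nnB x)⁻¹ = x (wb s) b := by
  have h1 := gb_c3 (nn_c hK h (rS 8) s b) (nn_c hK h (rB 8) _ b) (nn_c hK h (rR 8) _ b)
  have h2 := gb_c3 (nn_c hK h (rS 8) _ b) (nn_c hK h (rB 8) (rf (rS 8) (rf (rR 8) (rf (rB 8) (rf (rS 8) s)))) b) (nn_c hK h (rR 8) _ b)
  have h3 : nnB x = (ThK.nn x (rR 8) 1 * ThK.nn x (rB 8) 1 * ThK.nn x (rS 8) 1) * (ThK.nn x (rR 8) 1 * ThK.nn x (rB 8) 1 * ThK.nn x (rS 8) 1) := by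
    unfold nnB
    group
  have h4 : nnB x * x s b * (nnB x)⁻¹ = (ThK.nn x (rR 8) 1 * ThK.nn x (rB 8) 1 * ThK.nn x (rS 8) 1) * ((ThK.nn x (rR 8) 1 * ThK.nn x (rB 8) 1 * ThK.nn x (rS 8) 1) * x s b * (ThK.nn x (rR 8) 1 * ThK.nn x (rB 8) 1 * ThK.nn x (rS 8) 1)⁻¹) * (ThK.nn x (rR 8) 1 * ThK.nn x (rB 8) 1 * ThK.nn x (rS 8) 1)⁻¹ := by
    rw [h3]
    group
  rw [h4, h1]
  exact h2

private theorem gb_odd {i : Fin 16} (hi : ¬ (i : ℕ) % 2 = 0) (x : Root 6 → K → G) (t : K) : eG x i t = x (rR i) t * x (rS i) (t ^ 2) * x (rB i) (t ^ 2) := by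
  unfold eG
  rw [if_neg hi, mul_one]

private theorem gb_even {i : Fin 16} (hi : (i : ℕ) % 2 = 0) (x : Root 6 → K → G) (t : K) :
    eG x i t = x (rR i) t * x (rS i) (t ^ 2) * x (rB i) (t ^ 2) * (x (rP i) (t ^ 3) * x (rQ i) (t ^ 3)) := by
  unfold eG
  rw [if_pos hi]

/-- conjugation of the five factors -/
private theorem gb_map (h : ThK.Stb K 6 x) (n : G) (w : Root 6 → Root 6) (hn : ∀ s b, n * x s b * n⁻¹ = x (w s) b) (i j : Fin 16) (hij : (i : ℕ) % 2 = (j : ℕ) % 2) (h0 : (w (rR i)).1 = (rR j).1)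
    (h1 : ((w (rS i)).1 = (rS j).1 ∧ (w (rB i)).1 = (rB j).1 ∧ (w (rP i)).1 = (rP j).1 ∧ (w (rQ i)).1 = (rQ j).1) ∨
      ((w (rS i)).1 = (rB j).1 ∧ (w (rB i)).1 = (rS j).1 ∧ (w (rP i)).1 = (rQ j).1 ∧ (w (rQ i)).1 = (rP j).1)) (t : K) :
    n * eG x i t * n⁻¹ = eG x j t := by
  have cm : x (rS j) (t ^ 2) * x (rB j) (t ^ 2) = x (rB j) (t ^ 2) * x (rS j) (t ^ 2) :=
    h.commute (le_of_eq (bf_SB j).1.symm) _ _
  by_cases hi : (i : ℕ) % 2 = 0
  · have hj : (j : ℕ) % 2 = 0 := by omega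
    have cm2 : x (rP j) (t ^ 3) * x (rQ j) (t ^ 3) = x (rQ j) (t ^ 3) * x (rP j) (t ^ 3) :=
      h.commute (le_of_eq ((bf_SB j).2.1 hj).symm) _ _
    have e1 : n * eG x i t * n⁻¹ = (n * x (rR i) t * n⁻¹) * (n * x (rS i) (t ^ 2) * n⁻¹) * (n * x (rB i) (t ^ 2) * n⁻¹) * ((n * x (rP i) (t ^ 3) * n⁻¹) * (n * x (rQ i) (t ^ 3) * n⁻¹)) := by
      rw [gb_even hi]
      group
    rw [e1, hn, hn, hn, hn, hn, gb_even hj, Subtype.ext h0]
    rcases h1 with ⟨a1, a2, a3, a4⟩ | ⟨a1, a2, a3, a4⟩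
    · rw [Subtype.ext a1, Subtype.ext a2, Subtype.ext a3, Subtype.ext a4]
    · rw [Subtype.ext a1, Subtype.ext a2, Subtype.ext a3, Subtype.ext a4, mul_assoc (x (rR j) t) (x (rB j) (t ^ 2)), ← cm, ← cm2, ← mul_assoc (x (rR j) t)]
  · have hj : ¬ (j : ℕ) % 2 = 0 := by omega
    have e1 : n * eG x i t * n⁻¹ = (n * x (rR i) t * n⁻¹) * (n * x (rS i) (t ^ 2) * n⁻¹) * (n * x (rB i) (t ^ 2) * n⁻¹) := by
      rw [gb_odd hi]
      group
    rw [e1, hn, hn, hn, gb_odd hj, Subtype.ext h0]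
    rcases h1 with ⟨a1, a2, _, _⟩ | ⟨a1, a2, _, _⟩
    · rw [Subtype.ext a1, Subtype.ext a2]
    · rw [Subtype.ext a1, Subtype.ext a2, mul_assoc (x (rR j) t) (x (rB j) (t ^ 2)), ← cm, ← mul_assoc (x (rR j) t)]

private theorem gb_par (i : Fin 16) : (i : ℕ) % 2 = ((10 - i : Fin 16) : ℕ) % 2 ∧ (i : ℕ) % 2 = ((8 - i : Fin 16) : ℕ) % 2 := by
  revert i
  decide

/-- ROW gb. `nnA x * x s b * (nnA x)⁻¹ = x (wa s) b` (`nn_c` three times), `nnB x * x s b * (nnB x)⁻¹ = x (wb s) b`; `wa_R`, `wa_S`, `wb_R`, `wb_S` (`Subtype.ext`), `bf_SB` and `Stb.commute` for the order of the factors; `10 - i` has the parity of `i` -/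
theorem wAE (hK : Nat.card K = 8) (h : ThK.Stb K 6 x) (i : Fin 16) (t : K) : nnA x * eG x i t * (nnA x)⁻¹ = eG x (10 - i) t :=
  gb_map h (nnA x) wa (gb_nnA hK h) i (10 - i) (gb_par i).1 (wa_R i) (wa_S i) t

theorem wBE (hK : Nat.card K = 8) (h : ThK.Stb K 6 x) (i : Fin 16) (t : K) : nnB x * eG x i t * (nnB x)⁻¹ = eG x (8 - i) t :=
  gb_map h (nnB x) wb (gb_nnB hK h) i (8 - i) (gb_par i).2 (wb_R i) (wb_S i) t
-- END gb

-- BEGIN gc
private theorem gc_sq (hK : Nat.card K = 8) :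
    ∃ φ : SL2 K →* SL2 K, (∀ t, φ (up t) = up (t ^ 2)) ∧ (∀ t, φ (lo t) = lo (t ^ 2)) ∧ ∀ b : Kˣ, φ (ThG.dg b) = ThG.dg (b ^ 2) := by
  have h2 := two8 hK
  let σ : K →+* K :=
    { toFun := fun a => a ^ 2
      map_one' := one_pow 2
      map_mul' := fun a b => mul_pow a b 2
      map_zero' := zero_pow two_ne_zero
      map_add' := fun a b => by linear_combination a * b * h2 }
  have hσ : ∀ a, σ a = a ^ 2 := fun a => rfl
  refine ⟨Matrix.SpecialLinearGroup.map σ, fun t => ?_, fun t => ?_, fun b => ?_⟩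
  · apply Subtype.ext
    ext i j
    show σ ((up t).1 i j) = (up (t ^ 2)).1 i j
    fin_cases i <;> fin_cases j <;> simp [up, hσ]
  · apply Subtype.ext
    ext i j
    show σ ((lo t).1 i j) = (lo (t ^ 2)).1 i j
    fin_cases i <;> fin_cases j <;> simp [lo, hσ]
  · apply Subtype.ext
    ext i j
    show σ ((ThG.dg b).1 i j) = (ThG.dg (b ^ 2)).1 i j
    fin_cases i <;> fin_cases j <;> simp [ThG.dg, hσ]

private theorem gc_comm (h : ThK.Stb K 6 x) {r s : Root 6} (hrs : bf r.1 s.1 = 0) {f g : SL2 K →* G} (hf : ThK.IsTh x r f) (hg : ThK.IsTh x s g) (M N : SL2 K) :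
    f M * g N = g N * f M := by
  have key : ∀ M : SL2 K, (∃ a, M = up a ∨ M = lo a) → ∀ N : SL2 K, (∃ b, N = up b ∨ N = lo b) → Commute (f M) (g N) := by
    rintro _ ⟨a, rfl | rfl⟩ _ ⟨b, rfl | rfl⟩
    · rw [hf.up, hg.up]
      exact h.commute (by rw [hrs]) a b
    · rw [hf.up, hg.lo]
      exact h.commute (by rw [neg_val, bf_neg_right, hrs, neg_zero]) _ _
    · rw [hf.lo, hg.up]
      exact h.commute (by rw [neg_val, bf_neg_left, hrs, neg_zero]) _ _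
    · rw [hf.lo, hg.lo]
      exact h.commute (by rw [neg_val, neg_val, bf_neg_left, bf_neg_right, hrs, neg_zero, neg_zero]) _ _
  have top : ∀ M : SL2 K, M ∈ Subgroup.closure {g : SL2 K | ∃ a, g = up a ∨ g = lo a} := by
    intro M
    rw [sl2_gen]
    exact Subgroup.mem_top M
  have k2 : ∀ M : SL2 K, (∃ a, M = up a ∨ M = lo a) → ∀ N : SL2 K, Commute (f M) (g N) := by
    intro M hM N
    have hN := top N
    induction hN using Subgroup.closure_induction with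
    | mem N hN => exact key M hM N hN
    | one => rw [map_one]; exact Commute.one_right _
    | mul a b _ _ ha hb => rw [map_mul]; exact ha.mul_right hb
    | inv a _ ha => rw [map_inv]; exact ha.inv_right
  have hM := top M
  have goal : Commute (f M) (g N) := by
    induction hM using Subgroup.closure_induction with
    | mem M hM => exact k2 M hM N
    | one => rw [map_one]; exact Commute.one_left _
    | mul a b _ _ ha hb => rw [map_mul]; exact ha.mul_left hb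
    | inv a _ ha => rw [map_inv]; exact ha.inv_left
  exact goal

/-- ROW gc. `f M = f₆ M * f₅ (φ M) * f₁ (φ M)`, where `f₆`, `f₅`, `f₁` are the homomorphisms of the roots `rR 1`, `rS 1`, `rB 1` (`ThK.exists_th`), which commute (the roots are orthogonal: `bf = 0` for all signs; `sl2_gen` and `Stb.commute`), and `φ` squares the entries (`frobenius K 2` or a ring hom `a ↦ a ^ 2`
from `two8`; `Matrix.SpecialLinearGroup.map`); `φ (up t) = up (t ^ 2)`, `φ (dg b) = dg (b ^ 2)`, `φ (nA) = nA` (`-1 = 1`); `IsTh.up`, `IsTh.lo`, `IsTh.dg` -/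
theorem exists_fA (hK : Nat.card K = 8) (h : ThK.Stb K 6 x) : ∃ f : SL2 K →* G, (∀ t, f (up t) = eG x 1 t) ∧ f (nA K) = nnA x ∧ ∀ b : Kˣ, f (dg b) = tAE x b := by
  obtain ⟨f6, h6⟩ := ThK.exists_th (Or.inl rfl) h (rR 1)
  obtain ⟨f5, h5⟩ := ThK.exists_th (Or.inl rfl) h (rS 1)
  obtain ⟨f1, h1⟩ := ThK.exists_th (Or.inl rfl) h (rB 1)
  obtain ⟨φ, hu, hl, hd⟩ := gc_sq hK
  have b1 := bf_SB 1
  have bSB : bf (rS 1).1 (rB 1).1 = 0 := b1.1
  have bRS : bf (rR 1).1 (rS 1).1 = 0 := (b1.2.2 rfl).1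
  have bRB : bf (rR 1).1 (rB 1).1 = 0 := (b1.2.2 rfl).2
  have c65 := gc_comm h bRS h6 h5
  have c61 := gc_comm h bRB h6 h1
  have c51 := gc_comm h bSB h5 h1
  have hneg : (-1 : K) = 1 := by linear_combination (-1 : K) * two8 hK
  have hφn : φ (nA K) = nA K := by
    unfold nA
    rw [map_mul, map_mul, hu, hl, one_pow, neg_one_sq, hneg]
  have hnn : ∀ (r : Root 6) (f : SL2 K →* G), ThK.IsTh x r f → f (nA K) = ThK.nn x r 1 := by
    intro r f hf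
    unfold nA ThK.nn
    rw [map_mul, map_mul, hf.up, hf.lo, neg_neg, inv_one]
  refine ⟨⟨⟨fun M => f6 M * f5 (φ M) * f1 (φ M), by simp⟩, fun M N => ?_⟩, fun t => ?_, ?_, fun b => ?_⟩
  · show f6 (M * N) * f5 (φ (M * N)) * f1 (φ (M * N)) = f6 M * f5 (φ M) * f1 (φ M) * (f6 N * f5 (φ N) * f1 (φ N))
    rw [map_mul, map_mul, map_mul, map_mul]
    calc f6 M * f6 N * (f5 (φ M) * f5 (φ N)) * (f1 (φ M) * f1 (φ N))
        = f6 M * (f6 N * f5 (φ M)) * (f5 (φ N) * f1 (φ M)) * f1 (φ N) := by simp only [mul_assoc]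
      _ = f6 M * (f5 (φ M) * f6 N) * (f1 (φ M) * f5 (φ N)) * f1 (φ N) := by rw [c65 N (φ M), c51 (φ N) (φ M)]
      _ = f6 M * f5 (φ M) * (f6 N * f1 (φ M)) * f5 (φ N) * f1 (φ N) := by simp only [mul_assoc]
      _ = f6 M * f5 (φ M) * (f1 (φ M) * f6 N) * f5 (φ N) * f1 (φ N) := by rw [c61 N (φ M)]
      _ = f6 M * f5 (φ M) * f1 (φ M) * (f6 N * f5 (φ N) * f1 (φ N)) := by simp only [mul_assoc]
  · show f6 (up t) * f5 (φ (up t)) * f1 (φ (up t)) = eG x 1 t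
    rw [hu, h6.up, h5.up, h1.up]
    exact (mul_one _).symm
  · show f6 (nA K) * f5 (φ (nA K)) * f1 (φ (nA K)) = nnA x
    rw [hφn, hnn _ _ h6, hnn _ _ h5, hnn _ _ h1]
    rfl
  · show f6 (ThG.dg b) * f5 (φ (ThG.dg b)) * f1 (φ (ThG.dg b)) = tAE x b
    rw [hd, h6.dg, h5.dg, h1.dg]
    rfl
-- END gc

-- BEGIN gd
/-- the family `e_4, e_3, e_2, e_1` -/
private def gd_u (i : Fin 4) : Vec 6 := (![(0, ![0, 0, 0, 0, 1, 0]), (0, ![0, 0, 0, 1, 0, 0]), (0, ![0, 0, 1, 0, 0, 0]), (0, ![0, 1, 0, 0, 0, 0])] : Fin 4 → Vec 6) i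

private theorem gd_fam : Fam (fun _ => (0 : ℤ)) gd_u := by
  unfold Fam L0
  decide +kernel

private theorem gd_cf (hK : Nat.card K = 8) (i j : Fin 4) : cf K gd_u i j = 1 := by
  have h1 := cf_sq (K := K) gd_u i j
  have h2 := two8 hK
  have h3 : (cf K gd_u i j - 1) * (cf K gd_u i j - 1) = 0 := by linear_combination h1 + (1 - cf K gd_u i j) * h2
  exact sub_eq_zero.1 (mul_self_eq_zero.1 h3)

private theorem gd_F (hK : Nat.card K = 8) {F : Matrix.SpecialLinearGroup (Fin 4) K →* G} (hF : HomF x gd_u F) {i j : Fin 4} (hij : i ≠ j) {r : Root 6}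
    (hr : r.1 = gd_u i - gd_u j) (a : K) : F (ThK.el K i j a) = x r a := by
  have hr' : IsR (gd_u i - gd_u j) := by
    rw [← hr]
    exact r.2
  rw [hF i j hij a, gd_cf hK, one_mul, X_of x hr']
  congr 1
  exact Subtype.ext hr.symm

private theorem gd_el {i j : Fin 4} (h : i ≠ j) (a : K) : (ThK.el K i j a).1 = Matrix.transvection i j a := by
  unfold ThK.el
  rw [dif_pos h]

private theorem gd_nn (hK : Nat.card K = 8) {F : Matrix.SpecialLinearGroup (Fin 4) K →* G} (hF : HomF x gd_u F) {i j : Fin 4} (hij : i ≠ j) {r : Root 6}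
    (hr : r.1 = gd_u i - gd_u j) : F (ThK.nA (ThK.el K) i j 1) = ThK.nn x r 1 := by
  have h2 := two8 hK
  have e1 : -(1 : K)⁻¹ = 1⁻¹ := by
    rw [inv_one]
    linear_combination (-1 : K) * h2
  unfold ThK.nA ThK.nn
  rw [map_mul, map_mul, gd_F hK hF hij hr, gd_F hK hF hij.symm (r := -r) (by rw [neg_val, hr]; abel), e1]

private theorem gd_T01 (a : K) : Matrix.transvection (0 : Fin 4) 1 a = !![1, a, 0, 0; 0, 1, 0, 0; 0, 0, 1, 0; 0, 0, 0, 1] := by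
  ext p q
  fin_cases p <;> fin_cases q <;> simp [Matrix.transvection, Matrix.single_apply]

private theorem gd_T10 (a : K) : Matrix.transvection (1 : Fin 4) 0 a = !![1, 0, 0, 0; a, 1, 0, 0; 0, 0, 1, 0; 0, 0, 0, 1] := by
  ext p q
  fin_cases p <;> fin_cases q <;> simp [Matrix.transvection, Matrix.single_apply]

private theorem gd_T12 (a : K) : Matrix.transvection (1 : Fin 4) 2 a = !![1, 0, 0, 0; 0, 1, a, 0; 0, 0, 1, 0; 0, 0, 0, 1] := by
  ext p q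
  fin_cases p <;> fin_cases q <;> simp [Matrix.transvection, Matrix.single_apply]

private theorem gd_T21 (a : K) : Matrix.transvection (2 : Fin 4) 1 a = !![1, 0, 0, 0; 0, 1, 0, 0; 0, a, 1, 0; 0, 0, 0, 1] := by
  ext p q
  fin_cases p <;> fin_cases q <;> simp [Matrix.transvection, Matrix.single_apply]

private theorem gd_T23 (a : K) : Matrix.transvection (2 : Fin 4) 3 a = !![1, 0, 0, 0; 0, 1, 0, 0; 0, 0, 1, a; 0, 0, 0, 1] := by
  ext p q
  fin_cases p <;> fin_cases q <;> simp [Matrix.transvection, Matrix.single_apply]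

private theorem gd_T32 (a : K) : Matrix.transvection (3 : Fin 4) 2 a = !![1, 0, 0, 0; 0, 1, 0, 0; 0, 0, 1, 0; 0, 0, a, 1] := by
  ext p q
  fin_cases p <;> fin_cases q <;> simp [Matrix.transvection, Matrix.single_apply]

private theorem gd_T02 (a : K) : Matrix.transvection (0 : Fin 4) 2 a = !![1, 0, a, 0; 0, 1, 0, 0; 0, 0, 1, 0; 0, 0, 0, 1] := by
  ext p q
  fin_cases p <;> fin_cases q <;> simp [Matrix.transvection, Matrix.single_apply]

private theorem gd_T13 (a : K) : Matrix.transvection (1 : Fin 4) 3 a = !![1, 0, 0, 0; 0, 1, 0, a; 0, 0, 1, 0; 0, 0, 0, 1] := by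
  ext p q
  fin_cases p <;> fin_cases q <;> simp [Matrix.transvection, Matrix.single_apply]

private theorem gd_pS (hK : Nat.card K = 8) (t : K) : pS t 0 = ThK.el K 1 2 t * ThK.el K 0 1 (t ^ 2) * ThK.el K 2 3 (t ^ 2) * (ThK.el K 0 2 (t ^ 3) * ThK.el K 1 3 (t ^ 3)) := by
  have h2 := two8 hK
  apply Subtype.ext
  show (pS t 0).1 = (ThK.el K 1 2 t).1 * (ThK.el K 0 1 (t ^ 2)).1 * (ThK.el K 2 3 (t ^ 2)).1 * ((ThK.el K 0 2 (t ^ 3)).1 * (ThK.el K 1 3 (t ^ 3)).1)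
  rw [gd_el (by decide), gd_el (by decide), gd_el (by decide), gd_el (by decide), gd_el (by decide), gd_T12, gd_T01, gd_T23, gd_T02, gd_T13]
  have e1 : (!![1, 0, 0, 0; 0, 1, t, 0; 0, 0, 1, 0; 0, 0, 0, 1] : Matrix (Fin 4) (Fin 4) K) * !![1, t ^ 2, 0, 0; 0, 1, 0, 0; 0, 0, 1, 0; 0, 0, 0, 1] =
      !![1, t ^ 2, 0, 0; 0, 1, t, 0; 0, 0, 1, 0; 0, 0, 0, 1] := by
    ext p q
    fin_cases p <;> fin_cases q <;> simp [Matrix.mul_apply, Fin.sum_univ_four]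
  have e2 : (!![1, t ^ 2, 0, 0; 0, 1, t, 0; 0, 0, 1, 0; 0, 0, 0, 1] : Matrix (Fin 4) (Fin 4) K) * !![1, 0, 0, 0; 0, 1, 0, 0; 0, 0, 1, t ^ 2; 0, 0, 0, 1] =
      !![1, t ^ 2, 0, 0; 0, 1, t, t * t ^ 2; 0, 0, 1, t ^ 2; 0, 0, 0, 1] := by
    ext p q
    fin_cases p <;> fin_cases q <;> simp [Matrix.mul_apply, Fin.sum_univ_four]
  have e3 : (!![1, 0, t ^ 3, 0; 0, 1, 0, 0; 0, 0, 1, 0; 0, 0, 0, 1] : Matrix (Fin 4) (Fin 4) K) * !![1, 0, 0, 0; 0, 1, 0, t ^ 3; 0, 0, 1, 0; 0, 0, 0, 1] =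
      !![1, 0, t ^ 3, 0; 0, 1, 0, t ^ 3; 0, 0, 1, 0; 0, 0, 0, 1] := by
    ext p q
    fin_cases p <;> fin_cases q <;> simp [Matrix.mul_apply, Fin.sum_univ_four]
  have e4 : (!![1, t ^ 2, 0, 0; 0, 1, t, t * t ^ 2; 0, 0, 1, t ^ 2; 0, 0, 0, 1] : Matrix (Fin 4) (Fin 4) K) * !![1, 0, t ^ 3, 0; 0, 1, 0, t ^ 3; 0, 0, 1, 0; 0, 0, 0, 1] =
      !![1, t ^ 2, t ^ 3, t ^ 2 * t ^ 3; 0, 1, t, t ^ 3 + t * t ^ 2; 0, 0, 1, t ^ 2; 0, 0, 0, 1] := by
    ext p q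
    fin_cases p <;> fin_cases q <;> simp [Matrix.mul_apply, Fin.sum_univ_four]
  rw [e1, e2, e3, e4]
  have e5 : t ^ 3 + t * t ^ 2 = (0 : K) := by linear_combination t ^ 3 * h2
  have e6 : t ^ 2 * t ^ 3 = t ^ 5 := by ring
  rw [e5, e6]
  ext p q
  fin_cases p <;> fin_cases q <;> simp [pS]

private theorem gd_s01 (hK : Nat.card K = 8) : (ThK.nA (ThK.el K) (0 : Fin 4) 1 1).1 = !![0, 1, 0, 0; 1, 0, 0, 0; 0, 0, 1, 0; 0, 0, 0, 1] := by
  have h2 := two8 hK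
  show (ThK.el K (0 : Fin 4) 1 1).1 * (ThK.el K (1 : Fin 4) 0 (-1⁻¹)).1 * (ThK.el K (0 : Fin 4) 1 1).1 = _
  rw [gd_el (by decide), gd_el (by decide), gd_T01, gd_T10]
  have e1 : -(1 : K)⁻¹ = 1 := by
    rw [inv_one]
    linear_combination (-1 : K) * h2
  have e2 : (1 : K) + 1 = 0 := by linear_combination h2
  rw [e1]
  ext p q
  fin_cases p <;> fin_cases q <;> simp [Matrix.mul_apply, Fin.sum_univ_four, e2]

private theorem gd_s12 (hK : Nat.card K = 8) : (ThK.nA (ThK.el K) (1 : Fin 4) 2 1).1 = !![1, 0, 0, 0; 0, 0, 1, 0; 0, 1, 0, 0; 0, 0, 0, 1] := by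
  have h2 := two8 hK
  show (ThK.el K (1 : Fin 4) 2 1).1 * (ThK.el K (2 : Fin 4) 1 (-1⁻¹)).1 * (ThK.el K (1 : Fin 4) 2 1).1 = _
  rw [gd_el (by decide), gd_el (by decide), gd_T12, gd_T21]
  have e1 : -(1 : K)⁻¹ = 1 := by
    rw [inv_one]
    linear_combination (-1 : K) * h2
  have e2 : (1 : K) + 1 = 0 := by linear_combination h2
  rw [e1]
  ext p q
  fin_cases p <;> fin_cases q <;> simp [Matrix.mul_apply, Fin.sum_univ_four, e2]

private theorem gd_s23 (hK : Nat.card K = 8) : (ThK.nA (ThK.el K) (2 : Fin 4) 3 1).1 = !![1, 0, 0, 0; 0, 1, 0, 0; 0, 0, 0, 1; 0, 0, 1, 0] := by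
  have h2 := two8 hK
  show (ThK.el K (2 : Fin 4) 3 1).1 * (ThK.el K (3 : Fin 4) 2 (-1⁻¹)).1 * (ThK.el K (2 : Fin 4) 3 1).1 = _
  rw [gd_el (by decide), gd_el (by decide), gd_T23, gd_T32]
  have e1 : -(1 : K)⁻¹ = 1 := by
    rw [inv_one]
    linear_combination (-1 : K) * h2
  have e2 : (1 : K) + 1 = 0 := by linear_combination h2
  rw [e1]
  ext p q
  fin_cases p <;> fin_cases q <;> simp [Matrix.mul_apply, Fin.sum_univ_four, e2]

private theorem gd_JS (hK : Nat.card K = 8) : JS K = ThK.nA (ThK.el K) (1 : Fin 4) 2 1 * ThK.nA (ThK.el K) (2 : Fin 4) 3 1 * ThK.nA (ThK.el K) (0 : Fin 4) 1 1 *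
    ThK.nA (ThK.el K) (1 : Fin 4) 2 1 * ThK.nA (ThK.el K) (2 : Fin 4) 3 1 * ThK.nA (ThK.el K) (0 : Fin 4) 1 1 := by
  apply Subtype.ext
  show (JS K).1 = (ThK.nA (ThK.el K) (1 : Fin 4) 2 1).1 * (ThK.nA (ThK.el K) (2 : Fin 4) 3 1).1 * (ThK.nA (ThK.el K) (0 : Fin 4) 1 1).1 *
    (ThK.nA (ThK.el K) (1 : Fin 4) 2 1).1 * (ThK.nA (ThK.el K) (2 : Fin 4) 3 1).1 * (ThK.nA (ThK.el K) (0 : Fin 4) 1 1).1
  rw [gd_s01 hK, gd_s12 hK, gd_s23 hK]
  have e1 : (!![1, 0, 0, 0; 0, 0, 1, 0; 0, 1, 0, 0; 0, 0, 0, 1] : Matrix (Fin 4) (Fin 4) K) * !![1, 0, 0, 0; 0, 1, 0, 0; 0, 0, 0, 1; 0, 0, 1, 0] *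
      !![0, 1, 0, 0; 1, 0, 0, 0; 0, 0, 1, 0; 0, 0, 0, 1] = !![0, 1, 0, 0; 0, 0, 0, 1; 1, 0, 0, 0; 0, 0, 1, 0] := by
    ext p q
    fin_cases p <;> fin_cases q <;> simp [Matrix.mul_apply, Fin.sum_univ_four]
  rw [e1, Matrix.mul_assoc _ _ (!![0, 1, 0, 0; 1, 0, 0, 0; 0, 0, 1, 0; 0, 0, 0, 1] : Matrix (Fin 4) (Fin 4) K), Matrix.mul_assoc, ← Matrix.mul_assoc _ _ (!![0, 1, 0, 0; 1, 0, 0, 0; 0, 0, 1, 0; 0, 0, 0, 1] : Matrix (Fin 4) (Fin 4) K), e1]
  ext p q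
  fin_cases p <;> fin_cases q <;> simp [JS, Matrix.mul_apply, Fin.sum_univ_four]

private theorem gd_tS (b : Kˣ) : tS b = ThK.hA (ThK.el K) (0 : Fin 4) 1 ((b⁻¹ : Kˣ) : K) * ThK.hA (ThK.el K) (1 : Fin 4) 2 (((b⁻¹) ^ 4 : Kˣ) : K) * ThK.hA (ThK.el K) (2 : Fin 4) 3 ((b⁻¹ : Kˣ) : K) := by
  have hb : (b : K) ≠ 0 := b.ne_zero
  apply Subtype.ext
  show (tS b).1 = (ThK.hA (ThK.el K) (0 : Fin 4) 1 ((b⁻¹ : Kˣ) : K)).1 * (ThK.hA (ThK.el K) (1 : Fin 4) 2 (((b⁻¹) ^ 4 : Kˣ) : K)).1 * (ThK.hA (ThK.el K) (2 : Fin 4) 3 ((b⁻¹ : Kˣ) : K)).1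
  rw [hA_el (by decide), hA_el (by decide), hA_el (by decide), Matrix.diagonal_mul_diagonal, Matrix.diagonal_mul_diagonal]
  ext p q
  fin_cases p <;> fin_cases q <;> simp [tS]
  · field_simp
  · field_simp

/-- ROW gd. `exists_HomF` (`ThR/Six.lean`) for the family `u i = ε_(4 - i)` (`u 0 - u 1 = vS 8`, `u 1 - u 2 = vR 8`, `u 2 - u 3 = vB 8`, `u 0 - u 2 = vP 8`, `u 1 - u 3 = vQ 8`; level `l = 0`; `cf` is `1` by characteristic two), `HomF.hA`.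
`pS t 0 = el 1 2 t * el 0 1 (t ^ 2) * el 2 3 (t ^ 2) * el 0 2 (t ^ 3) * el 1 3 (t ^ 3)`; `JS K = s₁₂ s₂₃ s₀₁ s₁₂ s₂₃ s₀₁` with `s_ij = el i j 1 * el j i 1 * el i j 1`; `tS b = h₀₁(b⁻¹) h₁₂(b⁻⁴) h₂₃(b⁻¹)`, `h_ij(c) = ThK.hA (el K) i j c` (diagonal `c` at `i`, `c⁻¹` at `j`). -/
theorem exists_fB (hK : Nat.card K = 8) (h : ThK.Stb K 6 x) :
    ∃ f : Matrix.SpecialLinearGroup (Fin 4) K →* G, (∀ t, f (pS t 0) = eG x 8 t) ∧ f (JS K) = nnB x ∧ ∀ b : Kˣ, f (tS b) = tBE x b := by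
  obtain ⟨F, hF⟩ := exists_HomF (Or.inl rfl) h gd_fam
  have r01 : (rS 8).1 = gd_u 0 - gd_u 1 := by decide
  have r12 : (rR 8).1 = gd_u 1 - gd_u 2 := by decide
  have r23 : (rB 8).1 = gd_u 2 - gd_u 3 := by decide
  have r02 : (rP 8).1 = gd_u 0 - gd_u 2 := by decide
  have r13 : (rQ 8).1 = gd_u 1 - gd_u 3 := by decide
  refine ⟨F, fun t => ?_, ?_, fun b => ?_⟩
  · rw [gd_pS hK, map_mul, map_mul, map_mul, map_mul, gd_F hK hF (by decide) r12, gd_F hK hF (by decide) r01, gd_F hK hF (by decide) r23,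
      gd_F hK hF (by decide) r02, gd_F hK hF (by decide) r13]
    unfold eG
    rw [if_pos (by decide)]
  · rw [gd_JS hK, map_mul, map_mul, map_mul, map_mul, map_mul, gd_nn hK hF (by decide) r12, gd_nn hK hF (by decide) r23, gd_nn hK hF (by decide) r01]
    rfl
  · rw [gd_tS, map_mul, map_mul, HomF.hA (Or.inl rfl) h gd_fam hF (by decide) r01, HomF.hA (Or.inl rfl) h gd_fam hF (by decide) r12,
      HomF.hA (Or.inl rfl) h gd_fam hF (by decide) r23]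
    rfl
-- END gd

-- BEGIN ge
private theorem ge_one (h : ThK.Stb K 6 x) (b : Kˣ) (s : Root 6) (c : K) : tAE x b * x s c * (tAE x b)⁻¹ = x s (((b ^ eA s.1 : Kˣ) : K) * c) := by
  have e : ∀ p q r y : G, p * q * r * y * (p * q * r)⁻¹ = p * (q * (r * y * r⁻¹) * q⁻¹) * p⁻¹ := fun p q r y => by group
  rw [tAE, e, ThK.hh_conj (Or.inl rfl) h _ _ (Units.ne_zero _), ThK.hh_conj (Or.inl rfl) h _ _ (Units.ne_zero _), ThK.hh_conj (Or.inl rfl) h _ _ (Units.ne_zero _),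
    ← Units.val_zpow_eq_zpow_val, ← Units.val_zpow_eq_zpow_val, ← Units.val_zpow_eq_zpow_val, ← mul_assoc, ← mul_assoc, ← Units.val_mul, ← Units.val_mul]
  congr 3
  rw [← zpow_natCast, ← zpow_mul, ← zpow_mul, ← zpow_add, ← zpow_add]
  rfl

private theorem ge_two (h : ThK.Stb K 6 x) (b : Kˣ) (s : Root 6) (c : K) : tBE x b * x s c * (tBE x b)⁻¹ = x s (((b ^ eB s.1 : Kˣ) : K) * c) := by
  have e : ∀ p q r y : G, p * q * r * y * (p * q * r)⁻¹ = p * (q * (r * y * r⁻¹) * q⁻¹) * p⁻¹ := fun p q r y => by group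
  rw [tBE, e, ThK.hh_conj (Or.inl rfl) h _ _ (Units.ne_zero _), ThK.hh_conj (Or.inl rfl) h _ _ (Units.ne_zero _), ThK.hh_conj (Or.inl rfl) h _ _ (Units.ne_zero _),
    ← Units.val_zpow_eq_zpow_val, ← Units.val_zpow_eq_zpow_val, ← Units.val_zpow_eq_zpow_val, ← mul_assoc, ← mul_assoc, ← Units.val_mul, ← Units.val_mul]
  congr 3
  simp only [← zpow_natCast, ← zpow_neg_one, ← zpow_mul, ← zpow_add]
  congr 1
  show _ = -bf (vS 8) s.1 - 4 * bf (vR 8) s.1 - bf (vB 8) s.1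
  show -1 * bf (vS 8) s.1 + -1 * 4 * bf (vR 8) s.1 + -1 * bf (vB 8) s.1 = _
  ring

private theorem ge_pow (hK : Nat.card K = 8) (b : Kˣ) {e : ℤ} {c k : ℕ} (he : e % 7 = (k : ℤ) * (c : ℤ) % 7) (t : K) : ((b ^ e : Kˣ) : K) * t ^ k = ((b : K) ^ c * t) ^ k := by
  have h7 : b ^ (7 : ℤ) = 1 := by
    have := unit7 hK b
    exact_mod_cast this
  have h1 : b ^ e = b ^ (c * k) := by
    rw [zpow_eq_zpow_emod e h7, he, ← zpow_eq_zpow_emod _ h7, mul_comm c k, ← zpow_natCast, Nat.cast_mul]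
  rw [h1, mul_pow, ← pow_mul, Units.val_pow_eq_pow_val]

private theorem ge_fac (hK : Nat.card K = 8) (x : Root 6 → K → G) {T : G} {b : Kˣ} {e : Vec 6 → ℤ} {cc : Fin 16 → ℕ} (hT : ∀ s c, T * x s c * T⁻¹ = x s (((b ^ e s.1 : Kˣ) : K) * c))
    (he : ∀ i : Fin 16, e (vR i) % 7 = (cc i : ℤ) % 7 ∧ e (vS i) % 7 = 2 * (cc i : ℤ) % 7 ∧ e (vB i) % 7 = 2 * (cc i : ℤ) % 7 ∧
      ((i : ℕ) % 2 = 0 → e (vP i) % 7 = 3 * (cc i : ℤ) % 7 ∧ e (vQ i) % 7 = 3 * (cc i : ℤ) % 7)) (i : Fin 16) (t : K) :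
    T * eG x i t * T⁻¹ = eG x i ((b : K) ^ cc i * t) := by
  obtain ⟨h1, h2, h3, h4⟩ := he i
  have k1 : T * x (rR i) t * T⁻¹ = x (rR i) ((b : K) ^ cc i * t) := by
    rw [hT]
    have := ge_pow hK b (e := e (vR i)) (c := cc i) (k := 1) (by rw [Nat.cast_one, one_mul]; exact h1) t
    rw [pow_one, pow_one] at this
    exact congrArg _ this
  have k2 : T * x (rS i) (t ^ 2) * T⁻¹ = x (rS i) (((b : K) ^ cc i * t) ^ 2) := by
    rw [hT]
    exact congrArg _ (ge_pow hK b (e := e (vS i)) (c := cc i) (k := 2) h2 t)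
  have k3 : T * x (rB i) (t ^ 2) * T⁻¹ = x (rB i) (((b : K) ^ cc i * t) ^ 2) := by
    rw [hT]
    exact congrArg _ (ge_pow hK b (e := e (vB i)) (c := cc i) (k := 2) h3 t)
  have d : ∀ p q : G, T * (p * q) * T⁻¹ = T * p * T⁻¹ * (T * q * T⁻¹) := fun p q => by group
  by_cases hi : (i : ℕ) % 2 = 0
  · obtain ⟨h5, h6⟩ := h4 hi
    have k4 : T * x (rP i) (t ^ 3) * T⁻¹ = x (rP i) (((b : K) ^ cc i * t) ^ 3) := by
      rw [hT]
      exact congrArg _ (ge_pow hK b (e := e (vP i)) (c := cc i) (k := 3) h5 t)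
    have k5 : T * x (rQ i) (t ^ 3) * T⁻¹ = x (rQ i) (((b : K) ^ cc i * t) ^ 3) := by
      rw [hT]
      exact congrArg _ (ge_pow hK b (e := e (vQ i)) (c := cc i) (k := 3) h6 t)
    rw [eG, eG, if_pos hi, if_pos hi, d, d, d, d, k1, k2, k3, k4, k5]
  · rw [eG, eG, if_neg hi, if_neg hi, mul_one, mul_one, d, d, k1, k2, k3]

/-- ROW ge. `tAE x b * x s c * (tAE x b)⁻¹ = x s (b ^ (eA s) * c)` (`hh_conj` three times; zpow), `b ^ 7 = 1` (`unit7`), `eA_ok`, `eB_ok`; the factors of `eG`: `(b ^ c * t) ^ 2 = b ^ (2 c) * t ^ 2` and `^ 3` -/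
theorem tAE_conj (hK : Nat.card K = 8) (h : ThK.Stb K 6 x) (b : Kˣ) (i : Fin 16) (t : K) : tAE x b * eG x i t * (tAE x b)⁻¹ = eG x i ((b : K) ^ ca i * t) :=
  ge_fac hK x (ge_one h b) eA_ok i t

theorem tBE_conj (hK : Nat.card K = 8) (h : ThK.Stb K 6 x) (b : Kˣ) (i : Fin 16) (t : K) : tBE x b * eG x i t * (tBE x b)⁻¹ = eG x i ((b : K) ^ cb i * t) :=
  ge_fac hK x (ge_two h b) eB_ok i t

/-- `hh_comm` -/
theorem tAE_tBE (h : ThK.Stb K 6 x) (b c : Kˣ) : tAE x b * tBE x c = tBE x c * tAE x b := by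
  have q : ∀ (r s : Root 6) (u v : Kˣ), Commute (ThK.hh x r (u : K)) (ThK.hh x s (v : K)) := fun r s u v => ThK.hh_comm (Or.inl rfl) h r s u.ne_zero v.ne_zero
  have q1 : ∀ (s : Root 6) (v : Kˣ), Commute (tAE x b) (ThK.hh x s (v : K)) := fun s v => Commute.mul_left (Commute.mul_left (q _ _ _ _) (q _ _ _ _)) (q _ _ _ _)
  exact Commute.mul_right (Commute.mul_right (q1 _ _) (q1 _ _)) (q1 _ _)
-- END ge

-- BEGIN gf
private theorem gf_sm (hK : Nat.card K = 8) (h : ThK.Stb K 6 x) {a b c : Fin 36} (hs : sm a b = some c) : x (pr a) 1 * x (pr b) 1 = x (pr b) 1 * x (pr a) 1 * x (pr c) 1 := by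
  have h1 := sm_ok a b
  unfold smc at h1
  rw [hs] at h1
  have h2 : pv c = pv a + pv b := by
    simpa only [decide_eq_true_eq] using h1
  have h3 := x_sum hK h (r := pr a) (s := pr b) (t := pr c) h2 1 1
  rw [mul_one] at h3
  exact h3

private theorem gf_no (h : ThK.Stb K 6 x) {a b : Fin 36} (hs : sm a b = none) : x (pr a) 1 * x (pr b) 1 = x (pr b) 1 * x (pr a) 1 := by
  have h1 := sm_ok a b
  unfold smc at h1
  rw [hs] at h1
  have h2 : 0 ≤ bf (pv a) (pv b) := by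
    simpa only [decide_eq_true_eq] using h1
  exact h.commute (r := pr a) (s := pr b) h2 1 1

/-- ROW gf. The collecting procedure is correct: `x (pr a) 1 * x (pr a) 1 = 1`; `sm_ok`: if `sm a b = some c` then `x (pr a) 1 * x (pr b) 1 = x (pr b) 1 * x (pr a) 1 * x (pr c) 1` (`x_sum`), otherwise they commute (`Stb.commute`); induction on the fuel -/
theorem ins_ok (hK : Nat.card K = 8) (h : ThK.Stb K 6 x) (n : ℕ) (a : Fin 36) (w : List (Fin 36)) : ((ins n a w).map fun k => x (pr k) 1).prod = x (pr a) 1 * (w.map fun k => x (pr k) 1).prod := by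
  induction n generalizing a w with
  | zero =>
    unfold ins
    rw [List.map_cons, List.prod_cons]
  | succ n ih =>
    cases w with
    | nil =>
      unfold ins
      rw [List.map_cons, List.prod_cons]
    | cons b w =>
      unfold ins
      split_ifs with h1 h2
      · rw [List.map_cons, List.prod_cons]
      · subst h2
        rw [List.map_cons, List.prod_cons, ← mul_assoc, x_sq hK h, one_mul]
      · cases hs : sm a b with
        | some c =>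
          show (((b :: ins n a (ins n c w)).map fun k => x (pr k) 1)).prod = _
          rw [List.map_cons, List.prod_cons, ih, ih, List.map_cons, List.prod_cons]
          have e : x (pr a) 1 * (x (pr b) 1 * (w.map fun k => x (pr k) 1).prod) = x (pr b) 1 * (x (pr a) 1 * (x (pr c) 1 * (w.map fun k => x (pr k) 1).prod)) := by
            rw [← mul_assoc, gf_sm hK h hs]
            simp only [mul_assoc]
          exact e.symm
        | none =>
          show (((b :: ins n a w).map fun k => x (pr k) 1)).prod = _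
          rw [List.map_cons, List.prod_cons, ih, List.map_cons, List.prod_cons]
          have e : x (pr a) 1 * (x (pr b) 1 * (w.map fun k => x (pr k) 1).prod) = x (pr b) 1 * (x (pr a) 1 * (w.map fun k => x (pr k) 1).prod) := by
            rw [← mul_assoc, gf_no h hs, mul_assoc]
          exact e.symm

theorem nrm_ok (hK : Nat.card K = 8) (h : ThK.Stb K 6 x) (w : List (Fin 36)) : ((nrm w).map fun k => x (pr k) 1).prod = (w.map fun k => x (pr k) 1).prod := by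
  unfold nrm
  induction w with
  | nil => rfl
  | cons a w ih =>
    rw [List.foldr_cons, ins_ok hK h, ih, List.map_cons, List.prod_cons]

open Classical in
private noncomputable def gf_y (x : Root 6 → K → G) (v : Vec 6) : G := if hv : IsR v then x ⟨v, hv⟩ 1 else 1

private theorem gf_y_eq (x : Root 6 → K → G) (r : Root 6) : gf_y x r.1 = x r 1 := by
  unfold gf_y
  exact dif_pos r.2

/-- `wd_ok`: the word of `e i 1` -/
theorem wd_prod (i : Fin 16) (h1 : 1 ≤ i) (h8 : i ≤ 8) : ((wd i).map fun k => x (pr k) 1).prod = eG x i 1 := by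
  have e1 : ((wd i).map fun k => x (pr k) 1) = ((wd i).map pv).map (gf_y x) := by
    rw [List.map_map]
    refine List.map_congr_left fun k _ => ?_
    exact (gf_y_eq x (pr k)).symm
  rw [e1, wd_ok i h1 h8]
  unfold eG
  have kR : gf_y x (vR i) = x (rR i) 1 := gf_y_eq x (rR i)
  have kS : gf_y x (vS i) = x (rS i) 1 := gf_y_eq x (rS i)
  have kB : gf_y x (vB i) = x (rB i) 1 := gf_y_eq x (rB i)
  have kP : gf_y x (vP i) = x (rP i) 1 := gf_y_eq x (rP i)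
  have kQ : gf_y x (vQ i) = x (rQ i) 1 := gf_y_eq x (rQ i)
  split_ifs with h2
  · simp only [List.map_append, List.map_cons, List.map_nil, List.prod_append, List.prod_cons, List.prod_nil, kR, kS, kB, kP, kQ, one_pow, mul_one, mul_assoc]
  · simp only [List.map_append, List.map_cons, List.map_nil, List.prod_append, List.prod_cons, List.prod_nil, kR, kS, kB, one_pow, mul_one, mul_assoc]
-- END gf

-- BEGIN gg
private theorem gg_wd {n : ℕ} (h1 : 1 ≤ n) (h8 : n ≤ 8) : ((wd n).map fun k => x (pr k) 1).prod = eG x (Fin.ofNat 16 n) 1 := by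
  have h2 : 1 ≤ Fin.ofNat 16 n ∧ Fin.ofNat 16 n ≤ 8 ∧ ((Fin.ofNat 16 n : Fin 16) : ℕ) = n := by
    interval_cases n <;> decide
  have h3 := wd_prod (x := x) (Fin.ofNat 16 n) h2.1 h2.2.1
  rw [h2.2.2] at h3
  exact h3

private theorem gg_rev (hK : Nat.card K = 8) (h : ThK.Stb K 6 x) (w : List (Fin 36)) : (w.reverse.map fun k => x (pr k) 1).prod = ((w.map fun k => x (pr k) 1).prod)⁻¹ := by
  induction w with
  | nil => simp
  | cons a w ih =>
    have e1 : x (pr a) 1 = (x (pr a) 1)⁻¹ := eq_inv_of_mul_eq_one_left (x_sq hK h (pr a) 1)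
    rw [List.reverse_cons, List.map_append, List.prod_append, ih, List.map_singleton, List.prod_singleton, List.map_cons, List.prod_cons, mul_inv_rev, ← e1]

private theorem gg_wds {l : List ℕ} (hl : ∀ k ∈ l, 1 ≤ k ∧ k ≤ 8) : ((wds l).map fun k => x (pr k) 1).prod = (l.map fun k => eG x (Fin.ofNat 16 k) 1).prod := by
  induction l with
  | nil => rfl
  | cons a l ih =>
    have e1 : wds (a :: l) = wd a ++ wds l := by
      unfold wds
      rw [List.map_cons, List.flatten_cons]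
    rw [e1, List.map_append, List.prod_append, ih (fun k hk => hl k (List.mem_cons_of_mem _ hk)), List.map_cons, List.prod_cons, gg_wd (hl a List.mem_cons_self).1 (hl a List.mem_cons_self).2]

private theorem gg_tab : ∀ q ∈ tabE, (1 ≤ q.1 ∧ q.1 ≤ 8) ∧ (1 ≤ q.2.1 ∧ q.2.1 ≤ 8) ∧ ∀ k ∈ q.2.2, 1 ≤ k ∧ k ≤ 8 := by
  decide

/-- ROW gg. `tabE_ok`, `nrm_ok`, `wd_prod`; the reversed word gives the inverse (`x_sq`) -/
theorem com1 (hK : Nat.card K = 8) (h : ThK.Stb K 6 x) {i j : ℕ} {l : List ℕ} (hq : (i, j, l) ∈ tabE) :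
    eG x (Fin.ofNat 16 i) 1 * eG x (Fin.ofNat 16 j) 1 * (eG x (Fin.ofNat 16 i) 1)⁻¹ * (eG x (Fin.ofNat 16 j) 1)⁻¹ = (l.map fun k => eG x (Fin.ofNat 16 k) 1).prod := by
  obtain ⟨⟨i1, i8⟩, ⟨j1, j8⟩, hl⟩ := gg_tab _ hq
  have h1 := tabE_ok _ hq
  have h2 := congrArg (fun w : List (Fin 36) => (w.map fun k => x (pr k) 1).prod) h1
  simp only [nrm_ok hK h] at h2
  rw [gg_wds hl] at h2
  rw [← h2]
  show _ = ((cwd i j).map fun k => x (pr k) 1).prod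
  unfold cwd
  rw [List.map_append, List.map_append, List.map_append, List.prod_append, List.prod_append, List.prod_append, gg_rev hK h, gg_rev hK h, gg_wd i1 i8, gg_wd j1 j8]
-- END gg

-- BEGIN gh
private theorem gh_pair : ∀ i k : Fin 16, (i = 1 ∧ 1 ≤ k ∧ k ≤ 7) ∨ (i = 2 ∧ (k = 2 ∨ k = 4 ∨ k = 6)) →
    ∃ q ∈ tabE, Fin.ofNat 16 q.1 = i ∧ Fin.ofNat 16 q.2.1 = i + k ∧ ∀ n ∈ q.2.2, 0 < Fin.ofNat 16 n - i ∧ Fin.ofNat 16 n - i < k := by
  decide +kernel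

/-- the inverse of the determinant modulo `7` -/
private def gh_d (i j : Fin 16) : ℕ := (ca i * cb j + 6 * (ca j * cb i)) ^ 5

private theorem gh_det : ∀ i k : Fin 16, (i = 1 ∧ 1 ≤ k ∧ k ≤ 7) ∨ (i = 2 ∧ (k = 2 ∨ k = 4 ∨ k = 6)) →
    (ca i * (gh_d i (i + k) * cb (i + k)) + cb i * (6 * gh_d i (i + k) * ca (i + k))) % 7 = 1 ∧
    (ca i * (6 * gh_d i (i + k) * cb i) + cb i * (gh_d i (i + k) * ca i)) % 7 = 0 ∧
    (ca (i + k) * (gh_d i (i + k) * cb (i + k)) + cb (i + k) * (6 * gh_d i (i + k) * ca (i + k))) % 7 = 0 ∧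
    (ca (i + k) * (6 * gh_d i (i + k) * cb i) + cb (i + k) * (gh_d i (i + k) * ca i)) % 7 = 1 := by
  decide +kernel

private theorem gh_pow1 (hK : Nat.card K = 8) (b : Kˣ) {n : ℕ} (h : n % 7 = 1) : b ^ n = b := by
  rw [← Nat.div_add_mod n 7, h, pow_add, pow_mul, unit7 hK, one_pow, one_mul, pow_one]

private theorem gh_pow0 (hK : Nat.card K = 8) (b : Kˣ) {n : ℕ} (h : n % 7 = 0) : b ^ n = 1 := by
  rw [← Nat.div_add_mod n 7, h, pow_add, pow_mul, unit7 hK, one_pow, one_mul, pow_zero]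

private theorem gh_zero (h : ThK.Stb K 6 x) (i : Fin 16) : eG x i 0 = 1 := by
  unfold eG
  rw [zero_pow two_ne_zero, zero_pow three_ne_zero, h.zero, h.zero, h.zero, h.zero, h.zero, one_mul, one_mul, one_mul, ite_self]

private theorem gh_conj (hK : Nat.card K = 8) (h : ThK.Stb K 6 x) (b c : Kˣ) (l : Fin 16) (s : K) :
    (tAE x b * tBE x c) * eG x l s * (tAE x b * tBE x c)⁻¹ = eG x l ((b : K) ^ ca l * ((c : K) ^ cb l * s)) := by
  rw [← tAE_conj hK h, ← tBE_conj hK h]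
  group

private theorem gh_bet (hK : Nat.card K = 8) (h : ThK.Stb K 6 x) (b c : Kˣ) (i k : Fin 16) {g : G} (hg : g ∈ Bet (eG x) i k) :
    (tAE x b * tBE x c) * g * (tAE x b * tBE x c)⁻¹ ∈ Bet (eG x) i k := by
  unfold Bet at hg
  induction hg using Subgroup.closure_induction with
  | mem g hg =>
    obtain ⟨l, s, h0, h1, rfl⟩ := hg
    rw [gh_conj hK h]
    exact Subgroup.subset_closure ⟨l, _, h0, h1, rfl⟩
  | one =>
    rw [mul_one, mul_inv_cancel]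
    exact one_mem _
  | mul a d _ _ ha hd =>
    have e : (tAE x b * tBE x c) * (a * d) * (tAE x b * tBE x c)⁻¹ = ((tAE x b * tBE x c) * a * (tAE x b * tBE x c)⁻¹) * ((tAE x b * tBE x c) * d * (tAE x b * tBE x c)⁻¹) := by group
    rw [e]
    exact mul_mem ha hd
  | inv a _ ha =>
    have e : (tAE x b * tBE x c) * a⁻¹ * (tAE x b * tBE x c)⁻¹ = ((tAE x b * tBE x c) * a * (tAE x b * tBE x c)⁻¹)⁻¹ := by group
    rw [e]
    exact inv_mem ha

/-- ROW gh. The base pairs, all parameters.  `t = 0` or `u = 0`: `eG x i 0 = 1`.  Otherwise `t = b ^ ca i * c ^ cb i`, `u = b ^ ca (i + k) * c ^ cb (i + k)` for some `b, c : Kˣ` (the determinant `ca i * cb (i + k) - ca (i + k) * cb i` is not `0` modulo `7`, `unit7`; exponents of the inverse matrix by `decide`);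
conjugate `com1` with `tAE x b * tBE x c`, which maps `Bet (eG x) i k` to itself. -/
theorem com_base (hK : Nat.card K = 8) (h : ThK.Stb K 6 x) {i k : Fin 16} (hik : (i = 1 ∧ 1 ≤ k ∧ k ≤ 7) ∨ (i = 2 ∧ (k = 2 ∨ k = 4 ∨ k = 6))) (t u : K) :
    eG x i t * eG x (i + k) u * (eG x i t)⁻¹ * (eG x (i + k) u)⁻¹ ∈ Bet (eG x) i k := by
  by_cases ht : t = 0
  · rw [ht, gh_zero h, inv_one, one_mul, mul_one, mul_inv_cancel]
    exact one_mem _
  by_cases hu : u = 0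
  · rw [hu, gh_zero h, inv_one, mul_one, mul_one, mul_inv_cancel]
    exact one_mem _
  -- the commutator with the parameters `1`, `1`
  have h1 : eG x i 1 * eG x (i + k) 1 * (eG x i 1)⁻¹ * (eG x (i + k) 1)⁻¹ ∈ Bet (eG x) i k := by
    obtain ⟨⟨m, n, l⟩, hq, e1, e2, hl⟩ := gh_pair i k hik
    have hc := com1 hK h hq
    simp only at e1 e2 hl
    rw [e1, e2] at hc
    rw [hc]
    refine Subgroup.list_prod_mem _ fun g hg => ?_
    obtain ⟨a, ha, rfl⟩ := List.mem_map.1 hg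
    obtain ⟨h0, h2⟩ := hl a ha
    refine Subgroup.subset_closure ⟨Fin.ofNat 16 a - i, 1, h0, h2, ?_⟩
    rw [add_sub_cancel]
  obtain ⟨d1, d2, d3, d4⟩ := gh_det i k hik
  set T : Kˣ := Units.mk0 t ht with hT
  set U : Kˣ := Units.mk0 u hu with hU
  set D : ℕ := gh_d i (i + k) with hD
  have key1 : (T ^ (D * cb (i + k)) * U ^ (6 * D * cb i)) ^ ca i * (T ^ (6 * D * ca (i + k)) * U ^ (D * ca i)) ^ cb i = T := by
    have e : (T ^ (D * cb (i + k)) * U ^ (6 * D * cb i)) ^ ca i * (T ^ (6 * D * ca (i + k)) * U ^ (D * ca i)) ^ cb i =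
        T ^ (ca i * (D * cb (i + k)) + cb i * (6 * D * ca (i + k))) * U ^ (ca i * (6 * D * cb i) + cb i * (D * ca i)) := by
      rw [mul_pow, mul_pow, ← pow_mul, ← pow_mul, ← pow_mul, ← pow_mul, pow_add, pow_add]
      rw [mul_comm (D * cb (i + k)) (ca i), mul_comm (6 * D * cb i) (ca i), mul_comm (6 * D * ca (i + k)) (cb i), mul_comm (D * ca i) (cb i)]
      exact mul_mul_mul_comm _ _ _ _
    rw [e, gh_pow1 hK T d1, gh_pow0 hK U d2, mul_one]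
  have key2 : (T ^ (D * cb (i + k)) * U ^ (6 * D * cb i)) ^ ca (i + k) * (T ^ (6 * D * ca (i + k)) * U ^ (D * ca i)) ^ cb (i + k) = U := by
    have e : (T ^ (D * cb (i + k)) * U ^ (6 * D * cb i)) ^ ca (i + k) * (T ^ (6 * D * ca (i + k)) * U ^ (D * ca i)) ^ cb (i + k) =
        T ^ (ca (i + k) * (D * cb (i + k)) + cb (i + k) * (6 * D * ca (i + k))) * U ^ (ca (i + k) * (6 * D * cb i) + cb (i + k) * (D * ca i)) := by
      rw [mul_pow, mul_pow, ← pow_mul, ← pow_mul, ← pow_mul, ← pow_mul, pow_add, pow_add]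
      rw [mul_comm (D * cb (i + k)) (ca (i + k)), mul_comm (6 * D * cb i) (ca (i + k)), mul_comm (6 * D * ca (i + k)) (cb (i + k)), mul_comm (D * ca i) (cb (i + k))]
      exact mul_mul_mul_comm _ _ _ _
    rw [e, gh_pow0 hK T d3, gh_pow1 hK U d4, one_mul]
  set b : Kˣ := T ^ (D * cb (i + k)) * U ^ (6 * D * cb i) with hb
  set c : Kˣ := T ^ (6 * D * ca (i + k)) * U ^ (D * ca i) with hc
  have et : (b : K) ^ ca i * ((c : K) ^ cb i * 1) = t := by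
    have e := congrArg (fun w : Kˣ => (w : K)) key1
    simp only [Units.val_mul, Units.val_pow_eq_pow_val] at e
    rw [mul_one, e]
    rfl
  have eu : (b : K) ^ ca (i + k) * ((c : K) ^ cb (i + k) * 1) = u := by
    have e := congrArg (fun w : Kˣ => (w : K)) key2
    simp only [Units.val_mul, Units.val_pow_eq_pow_val] at e
    rw [mul_one, e]
    rfl
  have c1 := gh_conj hK h b c i 1
  have c2 := gh_conj hK h b c (i + k) 1
  rw [et] at c1
  rw [eu] at c2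
  have h2 := gh_bet hK h b c i k h1
  have e : (tAE x b * tBE x c) * (eG x i 1 * eG x (i + k) 1 * (eG x i 1)⁻¹ * (eG x (i + k) 1)⁻¹) * (tAE x b * tBE x c)⁻¹ =
      ((tAE x b * tBE x c) * eG x i 1 * (tAE x b * tBE x c)⁻¹) * ((tAE x b * tBE x c) * eG x (i + k) 1 * (tAE x b * tBE x c)⁻¹) *
        ((tAE x b * tBE x c) * eG x i 1 * (tAE x b * tBE x c)⁻¹)⁻¹ * ((tAE x b * tBE x c) * eG x (i + k) 1 * (tAE x b * tBE x c)⁻¹)⁻¹ := by group
  rw [e, c1, c2] at h2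
  exact h2
-- END gh

-- BEGIN gi
private theorem gi_arith : ∀ k l : Fin 16, 0 < l → l < k → 0 < k - l ∧ k - l < k := by
  decide

private theorem gi_step {e : Fin 16 → K → G} {w : G} {m : Fin 16} (hw : ∀ i t, w * e i t * w⁻¹ = e (m - i) t) {i k : Fin 16}
    (hQ : ∀ t u, e i t * e (i + k) u * (e i t)⁻¹ * (e (i + k) u)⁻¹ ∈ Bet e i k) (t u : K) :
    e (m - i - k) t * e (m - i - k + k) u * (e (m - i - k) t)⁻¹ * (e (m - i - k + k) u)⁻¹ ∈ Bet e (m - i - k) k := by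
  have hB : ∀ g ∈ Bet e i k, w * g * w⁻¹ ∈ Bet e (m - i - k) k := by
    intro g hg
    unfold Bet at hg
    induction hg using Subgroup.closure_induction with
    | mem y hy =>
      obtain ⟨l, s, h0, h1, rfl⟩ := hy
      rw [hw]
      obtain ⟨h2, h3⟩ := gi_arith k l h0 h1
      refine Subgroup.subset_closure ⟨k - l, s, h2, h3, ?_⟩
      have e1 : m - (i + l) = m - i - k + (k - l) := by abel
      rw [e1]
    | one =>
      rw [mul_one, mul_inv_cancel]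
      exact Subgroup.one_mem _
    | mul a b _ _ ha hb =>
      have e1 : w * (a * b) * w⁻¹ = w * a * w⁻¹ * (w * b * w⁻¹) := by group
      rw [e1]
      exact Subgroup.mul_mem _ ha hb
    | inv a _ ha =>
      have e1 : w * a⁻¹ * w⁻¹ = (w * a * w⁻¹)⁻¹ := by group
      rw [e1]
      exact Subgroup.inv_mem _ ha
  have h1 := Subgroup.inv_mem _ (hB _ (hQ u t))
  have e1 : (w * (e i u * e (i + k) t * (e i u)⁻¹ * (e (i + k) t)⁻¹) * w⁻¹)⁻¹ =
      (w * e (i + k) t * w⁻¹) * (w * e i u * w⁻¹) * (w * e (i + k) t * w⁻¹)⁻¹ * (w * e i u * w⁻¹)⁻¹ := by group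
  rw [e1, hw, hw] at h1
  have e2 : m - (i + k) = m - i - k := by abel
  rw [e2] at h1
  rw [sub_add_cancel (m - i) k]
  exact h1

private theorem gi_it {P : Fin 16 → Prop} (hP : ∀ i, P i → P (i + 2)) {i : Fin 16} (h : P i) (n : ℕ) : P (i + n • 2) := by
  induction n with
  | zero => rw [zero_smul, add_zero]; exact h
  | succ n ih =>
    rw [succ_nsmul, ← add_assoc]
    exact hP _ ih

private theorem gi_two : ∀ i k : Fin 16, 10 - (8 - i - k) - k = i + 2 := by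
  decide

private theorem gi_cov : ∀ i k : Fin 16, 1 ≤ k → k ≤ 7 → (∃ n : Fin 8, i = 1 + (n : ℕ) • 2) ∨ ((k = 2 ∨ k = 4 ∨ k = 6) ∧ ∃ n : Fin 8, i = 2 + (n : ℕ) • 2) ∨ ∃ n : Fin 8, i = (8 - 1 - k) + (n : ℕ) • 2 := by
  decide +kernel

/-- ROW gi. `Q i k` : the statement for all `t, u`.  Conjugation with `nnA x` (`wAE`) gives `Q i k → Q (10 - i - k) k` (the commutator of `eG (10 - i) t`, `eG (10 - i - k) u`, invert and swap; `Bet (eG x) i k` goes to `Bet (eG x) (10 - i - k) k`), with `nnB x`: `Q i k → Q (8 - i - k) k`; so `Q i k → Q (i + 2) k`.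
`k` odd: all `i` from `i = 1`; `k` even: from `i = 1` and `i = 2`. -/
theorem comE (hK : Nat.card K = 8) (h : ThK.Stb K 6 x) (i k : Fin 16) (h1 : 1 ≤ k) (h7 : k ≤ 7) (t u : K) :
    eG x i t * eG x (i + k) u * (eG x i t)⁻¹ * (eG x (i + k) u)⁻¹ ∈ Bet (eG x) i k := by
  have hB : ∀ j : Fin 16, (∀ t u, eG x j t * eG x (j + k) u * (eG x j t)⁻¹ * (eG x (j + k) u)⁻¹ ∈ Bet (eG x) j k) →
      ∀ t u, eG x (8 - j - k) t * eG x (8 - j - k + k) u * (eG x (8 - j - k) t)⁻¹ * (eG x (8 - j - k + k) u)⁻¹ ∈ Bet (eG x) (8 - j - k) k :=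
    fun j hj => gi_step (wBE hK h) hj
  have hP : ∀ j : Fin 16, (∀ t u, eG x j t * eG x (j + k) u * (eG x j t)⁻¹ * (eG x (j + k) u)⁻¹ ∈ Bet (eG x) j k) →
      ∀ t u, eG x (j + 2) t * eG x (j + 2 + k) u * (eG x (j + 2) t)⁻¹ * (eG x (j + 2 + k) u)⁻¹ ∈ Bet (eG x) (j + 2) k := by
    intro j hj
    have h3 := gi_step (wAE hK h) (hB j hj)
    rw [gi_two] at h3
    exact h3
  have b1 : ∀ t u, eG x 1 t * eG x (1 + k) u * (eG x 1 t)⁻¹ * (eG x (1 + k) u)⁻¹ ∈ Bet (eG x) 1 k := fun t u => com_base hK h (Or.inl ⟨rfl, h1, h7⟩) t u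
  rcases gi_cov i k h1 h7 with ⟨n, rfl⟩ | ⟨hk, n, rfl⟩ | ⟨n, rfl⟩
  · exact gi_it (P := fun j => ∀ t u, eG x j t * eG x (j + k) u * (eG x j t)⁻¹ * (eG x (j + k) u)⁻¹ ∈ Bet (eG x) j k) hP b1 n t u
  · exact gi_it (P := fun j => ∀ t u, eG x j t * eG x (j + k) u * (eG x j t)⁻¹ * (eG x (j + k) u)⁻¹ ∈ Bet (eG x) j k) hP
      (fun t u => com_base hK h (Or.inr ⟨rfl, hk⟩) t u) n t u
  · exact gi_it (P := fun j => ∀ t u, eG x j t * eG x (j + k) u * (eG x j t)⁻¹ * (eG x (j + k) u)⁻¹ ∈ Bet (eG x) j k) hP (hB 1 b1) n t u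
-- END gi

/-- the data of `²F_4(8)` inside a larger group -/
structure Ray0 (e : Fin 16 → K → G) (fA : SL2 K →* G) (fB : Sz K →* G) : Prop where
  wA : ∀ i t, fA (nA K) * e i t * (fA (nA K))⁻¹ = e (10 - i) t
  wB : ∀ i t, fB (JZ K) * e i t * (fB (JZ K))⁻¹ = e (8 - i) t
  e1 : ∀ t, fA (up t) = e 1 t
  e8 : ∀ t, fB (pZ t 0) = e 8 t
  tA : ∀ (b : Kˣ) i t, fA (dg b) * e i t * (fA (dg b))⁻¹ = e i ((b : K) ^ ca i * t)
  tB : ∀ (b : Kˣ) i t, fB (tZ b) * e i t * (fB (tZ b))⁻¹ = e i ((b : K) ^ cb i * t)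
  cm : ∀ b c : Kˣ, fA (dg b) * fB (tZ c) = fB (tZ c) * fA (dg b)
  com : ∀ i k : Fin 16, 1 ≤ k → k ≤ 7 → ∀ t u, e i t * e (i + k) u * (e i t)⁻¹ * (e (i + k) u)⁻¹ ∈ Bet e i k

variable {e : Fin 16 → K → G} {fA : SL2 K →* G} {fB : Sz K →* G}

-- BEGIN ha
private theorem ha_nA (hK : Nat.card K = 8) (b : Kˣ) : nA K = ThG.dg (b ^ 3) * (up ((b : K) ^ 4) * lo ((b : K) ^ 3) * up ((b : K) ^ 4)) := by
  have h7 : (b : K) ^ 7 = 1 := by
    have h0 := congrArg (Units.val) (unit7 hK b)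
    rwa [Units.val_pow_eq_pow_val, Units.val_one] at h0
  have h2 := two8 hK
  have hi : (((b ^ 3)⁻¹ : Kˣ) : K) = (b : K) ^ 4 := by
    have h0 : ((b ^ 3)⁻¹ : Kˣ) = b ^ 4 := by
      rw [inv_eq_iff_mul_eq_one, ← pow_add]
      exact unit7 hK b
    rw [h0, Units.val_pow_eq_pow_val]
  apply Subtype.ext
  unfold nA
  simp only [Matrix.SpecialLinearGroup.coe_mul]
  show !![(1 : K), 1; 0, 1] * !![1, 0; -1, 1] * !![1, 1; 0, 1] = !![((b ^ 3 : Kˣ) : K), 0; 0, (((b ^ 3)⁻¹ : Kˣ) : K)] * (!![1, (b : K) ^ 4; 0, 1] * !![1, 0; (b : K) ^ 3, 1] * !![1, (b : K) ^ 4; 0, 1])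
  rw [hi, Units.val_pow_eq_pow_val]
  ext i j
  fin_cases i <;> fin_cases j <;> simp only [Matrix.mul_apply, Fin.sum_univ_two, Matrix.of_apply, Matrix.cons_val', Matrix.cons_val_zero, Matrix.cons_val_one, Matrix.cons_val_fin_one, Fin.zero_eta, Fin.mk_one, Fin.isValue]
  · linear_combination (-(b : K) ^ 3) * h7 - (b : K) ^ 3 * h2
  · linear_combination (-(b : K) ^ 7 - 3 : K) * h7 + (-1 : K) * h2
  · linear_combination (-1 : K) * h7 - h2
  · linear_combination (-(b : K) ^ 4) * h7 - (b : K) ^ 4 * h2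

private theorem ha_lo (hK : Nat.card K = 8) (t : K) : nA K * up t * (nA K)⁻¹ = lo t := by
  have h2 := two8 hK
  rw [mul_inv_eq_iff_eq_mul]
  apply Subtype.ext
  unfold nA
  simp only [Matrix.SpecialLinearGroup.coe_mul]
  show !![(1 : K), 1; 0, 1] * !![1, 0; -1, 1] * !![1, 1; 0, 1] * !![1, t; 0, 1] = !![1, 0; t, 1] * (!![(1 : K), 1; 0, 1] * !![1, 0; -1, 1] * !![1, 1; 0, 1])
  ext i j
  fin_cases i <;> fin_cases j <;> simp only [Matrix.mul_apply, Fin.sum_univ_two, Matrix.of_apply, Matrix.cons_val', Matrix.cons_val_zero, Matrix.cons_val_one, Matrix.cons_val_fin_one, Fin.zero_eta, Fin.mk_one, Fin.isValue]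
  · ring
  · ring
  · ring
  · linear_combination (-t) * h2

/-- ROW ha. `h = fB (tZ b)` acts on `e 1 t = fA (up t)` by `λ = b ^ 4` (`cb 1 = 4`), on `e 9 t = fA (lo t)` (`nA * up t * nA⁻¹ = lo (-t)`, `wA`) by `b ^ 3 = λ⁻¹` (`unit7`); `nA = up 1 * lo (-1) * up 1`, so `h⁻¹ * fA nA * h = fA (up λ⁻¹ * lo (-λ) * up λ⁻¹) = fA (dg λ⁻¹ * nA)` and
`fA nA * h * (fA nA)⁻¹ = h * (h⁻¹ * fA nA * h) * (fA nA)⁻¹ = h * fA (dg λ⁻¹)`, `λ⁻¹ = b ^ 3`. -/
theorem Ray0.nAt (hK : Nat.card K = 8) (h : Ray0 e fA fB) (b : Kˣ) : fA (nA K) * fB (tZ b) * (fA (nA K))⁻¹ = fA (dg (b ^ 3)) * fB (tZ b) := by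
  have hn : (-1 : K) = 1 := by linear_combination (-1 : K) * two8 hK
  have k9 : ∀ t, fA (lo t) = e 9 t := by
    intro t
    have h1 := h.wA 1 t
    rw [← h.e1, ← map_mul, ← map_inv, ← map_mul, ha_lo hK] at h1
    exact h1
  have a1 : ∀ t, fB (tZ b) * fA (up t) * (fB (tZ b))⁻¹ = fA (up ((b : K) ^ 4 * t)) := by
    intro t
    rw [h.e1, h.tB, h.e1]
    rfl
  have a9 : ∀ t, fB (tZ b) * fA (lo t) * (fB (tZ b))⁻¹ = fA (lo ((b : K) ^ 3 * t)) := by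
    intro t
    rw [k9, h.tB, k9]
    rfl
  have e1 : fB (tZ b) * fA (nA K) * (fB (tZ b))⁻¹ = fA (up ((b : K) ^ 4) * lo ((b : K) ^ 3) * up ((b : K) ^ 4)) := by
    have e2 : fB (tZ b) * fA (nA K) * (fB (tZ b))⁻¹ = (fB (tZ b) * fA (up 1) * (fB (tZ b))⁻¹) * (fB (tZ b) * fA (lo (-1)) * (fB (tZ b))⁻¹) * (fB (tZ b) * fA (up 1) * (fB (tZ b))⁻¹) := by
      unfold nA
      rw [map_mul, map_mul]
      group
    rw [e2, a1, a9, mul_one, hn, mul_one, map_mul, map_mul]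
  have e3 : fA (nA K) = fA (ThG.dg (b ^ 3)) * (fB (tZ b) * fA (nA K) * (fB (tZ b))⁻¹) := by
    rw [e1, ← map_mul, ← ha_nA hK b]
  rw [mul_inv_eq_iff_eq_mul]
  calc fA (nA K) * fB (tZ b) = fA (ThG.dg (b ^ 3)) * (fB (tZ b) * fA (nA K) * (fB (tZ b))⁻¹) * fB (tZ b) := by rw [← e3]
    _ = _ := by group

private theorem ha_pd (hK : Nat.card K = 8) (t d : K) : pZ t d = pZ t 0 * (pZ (d ^ 3) 0 * pZ (d ^ 3) 0) := by
  apply Subtype.ext
  show pS t d = pS t 0 * (pS (d ^ 3) 0 * pS (d ^ 3) 0)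
  rw [pS_mul hK, pS_mul hK, add8 hK]
  congr 1
  · ring
  · linear_combination (-(d ^ 7) - 1) * pow8 hK d

private theorem ha_inv (b : Kˣ) : (tZ b)⁻¹ = tZ b⁻¹ := by
  rw [inv_eq_iff_mul_eq_one]
  apply Subtype.ext
  show tS b * tS b⁻¹ = 1
  rw [← tS_mul, mul_inv_cancel, tS_one]

private theorem ha_conj (hK : Nat.card K = 8) (h : Ray0 e fA fB) (c : Kˣ) (s : Sz K) : fA (ThG.dg c) * fB s * (fA (ThG.dg c))⁻¹ = fB (tZ (c ^ 6) * s * (tZ (c ^ 6))⁻¹) := by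
  have hJ : JZ K * JZ K = 1 := (r1Z hK).nn
  have hJi : (JZ K)⁻¹ = JZ K := inv_eq_of_mul_eq_one_right hJ
  have hm : ∀ s s' : Sz K, fA (ThG.dg c) * fB s * (fA (ThG.dg c))⁻¹ = fB (tZ (c ^ 6) * s * (tZ (c ^ 6))⁻¹) → fA (ThG.dg c) * fB s' * (fA (ThG.dg c))⁻¹ = fB (tZ (c ^ 6) * s' * (tZ (c ^ 6))⁻¹) →
      fA (ThG.dg c) * fB (s * s') * (fA (ThG.dg c))⁻¹ = fB (tZ (c ^ 6) * (s * s') * (tZ (c ^ 6))⁻¹) := by
    intro s s' h1 h2
    have e1 : fA (ThG.dg c) * fB (s * s') * (fA (ThG.dg c))⁻¹ = (fA (ThG.dg c) * fB s * (fA (ThG.dg c))⁻¹) * (fA (ThG.dg c) * fB s' * (fA (ThG.dg c))⁻¹) := by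
      rw [map_mul]
      group
    rw [e1, h1, h2, ← map_mul]
    congr 1
    group
  have hp : ∀ t, fA (ThG.dg c) * fB (pZ t 0) * (fA (ThG.dg c))⁻¹ = fB (tZ (c ^ 6) * pZ t 0 * (tZ (c ^ 6))⁻¹) := by
    intro t
    have e1 : tZ (c ^ 6) * pZ t 0 * (tZ (c ^ 6))⁻¹ = pZ ((c : K) ^ 6 * t) 0 := by
      apply Subtype.ext
      show tS (c ^ 6) * pS t 0 * (tS (c ^ 6))⁻¹ = pS ((c : K) ^ 6 * t) 0
      rw [tS_pS hK, mul_zero, Units.val_pow_eq_pow_val]
    rw [e1, h.e8, h.e8, h.tA]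
    rfl
  have hq : ∀ t, fA (ThG.dg c) * fB (JZ K * pZ t 0 * JZ K) * (fA (ThG.dg c))⁻¹ = fB (tZ (c ^ 6) * (JZ K * pZ t 0 * JZ K) * (tZ (c ^ 6))⁻¹) := by
    intro t
    have e0 : ∀ t, fB (JZ K * pZ t 0 * JZ K) = e 0 t := by
      intro t
      have h1 := h.wB 8 t
      rw [← h.e8, ← map_inv, hJi, ← map_mul, ← map_mul] at h1
      exact h1
    have e2 : JZ K * tZ (c ^ 6) * JZ K = (tZ (c ^ 6))⁻¹ := (r1Z hK).nt _ (mem_TZ.2 ⟨_, rfl⟩)
    have e3 : tZ (c ^ 6) * (JZ K * pZ t 0 * JZ K) * (tZ (c ^ 6))⁻¹ = JZ K * ((tZ (c ^ 6))⁻¹ * pZ t 0 * ((tZ (c ^ 6))⁻¹)⁻¹) * JZ K := by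
      have e4 : tZ (c ^ 6) * JZ K = JZ K * (tZ (c ^ 6))⁻¹ := by
        rw [← e2]
        calc tZ (c ^ 6) * JZ K = (JZ K * JZ K) * tZ (c ^ 6) * JZ K := by rw [hJ, one_mul]
          _ = _ := by simp only [mul_assoc]
      have e5 : JZ K * (tZ (c ^ 6))⁻¹ = ((tZ (c ^ 6))⁻¹)⁻¹ * JZ K := by
        rw [inv_inv, e4]
      calc tZ (c ^ 6) * (JZ K * pZ t 0 * JZ K) * (tZ (c ^ 6))⁻¹ = (tZ (c ^ 6) * JZ K) * pZ t 0 * (JZ K * (tZ (c ^ 6))⁻¹) := by simp only [mul_assoc]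
        _ = (JZ K * (tZ (c ^ 6))⁻¹) * pZ t 0 * (((tZ (c ^ 6))⁻¹)⁻¹ * JZ K) := congrArg₂ (fun u v => u * pZ t 0 * v) e4 e5
        _ = _ := by simp only [mul_assoc]
    have e6 : (tZ (c ^ 6))⁻¹ = tZ c := by
      rw [ha_inv]
      congr 1
      rw [inv_eq_iff_mul_eq_one, ← pow_succ]
      exact unit7 hK c
    have e7 : (tZ (c ^ 6))⁻¹ * pZ t 0 * ((tZ (c ^ 6))⁻¹)⁻¹ = pZ ((c : K) * t) 0 := by
      rw [e6]
      apply Subtype.ext
      show tS c * pS t 0 * (tS c)⁻¹ = pS ((c : K) * t) 0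
      rw [tS_pS hK, mul_zero]
    rw [e3, e7, e0, e0, h.tA]
    show e 0 ((c : K) ^ 1 * t) = _
    rw [pow_one]
  have hJm : ∀ a b : Sz K, JZ K * (a * b) * JZ K = (JZ K * a * JZ K) * (JZ K * b * JZ K) := by
    intro a b
    calc JZ K * (a * b) * JZ K = JZ K * a * (1 * b) * JZ K := by rw [one_mul]; simp only [mul_assoc]
      _ = _ := by
        rw [← hJ]
        simp only [mul_assoc]
  have hs : s ∈ Subgroup.closure ((PZ K : Set (Sz K)) ∪ {g | ∃ p ∈ PZ K, g = JZ K * p * JZ K}) := by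
    rw [R1.gen2 (r1Z hK)]
    exact Subgroup.mem_top s
  induction hs using Subgroup.closure_induction with
  | mem g hg =>
    rcases hg with hg | ⟨p, hg, rfl⟩
    · obtain ⟨t, d, rfl⟩ := (mem_PZ hK).1 hg
      rw [ha_pd hK]
      exact hm _ _ (hp t) (hm _ _ (hp _) (hp _))
    · obtain ⟨t, d, rfl⟩ := (mem_PZ hK).1 hg
      rw [ha_pd hK, hJm, hJm]
      exact hm _ _ (hq t) (hm _ _ (hq _) (hq _))
  | one => rw [map_one, mul_one, mul_one, mul_inv_cancel, mul_inv_cancel, map_one]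
  | mul a b _ _ iha ihb => exact hm _ _ iha ihb
  | inv a _ iha =>
    have e1 : fA (ThG.dg c) * fB a⁻¹ * (fA (ThG.dg c))⁻¹ = (fA (ThG.dg c) * fB a * (fA (ThG.dg c))⁻¹)⁻¹ := by
      rw [map_inv]
      group
    rw [e1, iha, ← map_inv]
    congr 1
    group

/-- `h = fA (dg b)` acts on `e 8 t = fB (pZ t 0)` by `λ = b ^ 6`, on `e 0 t = fB (JZ * pZ t 0 * JZ)` by `b = λ⁻¹`, as `fB (tZ λ)` does (`tS_pS`, `JS_tS`): hence on all `fB s` (`R1.gen2 (r1Z hK)`, `mem_PZ`, `pZ t d = pZ t 0 * pZ (d ^ 3) 0 * pZ (d ^ 3) 0`); `h⁻¹ fB JZ h = fB (tZ λ⁻¹ JZ tZ λ) = fB (JZ * tZ λ²)`,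
`fB JZ * h * (fB JZ)⁻¹ = h * fB (JZ * tZ λ ^ 2 * JZ) = h * fB (tZ λ⁻²)`, `λ⁻² = b ^ 2`. -/
theorem Ray0.nBt (hK : Nat.card K = 8) (h : Ray0 e fA fB) (b : Kˣ) : fB (JZ K) * fA (dg b) * (fB (JZ K))⁻¹ = fA (dg b) * fB (tZ (b ^ 2)) := by
  have hJ : JZ K * JZ K = 1 := (r1Z hK).nn
  have h1 := ha_conj hK h b⁻¹ (JZ K)
  have e1 : (b⁻¹) ^ 6 = b := by
    rw [inv_pow, inv_eq_iff_mul_eq_one, ← pow_succ]
    exact unit7 hK b
  have e2 : fA (ThG.dg b⁻¹) = (fA (ThG.dg b))⁻¹ := by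
    rw [← map_inv]
    congr 1
    rw [eq_inv_iff_mul_eq_one, ← dg_mul, inv_mul_cancel, dg_one]
  have e3 : JZ K * tZ b * JZ K = (tZ b)⁻¹ := (r1Z hK).nt _ (mem_TZ.2 ⟨_, rfl⟩)
  have e4 : tZ b * JZ K * (tZ b)⁻¹ = tZ (b ^ 2) * JZ K := by
    have e5 : tZ (b ^ 2) = tZ b * tZ b := by
      apply Subtype.ext
      show tS (b ^ 2) = tS b * tS b
      rw [pow_two, tS_mul]
    have e6 : JZ K * (tZ b)⁻¹ = tZ b * JZ K := by
      rw [← e3]
      calc JZ K * (JZ K * tZ b * JZ K) = (JZ K * JZ K) * tZ b * JZ K := by simp only [mul_assoc]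
        _ = _ := by rw [hJ, one_mul]
    rw [mul_assoc, e6, e5, mul_assoc]
  rw [e1, e2, inv_inv, e4, map_mul] at h1
  rw [mul_inv_eq_iff_eq_mul]
  calc fB (JZ K) * fA (ThG.dg b) = fA (ThG.dg b) * ((fA (ThG.dg b))⁻¹ * fB (JZ K) * fA (ThG.dg b)) := by group
    _ = _ := by
      rw [h1]
      simp only [mul_assoc]
-- END ha

-- BEGIN hb
private theorem hb_nn (hK : Nat.card K = 8) : nA K * nA K = 1 := (r1A hK).nn

private theorem hb_nA (hK : Nat.card K = 8) : (nA K).1 = !![0, 1; 1, 0] := by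
  have h1 : (1 : K) + 1 = 0 := add8 hK 1
  have h2 : (-1 : K) = 1 := (eq_neg_of_add_eq_zero_left h1).symm
  show !![(1 : K), 1; 0, 1] * !![1, 0; -1, 1] * !![1, 1; 0, 1] = _
  rw [h2]
  ext i j
  fin_cases i <;> fin_cases j <;> simp [Matrix.mul_apply, Fin.sum_univ_two, h1]

private theorem hb_up (hK : Nat.card K = 8) (t : K) : nA K * up t * nA K = lo t := by
  apply Subtype.ext
  show (nA K).1 * !![(1 : K), t; 0, 1] * (nA K).1 = !![(1 : K), 0; t, 1]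
  rw [hb_nA hK]
  ext i j
  fin_cases i <;> fin_cases j <;> simp [Matrix.mul_apply, Fin.sum_univ_two]

private theorem hb_JJ : JZ K * JZ K = 1 := Subtype.ext JS_JS

private theorem hb_pZ (hK : Nat.card K = 8) (t d : K) : (pZ t d : Sz K) = pZ t 0 * (pZ (d ^ 3) 0 * pZ (d ^ 3) 0) := by
  apply Subtype.ext
  show pS t d = pS t 0 * (pS (d ^ 3) 0 * pS (d ^ 3) 0)
  have h8 := pow8 hK d
  rw [pS_mul hK, pS_mul hK, add8 hK]
  have h1 : (0 : K) + 0 + (d ^ 3) ^ 4 * d ^ 3 = d := by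
    calc (0 : K) + 0 + (d ^ 3) ^ 4 * d ^ 3 = d ^ 8 * d ^ 7 := by ring
      _ = d * d ^ 7 := by rw [h8]
      _ = d ^ 8 := by ring
      _ = d := h8
  rw [h1, add_zero, mul_zero, add_zero, zero_add]

private theorem hb_A (hK : Nat.card K = 8) (h : Ray0 e fA fB) (s : SL2 K) : fA s ∈ Subgroup.closure {g : G | ∃ i t, g = e i t} := by
  have h0 : ∀ i t, e i t ∈ Subgroup.closure {g : G | ∃ i t, g = e i t} := fun i t => Subgroup.subset_closure ⟨i, t, rfl⟩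
  have hs : s ∈ Subgroup.closure {g : SL2 K | ∃ a, g = up a ∨ g = lo a} := by rw [sl2_gen]; trivial
  have hle : Subgroup.closure {g : SL2 K | ∃ a, g = up a ∨ g = lo a} ≤ (Subgroup.closure {g : G | ∃ i t, g = e i t}).comap fA := by
    refine (Subgroup.closure_le _).2 ?_
    rintro g ⟨a, rfl | rfl⟩
    · refine Subgroup.mem_comap.2 ?_
      rw [h.e1]
      exact h0 1 a
    · refine Subgroup.mem_comap.2 ?_
      have h1 := h.wA 1 a
      rw [← h.e1 a, ← map_inv, ← map_mul, ← map_mul, inv_eq_of_mul_eq_one_right (hb_nn hK), hb_up hK] at h1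
      rw [h1]
      exact h0 _ a
  exact hle hs

private theorem hb_B (hK : Nat.card K = 8) (h : Ray0 e fA fB) (s : Sz K) : fB s ∈ Subgroup.closure {g : G | ∃ i t, g = e i t} := by
  have h0 : ∀ i t, e i t ∈ Subgroup.closure {g : G | ∃ i t, g = e i t} := fun i t => Subgroup.subset_closure ⟨i, t, rfl⟩
  have hs : s ∈ Subgroup.closure ((PZ K : Set (Sz K)) ∪ {g | ∃ p ∈ PZ K, g = JZ K * p * JZ K}) := by
    rw [R1.gen2 (r1Z hK)]; trivial
  have hle : Subgroup.closure ((PZ K : Set (Sz K)) ∪ {g | ∃ p ∈ PZ K, g = JZ K * p * JZ K}) ≤ (Subgroup.closure {g : G | ∃ i t, g = e i t}).comap fB := by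
    have hc : ∀ t : K, fB (JZ K * pZ t 0 * JZ K) = e 0 t := by
      intro t
      have h1 := h.wB 8 t
      rw [← h.e8 t, ← map_inv, ← map_mul, ← map_mul, inv_eq_of_mul_eq_one_right hb_JJ] at h1
      exact h1
    refine (Subgroup.closure_le _).2 ?_
    rintro g (hg | ⟨p, hp, rfl⟩)
    · obtain ⟨t, d, rfl⟩ := (mem_PZ hK).1 hg
      refine Subgroup.mem_comap.2 ?_
      rw [hb_pZ hK, map_mul, map_mul, h.e8, h.e8]
      exact Subgroup.mul_mem _ (h0 _ _) (Subgroup.mul_mem _ (h0 _ _) (h0 _ _))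
    · obtain ⟨t, d, rfl⟩ := (mem_PZ hK).1 hp
      refine Subgroup.mem_comap.2 ?_
      have h2 : JZ K * pZ t d * JZ K = (JZ K * pZ t 0 * JZ K) * ((JZ K * pZ (d ^ 3) 0 * JZ K) * (JZ K * pZ (d ^ 3) 0 * JZ K)) := by
        have hj : ∀ a b : Sz K, (JZ K * a * JZ K) * (JZ K * b * JZ K) = JZ K * (a * b) * JZ K := by
          intro a b
          calc (JZ K * a * JZ K) * (JZ K * b * JZ K) = JZ K * a * (JZ K * JZ K) * b * JZ K := by group
            _ = JZ K * (a * b) * JZ K := by rw [hb_JJ]; group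
        rw [hj, hj, ← hb_pZ hK]
      rw [h2, map_mul fB (JZ K * pZ t 0 * JZ K), map_mul fB (JZ K * pZ (d ^ 3) 0 * JZ K), hc, hc]
      exact Subgroup.mul_mem _ (h0 _ _) (Subgroup.mul_mem _ (h0 _ _) (h0 _ _))
  exact hle hs

/-- ROW hb. All `fA s`, `fB s` are in the subgroup generated by the `e i t` (`sl2_gen`, `e 9 t = fA (lo t)`; `R1.gen2 (r1Z hK)`, `pZ t d = pZ t 0 * pZ (d ^ 3) 0 * pZ (d ^ 3) 0`, `e 0 t`): `MonoidHom.codRestrict`; `com`: the closure in the subgroup. -/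
theorem Ray0.ray (hK : Nat.card K = 8) (h : Ray0 e fA fB) :
    ∃ (fA' : SL2 K →* Subgroup.closure {g : G | ∃ i t, g = e i t}) (fB' : Sz K →* Subgroup.closure {g : G | ∃ i t, g = e i t}),
      Ray (fun i t => (⟨e i t, Subgroup.subset_closure ⟨i, t, rfl⟩⟩ : Subgroup.closure {g : G | ∃ i t, g = e i t})) fA' fB' := by
  refine ⟨fA.codRestrict _ (hb_A hK h), fB.codRestrict _ (hb_B hK h), ?_⟩
  refine ⟨?_, fun i t => Subtype.ext (h.wA i t), fun i t => Subtype.ext (h.wB i t), fun t => Subtype.ext (h.e1 t),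
    fun t => Subtype.ext (h.e8 t), fun b i t => Subtype.ext (h.tA b i t), fun b i t => Subtype.ext (h.tB b i t),
    fun b c => Subtype.ext (h.cm b c), fun b => Subtype.ext (h.nAt hK b), fun b => Subtype.ext (h.nBt hK b), ?_⟩
  · rw [← Subgroup.closure_closure_coe_preimage (k := {g : G | ∃ i t, g = e i t})]
    congr 1
    ext g
    constructor
    · rintro ⟨i, t, rfl⟩
      exact ⟨i, t, rfl⟩
    · rintro ⟨i, t, hg⟩
      exact ⟨i, t, Subtype.ext hg⟩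
  · intro i k h1 h7 t u
    have hle : Bet e i k ≤ (Bet (fun i t => (⟨e i t, Subgroup.subset_closure ⟨i, t, rfl⟩⟩ : Subgroup.closure {g : G | ∃ i t, g = e i t})) i k).map
        (Subgroup.closure {g : G | ∃ i t, g = e i t}).subtype := by
      refine (Subgroup.closure_le _).2 ?_
      rintro g ⟨l, s, hl0, hlk, rfl⟩
      exact ⟨⟨e (i + l) s, Subgroup.subset_closure ⟨i + l, s, rfl⟩⟩, Subgroup.subset_closure ⟨l, s, hl0, hlk, rfl⟩, rfl⟩
    obtain ⟨y, hy, hy'⟩ := hle (h.com i k h1 h7 t u)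
    have h2 : y = (⟨e i t, Subgroup.subset_closure ⟨i, t, rfl⟩⟩ : Subgroup.closure {g : G | ∃ i t, g = e i t}) * ⟨e (i + k) u, Subgroup.subset_closure ⟨i + k, u, rfl⟩⟩ *
        (⟨e i t, Subgroup.subset_closure ⟨i, t, rfl⟩⟩ : Subgroup.closure {g : G | ∃ i t, g = e i t})⁻¹ * (⟨e (i + k) u, Subgroup.subset_closure ⟨i + k, u, rfl⟩⟩ : Subgroup.closure {g : G | ∃ i t, g = e i t})⁻¹ :=
      Subtype.ext hy'
    rw [← h2]
    exact hy
-- END hb

-- BEGIN hc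
/-- ROW hc. `exists_fA`, `exists_fB` (`fB = f.comp (Sz K).subtype`), `wAE`, `wBE`, `tAE_conj`, `tBE_conj`, `tAE_tBE`, `comE`; `Ray0.ray`, `Ray.main` -/
theorem mainE (hK : Nat.card K = 8) (h : ThK.Stb K 6 x) :
    ∃ w : Subgroup.closure {g : G | ∃ i t, g = eG x i t}, ∀ g : Subgroup.closure {g : G | ∃ i t, g = eG x i t}, ∃ a b : Subgroup.closure {g : G | ∃ i t, g = eG x i t}, IsConj w a ∧ IsConj w b ∧ a * b = g := by
  obtain ⟨f, f1, f2, f3⟩ := exists_fA hK h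
  obtain ⟨f', g1, g2, g3⟩ := exists_fB hK h
  have g1' : ∀ t, f'.comp (Sz K).subtype (pZ t 0) = eG x 8 t := g1
  have g2' : f'.comp (Sz K).subtype (JZ K) = nnB x := g2
  have g3' : ∀ b : Kˣ, f'.comp (Sz K).subtype (tZ b) = tBE x b := g3
  have h0 : Ray0 (eG x) f (f'.comp (Sz K).subtype) := by
    refine ⟨?_, ?_, f1, g1', ?_, ?_, ?_, ?_⟩
    · intro i t
      rw [f2]
      exact wAE hK h i t
    · intro i t
      rw [g2']
      exact wBE hK h i t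
    · intro b i t
      rw [f3]
      exact tAE_conj hK h b i t
    · intro b i t
      rw [g3']
      exact tBE_conj hK h b i t
    · intro b c
      rw [f3, g3']
      exact tAE_tBE h b c
    · exact comE hK h
  obtain ⟨fA', fB', hr⟩ := Ray0.ray hK h0
  exact Ray.main hK hr
-- END hc

end Pool.Agent.ThO2
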