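import Mathlib

/-! # The field with eight elements as triples of bits, words in the generators of `Sz(8)`, tables -/

namespace Pool.Agent.ThO2

/-- the element `x + y α + z α²`, `α³ = α + 1`, of the field with eight elements -/
@[ext] structure B8 where
  x : Bool
  y : Bool
  z : Bool
deriving DecidableEq

instance : Add B8 := ⟨fun a b => ⟨xor a.x b.x, xor a.y b.y, xor a.z b.z⟩⟩

instance : Mul B8 := ⟨fun a b => ⟨xor (a.x && b.x) (xor (a.y && b.z) (a.z && b.y)), xor (xor (a.x && b.y) (a.y && b.x)) (xor (xor (a.y && b.z) (a.z && b.y)) (a.z && b.z)),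
  xor (xor (a.x && b.z) (a.z && b.x)) (xor (a.y && b.y) (a.z && b.z))⟩⟩

/-- the element with the number `k` -/
def bo (k : ℕ) : B8 := ⟨k % 2 == 1, k / 2 % 2 == 1, k / 4 % 2 == 1⟩

/-- the elements -/
def els : List B8 := [bo 0, bo 1, bo 2, bo 3, bo 4, bo 5, bo 6, bo 7]

theorem mem_els (a : B8) : a ∈ els := by
  obtain ⟨x, y, z⟩ := a
  cases x <;> cases y <;> cases z <;> decide

/-- vectors of length four -/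
structure V4 (F : Type*) where
  a : F
  b : F
  c : F
  d : F
deriving DecidableEq

/-- letters: `p t d` (unipotent), `j` (Weyl element), `h b` (torus) -/
inductive Lt (F : Type*)
  | p (t d : F)
  | j
  | h (b : F)

/-- the action on vectors: `p t d` is the matrix with the rows `(1, t², t³ + d², t⁵ + t² d² + d)`, `(0, 1, t, d²)`, `(0, 0, 1, t²)`, `(0, 0, 0, 1)`; `j` reverses the order; `h b` is the diagonal matrix `b⁶, b⁴, b³, b` -/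
def act {F : Type*} [Add F] [Mul F] : Lt F → V4 F → V4 F
  | .p t d, v => ⟨v.a + t * t * v.b + (t * t * t + d * d) * v.c + (t * t * t * t * t + t * t * d * d + d) * v.d, v.b + t * v.c + d * d * v.d, v.c + t * t * v.d, v.d⟩
  | .j, v => ⟨v.d, v.c, v.b, v.a⟩
  | .h b, v => ⟨b * b * b * b * b * b * v.a, b * b * b * b * v.b, b * b * b * v.c, b * v.d⟩

/-- the word acts -/
def acts {F : Type*} [Add F] [Mul F] (w : List (Lt F)) (v : V4 F) : V4 F := w.foldr act v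

/-- two words act in the same way on the four basis vectors -/
def weq (w w' : List (Lt B8)) : Bool :=
  (acts w ⟨bo 1, bo 0, bo 0, bo 0⟩ == acts w' ⟨bo 1, bo 0, bo 0, bo 0⟩) && (acts w ⟨bo 0, bo 1, bo 0, bo 0⟩ == acts w' ⟨bo 0, bo 1, bo 0, bo 0⟩) &&
  (acts w ⟨bo 0, bo 0, bo 1, bo 0⟩ == acts w' ⟨bo 0, bo 0, bo 1, bo 0⟩) && (acts w ⟨bo 0, bo 0, bo 0, bo 1⟩ == acts w' ⟨bo 0, bo 0, bo 0, bo 1⟩)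

/-- the table `t, d; t₁, d₁; b; t₂, d₂` -/
def tabR : List (List ℕ) := [
  [0, 1, 1, 0, 1, 1, 1], [0, 2, 6, 0, 5, 6, 5], [0, 3, 7, 0, 6, 7, 6], [0, 4, 2, 0, 7, 2, 7], [0, 5, 3, 0, 2, 3, 2], [0, 6, 4, 0, 3, 4, 3], [0, 7, 5, 0, 4, 5, 4], [1, 0, 0, 1, 1, 1, 0], 
  [1, 1, 1, 1, 1, 0, 1], [1, 2, 4, 2, 4, 6, 7], [1, 3, 6, 2, 4, 4, 1], [1, 4, 6, 4, 6, 2, 3], [1, 5, 2, 4, 6, 6, 1], [1, 6, 2, 6, 2, 4, 5], [1, 7, 4, 6, 2, 2, 1], [2, 0, 0, 4, 4, 5, 0], 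
  [2, 1, 3, 6, 5, 1, 7], [2, 2, 3, 3, 6, 2, 4], [2, 3, 2, 5, 3, 1, 4], [2, 4, 1, 5, 3, 2, 2], [2, 5, 2, 3, 6, 3, 1], [2, 6, 1, 6, 5, 3, 4], [2, 7, 5, 4, 4, 0, 4], [3, 0, 0, 5, 5, 6, 0], 
  [3, 1, 7, 2, 3, 2, 5], [3, 2, 6, 5, 5, 0, 5], [3, 3, 2, 2, 3, 7, 4], [3, 4, 5, 1, 2, 2, 6], [3, 5, 5, 3, 1, 7, 5], [3, 6, 2, 1, 2, 5, 5], [3, 7, 7, 3, 1, 5, 7], [4, 0, 0, 6, 6, 7, 0], 
  [4, 1, 5, 2, 7, 1, 3], [4, 2, 1, 2, 7, 5, 6], [4, 3, 7, 6, 6, 0, 6], [4, 4, 5, 5, 2, 4, 6], [4, 5, 4, 7, 5, 1, 6], [4, 6, 1, 7, 5, 4, 4], [4, 7, 4, 5, 2, 5, 1], [5, 0, 0, 7, 7, 2, 0], 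
  [5, 1, 3, 4, 5, 4, 7], [5, 2, 4, 1, 4, 7, 7], [5, 3, 3, 5, 1, 7, 3], [5, 4, 2, 7, 7, 0, 7], [5, 5, 4, 4, 5, 3, 6], [5, 6, 7, 1, 4, 4, 2], [5, 7, 7, 5, 1, 3, 7], [6, 0, 0, 2, 2, 3, 0], 
  [6, 1, 7, 4, 3, 1, 5], [6, 2, 1, 3, 7, 6, 6], [6, 3, 6, 7, 4, 7, 1], [6, 4, 1, 4, 3, 7, 2], [6, 5, 3, 2, 2, 0, 2], [6, 6, 7, 7, 4, 6, 2], [6, 7, 6, 3, 7, 1, 2], [7, 0, 0, 3, 3, 4, 0], 
  [7, 1, 5, 6, 7, 6, 3], [7, 2, 3, 1, 6, 6, 4], [7, 3, 3, 7, 1, 5, 3], [7, 4, 6, 1, 6, 3, 3], [7, 5, 5, 7, 1, 3, 5], [7, 6, 4, 3, 3, 0, 3], [7, 7, 6, 6, 7, 5, 2]]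

/-- the table `t, d; a₁, t₁, d₁; a₂, t₂, d₂` -/
def tabC : List (List ℕ) := [
  [0, 0, 1, 0, 5, 3, 1, 3], [0, 1, 1, 0, 1, 1, 1, 2], [0, 2, 1, 4, 1, 2, 7, 3], [0, 3, 1, 0, 7, 5, 1, 1], [0, 4, 2, 4, 7, 3, 7, 0], [0, 5, 1, 0, 2, 6, 1, 2], [0, 6, 3, 3, 3, 4, 3, 7], 
  [0, 7, 5, 1, 3, 5, 5, 6], [1, 0, 1, 2, 3, 4, 2, 1], [1, 1, 3, 0, 4, 2, 3, 2], [1, 2, 1, 3, 5, 1, 4, 6], [1, 3, 1, 5, 3, 1, 2, 7], [1, 4, 1, 5, 7, 1, 6, 4], [1, 5, 1, 2, 4, 4, 0, 3], 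
  [1, 6, 1, 6, 2, 2, 0, 1], [1, 7, 1, 3, 7, 1, 6, 1], [2, 0, 2, 0, 5, 3, 2, 2], [2, 1, 3, 2, 0, 5, 4, 2], [2, 2, 5, 6, 3, 5, 1, 6], [2, 3, 3, 7, 2, 7, 7, 1], [2, 4, 4, 2, 2, 7, 0, 7], 
  [2, 5, 1, 5, 5, 6, 1, 5], [2, 6, 2, 1, 3, 5, 2, 1], [2, 7, 1, 5, 1, 6, 3, 2], [3, 0, 1, 4, 3, 7, 6, 1], [3, 1, 1, 2, 5, 7, 4, 7], [3, 2, 2, 2, 5, 7, 3, 3], [3, 3, 1, 1, 2, 5, 5, 6], 
  [3, 4, 4, 0, 1, 1, 4, 6], [3, 5, 1, 1, 3, 5, 1, 4], [3, 6, 1, 7, 0, 4, 2, 7], [3, 7, 1, 2, 2, 7, 0, 4], [4, 0, 2, 2, 2, 7, 0, 1], [4, 1, 1, 7, 1, 2, 5, 1], [4, 2, 1, 3, 6, 3, 2, 1], 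
  [4, 3, 3, 6, 0, 3, 5, 6], [4, 4, 2, 1, 7, 3, 2, 0], [4, 5, 1, 7, 7, 2, 1, 2], [4, 6, 1, 3, 4, 3, 6, 4], [4, 7, 2, 1, 5, 7, 2, 3], [5, 0, 1, 3, 2, 6, 5, 3], [5, 1, 1, 1, 4, 7, 7, 3], 
  [5, 2, 1, 4, 4, 3, 0, 5], [5, 3, 1, 1, 5, 7, 1, 7], [5, 4, 2, 2, 0, 5, 1, 7], [5, 5, 2, 4, 3, 7, 7, 7], [5, 6, 1, 6, 0, 3, 3, 3], [5, 7, 1, 3, 0, 6, 4, 4], [6, 0, 1, 3, 3, 4, 1, 6], 
  [6, 1, 1, 5, 6, 5, 2, 2], [6, 2, 2, 0, 7, 5, 2, 7], [6, 3, 3, 2, 4, 4, 0, 6], [6, 4, 2, 7, 2, 7, 3, 6], [6, 5, 2, 6, 6, 5, 0, 2], [6, 6, 1, 3, 1, 4, 7, 3], [6, 7, 1, 5, 2, 5, 4, 5], 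
  [7, 0, 1, 1, 6, 3, 3, 6], [7, 1, 1, 2, 0, 5, 5, 1], [7, 2, 1, 2, 7, 5, 4, 0], [7, 3, 1, 6, 3, 5, 2, 4], [7, 4, 1, 1, 7, 3, 1, 0], [7, 5, 2, 1, 2, 5, 1, 4], [7, 6, 2, 2, 3, 4, 4, 7], 
  [7, 7, 1, 6, 6, 5, 0, 3]]

/-- `j p(t, d) j = p(t₁, d₁) j h(b) p(t₂, d₂)` -/
def chkR (q : List ℕ) : Bool := match q with
  | [t, d, t₁, d₁, b, t₂, d₂] => (b != 0) && (b < 8) && weq [.j, .p (bo t) (bo d), .j] [.p (bo t₁) (bo d₁), .j, .h (bo b), .p (bo t₂) (bo d₂)]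
  | _ => false

/-- the word of the conjugate of `m₀ = j p(0, δ)`, `δ = 3`, by `h(a) p(t, d)`: `p(t, d)⁻¹ = p(t, d + t⁵)` -/
def cw (a t d : B8) : List (Lt B8) := [.h a, .p t d, .j, .p (bo 0) (bo 3), .p t (d + t * t * t * t * t), .h (a * a * a * a * a * a)]

/-- `j p(t, d)` is the product of the two conjugates -/
def chkC (q : List ℕ) : Bool := match q with
  | [t, d, a₁, t₁, d₁, a₂, t₂, d₂] => (a₁ != 0) && (a₁ < 8) && (a₂ != 0) && (a₂ < 8) && weq [.j, .p (bo t) (bo d)] (cw (bo a₁) (bo t₁) (bo d₁) ++ cw (bo a₂) (bo t₂) (bo d₂))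
  | _ => false

set_option maxRecDepth 100000 in
theorem tabR_ok : ∀ q ∈ tabR, chkR q = true := by
  decide +kernel

set_option maxRecDepth 100000 in
theorem tabC_ok : ∀ q ∈ tabC, chkC q = true := by
  decide +kernel

set_option maxRecDepth 100000 in
theorem tabR_all : ∀ t ∈ List.range 8, ∀ d ∈ List.range 8, (t = 0 ∧ d = 0) ∨ ∃ q ∈ tabR, q.take 2 = [t, d] := by
  decide +kernel

set_option maxRecDepth 100000 in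
theorem tabC_all : ∀ t ∈ List.range 8, ∀ d ∈ List.range 8, ∃ q ∈ tabC, q.take 2 = [t, d] := by
  decide +kernel

theorem ord13 : weq [.j, .p (bo 0) (bo 3), .j, .p (bo 0) (bo 3), .j, .p (bo 0) (bo 3), .j, .p (bo 0) (bo 3), .j, .p (bo 0) (bo 3), .j, .p (bo 0) (bo 3), .j, .p (bo 0) (bo 3),
  .j, .p (bo 0) (bo 3), .j, .p (bo 0) (bo 3), .j, .p (bo 0) (bo 3), .j, .p (bo 0) (bo 3), .j, .p (bo 0) (bo 3), .j, .p (bo 0) (bo 3)] [] = true := by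
  decide +kernel

end Pool.Agent.ThO2
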