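import Pool.Agent.ThO2.Ab1
import Pool.Agent.ThO2.Sz
import Pool.Agent.ThK.Mat2

/-! # The group `Sz(8)` in `SL_4(K)` and the group `SL_2(K)`, `K` with eight elements, as groups of rank one -/

namespace Pool.Agent.ThO2

open ThG

variable {K : Type*} [Field K]

-- BEGIN da
/-- ROW da. `K` has eight elements (`FiniteField.pow_card`, `Fintype.ofFinite`, `Nat.finite_of_card_ne_zero`; characteristic: `1 + 1 = 0` since `(8 : K) = 0` and `(8 : K) = 2 ^ 3`) -/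
theorem two8 (hK : Nat.card K = 8) : (2 : K) = 0 := by
  have : Finite K := Nat.finite_of_card_ne_zero (by rw [hK]; norm_num)
  let _ : Fintype K := Fintype.ofFinite K
  have hc : Fintype.card K = 8 := by rw [← Nat.card_eq_fintype_card]; exact hK
  have h8 : ((Fintype.card K : ℕ) : K) = 0 := Nat.cast_card_eq_zero K
  rw [hc] at h8
  have h : (2 : K) ^ 3 = 0 := by
    have e : (2 : K) ^ 3 = ((8 : ℕ) : K) := by norm_num
    rw [e]; exact h8
  exact pow_eq_zero_iff (three_ne_zero) |>.mp h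

theorem add8 (hK : Nat.card K = 8) (a : K) : a + a = 0 := by
  rw [← two_mul, two8 hK, zero_mul]

theorem pow8 (hK : Nat.card K = 8) (a : K) : a ^ 8 = a := by
  have : Finite K := Nat.finite_of_card_ne_zero (by rw [hK]; norm_num)
  let _ : Fintype K := Fintype.ofFinite K
  have hc : Fintype.card K = 8 := by rw [← Nat.card_eq_fintype_card]; exact hK
  have h := FiniteField.pow_card a
  rw [hc] at h
  exact h

theorem unit7 (hK : Nat.card K = 8) (b : Kˣ) : b ^ 7 = 1 := by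
  ext
  rw [Units.val_pow_eq_pow_val, Units.val_one]
  have h := pow8 hK (b : K)
  have h0 : (b : K) ≠ 0 := b.ne_zero
  have e : (b : K) * ((b : K) ^ 7) = (b : K) * 1 := by
    rw [mul_one, ← pow_succ']; exact h
  exact mul_left_cancel₀ h0 e

/-- an element with `α³ = α + 1`: `c ≠ 0, 1` satisfies `c⁷ = 1`, `c⁷ - 1 = (c - 1)(c³ + c + 1)(c³ + c² + 1)` in characteristic two; `α = c` or `α = c⁻¹` -/
theorem exists_alpha (hK : Nat.card K = 8) : ∃ α : K, α ^ 3 = α + 1 := by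
  have : Finite K := Nat.finite_of_card_ne_zero (by rw [hK]; norm_num)
  let _ : Fintype K := Fintype.ofFinite K
  have hc : Fintype.card K = 8 := by rw [← Nat.card_eq_fintype_card]; exact hK
  classical
  obtain ⟨c, hc'⟩ : ∃ c : K, c ∉ ({0, 1} : Finset K) := by
    by_contra hcon
    push Not at hcon
    have hsub : (Finset.univ : Finset K) ⊆ {0, 1} := fun x _ => hcon x
    have hle := Finset.card_le_card hsub
    rw [Finset.card_univ, hc] at hle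
    have h2 : ({0, 1} : Finset K).card ≤ 2 := Finset.card_le_two
    omega
  have hc0 : c ≠ 0 := fun h => hc' (by simp [h])
  have hc1 : c ≠ 1 := fun h => hc' (by simp [h])
  have h2 := two8 hK
  have h8 := pow8 hK c
  have hf : c * ((c - 1) * ((c ^ 3 + c + 1) * (c ^ 3 + c ^ 2 + 1))) = 0 := by
    linear_combination h8 + (c ^ 5 - c ^ 4) * h2
  have hf2 : (c ^ 3 + c + 1) * (c ^ 3 + c ^ 2 + 1) = 0 := by
    rcases mul_eq_zero.mp hf with h | h
    · exact absurd h hc0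
    rcases mul_eq_zero.mp h with h | h
    · exact absurd (sub_eq_zero.mp h) hc1
    exact h
  rcases mul_eq_zero.mp hf2 with h | h
  · exact ⟨c, by linear_combination h - (c + 1) * h2⟩
  · refine ⟨c⁻¹, ?_⟩
    have hci : c⁻¹ * c = 1 := inv_mul_cancel₀ hc0
    have e : c ^ 3 * (c⁻¹ ^ 3) = 1 := by rw [← mul_pow, mul_inv_cancel₀ hc0, one_pow]
    have k : c ^ 3 * (c⁻¹ ^ 3) = c ^ 3 * (c⁻¹ + 1) := by
      have : c ^ 3 * (c⁻¹ + 1) = c ^ 2 + c ^ 3 := by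
        field_simp
      rw [e, this]
      linear_combination -h + h2
    exact mul_left_cancel₀ (pow_ne_zero 3 hc0) k
-- END da

/-- the element `p(t, d)` -/
def pS (t d : K) : Matrix.SpecialLinearGroup (Fin 4) K :=
  ⟨!![1, t ^ 2, t ^ 3 + d ^ 2, t ^ 5 + t ^ 2 * d ^ 2 + d; 0, 1, t, d ^ 2; 0, 0, 1, t ^ 2; 0, 0, 0, 1], by simp [Matrix.det_succ_row_zero, Fin.sum_univ_succ]⟩

variable (K) in
/-- the Weyl element -/
def JS : Matrix.SpecialLinearGroup (Fin 4) K := ⟨!![0, 0, 0, 1; 0, 0, 1, 0; 0, 1, 0, 0; 1, 0, 0, 0], by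
  simp [Matrix.det_succ_row_zero, Fin.sum_univ_succ, Fin.succAbove]
  norm_num⟩

/-- the torus element -/
def tS (b : Kˣ) : Matrix.SpecialLinearGroup (Fin 4) K :=
  ⟨!![((b⁻¹ : Kˣ) : K), 0, 0, 0; 0, ((b⁻¹ : Kˣ) : K) ^ 3, 0, 0; 0, 0, (b : K) ^ 3, 0; 0, 0, 0, (b : K)], by
    simp [Matrix.det_succ_row_zero, Fin.sum_univ_succ]⟩

-- BEGIN db
/-- ROW db. The group law of the unipotent group: entries, `two8`, `pow8` (`ext i j; fin_cases i <;> fin_cases j <;> simp [pS, Matrix.mul_apply, Fin.sum_univ_succ]`, then `linear_combination (..) * two8 hK + (..) * pow8 hK t` or the like) -/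
theorem pS_mul (hK : Nat.card K = 8) (t d u c : K) : pS t d * pS u c = pS (t + u) (d + c + t ^ 4 * u) := by
  have h2 : (2 : K) = 0 := two8 hK
  have h8 : t ^ 8 = t := pow8 hK t
  apply Subtype.ext
  rw [Matrix.SpecialLinearGroup.coe_mul]
  show !![1, t ^ 2, t ^ 3 + d ^ 2, t ^ 5 + t ^ 2 * d ^ 2 + d; 0, 1, t, d ^ 2; 0, 0, 1, t ^ 2; 0, 0, 0, 1] * !![1, u ^ 2, u ^ 3 + c ^ 2, u ^ 5 + u ^ 2 * c ^ 2 + c; 0, 1, u, c ^ 2; 0, 0, 1, u ^ 2; 0, 0, 0, 1] =
    !![1, (t + u) ^ 2, (t + u) ^ 3 + (d + c + t ^ 4 * u) ^ 2, (t + u) ^ 5 + (t + u) ^ 2 * (d + c + t ^ 4 * u) ^ 2 + (d + c + t ^ 4 * u); 0, 1, t + u, (d + c + t ^ 4 * u) ^ 2; 0, 0, 1, (t + u) ^ 2; 0, 0, 0, 1]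
  have e01 : u ^ 2 + t ^ 2 = (t + u) ^ 2 := by linear_combination (-(t * u)) * h2
  have e02 : u ^ 3 + c ^ 2 + t ^ 2 * u + (t ^ 3 + d ^ 2) = (t + u) ^ 3 + (d + c + t ^ 4 * u) ^ 2 := by
    linear_combination (-(t ^ 4 * d * u) - t ^ 4 * u * c - t ^ 2 * u - 2 * t * u ^ 2 - d * c) * h2 + (-(u ^ 2)) * h8
  have e13 : c ^ 2 + t * u ^ 2 + d ^ 2 = (d + c + t ^ 4 * u) ^ 2 := by
    linear_combination (-(t ^ 4 * d * u) - t ^ 4 * u * c - d * c) * h2 + (-(u ^ 2)) * h8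
  have e03 : u ^ 5 + u ^ 2 * c ^ 2 + c + t ^ 2 * c ^ 2 + (t ^ 3 + d ^ 2) * u ^ 2 + (t ^ 5 + t ^ 2 * d ^ 2 + d) =
      (t + u) ^ 5 + (t + u) ^ 2 * (d + c + t ^ 4 * u) ^ 2 + (d + c + t ^ 4 * u) := by
    linear_combination (-(t ^ 6 * d * u) - t ^ 6 * u * c - 2 * t ^ 5 * d * u ^ 2 - 2 * t ^ 5 * u ^ 2 * c - t ^ 4 * d * u ^ 3 - t ^ 4 * u ^ 3 * c - 3 * t ^ 4 * u - 5 * t ^ 3 * u ^ 2
      - t ^ 2 * d * c - 6 * t ^ 2 * u ^ 3 - t * d ^ 2 * u - 2 * t * d * u * c - 3 * t * u ^ 4 - t * u * c ^ 2 - d * u ^ 2 * c) * h2 + (-(t ^ 2 * u ^ 2) - 2 * t * u ^ 3 - u ^ 4) * h8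
  rw [← e03, ← e02, ← e13, ← e01]
  ext i j
  fin_cases i <;> fin_cases j <;> simp [Matrix.mul_apply, Fin.sum_univ_succ] <;> ring

theorem pS_zero : pS (0 : K) 0 = 1 := by
  apply Subtype.ext
  show !![1, (0 : K) ^ 2, 0 ^ 3 + 0 ^ 2, 0 ^ 5 + 0 ^ 2 * 0 ^ 2 + 0; 0, 1, 0, 0 ^ 2; 0, 0, 1, 0 ^ 2; 0, 0, 0, 1] = (1 : Matrix (Fin 4) (Fin 4) K)
  ext i j
  fin_cases i <;> fin_cases j <;> simp

theorem pS_inv (hK : Nat.card K = 8) (t d : K) : (pS t d)⁻¹ = pS t (d + t ^ 5) := by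
  have h2 : (2 : K) = 0 := two8 hK
  apply inv_eq_of_mul_eq_one_right
  rw [pS_mul hK, ← pS_zero]
  have e1 : t + t = 0 := by linear_combination t * h2
  have e2 : d + (d + t ^ 5) + t ^ 4 * t = 0 := by linear_combination (d + t ^ 5) * h2
  rw [e1, e2]
-- END db

-- BEGIN dc
/-- ROW dc. -/
theorem JS_JS : JS K * JS K = 1 := by
  apply Subtype.ext
  show (JS K).1 * (JS K).1 = 1
  ext i j
  fin_cases i <;> fin_cases j <;> simp [JS, Matrix.mul_apply, Fin.sum_univ_succ]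

theorem tS_mul (b c : Kˣ) : tS (b * c) = tS b * tS c := by
  apply Subtype.ext
  show (tS (b * c)).1 = (tS b).1 * (tS c).1
  ext i j
  fin_cases i <;> fin_cases j <;> simp [tS, Matrix.mul_apply, Fin.sum_univ_succ] <;> ring

theorem tS_one : tS (1 : Kˣ) = 1 := by
  apply Subtype.ext
  show (tS (1 : Kˣ)).1 = 1
  ext i j
  fin_cases i <;> fin_cases j <;> simp [tS]

theorem JS_tS (b : Kˣ) : JS K * tS b * JS K = (tS b)⁻¹ := by
  have h1 : (tS b)⁻¹ = tS b⁻¹ := by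
    refine inv_eq_of_mul_eq_one_right ?_
    rw [← tS_mul, mul_inv_cancel, tS_one]
  rw [h1]
  apply Subtype.ext
  show (JS K).1 * (tS b).1 * (JS K).1 = (tS b⁻¹).1
  ext i j
  fin_cases i <;> fin_cases j <;> simp [JS, tS, Matrix.mul_apply, Fin.sum_univ_succ]

/-- `b ^ 7 = 1` (`unit7`) -/
theorem tS_pS (hK : Nat.card K = 8) (b : Kˣ) (t d : K) : tS b * pS t d * (tS b)⁻¹ = pS ((b : K) * t) ((b : K) ^ 5 * d) := by
  rw [mul_inv_eq_iff_eq_mul]
  have h7 : (b : K) ^ 7 = 1 := by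
    have h := unit7 hK b
    have h2 := congrArg (fun u : Kˣ => (u : K)) h
    simpa using h2
  have hc : ((b⁻¹ : Kˣ) : K) = (b : K) ^ 6 := by
    have h1 : (b : K) * ((b⁻¹ : Kˣ) : K) = 1 := Units.mul_inv b
    linear_combination (b : K) ^ 6 * h1 - ((b⁻¹ : Kˣ) : K) * h7
  apply Subtype.ext
  show (tS b).1 * (pS t d).1 = (pS ((b : K) * t) ((b : K) ^ 5 * d)).1 * (tS b).1
  unfold tS pS
  simp only [hc]
  generalize (b : K) = c at h7
  ext i j
  fin_cases i <;> fin_cases j <;> simp [Matrix.mul_apply, Fin.sum_univ_succ]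
  · linear_combination -c ^ 6 * t ^ 2 * (c ^ 7 + 1) * h7
  · linear_combination -c ^ 6 * d ^ 2 * h7
  · linear_combination -c ^ 6 * t ^ 2 * d ^ 2 * h7
  · linear_combination c ^ 4 * t * (c ^ 7 + 1) * h7
  · linear_combination c ^ 11 * d ^ 2 * h7
  · ring
-- END dc

-- BEGIN dd
private def dd_be (K : Type*) [Field K] (b : Bool) : K := if b then 1 else 0

private theorem dd_xor (h2 : (2 : K) = 0) (a b : Bool) : dd_be K (xor a b) = dd_be K a + dd_be K b := by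
  have h : (1 : K) + 1 = 0 := by linear_combination h2
  cases a <;> cases b <;> simp [dd_be, h]

private theorem dd_and (a b : Bool) : dd_be K (a && b) = dd_be K a * dd_be K b := by
  cases a <;> cases b <;> simp [dd_be]

private theorem dd_inv : ∀ a ∈ els, a ≠ bo 0 → ∃ b ∈ els, a * b = bo 1 := by
  decide +kernel

private theorem dd_add0 : ∀ a ∈ els, ∀ b ∈ els, a + b = bo 0 → a = b := by
  decide +kernel

/-- ROW dd. `α` from `exists_alpha`, `φ a = [a.x] + [a.y] α + [a.z] α²` with `[true] = 1`, `[false] = 0`; `[xor a b] = [a] + [b]` (`two8`), `[a && b] = [a] * [b]`; injective: the kernel is `0` because `1, α, α²` are independent over `F_2` (a relation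
gives `α` in `{0, 1}` or `α² = α + 1` or `α² = 1` ..., or: `φ a = 0`, `a ≠ 0` has the inverse `b` with `a * b = bo 1` (finite check), so `0 = φ a * φ b = 1`); surjective by cardinality. -/
theorem exists_phi (hK : Nat.card K = 8) : ∃ φ : B8 → K, (∀ a b, φ (a + b) = φ a + φ b) ∧ (∀ a b, φ (a * b) = φ a * φ b) ∧ φ (bo 0) = 0 ∧ φ (bo 1) = 1 ∧
    Function.Surjective φ ∧ Function.Injective φ := by
  obtain ⟨α, hα⟩ := exists_alpha hK
  have h2 : (2 : K) = 0 := two8 hK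
  have : Finite K := Nat.finite_of_card_ne_zero (by rw [hK]; norm_num)
  let φ : B8 → K := fun a => dd_be K a.x + dd_be K a.y * α + dd_be K a.z * α ^ 2
  have hadd : ∀ a b, φ (a + b) = φ a + φ b := by
    intro a b
    show dd_be K (xor a.x b.x) + dd_be K (xor a.y b.y) * α + dd_be K (xor a.z b.z) * α ^ 2 = (dd_be K a.x + dd_be K a.y * α + dd_be K a.z * α ^ 2) + (dd_be K b.x + dd_be K b.y * α + dd_be K b.z * α ^ 2)
    rw [dd_xor h2, dd_xor h2, dd_xor h2]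
    ring
  have hmul : ∀ a b, φ (a * b) = φ a * φ b := by
    intro a b
    show dd_be K (xor (a.x && b.x) (xor (a.y && b.z) (a.z && b.y))) + dd_be K (xor (xor (a.x && b.y) (a.y && b.x)) (xor (xor (a.y && b.z) (a.z && b.y)) (a.z && b.z))) * α +
      dd_be K (xor (xor (a.x && b.z) (a.z && b.x)) (xor (a.y && b.y) (a.z && b.z))) * α ^ 2 = (dd_be K a.x + dd_be K a.y * α + dd_be K a.z * α ^ 2) * (dd_be K b.x + dd_be K b.y * α + dd_be K b.z * α ^ 2)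
    simp only [dd_xor h2, dd_and]
    linear_combination (-(dd_be K a.y * dd_be K b.z + dd_be K a.z * dd_be K b.y + dd_be K a.z * dd_be K b.z * α)) * hα
  have h0 : φ (bo 0) = 0 := by
    show dd_be K false + dd_be K false * α + dd_be K false * α ^ 2 = 0
    simp [dd_be]
  have h1 : φ (bo 1) = 1 := by
    show dd_be K true + dd_be K false * α + dd_be K false * α ^ 2 = 1
    simp [dd_be]
  have hker : ∀ a, φ a = 0 → a = bo 0 := by
    intro a ha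
    by_contra hne
    obtain ⟨b, -, hb⟩ := dd_inv a (mem_els a) hne
    have e := hmul a b
    rw [hb, h1, ha, zero_mul] at e
    exact one_ne_zero e
  have hinj : Function.Injective φ := by
    intro a b hab
    apply dd_add0 a (mem_els a) b (mem_els b)
    apply hker
    rw [hadd, hab]
    linear_combination (φ b) * h2
  have hcard : Nat.card B8 = 8 := by
    have e : B8 ≃ Bool × Bool × Bool :=
      { toFun := fun a => (a.x, a.y, a.z)
        invFun := fun p => ⟨p.1, p.2.1, p.2.2⟩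
        left_inv := fun a => rfl
        right_inv := fun p => rfl }
    rw [Nat.card_congr e]
    simp
  exact ⟨φ, hadd, hmul, h0, h1, (hinj.bijective_of_nat_card_le (by rw [hK, hcard])).2, hinj⟩
-- END dd

open Classical in
/-- the matrix of a letter -/
noncomputable def evL (φ : B8 → K) : Lt B8 → Matrix.SpecialLinearGroup (Fin 4) K
  | .p t d => pS (φ t) (φ d)
  | .j => JS K
  | .h b => if h : φ b = 0 then 1 else tS (Units.mk0 (φ b) h)

-- BEGIN de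
/-- the vector over `K` -/
private def de_toV (φ : B8 → K) (v : V4 B8) : Fin 4 → K := ![φ v.a, φ v.b, φ v.c, φ v.d]

private theorem de_act (hK : Nat.card K = 8) {φ : B8 → K} (h1 : ∀ a b, φ (a + b) = φ a + φ b) (h2 : ∀ a b, φ (a * b) = φ a * φ b)
    (l : Lt B8) (hl : ∀ b, l = Lt.h b → φ b ≠ 0) (v : V4 B8) : (evL φ l).1.mulVec (de_toV φ v) = de_toV φ (act l v) := by
  cases l with
  | p t d =>
    show (pS (φ t) (φ d)).1.mulVec (de_toV φ v) = _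
    funext i
    fin_cases i <;> simp [-mul_eq_mul_right_iff, -mul_eq_mul_left_iff, pS, de_toV, act, Matrix.mulVec, dotProduct, Fin.sum_univ_four, h1, h2] <;> ring
  | j =>
    show (JS K).1.mulVec (de_toV φ v) = _
    funext i
    fin_cases i <;> simp [JS, de_toV, act, Matrix.mulVec, dotProduct, Fin.sum_univ_four]
  | h b =>
    have hb : φ b ≠ 0 := hl b rfl
    have e : evL φ (Lt.h b) = tS (Units.mk0 (φ b) hb) := dif_neg hb
    have h7 : φ b ^ 7 = 1 := by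
      have h8 := congrArg Units.val (unit7 hK (Units.mk0 (φ b) hb))
      rw [Units.val_pow_eq_pow_val, Units.val_mk0, Units.val_one] at h8
      exact h8
    have hi : (φ b)⁻¹ = φ b ^ 6 := by
      apply inv_eq_of_mul_eq_one_left
      rw [← pow_succ]
      exact h7
    have hi3 : (φ b ^ 6) ^ 3 = φ b ^ 4 := by
      rw [← pow_mul, show 6 * 3 = 7 + 7 + 4 by norm_num, pow_add, pow_add, h7, one_mul, one_mul]
    rw [e]
    funext i
    fin_cases i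
    · simp [-mul_eq_mul_right_iff, -mul_eq_mul_left_iff, tS, de_toV, act, Matrix.mulVec, dotProduct, Fin.sum_univ_four, h2, hi]
      ring
    · simp only [tS, de_toV, act, Matrix.mulVec, dotProduct, Fin.sum_univ_four, h2, Units.val_inv_eq_inv_val, Units.val_mk0, hi, hi3]
      simp [-mul_eq_mul_right_iff, -mul_eq_mul_left_iff]
      ring
    · simp [-mul_eq_mul_right_iff, -mul_eq_mul_left_iff, tS, de_toV, act, Matrix.mulVec, dotProduct, Fin.sum_univ_four, h2]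
      ring
    · simp [-mul_eq_mul_right_iff, -mul_eq_mul_left_iff, tS, de_toV, act, Matrix.mulVec, dotProduct, Fin.sum_univ_four, h2]

private theorem de_acts (hK : Nat.card K = 8) {φ : B8 → K} (h1 : ∀ a b, φ (a + b) = φ a + φ b) (h2 : ∀ a b, φ (a * b) = φ a * φ b)
    (w : List (Lt B8)) (hw : ∀ b, Lt.h b ∈ w → φ b ≠ 0) (v : V4 B8) : ((w.map (evL φ)).prod).1.mulVec (de_toV φ v) = de_toV φ (acts w v) := by
  induction w with
  | nil =>
    show (1 : Matrix (Fin 4) (Fin 4) K).mulVec (de_toV φ v) = _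
    rw [Matrix.one_mulVec]
    rfl
  | cons l w ih =>
    rw [List.map_cons, List.prod_cons]
    show ((evL φ l).1 * ((w.map (evL φ)).prod).1).mulVec (de_toV φ v) = de_toV φ (act l (acts w v))
    rw [← Matrix.mulVec_mulVec, ih fun b hb => hw b (List.mem_cons_of_mem _ hb)]
    exact de_act hK h1 h2 l (fun b hb => hw b (by rw [hb]; exact List.mem_cons_self)) _

/-- ROW de. Transfer of the finite checks.  `toV v : Fin 4 → K := ![φ v.a, φ v.b, φ v.c, φ v.d]`; for every letter (`φ b ≠ 0` for `.h b`; `b⁻¹ = b⁶` by `unit7`): `(evL φ l).1 *ᵥ toV v = toV (act l v)`; induction on the word; the columns of a matrix are its values on the basis vectors. -/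
theorem weq_ev (hK : Nat.card K = 8) {φ : B8 → K} (h1 : ∀ a b, φ (a + b) = φ a + φ b) (h2 : ∀ a b, φ (a * b) = φ a * φ b) (h3 : φ (bo 0) = 0) (h4 : φ (bo 1) = 1)
    {w w' : List (Lt B8)} (hw : ∀ b, Lt.h b ∈ w → φ b ≠ 0) (hw' : ∀ b, Lt.h b ∈ w' → φ b ≠ 0) (h : weq w w' = true) : (w.map (evL φ)).prod = (w'.map (evL φ)).prod := by
  simp only [weq, Bool.and_eq_true, beq_iff_eq] at h
  obtain ⟨⟨⟨e0, e1⟩, e2⟩, e3⟩ := h
  have key : ∀ v, acts w v = acts w' v → ((w.map (evL φ)).prod).1.mulVec (de_toV φ v) = ((w'.map (evL φ)).prod).1.mulVec (de_toV φ v) := by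
    intro v hv
    rw [de_acts hK h1 h2 w hw, de_acts hK h1 h2 w' hw', hv]
  have k0 := key _ e0
  have k1 := key _ e1
  have k2 := key _ e2
  have k3 := key _ e3
  simp only [de_toV, h3, h4] at k0 k1 k2 k3
  apply Subtype.ext
  ext i j
  have f0 := congrFun k0 i
  have f1 := congrFun k1 i
  have f2 := congrFun k2 i
  have f3 := congrFun k3 i
  simp [Matrix.mulVec, dotProduct, Fin.sum_univ_four] at f0 f1 f2 f3
  fin_cases j
  · exact f0
  · exact f1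
  · exact f2
  · exact f3
-- END de

-- BEGIN df
private theorem df_bo (a : B8) : ∃ k ∈ List.range 8, a = bo k := by
  obtain ⟨x, y, z⟩ := a
  revert x y z
  decide

private theorem df_ne0 : ∀ b ∈ List.range 8, b ≠ 0 → bo b ≠ bo 0 := by
  decide

private theorem df_ne {φ : B8 → K} (h3 : φ (bo 0) = 0) (hi : Function.Injective φ) {b : ℕ} (hb : b ≠ 0) (hb8 : b < 8) : φ (bo b) ≠ 0 := by
  rw [← h3]
  exact fun h => df_ne0 b (List.mem_range.2 hb8) hb (hi h)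

private theorem df_h (φ : B8 → K) {b : B8} (h : φ b ≠ 0) : evL φ (.h b) = tS (Units.mk0 (φ b) h) := by
  exact dif_neg h

private theorem df_chkR {q : List ℕ} (h : chkR q = true) : ∃ t d t₁ d₁ b t₂ d₂, q = [t, d, t₁, d₁, b, t₂, d₂] ∧ b ≠ 0 ∧ b < 8 ∧
    weq [.j, .p (bo t) (bo d), .j] [.p (bo t₁) (bo d₁), .j, .h (bo b), .p (bo t₂) (bo d₂)] = true := by
  unfold chkR at h
  split at h
  · rename_i t d t₁ d₁ b t₂ d₂
    rw [Bool.and_eq_true, Bool.and_eq_true] at h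
    exact ⟨t, d, t₁, d₁, b, t₂, d₂, rfl, by simpa using h.1.1, by simpa using h.1.2, h.2⟩
  · exact absurd h (by decide)

private theorem df_chkC {q : List ℕ} (h : chkC q = true) : ∃ t d a₁ t₁ d₁ a₂ t₂ d₂, q = [t, d, a₁, t₁, d₁, a₂, t₂, d₂] ∧ a₁ ≠ 0 ∧ a₁ < 8 ∧ a₂ ≠ 0 ∧ a₂ < 8 ∧
    weq [.j, .p (bo t) (bo d)] (cw (bo a₁) (bo t₁) (bo d₁) ++ cw (bo a₂) (bo t₂) (bo d₂)) = true := by
  unfold chkC at h
  split at h
  · rename_i t d a₁ t₁ d₁ a₂ t₂ d₂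
    rw [Bool.and_eq_true, Bool.and_eq_true, Bool.and_eq_true, Bool.and_eq_true] at h
    exact ⟨t, d, a₁, t₁, d₁, a₂, t₂, d₂, rfl, by simpa using h.1.1.1.1, by simpa using h.1.1.1.2, by simpa using h.1.1.2, by simpa using h.1.2, h.2⟩
  · exact absurd h (by decide)

private theorem df_cw (hK : Nat.card K = 8) {φ : B8 → K} (h1 : ∀ a b, φ (a + b) = φ a + φ b) (h2 : ∀ a b, φ (a * b) = φ a * φ b) (h3 : φ (bo 0) = 0)
    {a : B8} (ha : φ a ≠ 0) (t d : B8) : ((cw a t d).map (evL φ)).prod =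
      (tS (Units.mk0 (φ a) ha) * pS (φ t) (φ d)) * (JS K * pS 0 (φ (bo 3))) * (tS (Units.mk0 (φ a) ha) * pS (φ t) (φ d))⁻¹ := by
  have e6 : φ (a * a * a * a * a * a) = φ a ^ 6 := by
    rw [h2, h2, h2, h2, h2]
    ring
  have e5 : φ (d + t * t * t * t * t) = φ d + φ t ^ 5 := by
    rw [h1, h2, h2, h2, h2]
    ring
  have ha6 : φ (a * a * a * a * a * a) ≠ 0 := by
    rw [e6]
    exact pow_ne_zero _ ha
  have hu : Units.mk0 (φ (a * a * a * a * a * a)) ha6 = (Units.mk0 (φ a) ha)⁻¹ := by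
    symm
    apply inv_eq_of_mul_eq_one_right
    have e7 : Units.mk0 (φ (a * a * a * a * a * a)) ha6 = (Units.mk0 (φ a) ha) ^ 6 := by
      apply Units.ext
      rw [Units.val_pow_eq_pow_val, Units.val_mk0, Units.val_mk0, e6]
    rw [e7, ← pow_succ', unit7 hK]
  have hi : (tS (Units.mk0 (φ a) ha))⁻¹ = tS (Units.mk0 (φ (a * a * a * a * a * a)) ha6) := by
    rw [hu]
    apply inv_eq_of_mul_eq_one_right
    rw [← tS_mul, mul_inv_cancel, tS_one]
  rw [mul_inv_rev, hi, pS_inv hK, ← e5]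
  show ((cw a t d).map (evL φ)).prod = _
  unfold cw
  rw [List.map_cons, List.map_cons, List.map_cons, List.map_cons, List.map_cons, List.map_cons, List.map_nil, List.prod_cons, List.prod_cons,
    List.prod_cons, List.prod_cons, List.prod_cons, List.prod_cons, List.prod_nil, df_h φ ha, df_h φ ha6, mul_one]
  show tS (Units.mk0 (φ a) ha) * (pS (φ t) (φ d) * (JS K * (pS (φ (bo 0)) (φ (bo 3)) * (pS (φ t) (φ (d + t * t * t * t * t)) * tS (Units.mk0 (φ (a * a * a * a * a * a)) ha6))))) = _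
  rw [h3]
  simp only [mul_assoc]

/-- ROW df. `exists_phi`; `t = φ (bo k)` (`mem_els`), `tabR_all`, `tabR_ok`, `chkR`, `weq_ev` (`bo 0, .., bo 7` distinct, so `φ (bo b) ≠ 0` for `0 < b < 8`) -/
theorem r0K (hK : Nat.card K = 8) (t d : K) (h : ¬ (t = 0 ∧ d = 0)) : ∃ (t₁ d₁ : K) (b : Kˣ) (t₂ d₂ : K), JS K * pS t d * JS K = pS t₁ d₁ * JS K * tS b * pS t₂ d₂ := by
  obtain ⟨φ, h1, h2, h3, h4, hs, hi⟩ := exists_phi hK
  obtain ⟨a, rfl⟩ := hs t
  obtain ⟨a', rfl⟩ := hs d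
  obtain ⟨i, hi8, rfl⟩ := df_bo a
  obtain ⟨j, hj8, rfl⟩ := df_bo a'
  rcases tabR_all i hi8 j hj8 with ⟨rfl, rfl⟩ | ⟨q, hq, hq2⟩
  · exact absurd ⟨h3, h3⟩ h
  · obtain ⟨t, d, t₁, d₁, b, t₂, d₂, rfl, hb, hb8, hw⟩ := df_chkR (tabR_ok q hq)
    have e := hq2
    rw [List.take_succ_cons, List.take_succ_cons, List.take_zero, List.cons.injEq, List.cons.injEq] at e
    obtain ⟨rfl, rfl, -⟩ := e
    have hb0 := df_ne h3 hi hb hb8
    have hev := weq_ev hK h1 h2 h3 h4 (fun c hc => by simp at hc) (fun c hc => by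
      simp only [List.mem_cons, List.not_mem_nil, or_false, reduceCtorEq, false_or, Lt.h.injEq] at hc
      rw [hc]
      exact hb0) hw
    refine ⟨φ (bo t₁), φ (bo d₁), Units.mk0 (φ (bo b)) hb0, φ (bo t₂), φ (bo d₂), ?_⟩
    rw [List.map_cons, List.map_cons, List.map_cons, List.map_nil, List.prod_cons, List.prod_cons, List.prod_cons, List.prod_nil,
      List.map_cons, List.map_cons, List.map_cons, List.map_cons, List.map_nil, List.prod_cons, List.prod_cons, List.prod_cons, List.prod_cons, List.prod_nil,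
      mul_one, mul_one, df_h φ hb0, ← mul_assoc, ← mul_assoc, ← mul_assoc] at hev
    exact hev

/-- `δ = φ (bo 3)`; `tabC_all`, `tabC_ok`, `chkC`, `cw`, `ord13`, `pS_inv`, `(tS a)⁻¹ = tS a⁶` -/
theorem cK (hK : Nat.card K = 8) : ∃ δ : K, (JS K * pS 0 δ) ^ 13 = 1 ∧ ∀ t d : K, ∃ (a₁ : Kˣ) (t₁ d₁ : K) (a₂ : Kˣ) (t₂ d₂ : K),
    JS K * pS t d = (tS a₁ * pS t₁ d₁) * (JS K * pS 0 δ) * (tS a₁ * pS t₁ d₁)⁻¹ * ((tS a₂ * pS t₂ d₂) * (JS K * pS 0 δ) * (tS a₂ * pS t₂ d₂)⁻¹) := by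
  obtain ⟨φ, h1, h2, h3, h4, hs, hi⟩ := exists_phi hK
  refine ⟨φ (bo 3), ?_, ?_⟩
  · have hev := weq_ev hK h1 h2 h3 h4 (fun c hc => by simp at hc) (fun c hc => by simp at hc) ord13
    have e : ∀ l : List (Lt B8), ((.j :: .p (bo 0) (bo 3) :: l).map (evL φ)).prod = (JS K * pS 0 (φ (bo 3))) * (l.map (evL φ)).prod := by
      intro l
      rw [List.map_cons, List.map_cons, List.prod_cons, List.prod_cons, ← mul_assoc]
      show JS K * pS (φ (bo 0)) (φ (bo 3)) * _ = _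
      rw [h3]
    rw [e, e, e, e, e, e, e, e, e, e, e, e, e, List.map_nil, List.prod_nil] at hev
    simp only [pow_succ', pow_zero]
    exact hev
  · intro t d
    obtain ⟨a, rfl⟩ := hs t
    obtain ⟨a', rfl⟩ := hs d
    obtain ⟨i, hi8, rfl⟩ := df_bo a
    obtain ⟨j, hj8, rfl⟩ := df_bo a'
    obtain ⟨q, hq, hq2⟩ := tabC_all i hi8 j hj8
    obtain ⟨t, d, a₁, t₁, d₁, a₂, t₂, d₂, rfl, ha1, ha18, ha2, ha28, hw⟩ := df_chkC (tabC_ok q hq)
    have e := hq2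
    rw [List.take_succ_cons, List.take_succ_cons, List.take_zero, List.cons.injEq, List.cons.injEq] at e
    obtain ⟨rfl, rfl, -⟩ := e
    have hb1 := df_ne h3 hi ha1 ha18
    have hb2 := df_ne h3 hi ha2 ha28
    have k6 : ∀ a : B8, φ a ≠ 0 → φ (a * a * a * a * a * a) ≠ 0 := by
      intro a ha
      rw [h2, h2, h2, h2, h2]
      exact mul_ne_zero (mul_ne_zero (mul_ne_zero (mul_ne_zero (mul_ne_zero ha ha) ha) ha) ha) ha
    have hev := weq_ev hK h1 h2 h3 h4 (fun c hc => by simp at hc) (fun c hc => by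
      simp only [cw, List.mem_append, List.mem_cons, List.not_mem_nil, or_false, reduceCtorEq, false_or, Lt.h.injEq] at hc
      rcases hc with (rfl | rfl) | (rfl | rfl)
      · exact hb1
      · exact k6 _ hb1
      · exact hb2
      · exact k6 _ hb2) hw
    refine ⟨Units.mk0 (φ (bo a₁)) hb1, φ (bo t₁), φ (bo d₁), Units.mk0 (φ (bo a₂)) hb2, φ (bo t₂), φ (bo d₂), ?_⟩
    rw [List.map_append, List.prod_append, df_cw hK h1 h2 h3 hb1, df_cw hK h1 h2 h3 hb2, List.map_cons, List.map_cons, List.map_nil, List.prod_cons,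
      List.prod_cons, List.prod_nil, mul_one] at hev
    exact hev
-- END df

-- BEGIN dg
/-- ROW dg. Lower triangular times diagonal times upper triangular: `(JS * pS s c * JS) * tS b = (pS t d)⁻¹`, the left side is lower triangular with diagonal `b⁻¹, ..`, the right side upper triangular with diagonal `1`; compare entries of
`JS * pS s c * JS * tS b * pS t d = 1`: column 0 gives `b = 1`, `s = 0`, `c = 0` (entries `(1,0)`, `(2,0)`, `(3,0)`), row 0 gives `t = 0`, `d = 0`. -/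
theorem uniqK (s c : K) (b : Kˣ) (t d : K) (h : JS K * pS s c * JS K * tS b * pS t d = 1) : (s = 0 ∧ c = 0) ∧ b = 1 ∧ t = 0 ∧ d = 0 := by
  have e : ∀ i j, (JS K * pS s c * JS K * tS b * pS t d).1 i j = (1 : Matrix (Fin 4) (Fin 4) K) i j := fun i j => by
    rw [h]
    rfl
  have e00 := e 0 0
  have e10 := e 1 0
  have e20 := e 2 0
  have e01 := e 0 1
  have e02 := e 0 2
  simp [JS, pS, tS, Matrix.mul_apply, Fin.sum_univ_four] at e00 e10 e20 e01 e02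
  rw [e01, zero_pow (by norm_num), zero_add] at e02
  exact ⟨⟨e10, e20⟩, e00, e01, pow_eq_zero_iff (two_ne_zero) |>.1 e02⟩
-- END dg

variable (K) in
/-- the group `Sz(8)` -/
def Sz : Subgroup (Matrix.SpecialLinearGroup (Fin 4) K) := Subgroup.closure ({g | ∃ t d, g = pS t d} ∪ {JS K} ∪ {g | ∃ b : Kˣ, g = tS b})

/-- elements of `Sz(8)` -/
def pZ (t d : K) : Sz K := ⟨pS t d, Subgroup.subset_closure (Or.inl (Or.inl ⟨t, d, rfl⟩))⟩

variable (K) in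
/-- elements of `Sz(8)` -/
def JZ : Sz K := ⟨JS K, Subgroup.subset_closure (Or.inl (Or.inr rfl))⟩

/-- elements of `Sz(8)` -/
def tZ (b : Kˣ) : Sz K := ⟨tS b, Subgroup.subset_closure (Or.inr ⟨b, rfl⟩)⟩

variable (K) in
/-- the unipotent subgroup -/
def PZ : Subgroup (Sz K) := Subgroup.closure {g | ∃ t d, g = pZ t d}

variable (K) in
/-- the torus -/
def TZ : Subgroup (Sz K) := Subgroup.closure {g | ∃ b, g = tZ b}

-- BEGIN dh
/-- ROW dh. `pS_mul`, `pS_inv`, `tS_mul` -/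
theorem mem_PZ (hK : Nat.card K = 8) {g : Sz K} : g ∈ PZ K ↔ ∃ t d, g = pZ t d := by
  constructor
  · intro hg
    unfold PZ at hg
    refine Subgroup.closure_induction (p := fun g _ => ∃ t d : K, g = pZ t d) ?_ ?_ ?_ ?_ hg
    · intro g hg
      exact hg
    · exact ⟨0, 0, Subtype.ext pS_zero.symm⟩
    · rintro _ _ _ _ ⟨t, d, rfl⟩ ⟨u, c, rfl⟩
      exact ⟨t + u, d + c + t ^ 4 * u, Subtype.ext (pS_mul hK t d u c)⟩
    · rintro _ _ ⟨t, d, rfl⟩
      exact ⟨t, d + t ^ 5, Subtype.ext (pS_inv hK t d)⟩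
  · rintro ⟨t, d, rfl⟩
    exact Subgroup.subset_closure ⟨t, d, rfl⟩

theorem mem_TZ {g : Sz K} : g ∈ TZ K ↔ ∃ b, g = tZ b := by
  constructor
  · intro hg
    unfold TZ at hg
    refine Subgroup.closure_induction (p := fun g _ => ∃ b : Kˣ, g = tZ b) ?_ ?_ ?_ ?_ hg
    · intro g hg
      exact hg
    · exact ⟨1, Subtype.ext tS_one.symm⟩
    · rintro _ _ _ _ ⟨b, rfl⟩ ⟨c, rfl⟩
      exact ⟨b * c, Subtype.ext (tS_mul b c).symm⟩
    · rintro _ _ ⟨b, rfl⟩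
      refine ⟨b⁻¹, Subtype.ext ?_⟩
      have h : tS b * tS b⁻¹ = (1 : Matrix.SpecialLinearGroup (Fin 4) K) := by rw [← tS_mul, mul_inv_cancel, tS_one]
      exact inv_eq_of_mul_eq_one_right h
  · rintro ⟨b, rfl⟩
    exact Subgroup.subset_closure ⟨b, rfl⟩
-- END dh

-- BEGIN di
private theorem di_sq (hK : Nat.card K = 8) (b : Kˣ) : b ^ 4 * b ^ 4 = b := by
  have h := unit7 hK b
  calc b ^ 4 * b ^ 4 = b ^ 7 * b := by rw [← pow_add, ← pow_succ]
    _ = b := by rw [h, one_mul]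

private theorem di_tp (hK : Nat.card K = 8) (b : Kˣ) (t d : K) : tZ b * pZ t d * (tZ b)⁻¹ = pZ ((b : K) * t) ((b : K) ^ 5 * d) :=
  Subtype.ext (tS_pS hK b t d)

private theorem di_mul (b c : Kˣ) : tZ (b * c) = tZ b * tZ c := Subtype.ext (tS_mul b c)

private theorem di_one : tZ (1 : Kˣ) = 1 := Subtype.ext tS_one

private theorem di_J (b : Kˣ) : JZ K * tZ b * JZ K = (tZ b)⁻¹ := Subtype.ext (JS_tS b)

private theorem di_JJ : JZ K * JZ K = 1 := Subtype.ext JS_JS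

private theorem di_zero : pZ (0 : K) 0 = 1 := Subtype.ext pS_zero

private theorem di_r0 (hK : Nat.card K = 8) (t d : K) (h : ¬ (t = 0 ∧ d = 0)) :
    ∃ (t₁ d₁ : K) (b : Kˣ) (t₂ d₂ : K), JZ K * pZ t d * JZ K = pZ t₁ d₁ * JZ K * tZ b * pZ t₂ d₂ := by
  obtain ⟨t₁, d₁, b, t₂, d₂, e⟩ := r0K hK t d h
  exact ⟨t₁, d₁, b, t₂, d₂, Subtype.ext e⟩

private theorem di_ent {t d u c : K} (h : pZ t d = pZ u c) : t = u := by
  have h1 := congrArg (fun g : Sz K => (g.1.1 : Matrix (Fin 4) (Fin 4) K) 1 2) h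
  exact h1

private theorem di_tor (hK : Nat.card K = 8) (b : Kˣ) : tZ b ∈ Subgroup.closure ((PZ K : Set (Sz K)) ∪ {JZ K}) := by
  have hP : ∀ t d : K, pZ t d ∈ Subgroup.closure ((PZ K : Set (Sz K)) ∪ {JZ K}) := fun t d =>
    Subgroup.subset_closure (Or.inl ((mem_PZ hK).2 ⟨t, d, rfl⟩))
  have hJ : JZ K ∈ Subgroup.closure ((PZ K : Set (Sz K)) ∪ {JZ K}) := Subgroup.subset_closure (Or.inr rfl)
  obtain ⟨t₁, d₁, b₀, t₂, d₂, e⟩ := di_r0 hK 1 0 (fun h => one_ne_zero h.1)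
  -- conjugation with the torus
  have key : ∀ c : Kˣ, tZ (c * b₀ * c) ∈ Subgroup.closure ((PZ K : Set (Sz K)) ∪ {JZ K}) := by
    intro c
    have e1 : JZ K * pZ ((c : K) * 1) ((c : K) ^ 5 * 0) * JZ K = (tZ c)⁻¹ * (pZ t₁ d₁ * JZ K * tZ b₀ * pZ t₂ d₂) * tZ c := by
      rw [← di_tp hK, ← e]
      have j1 : JZ K * tZ c = (tZ c)⁻¹ * JZ K := by
        rw [← di_J, mul_assoc, di_JJ, mul_one]
      calc JZ K * (tZ c * pZ 1 0 * (tZ c)⁻¹) * JZ K = (JZ K * tZ c) * pZ 1 0 * ((tZ c)⁻¹ * JZ K) := by simp only [mul_assoc]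
        _ = ((tZ c)⁻¹ * JZ K) * pZ 1 0 * (JZ K * tZ c) := by rw [j1]
        _ = _ := by simp only [mul_assoc]
    have e2 : (tZ c)⁻¹ * (pZ t₁ d₁ * JZ K * tZ b₀ * pZ t₂ d₂) * tZ c =
        ((tZ c)⁻¹ * pZ t₁ d₁ * tZ c) * (JZ K * (tZ c * tZ b₀ * tZ c)) * ((tZ c)⁻¹ * pZ t₂ d₂ * tZ c) := by
      have j1 : JZ K * tZ c = (tZ c)⁻¹ * JZ K := by
        rw [← di_J, mul_assoc, di_JJ, mul_one]
      have j3 : JZ K * (tZ c * tZ b₀ * tZ c) = (tZ c)⁻¹ * JZ K * tZ b₀ * tZ c := by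
        rw [mul_assoc (tZ c), ← mul_assoc (JZ K), j1, ← mul_assoc]
      rw [j3]
      group
    have inv1 : (tZ c)⁻¹ = tZ c⁻¹ := by
      rw [inv_eq_iff_mul_eq_one, ← di_mul, mul_inv_cancel, di_one]
    have inv2 : tZ c = (tZ c⁻¹)⁻¹ := by rw [← inv1, inv_inv]
    have hc : ∀ t d : K, (tZ c)⁻¹ * pZ t d * tZ c ∈ Subgroup.closure ((PZ K : Set (Sz K)) ∪ {JZ K}) := by
      intro t d
      have e3 : (tZ c)⁻¹ * pZ t d * tZ c = tZ c⁻¹ * pZ t d * (tZ c⁻¹)⁻¹ := by rw [inv1, ← inv2]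
      rw [e3, di_tp hK]
      exact hP _ _
    have h1 := mul_mem (mul_mem hJ (hP ((c : K) * 1) ((c : K) ^ 5 * 0))) hJ
    rw [e1, e2] at h1
    have h2 := mul_mem (mul_mem (inv_mem (hc t₁ d₁)) h1) (inv_mem (hc t₂ d₂))
    have e4 : ((tZ c)⁻¹ * pZ t₁ d₁ * tZ c)⁻¹ * (((tZ c)⁻¹ * pZ t₁ d₁ * tZ c) * (JZ K * (tZ c * tZ b₀ * tZ c)) * ((tZ c)⁻¹ * pZ t₂ d₂ * tZ c)) *
        ((tZ c)⁻¹ * pZ t₂ d₂ * tZ c)⁻¹ = JZ K * (tZ c * tZ b₀ * tZ c) := by group
    rw [e4] at h2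
    have h3 := mul_mem hJ h2
    rw [← mul_assoc, di_JJ, one_mul, ← di_mul, ← di_mul] at h3
    exact h3
  have h5 := key ((b * b₀⁻¹) ^ 4)
  have e5 : (b * b₀⁻¹) ^ 4 * b₀ * (b * b₀⁻¹) ^ 4 = b := by
    calc (b * b₀⁻¹) ^ 4 * b₀ * (b * b₀⁻¹) ^ 4 = (b * b₀⁻¹) ^ 4 * (b * b₀⁻¹) ^ 4 * b₀ := mul_right_comm _ _ _
      _ = b := by rw [di_sq hK, inv_mul_cancel_right]
  rwa [e5] at h5

/-- ROW di. `R1` for `Sz(8)`: `JS_JS`, `JS_tS`, `tS_pS`; `sq`: `b = (b⁴)²` (`unit7`); `r0K`, `uniqK`; `fix`: `p = pZ 1 0`, `b ≠ 1` (entry `(1,2)` of `pS b 0`, `pS 1 0`); `gen`: `tZ b` is in the closure of `PZ`, `JZ`: `r0K` for `t = 1, d = 0` gives some `tZ b₀` there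
(`J p J = p₁ J tZ(b₀) p₂`), conjugating `p` with `tZ c` (before the decomposition: `J (tZ c p tZ c⁻¹) J = tZ c⁻¹ (J p J) tZ c = (..) tZ c⁻¹ J tZ b₀ tZ c (..) = (..) J tZ (c² b₀) (..)`) gives all of them (`c² b₀ = b` is solvable). -/
theorem r1Z (hK : Nat.card K = 8) : R1 (PZ K) (TZ K) (JZ K) := by
  have hJ : JZ K ∈ Subgroup.closure ((PZ K : Set (Sz K)) ∪ {JZ K}) := Subgroup.subset_closure (Or.inr rfl)
  constructor
  · exact di_JJ
  · intro t ht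
    obtain ⟨b, rfl⟩ := mem_TZ.1 ht
    exact di_J b
  · intro t ht p hp
    obtain ⟨b, rfl⟩ := mem_TZ.1 ht
    obtain ⟨u, d, rfl⟩ := (mem_PZ hK).1 hp
    rw [di_tp hK]
    exact (mem_PZ hK).2 ⟨_, _, rfl⟩
  · intro t ht
    obtain ⟨b, rfl⟩ := mem_TZ.1 ht
    exact ⟨tZ (b ^ 4), mem_TZ.2 ⟨_, rfl⟩, by rw [← di_mul, di_sq hK]⟩
  · intro p hp h1
    obtain ⟨u, d, rfl⟩ := (mem_PZ hK).1 hp
    obtain ⟨t₁, d₁, b, t₂, d₂, e⟩ := di_r0 hK u d (by
      rintro ⟨rfl, rfl⟩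
      exact h1 di_zero)
    exact ⟨_, (mem_PZ hK).2 ⟨t₁, d₁, rfl⟩, _, mem_TZ.2 ⟨b, rfl⟩, _, (mem_PZ hK).2 ⟨t₂, d₂, rfl⟩, e⟩
  · intro q hq t ht p hp h1
    obtain ⟨s, c, rfl⟩ := (mem_PZ hK).1 hq
    obtain ⟨b, rfl⟩ := mem_TZ.1 ht
    obtain ⟨u, d, rfl⟩ := (mem_PZ hK).1 hp
    obtain ⟨⟨rfl, rfl⟩, rfl, rfl, rfl⟩ := uniqK s c b u d (congrArg Subtype.val h1)
    exact ⟨di_zero, di_one, di_zero⟩
  · intro t ht h1
    obtain ⟨b, rfl⟩ := mem_TZ.1 ht
    refine ⟨pZ 1 0, (mem_PZ hK).2 ⟨1, 0, rfl⟩, fun h2 => h1 ?_⟩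
    rw [di_tp hK] at h2
    have h3 : (b : K) * 1 = 1 := di_ent h2
    rw [mul_one] at h3
    have h4 : b = 1 := Units.ext h3
    rw [h4, di_one]
  · refine ⟨pZ 1 0, (mem_PZ hK).2 ⟨1, 0, rfl⟩, fun h2 => ?_⟩
    have h3 : (1 : K) = 0 := di_ent (h2.trans di_zero.symm)
    exact one_ne_zero h3
  · rw [eq_top_iff]
    rintro g -
    have h0 : Subgroup.closure ({g | ∃ t d : K, g = pS t d} ∪ {JS K} ∪ {g | ∃ b : Kˣ, g = tS b}) ≤
        (Subgroup.closure ((PZ K : Set (Sz K)) ∪ {JZ K})).map (Sz K).subtype := by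
      rw [Subgroup.closure_le]
      rintro x ((⟨t, d, rfl⟩ | hx) | ⟨b, rfl⟩)
      · exact ⟨pZ t d, Subgroup.subset_closure (Or.inl ((mem_PZ hK).2 ⟨t, d, rfl⟩)), rfl⟩
      · exact ⟨JZ K, hJ, (Set.mem_singleton_iff.1 hx).symm⟩
      · exact ⟨tZ b, di_tor hK b, rfl⟩
    obtain ⟨g', hg', e⟩ := h0 g.2
    have e1 : g' = g := Subtype.ext e
    rw [← e1]
    exact hg'
-- END di

-- BEGIN dj
/-- ROW dj. `m₀ = JZ * pZ 0 δ` (`cK`); `m = 1`: `m₀ * m₀⁻¹`; `m ≠ 1`: `y * m * y⁻¹ = JZ * p` (`R1.conj_n (r1Z hK)`, `mem_PZ`) and `cK`; `m₀⁻¹ = (pZ 0 δ)⁻¹ * JZ = pZ 0 δ * JZ` (`pS_inv`) `= pZ 0 δ * m₀ * (pZ 0 δ)⁻¹` -/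
theorem cZ (hK : Nat.card K = 8) : ∃ m₀ : Sz K, m₀ ^ 13 = 1 ∧ (∀ m : Sz K, ∃ y₁ y₂ : Sz K, m = y₁ * m₀ * y₁⁻¹ * (y₂ * m₀ * y₂⁻¹)) ∧ ∃ y : Sz K, m₀⁻¹ = y * m₀ * y⁻¹ := by
  obtain ⟨δ, h13, hc⟩ := cK hK
  have hJJ : JZ K * JZ K = 1 := Subtype.ext JS_JS
  have hJ : (JZ K)⁻¹ = JZ K := inv_eq_of_mul_eq_one_left hJJ
  have hp : (pZ 0 δ)⁻¹ = pZ 0 δ := by
    apply Subtype.ext
    have h1 := pS_inv hK 0 δ
    have h2 : δ + (0 : K) ^ 5 = δ := by simp
    rw [h2] at h1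
    exact h1
  have hinv : (JZ K * pZ 0 δ)⁻¹ = pZ 0 δ * (JZ K * pZ 0 δ) * (pZ 0 δ)⁻¹ := by
    rw [mul_inv_rev, hJ, ← mul_assoc, mul_assoc (pZ 0 δ * JZ K), mul_inv_cancel, mul_one]
    exact congrArg (· * JZ K) hp
  refine ⟨JZ K * pZ 0 δ, ?_, ?_, pZ 0 δ, hinv⟩
  · apply Subtype.ext
    exact h13
  · intro m
    by_cases hm : m = 1
    · refine ⟨1, pZ 0 δ, ?_⟩
      rw [← hinv, hm, one_mul, inv_one, mul_one, mul_inv_cancel]
    · obtain ⟨y, p, hpP, hy⟩ := R1.conj_n (r1Z hK) hm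
      obtain ⟨t, d, rfl⟩ := (mem_PZ hK).1 hpP
      obtain ⟨a₁, t₁, d₁, a₂, t₂, d₂, h⟩ := hc t d
      have h' : JZ K * pZ t d = (tZ a₁ * pZ t₁ d₁) * (JZ K * pZ 0 δ) * (tZ a₁ * pZ t₁ d₁)⁻¹ * ((tZ a₂ * pZ t₂ d₂) * (JZ K * pZ 0 δ) * (tZ a₂ * pZ t₂ d₂)⁻¹) :=
        Subtype.ext h
      refine ⟨y⁻¹ * (tZ a₁ * pZ t₁ d₁), y⁻¹ * (tZ a₂ * pZ t₂ d₂), ?_⟩
      have h2 : m = y⁻¹ * (JZ K * pZ t d) * y := by
        rw [← hy]
        group
      rw [h2, h']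
      group
-- END dj

variable (K) in
/-- the unipotent subgroup of `SL_2(K)` -/
def PA : Subgroup (SL2 K) := Subgroup.closure {g | ∃ a : K, g = up a}

variable (K) in
/-- the torus of `SL_2(K)` -/
def TA : Subgroup (SL2 K) := Subgroup.closure {g | ∃ b : Kˣ, g = dg b}

variable (K) in
/-- the Weyl element of `SL_2(K)` -/
def nA : SL2 K := up 1 * lo (-1) * up 1

-- BEGIN dk
private theorem dk_ext {M N : SL2 K} (h0 : M.1 0 0 = N.1 0 0) (h1 : M.1 0 1 = N.1 0 1) (h2 : M.1 1 0 = N.1 1 0) (h3 : M.1 1 1 = N.1 1 1) : M = N := by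
  apply Subtype.ext
  ext i j
  fin_cases i <;> fin_cases j
  · exact h0
  · exact h1
  · exact h2
  · exact h3

/-- ROW dk. `up_add`, `up_inv`, `dg_mul` -/
theorem mem_PA {g : SL2 K} : g ∈ PA K ↔ ∃ a, g = up a := by
  constructor
  · intro h
    refine Subgroup.closure_induction (p := fun g _ => ∃ a : K, g = up a) ?_ ?_ ?_ ?_ h
    · rintro x ⟨a, rfl⟩
      exact ⟨a, rfl⟩
    · exact ⟨0, up_zero.symm⟩
    · rintro x y _ _ ⟨a, rfl⟩ ⟨b, rfl⟩
      exact ⟨a + b, (up_add a b).symm⟩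
    · rintro x _ ⟨a, rfl⟩
      exact ⟨-a, up_inv a⟩
  · rintro ⟨a, rfl⟩
    exact Subgroup.subset_closure ⟨a, rfl⟩

theorem mem_TA {g : SL2 K} : g ∈ TA K ↔ ∃ b, g = dg b := by
  constructor
  · intro h
    refine Subgroup.closure_induction (p := fun g _ => ∃ b : Kˣ, g = dg b) ?_ ?_ ?_ ?_ h
    · rintro x ⟨a, rfl⟩
      exact ⟨a, rfl⟩
    · exact ⟨1, dg_one.symm⟩
    · rintro x y _ _ ⟨a, rfl⟩ ⟨b, rfl⟩
      exact ⟨a * b, (dg_mul a b).symm⟩
    · rintro x _ ⟨a, rfl⟩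
      refine ⟨a⁻¹, ?_⟩
      rw [inv_eq_iff_mul_eq_one, ← dg_mul, mul_inv_cancel, dg_one]
  · rintro ⟨a, rfl⟩
    exact Subgroup.subset_closure ⟨a, rfl⟩

private theorem dk_dinv (b : Kˣ) : (dg b)⁻¹ = dg b⁻¹ := by
  rw [inv_eq_iff_mul_eq_one, ← dg_mul, mul_inv_cancel, dg_one]

private theorem dk_dud (b : Kˣ) (a : K) : dg b * up a * (dg b)⁻¹ = up ((b : K) * (b : K) * a) := by
  rw [dk_dinv]
  apply dk_ext <;> simp only [Matrix.SpecialLinearGroup.coe_mul, Matrix.mul_apply, Fin.sum_univ_two] <;> simp [dg, up]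
  ring

private theorem dk_nA : (nA K).1 = !![0, 1; -1, 0] := by
  have h : nA K = ⟨!![0, 1; -1, 0], by simp [Matrix.det_fin_two]⟩ := by
    apply dk_ext <;> simp only [nA, Matrix.SpecialLinearGroup.coe_mul, Matrix.mul_apply, Fin.sum_univ_two] <;> simp [up, lo]
  rw [h]

private theorem dk_neg (hK : Nat.card K = 8) (a : K) : -a = a := by
  linear_combination (-1 : K) * add8 hK a

private theorem dk_nn (hK : Nat.card K = 8) : nA K * nA K = 1 := by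
  have := dk_neg hK (1 : K)
  apply dk_ext <;> simp only [Matrix.SpecialLinearGroup.coe_mul, dk_nA, Matrix.mul_apply, Fin.sum_univ_two] <;> simp [this]

private theorem dk_ndn (hK : Nat.card K = 8) (b : Kˣ) : nA K * dg b * nA K = (dg b)⁻¹ := by
  have h := dk_neg hK
  rw [dk_dinv]
  apply dk_ext <;> simp only [Matrix.SpecialLinearGroup.coe_mul, dk_nA, Matrix.mul_apply, Fin.sum_univ_two] <;> simp [dg, h]

private theorem dk_nun (hK : Nat.card K = 8) (a : K) : nA K * up a * nA K = lo a := by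
  have h := dk_neg hK
  apply dk_ext <;> simp only [Matrix.SpecialLinearGroup.coe_mul, dk_nA, Matrix.mul_apply, Fin.sum_univ_two] <;> simp [up, lo, h]

private theorem dk_r0 (hK : Nat.card K = 8) (a : Kˣ) : lo (a : K) = up ((a⁻¹ : Kˣ) : K) * nA K * dg a * up ((a⁻¹ : Kˣ) : K) := by
  have h := dk_neg hK
  have h2 := add8 hK
  apply dk_ext <;> simp only [Matrix.SpecialLinearGroup.coe_mul, dk_nA, Matrix.mul_apply, Fin.sum_univ_two] <;> simp [up, lo, dg, h, h2]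

/-- `n_A = !![0, 1; -1, 0]` (`-1 = 1`); `n * up a * n = lo a = up a⁻¹ * n * dg a * up a⁻¹` (char 2, `a ≠ 0`); `sl2_gen` -/
theorem r1A (hK : Nat.card K = 8) : R1 (PA K) (TA K) (nA K) := by
  refine ⟨dk_nn hK, ?_, ?_, ?_, ?_, ?_, ?_, ?_, ?_⟩
  · intro t ht
    obtain ⟨b, rfl⟩ := mem_TA.1 ht
    exact dk_ndn hK b
  · intro t ht p hp
    obtain ⟨b, rfl⟩ := mem_TA.1 ht
    obtain ⟨a, rfl⟩ := mem_PA.1 hp
    exact mem_PA.2 ⟨_, dk_dud b a⟩
  · intro t ht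
    obtain ⟨b, rfl⟩ := mem_TA.1 ht
    refine ⟨dg (b ^ 4), mem_TA.2 ⟨_, rfl⟩, ?_⟩
    rw [← dg_mul, ← pow_add]
    congr 1
    calc b ^ (4 + 4) = b ^ 7 * b := by rw [← pow_succ]
      _ = b := by rw [unit7 hK, one_mul]
  · intro p hp h1
    obtain ⟨a, rfl⟩ := mem_PA.1 hp
    have ha : a ≠ 0 := by
      rintro rfl
      exact h1 up_zero
    refine ⟨up a⁻¹, mem_PA.2 ⟨_, rfl⟩, dg (Units.mk0 a ha), mem_TA.2 ⟨_, rfl⟩, up a⁻¹, mem_PA.2 ⟨_, rfl⟩, ?_⟩
    have := dk_r0 hK (Units.mk0 a ha)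
    rw [dk_nun hK]
    simpa using this
  · intro q hq t ht p hp h
    obtain ⟨c, rfl⟩ := mem_PA.1 hq
    obtain ⟨b, rfl⟩ := mem_TA.1 ht
    obtain ⟨a, rfl⟩ := mem_PA.1 hp
    rw [dk_nun hK] at h
    have e00 := congrArg (fun M : SL2 K => M.1 0 0) h
    have e01 := congrArg (fun M : SL2 K => M.1 0 1) h
    have e10 := congrArg (fun M : SL2 K => M.1 1 0) h
    simp only [Matrix.SpecialLinearGroup.coe_mul, Matrix.mul_apply, Fin.sum_univ_two] at e00 e01 e10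
    simp [up, lo, dg] at e00 e01 e10
    have hb : b = 1 := Units.ext (by simpa using e00)
    subst hb
    subst e01
    subst e10
    exact ⟨up_zero, dg_one, up_zero⟩
  · intro t ht h1
    obtain ⟨b, rfl⟩ := mem_TA.1 ht
    refine ⟨up 1, mem_PA.2 ⟨_, rfl⟩, ?_⟩
    intro h
    rw [dk_dud] at h
    have e01 := congrArg (fun M : SL2 K => M.1 0 1) h
    simp [up] at e01
    have hb2 : b ^ 2 = 1 := by
      apply Units.ext
      simpa [pow_two] using e01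
    apply h1
    have hb : b = 1 := by
      calc b = b ^ 7 * (b ^ 2)⁻¹ ^ 3 := by group
        _ = 1 := by rw [unit7 hK, hb2]; simp
    rw [hb, dg_one]
  · refine ⟨up 1, mem_PA.2 ⟨_, rfl⟩, ?_⟩
    intro h
    have e01 := congrArg (fun M : SL2 K => M.1 0 1) h
    simp [up] at e01
  · rw [eq_top_iff, ← sl2_gen, Subgroup.closure_le]
    rintro g ⟨a, rfl | rfl⟩
    · exact Subgroup.subset_closure (Or.inl (mem_PA.2 ⟨a, rfl⟩))
    · rw [← dk_nun hK]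
      exact Subgroup.mul_mem _ (Subgroup.mul_mem _ (Subgroup.subset_closure (Or.inr rfl)) (Subgroup.subset_closure (Or.inl (mem_PA.2 ⟨a, rfl⟩)))) (Subgroup.subset_closure (Or.inr rfl))
-- END dk

-- BEGIN dl
/-- ROW dl. `R1.val` with `t = 1`: `n * p * n = p' * n * 1 * p''`, so `n` is in the closure; then `R1.gen` -/
theorem R1.gen2 {S : Type*} [Group S] {P T : Subgroup S} {n : S} (h : R1 P T n) : Subgroup.closure ((P : Set S) ∪ {g | ∃ p ∈ P, g = n * p * n}) = ⊤ := by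
  obtain ⟨p, hp, p', hp', p'', hp'', e⟩ := h.val T.one_mem
  have e1 : n = p'⁻¹ * (n * p * n) * p''⁻¹ := by
    rw [e]
    group
  rw [eq_top_iff, ← h.gen, Subgroup.closure_le]
  rintro g (hg | hg)
  · exact Subgroup.subset_closure (Or.inl hg)
  · have hP : ∀ q ∈ P, q ∈ Subgroup.closure ((P : Set S) ∪ {g | ∃ p ∈ P, g = n * p * n}) := fun q hq => Subgroup.subset_closure (Or.inl hq)
    rw [Set.mem_singleton_iff.1 hg]
    show n ∈ Subgroup.closure ((P : Set S) ∪ {g | ∃ p ∈ P, g = n * p * n})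
    have h1 : p'⁻¹ * (n * p * n) * p''⁻¹ ∈ Subgroup.closure ((P : Set S) ∪ {g | ∃ p ∈ P, g = n * p * n}) :=
      Subgroup.mul_mem _ (Subgroup.mul_mem _ (hP _ (P.inv_mem hp')) (Subgroup.subset_closure (Or.inr ⟨p, hp, rfl⟩))) (hP _ (P.inv_mem hp''))
    rwa [← e1] at h1
-- END dl

end Pool.Agent.ThO2
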