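import Pool.Agent.ThO2.Ray
import Pool.Agent.ThR.Six
import Pool.Agent.ThK.Tor

/-! # The sixteen rays of `²F_4(8)` in `E_6(K)`: tables

The simple roots of `E_6` are `a₁, .., a₅` (a chain) and `a₆`, joined to `a₃`; node `A` of `²F_4`: `a₆`, `{a₅, a₁}`; node `B`: `a₃`, `{a₄, a₂}`.
-/

namespace Pool.Agent.ThO2

open ThE Pool.Agent.ThR

/-- the long roots -/
def vR : Fin 16 → Vec 6 := ![
  (0, ![0, 0, 1, -1, 0, 0]), (1, ![1, 1, 1, 0, 0, 0]), (1, ![1, 1, 0, 1, 0, 0]), (1, ![0, 1, 0, 1, 0, 1]),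
  (0, ![-1, 0, 0, 0, 0, 1]), (1, ![0, 0, 1, 0, 1, 1]), (1, ![1, 0, 1, 0, 1, 0]), (1, ![1, 0, 0, 1, 1, 0]),
  (0, ![0, 0, -1, 1, 0, 0]), (-1, ![-1, -1, -1, 0, 0, 0]), (-1, ![-1, -1, 0, -1, 0, 0]), (-1, ![0, -1, 0, -1, 0, -1]),
  (0, ![1, 0, 0, 0, 0, -1]), (-1, ![0, 0, -1, 0, -1, -1]), (-1, ![-1, 0, -1, 0, -1, 0]), (-1, ![-1, 0, 0, -1, -1, 0])]

/-- the first short roots -/
def vS : Fin 16 → Vec 6 := ![
  (0, ![0, 1, -1, 0, 0, 0]), (0, ![0, 0, 0, 0, -1, 1]), (0, ![0, 0, 0, -1, 0, 1]), (1, ![1, 0, 1, 0, 0, 1]),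
  (1, ![1, 1, 0, 0, 1, 0]), (1, ![1, 0, 0, 1, 0, 1]), (0, ![0, 0, -1, 0, 0, 1]), (0, ![0, -1, 0, 0, 0, 1]),
  (0, ![0, 0, 0, -1, 1, 0]), (0, ![1, -1, 0, 0, 0, 0]), (0, ![1, 0, -1, 0, 0, 0]), (-1, ![0, -1, -1, 0, -1, 0]),
  (-1, ![-1, 0, -1, -1, 0, 0]), (-1, ![0, -1, 0, -1, -1, 0]), (0, ![1, 0, 0, -1, 0, 0]), (0, ![1, 0, 0, 0, -1, 0])]

/-- the second short roots -/
def vB : Fin 16 → Vec 6 := ![
  (0, ![0, 0, 0, 1, -1, 0]), (0, ![-1, 1, 0, 0, 0, 0]), (0, ![-1, 0, 1, 0, 0, 0]), (1, ![0, 1, 1, 0, 1, 0]),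
  (1, ![1, 0, 1, 1, 0, 0]), (1, ![0, 1, 0, 1, 1, 0]), (0, ![-1, 0, 0, 1, 0, 0]), (0, ![-1, 0, 0, 0, 1, 0]),
  (0, ![0, -1, 1, 0, 0, 0]), (0, ![0, 0, 0, 0, 1, -1]), (0, ![0, 0, 0, 1, 0, -1]), (-1, ![-1, 0, -1, 0, 0, -1]),
  (-1, ![-1, -1, 0, 0, -1, 0]), (-1, ![-1, 0, 0, -1, 0, -1]), (0, ![0, 0, 1, 0, 0, -1]), (0, ![0, 1, 0, 0, 0, -1])]

theorem isvR : ∀ i, IsR (vR i) := by decide

theorem isvS : ∀ i, IsR (vS i) := by decide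

theorem isvB : ∀ i, IsR (vB i) := by decide

/-- the sums, for even rays -/
def vP (i : Fin 16) : Vec 6 := if (i : ℕ) % 2 = 0 then vR i + vS i else vR i

/-- the sums, for even rays -/
def vQ (i : Fin 16) : Vec 6 := if (i : ℕ) % 2 = 0 then vR i + vB i else vR i

theorem isvP : ∀ i, IsR (vP i) := by decide

theorem isvQ : ∀ i, IsR (vQ i) := by decide

/-- roots -/
def rR (i : Fin 16) : Root 6 := ⟨vR i, isvR i⟩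

/-- roots -/
def rS (i : Fin 16) : Root 6 := ⟨vS i, isvS i⟩

/-- roots -/
def rB (i : Fin 16) : Root 6 := ⟨vB i, isvB i⟩

/-- roots -/
def rP (i : Fin 16) : Root 6 := ⟨vP i, isvP i⟩

/-- roots -/
def rQ (i : Fin 16) : Root 6 := ⟨vQ i, isvQ i⟩

/-- the element of the Weyl group of node `A` -/
def wa (r : Root 6) : Root 6 := rf (rR 1) (rf (rS 1) (rf (rB 1) r))

/-- the element of the Weyl group of node `B` -/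
def wb (r : Root 6) : Root 6 := rf (rR 8) (rf (rB 8) (rf (rS 8) (rf (rR 8) (rf (rB 8) (rf (rS 8) r)))))

theorem wa_R : ∀ i, (wa (rR i)).1 = (rR (10 - i)).1 := by decide +kernel

theorem wb_R : ∀ i, (wb (rR i)).1 = (rR (8 - i)).1 := by decide +kernel

theorem wa_S : ∀ i, ((wa (rS i)).1 = (rS (10 - i)).1 ∧ (wa (rB i)).1 = (rB (10 - i)).1 ∧ (wa (rP i)).1 = (rP (10 - i)).1 ∧ (wa (rQ i)).1 = (rQ (10 - i)).1) ∨
    ((wa (rS i)).1 = (rB (10 - i)).1 ∧ (wa (rB i)).1 = (rS (10 - i)).1 ∧ (wa (rP i)).1 = (rQ (10 - i)).1 ∧ (wa (rQ i)).1 = (rP (10 - i)).1) := by decide +kernel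

theorem wb_S : ∀ i, ((wb (rS i)).1 = (rS (8 - i)).1 ∧ (wb (rB i)).1 = (rB (8 - i)).1 ∧ (wb (rP i)).1 = (rP (8 - i)).1 ∧ (wb (rQ i)).1 = (rQ (8 - i)).1) ∨
    ((wb (rS i)).1 = (rB (8 - i)).1 ∧ (wb (rB i)).1 = (rS (8 - i)).1 ∧ (wb (rP i)).1 = (rQ (8 - i)).1 ∧ (wb (rQ i)).1 = (rP (8 - i)).1) := by decide +kernel

/-- `x_s`, `x_s'` commute, and so do the last two factors -/
theorem bf_SB : ∀ i, bf (vS i) (vB i) = 0 ∧ ((i : ℕ) % 2 = 0 → bf (vP i) (vQ i) = 0) ∧ ((i : ℕ) % 2 = 1 → bf (vR i) (vS i) = 0 ∧ bf (vR i) (vB i) = 0) := by decide +kernel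

/-- the exponents of the torus elements of node `A` -/
def eA (v : Vec 6) : ℤ := bf (vR 1) v + 2 * bf (vS 1) v + 2 * bf (vB 1) v

/-- the exponents of the torus elements of node `B` -/
def eB (v : Vec 6) : ℤ := -bf (vS 8) v - 4 * bf (vR 8) v - bf (vB 8) v

theorem eA_ok : ∀ i : Fin 16, eA (vR i) % 7 = (ca i : ℤ) % 7 ∧ eA (vS i) % 7 = 2 * (ca i : ℤ) % 7 ∧ eA (vB i) % 7 = 2 * (ca i : ℤ) % 7 ∧
    ((i : ℕ) % 2 = 0 → eA (vP i) % 7 = 3 * (ca i : ℤ) % 7 ∧ eA (vQ i) % 7 = 3 * (ca i : ℤ) % 7) := by decide +kernel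

theorem eB_ok : ∀ i : Fin 16, eB (vR i) % 7 = (cb i : ℤ) % 7 ∧ eB (vS i) % 7 = 2 * (cb i : ℤ) % 7 ∧ eB (vB i) % 7 = 2 * (cb i : ℤ) % 7 ∧
    ((i : ℕ) % 2 = 0 → eB (vP i) % 7 = 3 * (cb i : ℤ) % 7 ∧ eB (vQ i) % 7 = 3 * (cb i : ℤ) % 7) := by decide +kernel

/-- the positive roots of `E_6` in the order of the rays -/
def pv : Fin 36 → Vec 6 := ![
  (0, ![-1, 1, 0, 0, 0, 0]), (0, ![0, 0, 0, 0, -1, 1]), (1, ![1, 1, 1, 0, 0, 0]), (0, ![-1, 0, 1, 0, 0, 0]),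
  (0, ![0, 0, 0, -1, 0, 1]), (1, ![1, 1, 0, 1, 0, 0]), (1, ![0, 1, 1, 1, 0, 0]), (1, ![1, 1, 0, 0, 0, 1]),
  (1, ![0, 1, 1, 0, 0, 1]), (1, ![0, 1, 1, 0, 1, 0]), (1, ![1, 0, 1, 0, 0, 1]), (1, ![0, 1, 0, 1, 0, 1]),
  (1, ![1, 0, 1, 1, 0, 0]), (1, ![1, 1, 0, 0, 1, 0]), (0, ![-1, 0, 0, 0, 0, 1]), (1, ![0, 0, 1, 1, 0, 1]),
  (1, ![0, 1, 0, 0, 1, 1]), (2, ![1, 1, 1, 1, 1, 1]), (1, ![0, 1, 0, 1, 1, 0]), (1, ![1, 0, 0, 1, 0, 1]),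
  (1, ![0, 0, 1, 0, 1, 1]), (0, ![-1, 0, 0, 1, 0, 0]), (0, ![0, 0, -1, 0, 0, 1]), (1, ![1, 0, 1, 0, 1, 0]),
  (1, ![0, 0, 1, 1, 1, 0]), (1, ![1, 0, 0, 0, 1, 1]), (1, ![0, 0, 0, 1, 1, 1]), (0, ![-1, 0, 0, 0, 1, 0]),
  (0, ![0, -1, 0, 0, 0, 1]), (1, ![1, 0, 0, 1, 1, 0]), (0, ![0, -1, 1, 0, 0, 0]), (0, ![0, 0, -1, 1, 0, 0]),
  (0, ![0, 0, 0, -1, 1, 0]), (0, ![0, -1, 0, 1, 0, 0]), (0, ![0, 0, -1, 0, 1, 0]), (0, ![0, -1, 0, 0, 1, 0])]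

theorem ispv : ∀ k, IsR (pv k) := by decide

/-- positive roots -/
def pr (k : Fin 36) : Root 6 := ⟨pv k, ispv k⟩

/-- the sums of positive roots (`36`: not a root) -/
def smT : List (List ℕ) := [
  [36, 36, 36, 36, 36, 36, 36, 36, 36, 36, 8, 36, 6, 36, 36, 36, 36, 36, 36, 11, 36, 36, 36, 9, 36, 16, 36, 36, 14, 18, 3, 36, 36, 21, 36, 27],
  [36, 36, 36, 36, 36, 36, 36, 36, 36, 8, 36, 36, 36, 7, 36, 36, 36, 36, 11, 36, 36, 36, 36, 10, 15, 36, 36, 14, 36, 19, 36, 36, 4, 36, 22, 28],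
  [36, 36, 36, 36, 36, 36, 36, 36, 36, 36, 36, 36, 36, 36, 8, 36, 36, 36, 36, 36, 36, 6, 7, 36, 36, 36, 17, 9, 10, 36, 36, 5, 36, 12, 13, 23],
  [36, 36, 36, 36, 36, 6, 36, 8, 36, 36, 36, 36, 36, 9, 36, 36, 36, 36, 36, 15, 36, 36, 14, 36, 36, 20, 36, 36, 36, 24, 36, 21, 36, 36, 27, 36],
  [36, 36, 36, 36, 36, 7, 8, 36, 36, 36, 36, 36, 10, 36, 36, 36, 36, 36, 16, 36, 36, 14, 36, 36, 20, 36, 36, 36, 36, 25, 36, 22, 36, 28, 36, 36],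
  [36, 36, 36, 6, 7, 36, 36, 36, 36, 36, 36, 36, 36, 36, 11, 36, 36, 36, 36, 36, 17, 36, 36, 36, 36, 36, 36, 18, 19, 36, 12, 36, 13, 36, 36, 29],
  [36, 36, 36, 36, 8, 36, 36, 36, 36, 36, 36, 36, 36, 36, 36, 36, 36, 36, 36, 36, 36, 36, 11, 36, 36, 17, 36, 36, 15, 36, 36, 36, 9, 36, 18, 24],
  [36, 36, 36, 8, 36, 36, 36, 36, 36, 36, 36, 36, 36, 36, 36, 36, 36, 36, 36, 36, 36, 11, 36, 36, 17, 36, 36, 16, 36, 36, 10, 36, 36, 19, 36, 25],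
  [36, 36, 36, 36, 36, 36, 36, 36, 36, 36, 36, 36, 36, 36, 36, 36, 36, 36, 36, 36, 36, 36, 36, 36, 36, 36, 36, 36, 36, 17, 36, 11, 36, 15, 16, 20],
  [36, 8, 36, 36, 36, 36, 36, 36, 36, 36, 36, 36, 36, 36, 36, 36, 36, 36, 36, 17, 36, 36, 16, 36, 36, 36, 36, 36, 20, 36, 36, 18, 36, 24, 36, 36],
  [8, 36, 36, 36, 36, 36, 36, 36, 36, 36, 36, 36, 36, 36, 36, 36, 36, 36, 17, 36, 36, 15, 36, 36, 36, 36, 36, 20, 36, 36, 36, 19, 36, 36, 25, 36],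
  [36, 36, 36, 36, 36, 36, 36, 36, 36, 36, 36, 36, 36, 36, 36, 36, 36, 36, 36, 36, 36, 36, 36, 17, 36, 36, 36, 36, 36, 36, 15, 36, 16, 36, 36, 26],
  [6, 36, 36, 36, 10, 36, 36, 36, 36, 36, 36, 36, 36, 36, 15, 36, 17, 36, 36, 36, 36, 36, 19, 36, 36, 36, 36, 24, 36, 36, 36, 36, 23, 36, 29, 36],
  [36, 7, 36, 9, 36, 36, 36, 36, 36, 36, 36, 36, 36, 36, 16, 17, 36, 36, 36, 36, 36, 18, 36, 36, 36, 36, 36, 36, 25, 36, 23, 36, 36, 29, 36, 36],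
  [36, 36, 8, 36, 36, 11, 36, 36, 36, 36, 36, 36, 15, 16, 36, 36, 36, 36, 36, 36, 36, 36, 36, 20, 36, 36, 36, 36, 36, 26, 36, 36, 36, 36, 36, 36],
  [36, 36, 36, 36, 36, 36, 36, 36, 36, 36, 36, 36, 36, 17, 36, 36, 36, 36, 36, 36, 36, 36, 36, 36, 36, 36, 36, 36, 36, 36, 36, 36, 20, 36, 26, 36],
  [36, 36, 36, 36, 36, 36, 36, 36, 36, 36, 36, 36, 17, 36, 36, 36, 36, 36, 36, 36, 36, 36, 36, 36, 36, 36, 36, 36, 36, 36, 20, 36, 36, 26, 36, 36],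
  [36, 36, 36, 36, 36, 36, 36, 36, 36, 36, 36, 36, 36, 36, 36, 36, 36, 36, 36, 36, 36, 36, 36, 36, 36, 36, 36, 36, 36, 36, 36, 36, 36, 36, 36, 36],
  [36, 11, 36, 36, 16, 36, 36, 36, 36, 36, 17, 36, 36, 36, 36, 36, 36, 36, 36, 36, 36, 36, 36, 36, 36, 36, 36, 36, 26, 36, 24, 36, 36, 36, 36, 36],
  [11, 36, 36, 15, 36, 36, 36, 36, 36, 17, 36, 36, 36, 36, 36, 36, 36, 36, 36, 36, 36, 36, 36, 36, 36, 36, 36, 26, 36, 36, 36, 36, 25, 36, 36, 36],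
  [36, 36, 36, 36, 36, 17, 36, 36, 36, 36, 36, 36, 36, 36, 36, 36, 36, 36, 36, 36, 36, 36, 36, 36, 36, 36, 36, 36, 36, 36, 36, 26, 36, 36, 36, 36],
  [36, 36, 6, 36, 14, 36, 36, 11, 36, 36, 15, 36, 36, 18, 36, 36, 36, 36, 36, 36, 36, 36, 36, 24, 36, 26, 36, 36, 36, 36, 36, 36, 27, 36, 36, 36],
  [36, 36, 7, 14, 36, 36, 11, 36, 36, 16, 36, 36, 19, 36, 36, 36, 36, 36, 36, 36, 36, 36, 36, 25, 26, 36, 36, 36, 36, 36, 28, 36, 36, 36, 36, 36],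
  [9, 10, 36, 36, 36, 36, 36, 36, 36, 36, 36, 17, 36, 36, 20, 36, 36, 36, 36, 36, 36, 24, 25, 36, 36, 36, 36, 36, 36, 36, 36, 29, 36, 36, 36, 36],
  [36, 15, 36, 36, 20, 36, 36, 17, 36, 36, 36, 36, 36, 36, 36, 36, 36, 36, 36, 36, 36, 36, 26, 36, 36, 36, 36, 36, 36, 36, 36, 36, 36, 36, 36, 36],
  [16, 36, 36, 20, 36, 36, 17, 36, 36, 36, 36, 36, 36, 36, 36, 36, 36, 36, 36, 36, 36, 26, 36, 36, 36, 36, 36, 36, 36, 36, 36, 36, 36, 36, 36, 36],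
  [36, 36, 17, 36, 36, 36, 36, 36, 36, 36, 36, 36, 36, 36, 36, 36, 36, 36, 36, 36, 36, 36, 36, 36, 36, 36, 36, 36, 36, 36, 36, 36, 36, 36, 36, 36],
  [36, 14, 9, 36, 36, 18, 36, 16, 36, 36, 20, 36, 24, 36, 36, 36, 36, 36, 36, 26, 36, 36, 36, 36, 36, 36, 36, 36, 36, 36, 36, 36, 36, 36, 36, 36],
  [14, 36, 10, 36, 36, 19, 15, 36, 36, 20, 36, 36, 36, 25, 36, 36, 36, 36, 26, 36, 36, 36, 36, 36, 36, 36, 36, 36, 36, 36, 36, 36, 36, 36, 36, 36],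
  [18, 19, 36, 24, 25, 36, 36, 36, 17, 36, 36, 36, 36, 36, 26, 36, 36, 36, 36, 36, 36, 36, 36, 36, 36, 36, 36, 36, 36, 36, 36, 36, 36, 36, 36, 36],
  [3, 36, 36, 36, 36, 12, 36, 10, 36, 36, 36, 15, 36, 23, 36, 36, 20, 36, 24, 36, 36, 36, 28, 36, 36, 36, 36, 36, 36, 36, 36, 33, 36, 36, 35, 36],
  [36, 36, 5, 21, 22, 36, 36, 36, 11, 18, 19, 36, 36, 36, 36, 36, 36, 36, 36, 36, 26, 36, 36, 29, 36, 36, 36, 36, 36, 36, 33, 36, 34, 36, 36, 36],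
  [36, 4, 36, 36, 36, 13, 9, 36, 36, 36, 36, 16, 23, 36, 36, 20, 36, 36, 36, 25, 36, 27, 36, 36, 36, 36, 36, 36, 36, 36, 36, 34, 36, 35, 36, 36],
  [21, 36, 12, 36, 28, 36, 36, 19, 15, 24, 36, 36, 36, 29, 36, 36, 26, 36, 36, 36, 36, 36, 36, 36, 36, 36, 36, 36, 36, 36, 36, 36, 35, 36, 36, 36],
  [36, 22, 13, 27, 36, 36, 18, 36, 16, 36, 25, 36, 29, 36, 36, 26, 36, 36, 36, 36, 36, 36, 36, 36, 36, 36, 36, 36, 36, 36, 35, 36, 36, 36, 36, 36],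
  [27, 28, 23, 36, 36, 29, 24, 25, 20, 36, 36, 26, 36, 36, 36, 36, 36, 36, 36, 36, 36, 36, 36, 36, 36, 36, 36, 36, 36, 36, 36, 36, 36, 36, 36, 36]]

/-- the sum of two positive roots -/
def sm (a b : Fin 36) : Option (Fin 36) := if h : (smT.getD a []).getD b 36 < 36 then some ⟨_, h⟩ else none

/-- the check of the table -/
def smc (a b : Fin 36) : Bool := match sm a b with
  | some c => decide (pv c = pv a + pv b)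
  | none => decide (0 ≤ bf (pv a) (pv b))

set_option maxRecDepth 100000 in
theorem sm_ok : ∀ a b : Fin 36, smc a b = true := by decide +kernel

/-- multiply the sorted word `w` with the letter `a` (with fuel) -/
def ins : ℕ → Fin 36 → List (Fin 36) → List (Fin 36)
  | 0, a, w => a :: w
  | _ + 1, a, [] => [a]
  | n + 1, a, b :: w => if a < b then a :: b :: w else if a = b then w else match sm a b with
    | some c => b :: ins n a (ins n c w)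
    | none => b :: ins n a w

/-- the normal form of a word -/
def nrm (w : List (Fin 36)) : List (Fin 36) := w.foldr (ins 200) []

/-- the word of `e i 1`, `i = 1, .., 8` -/
def wd : ℕ → List (Fin 36)
  | 1 => [2, 1, 0]
  | 2 => [5, 4, 3, 7, 6]
  | 3 => [11, 10, 9]
  | 4 => [14, 13, 12, 16, 15]
  | 5 => [20, 19, 18]
  | 6 => [23, 22, 21, 25, 24]
  | 7 => [29, 28, 27]
  | _ => [31, 32, 30, 34, 33]

/-- the word of a product -/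
def wds (l : List ℕ) : List (Fin 36) := (l.map wd).flatten

/-- the word of the commutator -/
def cwd (i j : ℕ) : List (Fin 36) := wd i ++ wd j ++ (wd i).reverse ++ (wd j).reverse

/-- the base pairs `i, j` and the commutators `[e i 1, e j 1]` as products of the `e k 1`, `i < k < j` -/
def tabE : List (ℕ × ℕ × List ℕ) := [(1, 2, []), (1, 3, []), (1, 4, [2, 2]), (1, 5, []), (1, 6, [2, 2, 3, 4, 4]), (1, 7, [3, 5]), (1, 8, [2, 3, 4, 4, 4, 5, 6, 6, 7]), (2, 4, [3]), (2, 6, []), (2, 8, [3, 4, 4, 4, 6, 7])]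

theorem tabE_ok : ∀ q ∈ tabE, nrm (cwd q.1 q.2.1) = nrm (wds q.2.2) := by decide +kernel

theorem wd_ok : ∀ i : Fin 16, 1 ≤ i → i ≤ 8 → (wd i).map pv = [vR i, vS i, vB i] ++ (if (i : ℕ) % 2 = 0 then [vP i, vQ i] else []) := by decide +kernel

end Pool.Agent.ThO2
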